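import Pool.Agent.PRC.Defs

/-!
# PRC: simple facts which may be used by all parts
-/

set_option autoImplicit false

open MeasureTheory
open scoped Classical

namespace Pool.Agent.PRC

open TRP (bern law)

/-! ## Product measures -/

theorem bern_prob {p : ℝ} (h0 : 0 ≤ p) (h1 : p ≤ 1) : IsProbabilityMeasure (bern p) := by
  constructor
  unfold bern
  simp only [Measure.coe_add, Measure.coe_smul, Pi.add_apply, Pi.smul_apply, measure_univ,
    smul_eq_mul, mul_one]
  rw [← ENNReal.ofReal_add h0 (by linarith)]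
  simp

theorem law_prob {I : Type} {q : I → ℝ} (h : ∀ i, 0 ≤ q i ∧ q i ≤ 1) :
    IsProbabilityMeasure (law q) := by
  have : ∀ i, IsProbabilityMeasure (bern (q i)) := fun i => bern_prob (h i).1 (h i).2
  unfold law
  infer_instance

theorem Dep.mono {I : Type} {J K : Set I} {A : Set (I → Bool)} (h : Dep J A) (hJK : J ⊆ K) :
    Dep K A := fun ω ω' hω => h ω ω' fun i hi => hω i (hJK hi)

theorem Dep.compl {I : Type} {J : Set I} {A : Set (I → Bool)} (h : Dep J A) : Dep J Aᶜ :=
  fun ω ω' hω => not_congr (h ω ω' hω)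

theorem Dep.inter {I : Type} {J : Set I} {A B : Set (I → Bool)} (h : Dep J A) (h' : Dep J B) :
    Dep J (A ∩ B) := fun ω ω' hω => and_congr (h ω ω' hω) (h' ω ω' hω)

theorem Dep.union {I : Type} {J : Set I} {A B : Set (I → Bool)} (h : Dep J A) (h' : Dep J B) :
    Dep J (A ∪ B) := fun ω ω' hω => or_congr (h ω ω' hω) (h' ω ω' hω)

/-- an event which depends on finitely many coordinates is measurable -/
theorem Dep.meas {I : Type} {F : Finset I} {A : Set (I → Bool)} (h : Dep (↑F : Set I) A) :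
    MeasurableSet A := by
  have : A = (F.restrict : (I → Bool) → (F → Bool)) ⁻¹' (F.restrict '' A) := by
    ext ω
    constructor
    · intro hω
      exact ⟨ω, hω, rfl⟩
    · rintro ⟨ω', hω', he⟩
      refine (h ω' ω ?_).1 hω'
      intro i hi
      exact congrFun he ⟨i, hi⟩
  rw [this]
  exact (Finset.measurable_restrict F) (Set.toFinite _).measurableSet

/-- a function of finitely many coordinates is measurable -/
theorem meas_of_fin {I S : Type} [MeasurableSpace S] {F : Finset I} {f : (I → Bool) → S}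
    (h : ∀ ω ω' : I → Bool, (∀ i ∈ F, ω i = ω' i) → f ω = f ω') : Measurable f := by
  intro B _
  have : Dep (↑F : Set I) (f ⁻¹' B) := by
    intro ω ω' hω
    have := h ω ω' (fun i hi => hω i (Finset.mem_coe.2 hi))
    simp only [Set.mem_preimage, this]
  exact this.meas

/-! ## Connections -/

theorem Lk.succ {V : Type} {adj : V → V → Prop} {D : Set V} {n : ℕ} {u v : V}
    (h : Lk adj D n u v) : Lk adj D (n + 1) u v := Or.inl h

theorem Lk.mono {V : Type} {adj : V → V → Prop} {D : Set V} {n m : ℕ} {u v : V} (hnm : n ≤ m)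
    (h : Lk adj D n u v) : Lk adj D m u v := by
  induction m, hnm using Nat.le_induction with
  | base => exact h
  | succ m _ ih => exact ih.succ

theorem Lk.refl {V : Type} {adj : V → V → Prop} {D : Set V} (n : ℕ) (u : V) :
    Lk adj D n u u := Lk.mono (Nat.zero_le n) (show Lk adj D 0 u u from rfl)

theorem Lk.sub {V : Type} {adj : V → V → Prop} {D D' : Set V} (hD : D ⊆ D') {n : ℕ} {u v : V}
    (h : Lk adj D n u v) : Lk adj D' n u v := by
  induction n generalizing v with
  | zero => exact h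
  | succ n ih =>
    rcases h with h | ⟨w, h1, h2, h3⟩
    · exact Or.inl (ih h)
    · exact Or.inr ⟨w, ih h1, h2, hD h3⟩

theorem Lk.trans {V : Type} {adj : V → V → Prop} {D : Set V} {n m : ℕ} {u v w : V}
    (h : Lk adj D n u v) (h' : Lk adj D m v w) : Lk adj D (n + m) u w := by
  induction m generalizing w with
  | zero => exact (show v = w from h') ▸ h
  | succ m ih =>
    rcases h' with h' | ⟨x, h1, h2, h3⟩
    · exact Or.inl (ih h')
    · exact Or.inr ⟨x, ih h1, h2, h3⟩

/-- one step -/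
theorem Lk.one {V : Type} {adj : V → V → Prop} {D : Set V} {u v : V} (h : adj u v) (hv : v ∈ D) :
    Lk adj D 1 u v := Or.inr ⟨u, rfl, h, hv⟩

/-- the end is the start or in `D` -/
theorem Lk.end_mem {V : Type} {adj : V → V → Prop} {D : Set V} {n : ℕ} {u v : V}
    (h : Lk adj D n u v) : u = v ∨ v ∈ D := by
  induction n with
  | zero => exact Or.inl h
  | succ n ih =>
    rcases h with h | ⟨w, _, _, h3⟩
    · exact ih h
    · exact Or.inr h3

theorem Lk.symm {V : Type} {adj : V → V → Prop} (hs : ∀ a b, adj a b → adj b a) {D : Set V}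
    {n : ℕ} {u v : V} (hu : u ∈ D) (h : Lk adj D n u v) : Lk adj D n v u := by
  induction n generalizing v with
  | zero => exact (show u = v from h).symm
  | succ n ih =>
    rcases h with h | ⟨w, h1, h2, _⟩
    · exact (ih h).succ
    · have hw : w ∈ D := by
        rcases h1.end_mem with h | h
        · exact h ▸ hu
        · exact h
      have := (Lk.one (hs _ _ h2) hw).trans (ih h1)
      rwa [add_comm] at this

/-- steps in `D` between reachable vertices -/
theorem Lk.rc {V : Type} {adj : V → V → Prop} {D : Set V} {n : ℕ} {u v : V}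
    (h : Lk adj D n u v) : v ∈ Rc adj D {u} := by
  refine ⟨u, rfl, ?_⟩
  induction n generalizing v with
  | zero => exact (show u = v from h) ▸ Relation.ReflTransGen.refl
  | succ n ih =>
    rcases h with h | ⟨w, h1, h2, h3⟩
    · exact ih h
    · exact (ih h1).tail ⟨h2, h3⟩

theorem Rc.lk {V : Type} {adj : V → V → Prop} {D S : Set V} {v : V} (h : v ∈ Rc adj D S) :
    ∃ u ∈ S, ∃ n, Lk adj D n u v := by
  obtain ⟨u, hu, h⟩ := h
  refine ⟨u, hu, ?_⟩
  induction h with
  | refl => exact ⟨0, rfl⟩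
  | tail _ h2 ih =>
    obtain ⟨n, hn⟩ := ih
    exact ⟨n + 1, Or.inr ⟨_, hn, h2.1, h2.2⟩⟩

theorem Rc.self {V : Type} {adj : V → V → Prop} {D S : Set V} {v : V} (h : v ∈ S) :
    v ∈ Rc adj D S := ⟨v, h, Relation.ReflTransGen.refl⟩

theorem Rc.step {V : Type} {adj : V → V → Prop} {D S : Set V} {v w : V} (h : v ∈ Rc adj D S)
    (ha : adj v w) (hw : w ∈ D) : w ∈ Rc adj D S := by
  obtain ⟨u, hu, h⟩ := h
  exact ⟨u, hu, h.tail ⟨ha, hw⟩⟩

theorem Rc.mono {V : Type} {adj : V → V → Prop} {D D' S S' : Set V} (hD : D ⊆ D') (hS : S ⊆ S') :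
    Rc adj D S ⊆ Rc adj D' S' := by
  rintro v ⟨u, hu, h⟩
  refine ⟨u, hS hu, ?_⟩
  induction h with
  | refl => exact Relation.ReflTransGen.refl
  | tail _ h2 ih => exact ih.tail ⟨h2.1, hD h2.2⟩

/-- a set which contains the start set and is closed under steps contains everything -/
theorem Rc.sub_of_closed {V : Type} {adj : V → V → Prop} {D S T : Set V} (hS : S ⊆ T)
    (hT : ∀ a ∈ T, ∀ b ∈ D, adj a b → b ∈ T) : Rc adj D S ⊆ T := by
  rintro v ⟨u, hu, h⟩
  induction h with
  | refl => exact hS hu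
  | tail _ h2 ih => exact hT _ ih _ h2.2 h2.1

theorem Rc.sub_union {V : Type} {adj : V → V → Prop} {D S : Set V} : Rc adj D S ⊆ S ∪ D :=
  Rc.sub_of_closed Set.subset_union_left fun _ _ _ hb _ => Or.inr hb

/-! ## The lattice -/

theorem sg_sq (b : Bool) : sg b * sg b = 1 := by cases b <;> simp [sg]

theorem sg_abs (b : Bool) : |sg b| = 1 := by cases b <;> simp [sg]

theorem sg_not (b : Bool) : sg (!b) = -sg b := by cases b <;> simp [sg]

theorem dv_not {d : ℕ} (e : Dir d) : dv (e.1, !e.2) = -dv e := by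
  unfold dv
  rw [sg_not, Pi.single_neg]

theorem dv_self {d : ℕ} (e : Dir d) : dv e e.1 = sg e.2 := by simp [dv]

theorem dv_ne {d : ℕ} (e : Dir d) {j : Fin d} (h : j ≠ e.1) : dv e j = 0 := by simp [dv, h]

theorem Adj.symm {d : ℕ} {x y : Zd d} (h : Adj x y) : Adj y x := by
  obtain ⟨e, rfl⟩ := h
  exact ⟨(e.1, !e.2), by rw [dv_not]; simp⟩

theorem adj_symm {d : ℕ} : ∀ x y : Zd d, Adj x y → Adj y x := fun _ _ h => h.symm

theorem mem_Bx {d : ℕ} {x z : Zd d} {n : ℕ} : x ∈ Bx z n ↔ ∀ i, |x i - z i| ≤ n := by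
  unfold Bx
  rw [Finset.mem_Icc]
  simp only [Pi.le_def, abs_le]
  constructor
  · rintro ⟨h1, h2⟩ i
    have := h1 i
    have := h2 i
    constructor <;> linarith
  · intro h
    constructor
    · intro i
      have := (h i).1
      linarith
    · intro i
      have := (h i).2
      linarith

theorem mem_Bx_zero {d : ℕ} {x : Zd d} {n : ℕ} : x ∈ Bx (0 : Zd d) n ↔ ∀ i, |x i| ≤ n := by
  rw [mem_Bx]
  simp

theorem Bx_card {d : ℕ} (z : Zd d) (n : ℕ) : (Bx z n).card = (2 * n + 1) ^ d := by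
  unfold Bx
  rw [Pi.card_Icc]
  have : ∀ i, (Finset.Icc (z i - n) (z i + n)).card = 2 * n + 1 := by
    intro i
    rw [Int.card_Icc]
    omega
  simp [this]

theorem nm_le {d : ℕ} {x : Zd d} {n : ℕ} : nm x ≤ n ↔ ∀ i, |x i| ≤ n := by
  unfold nm
  rw [Finset.sup_le_iff]
  constructor
  · intro h i
    have := h i (Finset.mem_univ i)
    rw [Int.abs_eq_natAbs]
    exact_mod_cast this
  · intro h i _
    have := h i
    rw [Int.abs_eq_natAbs] at this
    exact_mod_cast this

theorem abs_le_nm {d : ℕ} (x : Zd d) (i : Fin d) : |x i| ≤ nm x := nm_le.1 le_rfl i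

theorem nm_add {d : ℕ} (x y : Zd d) : nm (x + y) ≤ nm x + nm y := by
  rw [nm_le]
  intro i
  have h1 := abs_le_nm x i
  have h2 := abs_le_nm y i
  have := abs_add_le (x i) (y i)
  push_cast
  rw [Pi.add_apply]
  linarith

theorem nm_neg {d : ℕ} (x : Zd d) : nm (-x) = nm x := by
  unfold nm
  simp

theorem mem_Bx_iff_nm {d : ℕ} {x z : Zd d} {n : ℕ} : x ∈ Bx z n ↔ nm (x - z) ≤ n := by
  rw [mem_Bx, nm_le]
  rfl

theorem mem_bdy {d : ℕ} {R : Finset (Zd d)} {x : Zd d} :
    x ∈ bdy R ↔ (∃ y ∈ R, Adj y x) ∧ x ∉ R := by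
  unfold bdy nbr Adj
  simp only [Finset.mem_sdiff, Finset.mem_biUnion, Finset.mem_image, Finset.mem_univ, true_and]
  constructor
  · rintro ⟨⟨y, hy, e, he⟩, h⟩
    exact ⟨⟨y, hy, e, he.symm⟩, h⟩
  · rintro ⟨⟨y, hy, e, he⟩, h⟩
    exact ⟨⟨y, hy, e, he.symm⟩, h⟩

end Pool.Agent.PRC
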