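import Pool.Agent.TRP.Defs

/-!
# PRC: percolation input for MP_1c0486_pr. Definitions

Site percolation on `Fin d → ℤ`, `true` is open. Full context: `Pool/Agent/PRC/Blueprint.md`.
`law q` is the product measure with `law q {ω i = true} = q i`.
-/

set_option autoImplicit false

open MeasureTheory
open scoped Classical

namespace Pool.Agent.PRC

open TRP (bern law)

noncomputable section

/-! ## Events -/

/-- the event depends only on the coordinates in `J` -/
def Dep {I : Type} (J : Set I) (A : Set (I → Bool)) : Prop :=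
  ∀ ω ω' : I → Bool, (∀ i ∈ J, ω i = ω' i) → (ω ∈ A ↔ ω' ∈ A)

/-- decreasing events -/
def Dec {I : Type} (A : Set (I → Bool)) : Prop :=
  ∀ ω ω' : I → Bool, (∀ i, ω i = true → ω' i = true) → ω' ∈ A → ω ∈ A

/-- the configuration which is `ω` on `J` and `ω'` outside `J` -/
def mrg {I : Type} (J : Set I) (ω ω' : I → Bool) : I → Bool := fun i => if i ∈ J then ω i else ω' i

/-! ## Connections -/

/-- the vertices reached from `S` by steps to vertices of `D` -/
def Rc {V : Type} (adj : V → V → Prop) (D S : Set V) : Set V :=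
  {v | ∃ u ∈ S, Relation.ReflTransGen (fun a b => adj a b ∧ b ∈ D) u v}

/-- `v` is reached from `u` by at most `n` steps to vertices of `D` -/
def Lk {V : Type} (adj : V → V → Prop) (D : Set V) : ℕ → V → V → Prop
  | 0, u, v => u = v
  | n + 1, u, v => Lk adj D n u v ∨ ∃ w, Lk adj D n u w ∧ adj w v ∧ v ∈ D

/-! ## The lattice -/

/-- the lattice -/
abbrev Zd (d : ℕ) : Type := Fin d → ℤ

/-- directions: a coordinate and a sign, `true` is plus -/
abbrev Dir (d : ℕ) : Type := Fin d × Bool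

/-- sign -/
def sg (b : Bool) : ℤ := if b then 1 else -1

/-- unit vectors -/
def dv {d : ℕ} (e : Dir d) : Zd d := Pi.single e.1 (sg e.2)

/-- nearest neighbours -/
def Adj {d : ℕ} (x y : Zd d) : Prop := ∃ e : Dir d, y = x + dv e

/-- sup norm -/
def nm {d : ℕ} (x : Zd d) : ℕ := Finset.univ.sup fun i => (x i).natAbs

/-- ball of the sup norm -/
def Bx {d : ℕ} (x : Zd d) (n : ℕ) : Finset (Zd d) :=
  Finset.Icc (fun i => x i - n) (fun i => x i + n)

/-- open sites -/
def Op {V : Type} (ω : V → Bool) : Set V := {x | ω x = true}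

/-- the cluster of `x` is infinite -/
def InfC {d : ℕ} (ω : Zd d → Bool) (x : Zd d) : Prop :=
  ω x = true ∧ (Rc Adj (Op ω) {x}).Infinite

/-- percolation probability -/
def theta (d : ℕ) (p : ℝ) : ℝ := (law fun _ : Zd d => p).real {ω | InfC ω 0}

/-- the points of the sphere of radius `n` reached from the start set `S` inside the ball, when `D`
is the set of open sites -/
def Us {d : ℕ} (S : Finset (Zd d)) (n : ℕ) (D : Set (Zd d)) : Finset (Zd d) :=
  (Bx 0 n).filter fun x => (∃ i, |x i| = n) ∧ x ∈ Rc Adj (↑(Bx (0 : Zd d) n) ∩ D) ↑S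

/-- quadrants of facets of the sphere of radius `n` -/
def Qd {d : ℕ} (n : ℕ) (e : Dir d) (σ : Fin d → Bool) : Finset (Zd d) :=
  (Bx 0 n).filter fun x => x e.1 = sg e.2 * n ∧ ∀ j, j ≠ e.1 → 0 ≤ sg (σ j) * x j

/-- the centre of the pad beyond `x` -/
def pc {d : ℕ} (m : ℕ) (e : Dir d) (x : Zd d) : Zd d := x + ((m : ℤ) + 1) • dv e

/-- the pad beyond `x` -/
def pd {d : ℕ} (m : ℕ) (e : Dir d) (x : Zd d) : Finset (Zd d) := Bx (pc m e x) m

/-- Grimmett-Marstrand estimate: every quadrant of a facet of `B(n)` contains with probability at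
least `1 - η` a point joined to `B(m)` in `B(n)` (layer `false`, density `p0`) with an open pad
(layer `true`, density `δ`) -/
def GMh (d : ℕ) (p0 δ η : ℝ) (m n : ℕ) : Prop := ∀ (e : Dir d) (σ : Fin d → Bool),
  (law fun x : Zd d × Bool => if x.2 then δ else p0).real
    {ω | ¬ ∃ x ∈ Qd n e σ, x ∈ Rc Adj (↑(Bx (0 : Zd d) n) ∩ {y | ω (y, false) = true})
      ↑(Bx (0 : Zd d) m) ∧ ∀ y ∈ pd m e x, ω (y, true) = true} ≤ η

/-! ## Layers -/

/-- classes of links: block modulo 7, direction -/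
abbrev Cl (d : ℕ) : Type := (Fin d → ZMod 7) × Dir d

/-- layers: `none` is the base layer, `some none` the root layer, `some (some (true, c))` the
sprinkling layer and `some (some (false, c))` the pad layer of the class `c` -/
abbrev Ly (d : ℕ) : Type := Option (Option (Bool × Cl d))

/-- sprinkling layer -/
def ls {d : ℕ} (c : Cl d) : Ly d := some (some (true, c))

/-- pad layer -/
def lp {d : ℕ} (c : Cl d) : Ly d := some (some (false, c))

/-- densities -/
def dens (d : ℕ) (p0 δ δr : ℝ) (x : Zd d × Ly d) : ℝ :=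
  if x.2 = none then p0 else if x.2 = some none then δr else δ

/-- a site is open if it is open in some layer -/
def orr {d : ℕ} (ω : Zd d × Ly d → Bool) (x : Zd d) : Bool := decide (∃ l, ω (x, l) = true)

/-- sites open in a layer different from the root layer -/
def Opn {d : ℕ} (ω : Zd d × Ly d → Bool) : Set (Zd d) := {x | ∃ l, l ≠ some none ∧ ω (x, l) = true}

/-! ## One exploration step -/

/-- neighbours -/
def nbr {d : ℕ} (x : Zd d) : Finset (Zd d) := Finset.univ.image fun e : Dir d => x + dv e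

/-- outer boundary -/
def bdy {d : ℕ} (R : Finset (Zd d)) : Finset (Zd d) := R.biUnion nbr \ R

/-- the boundary points of `R` in `B(z,n)` which are open in the layer `b` -/
def frt {d : ℕ} {Λ : Type} (R : Finset (Zd d)) (z : Zd d) (n : ℕ) (b : Λ)
    (ω : Zd d × Λ → Bool) : Finset (Zd d) :=
  (bdy R ∩ Bx z n).filter fun y => ω (y, b) = true

/-- the set `R` with the new sites: `frt` and its cluster in the layer `a`, inside `B(z,n)`, outside
`R` and its boundary -/
def gro {d : ℕ} {Λ : Type} (R : Finset (Zd d)) (z : Zd d) (n : ℕ) (a b : Λ)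
    (ω : Zd d × Λ → Bool) : Finset (Zd d) :=
  R ∪ (Bx z n).filter fun y =>
    y ∈ Rc Adj {y | y ∈ Bx z n ∧ y ∉ R ∧ y ∉ bdy R ∧ ω (y, a) = true} ↑(frt R z n b ω)

/-! ## Exploration of blocks -/

/-- class of a link -/
def cls {d : ℕ} (u : Zd d) (e : Dir d) : Cl d := (fun i => (u i : ZMod 7), e)

/-- length of a step and side of the blocks -/
def NN (m n : ℕ) : ℕ := n + m + 1

/-- the reference point of the block `u` -/
def bc {d : ℕ} (m n : ℕ) (u : Zd d) : Zd d := (NN m n : ℤ) • u

/-- the region of the block `u` -/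
def rg {d : ℕ} (m n : ℕ) (u : Zd d) : Finset (Zd d) := Bx (bc m n u) (3 * NN m n)

/-- steering: `true` (plus) in the coordinates where `z` is smaller than `c` -/
def ste {d : ℕ} (z c : Zd d) : Fin d → Bool := fun l => decide (z l < c l)

/-- a link in the schedule: round, block, direction -/
abbrev Ln (d : ℕ) : Type := ℕ × Zd d × Dir d

/-- state of the exploration -/
@[ext]
structure St (d : ℕ) where
  /-- explored open sites -/
  R : Finset (Zd d)
  /-- reached blocks -/
  C : Finset (Zd d)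
  /-- examined blocks -/
  E : Finset (Zd d)
  /-- centres of the reached blocks -/
  cen : Zd d → Zd d
  /-- links which have been tried -/
  trd : Finset (Ln d)

/-- the new explored set, without the pad -/
def grs {d : ℕ} (n : ℕ) (s : St d) (u : Zd d) (e : Dir d) (ω : Zd d × Ly d → Bool) :
    Finset (Zd d) :=
  gro s.R (s.cen u) n none (ls (cls u e)) ω

/-- the possible points `x` of the step -/
def sgd {d : ℕ} (m n : ℕ) (s : St d) (u : Zd d) (e : Dir d) (ω : Zd d × Ly d → Bool)
    (x : Zd d) : Prop :=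
  x ∈ grs n s u e ω ∧ x - s.cen u ∈ Qd n e (ste (s.cen u) (bc m n u)) ∧
    ∀ y ∈ pd m e x, ω (y, lp (cls u e)) = true

/-- some element with the property `P`, if there is one -/
def pick {V : Type} (P : V → Prop) : Option V :=
  if h : ∃ x, P x then some (Classical.choose h) else none

/-- the next state, for the new explored set `G` and the chosen point `o`, if any -/
def nxt {d : ℕ} (m : ℕ) (s : St d) (τ : Ln d) (G : Finset (Zd d)) : Option (Zd d) → St d
  | some x =>
    { R := G ∪ pd m τ.2.2 x, C := insert (τ.2.1 + dv τ.2.2) s.C,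
      E := insert (τ.2.1 + dv τ.2.2) s.E,
      cen := Function.update s.cen (τ.2.1 + dv τ.2.2) (pc m τ.2.2 x), trd := insert τ s.trd }
  | none =>
    { R := G, C := s.C, E := insert (τ.2.1 + dv τ.2.2) s.E, cen := s.cen, trd := insert τ s.trd }

/-- one step of the exploration -/
def FF {d : ℕ} (m n : ℕ) (τ : Ln d) (s : St d) (ω : Zd d × Ly d → Bool) : St d :=
  if τ.2.1 ∈ s.C ∧ τ.2.1 + dv τ.2.2 ∉ s.E then
    nxt m s τ (grs n s τ.2.1 τ.2.2 ω) (pick (sgd m n s τ.2.1 τ.2.2 ω))
  else s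

/-- run through a list of instructions -/
def run {S T I : Type} (F : T → S → (I → Bool) → S) : List T → S → (I → Bool) → S
  | [], s, _ => s
  | τ :: l, s, ω => run F l (F τ s ω) ω

/-- the coordinates on which the state may depend -/
def JJ {d : ℕ} (m n : ℕ) (s : St d) : Set (Zd d × Ly d) :=
  {x | (x.2 = none ∧ x.1 ∈ s.R ∪ bdy s.R) ∨ ∃ τ ∈ s.trd, x.1 ∈ rg m n τ.2.1 ∧
    (x.2 = ls (cls τ.2.1 τ.2.2) ∨ x.2 = lp (cls τ.2.1 τ.2.2))}

/-- schedules: sorted by rounds, the class of a link is the class `cf` of its round, blocks in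
`BB`, rounds smaller than `T` -/
structure Sch {d : ℕ} (cf : ℕ → Cl d) (BB : Finset (Zd d)) (T : ℕ) (l : List (Ln d)) :
    Prop where
  sorted : l.Pairwise fun a b => a.1 ≤ b.1
  cl : ∀ τ ∈ l, cls τ.2.1 τ.2.2 = cf τ.1
  mem : ∀ τ ∈ l, τ.2.1 ∈ BB
  lt : ∀ τ ∈ l, τ.1 < T

/-- bound for the number of steps inside the region of one exploration step -/
def kap (d m n r0 : ℕ) : ℕ := d * r0 + (2 * n + 1) ^ d + (2 * m + 1) ^ d + 2

/-- the invariant of the exploration, with start set `B(0,r0)`; `l` is the rest of the schedule -/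
structure Inv {d : ℕ} (m n r0 : ℕ) (cf : ℕ → Cl d) (BB : Finset (Zd d)) (T : ℕ)
    (l : List (Ln d)) (s : St d) : Prop where
  /-- the start set -/
  root : Bx 0 r0 ⊆ s.R
  /-- centres -/
  cen : ∀ u ∈ s.C, Bx (s.cen u) m ⊆ s.R ∧ s.cen u ∈ Bx (bc m n u) (NN m n)
  /-- reached blocks are examined -/
  sub : s.C ⊆ s.E
  /-- the rest of the schedule -/
  sch : Sch cf BB T l
  /-- tried links -/
  trd : ∀ τ ∈ s.trd, τ.2.1 + dv τ.2.2 ∈ s.E ∧ cls τ.2.1 τ.2.2 = cf τ.1 ∧ τ.2.1 ∈ BB ∧ τ.1 < T ∧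
    ∀ τ' ∈ l, τ.1 ≤ τ'.1
  /-- region and distances -/
  len : ∀ x ∈ s.R, (x ∈ Bx 0 r0 ∧ Lk Adj ↑s.R (kap d m n r0) 0 x) ∨
    ∃ τ ∈ s.trd, x ∈ rg m n τ.2.1 ∧ Lk Adj ↑s.R (kap d m n r0 * (τ.1 + 2)) 0 x

/-- the start of the exploration -/
def s0 {d : ℕ} (r0 : ℕ) : St d :=
  { R := Bx 0 r0, C := {0}, E := {0}, cen := fun _ => 0, trd := ∅ }

/-- the result of the exploration started at `o`: a site near the block `w` is joined to `o` by at
most `k` steps in the union of `B(o,r0)` and the sites of the regions of the blocks of `BB` which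
are open in a layer different from the root layer (all blocks are relative to `o`) -/
def EE {d : ℕ} (m n r0 : ℕ) (BB : Finset (Zd d)) (k : ℕ) (w o : Zd d) :
    Set (Zd d × Ly d → Bool) :=
  {ω | ∃ z ∈ Bx (o + bc m n w) (NN m n),
    Lk Adj (↑(Bx o r0) ∪ {x | x ∈ Opn ω ∧ ∃ v ∈ BB, x - o ∈ rg m n v}) k o z}

/-! ## The comparison dynamics -/

/-- the reached blocks, when the block `v` is open if `X v = true` -/
def dyn {d : ℕ} (X : Zd d → Bool) : List (Ln d) → Finset (Zd d) → Finset (Zd d) → Finset (Zd d)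
  | [], C, _ => C
  | τ :: l, C, E =>
    if τ.2.1 ∈ C ∧ τ.2.1 + dv τ.2.2 ∉ E then
      if X (τ.2.1 + dv τ.2.2) = true then
        dyn X l (insert (τ.2.1 + dv τ.2.2) C) (insert (τ.2.1 + dv τ.2.2) E)
      else dyn X l C (insert (τ.2.1 + dv τ.2.2) E)
    else dyn X l C E

/-- the probability that the comparison dynamics reaches `w` -/
def val {d : ℕ} (q : ℝ) (w : Zd d) (l : List (Ln d)) (C E : Finset (Zd d)) : ℝ :=
  (law fun _ : Zd d => q).real {X | w ∈ dyn X l C E}

/-- number of classes -/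
def Nc (d : ℕ) : ℕ := Fintype.card (Cl d)

/-- every class is the class of a round in every period -/
def Cov {d : ℕ} (cf : ℕ → Cl d) : Prop :=
  ∀ (c : Cl d) (t : ℕ), ∃ t', t * Nc d ≤ t' ∧ t' < (t + 1) * Nc d ∧ cf t' = c

/-- the schedule with `T` rounds for the blocks of `BB` -/
def sched {d : ℕ} (cf : ℕ → Cl d) (BB : Finset (Zd d)) (T : ℕ) : List (Ln d) :=
  (List.range T).flatMap fun t =>
    ((BB ×ˢ (Finset.univ : Finset (Dir d))).filter fun x => cls x.1 x.2 = cf t ∧
      x.1 + dv x.2 ∈ BB).toList.map fun x => (t, x)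

/-! ## The hierarchy at high density -/

/-- ratio of the sides of boxes -/
def bb (k : ℕ) : ℕ := 2 ^ (k + 4)

/-- side of the `k`-boxes -/
def LL : ℕ → ℕ
  | 0 => 1
  | k + 1 => LL k * bb (k + 1)

/-- bound for the distance of hubs of adjacent good `k`-boxes -/
def HH : ℕ → ℕ
  | 0 => 1
  | k + 1 => (bb (k + 1) + 8) * HH k

/-- the index of the `k`-box of the site `v` -/
def kix {d : ℕ} (k : ℕ) (v : Zd d) : Zd d := fun i => v i / (LL k : ℤ)

/-- the indices of the `k`-boxes in the `(k+1)`-box `w` -/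
def sbx {d : ℕ} (k : ℕ) (w : Zd d) : Finset (Zd d) :=
  Finset.Icc (fun i => (bb (k + 1) : ℤ) * w i) (fun i => (bb (k + 1) : ℤ) * w i + bb (k + 1) - 1)

/-- bad boxes: a closed site; at least two bad subboxes -/
def bad {d : ℕ} (X : Zd d → Bool) : ℕ → Zd d → Prop
  | 0, w => X w = false
  | k + 1, w => ∃ w₁ ∈ sbx k w, ∃ w₂ ∈ sbx k w, w₁ ≠ w₂ ∧ bad X k w₁ ∧ bad X k w₂

/-- clean `(k+1)`-boxes: no bad subbox -/
def cln {d : ℕ} (X : Zd d → Bool) (k : ℕ) (w : Zd d) : Prop := ∀ w' ∈ sbx k w, ¬ bad X k w'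

/-- the position `c` (the index of a `k`-box) is a centre of the `(k+1)`-box `w`: the coordinates
are `bb / 2` relative to the box, plus `a ≤ 2` in the coordinates `0` and `1`, and the lines
through `c` in the directions `0` and `1` contain no bad subbox -/
def isc {d : ℕ} (X : Zd d → Bool) (k : ℕ) (w c : Zd d) : Prop :=
  (∃ a : ℕ, a ≤ 2 ∧ ∀ i : Fin d, c i = (bb (k + 1) : ℤ) * w i + (bb (k + 1) / 2 : ℕ) +
    if i.val ≤ 1 then (a : ℤ) else 0) ∧
  ∀ i : Fin d, i.val ≤ 1 → ∀ w' ∈ sbx k w, (∀ j, j ≠ i → w' j = c j) → ¬ bad X k w'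

/-- the hub of a `k`-box -/
def hub {d : ℕ} (X : Zd d → Bool) : ℕ → Zd d → Zd d
  | 0, w => w
  | k + 1, w => if h : ∃ c, isc X k w c then hub X k (Classical.choose h) else 0

/-- bounds for the probabilities of bad boxes -/
def pib (d : ℕ) (ε : ℝ) : ℕ → ℝ
  | 0 => ε
  | k + 1 => ((bb (k + 1) : ℝ) ^ d * pib d ε k) ^ 2

/-! ## The root -/

/-- the root event: `x` is joined to the origin inside the ball of radius `M`, with the pad of
radius `r0` beyond `x` open in the root layer -/
def Gx {d : ℕ} (M r0 : ℕ) (e : Dir d) (x : Zd d) : Set (Zd d × Ly d → Bool) :=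
  {ω | orr ω 0 = true ∧ x ∈ Rc Adj (↑(Bx (0 : Zd d) M) ∩ Op (orr ω)) {0} ∧
    ∀ y ∈ pd r0 e x, ω (y, some none) = true}

end

end Pool.Agent.PRC
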