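import Pool.Agent.PRC.T3

set_option autoImplicit false

open MeasureTheory Filter Topology
open scoped Classical

namespace Pool.Agent.PRC

namespace ADJ_

/-- the segment box between two points -/
theorem seg (h_REC : T_REC) {d : ℕ} {B : Set (Zd d)} (u v : Zd d)
    (h : ∀ x : Zd d, (∀ j, min (u j) (v j) ≤ x j ∧ x j ≤ max (u j) (v j)) → x ∈ B) :
    Lk Adj B (∑ i, (u i - v i).natAbs) u v := by
  have h1 := h_REC d (u ⊓ v) (u ⊔ v) u v
    (Finset.mem_Icc.2 ⟨inf_le_left, le_sup_left⟩) (Finset.mem_Icc.2 ⟨inf_le_right, le_sup_right⟩)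
  refine h1.sub fun x hx => h x fun j => ?_
  rw [Finset.mem_coe, Finset.mem_Icc] at hx
  exact ⟨hx.1 j, hx.2 j⟩

theorem bb_ge (k : ℕ) : 32 ≤ bb (k + 1) := by
  unfold bb
  calc 32 = 2 ^ 5 := by norm_num
    _ ≤ 2 ^ (k + 1 + 4) := Nat.pow_le_pow_right (by norm_num) (by omega)

theorem hub_succ {d k : ℕ} {X : Zd d → Bool} {w : Zd d} (h : ∃ c, isc X k w c) :
    ∃ c, isc X k w c ∧ hub X (k + 1) w = hub X k c := by
  refine ⟨Classical.choose h, Classical.choose_spec h, ?_⟩
  simp only [hub]
  rw [dif_pos h]

theorem mem_sbx {d k : ℕ} {w v : Zd d} : v ∈ sbx k w ↔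
    ∀ j, (bb (k + 1) : ℤ) * w j ≤ v j ∧ v j ≤ (bb (k + 1) : ℤ) * w j + bb (k + 1) - 1 := by
  unfold sbx
  rw [Finset.mem_Icc]
  exact ⟨fun h j => ⟨h.1 j, h.2 j⟩, fun h => ⟨fun j => (h j).1, fun j => (h j).2⟩⟩

/-- the coordinates of a centre -/
theorem isc_coord {d k : ℕ} {X : Zd d → Bool} {w c : Zd d} (h : isc X k w c) (j : Fin d) :
    (bb (k + 1) : ℤ) * w j + (bb (k + 1) / 2 : ℕ) ≤ c j ∧
      c j ≤ (bb (k + 1) : ℤ) * w j + (bb (k + 1) / 2 : ℕ) + (if j.val ≤ 1 then 2 else 0) := by
  obtain ⟨⟨a, ha, hc⟩, -⟩ := h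
  rw [hc j]
  split_ifs with hj
  · constructor
    · have : (0 : ℤ) ≤ a := Int.natCast_nonneg a
      linarith
    · have : (a : ℤ) ≤ 2 := by exact_mod_cast ha
      linarith
  · constructor <;> linarith

theorem card_le_two (d : ℕ) : (Finset.univ.filter fun j : Fin d => j.val ≤ 1).card ≤ 2 := by
  have h1 : (Finset.univ.filter fun j : Fin d => j.val ≤ 1).card ≤ (Finset.range 2).card := by
    refine Finset.card_le_card_of_injOn (fun j : Fin d => j.val) ?_ ?_
    · intro j hj
      have := (Finset.mem_filter.1 (Finset.mem_coe.1 hj)).2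
      simp only [Finset.coe_range, Set.mem_Iio]
      omega
    · intro a _ b _ hab
      exact Fin.ext hab
  simpa using h1

/-- a parameter such that the hyperplane has no bad subbox -/
theorem choose_t {d k : ℕ} {X : Zd d → Bool} {w w' : Zd d} (hw : ¬ bad X (k + 1) w)
    (hw' : ¬ bad X (k + 1) w') (i : Fin d) (β : ℤ) :
    ∃ t : ℤ, β ≤ t ∧ t ≤ β + 2 ∧ ∀ v, (v ∈ sbx k w ∨ v ∈ sbx k w') → v i = t → ¬ bad X k v := by
  by_contra hcon
  push Not at hcon
  obtain ⟨v0, h0, h0t, h0b⟩ := hcon β le_rfl (by linarith)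
  obtain ⟨v1, h1, h1t, h1b⟩ := hcon (β + 1) (by linarith) (by linarith)
  obtain ⟨v2, h2, h2t, h2b⟩ := hcon (β + 2) (by linarith) le_rfl
  have n01 : v0 ≠ v1 := fun h => by
    rw [h, h1t] at h0t
    omega
  have n02 : v0 ≠ v2 := fun h => by
    rw [h, h2t] at h0t
    omega
  have n12 : v1 ≠ v2 := fun h => by
    rw [h, h2t] at h1t
    omega
  have key : ∀ u, ¬ bad X (k + 1) u → ∀ x y, x ∈ sbx k u → y ∈ sbx k u → x ≠ y → bad X k x →
      bad X k y → False := by
    intro u hu x y hx hy hxy hbx hby
    exact hu ⟨x, hx, y, hy, hxy, hbx, hby⟩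
  rcases h0 with h0 | h0 <;> rcases h1 with h1 | h1 <;> rcases h2 with h2 | h2
  · exact key w hw v0 v1 h0 h1 n01 h0b h1b
  · exact key w hw v0 v1 h0 h1 n01 h0b h1b
  · exact key w hw v0 v2 h0 h2 n02 h0b h2b
  · exact key w' hw' v1 v2 h1 h2 n12 h1b h2b
  · exact key w hw v1 v2 h1 h2 n12 h1b h2b
  · exact key w' hw' v0 v2 h0 h2 n02 h0b h2b
  · exact key w' hw' v0 v1 h0 h1 n01 h0b h1b
  · exact key w' hw' v0 v1 h0 h1 n01 h0b h1b

/-- along the line through the centre -/
theorem line (h_REC : T_REC) {d k : ℕ} {X : Zd d → Bool} {w c : Zd d} (hc : isc X k w c)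
    {i : Fin d} (hi : i.val ≤ 1) {t : ℤ} (ht1 : (bb (k + 1) : ℤ) * w i + (bb (k + 1) / 2 : ℕ) ≤ t)
    (ht2 : t ≤ (bb (k + 1) : ℤ) * w i + (bb (k + 1) / 2 : ℕ) + 2) {B : Set (Zd d)}
    (hB : ∀ x ∈ sbx k w, ¬ bad X k x → x ∈ B) :
    Lk Adj B 2 c (Function.update c i t) := by
  have hb := bb_ge k
  have hci := isc_coord hc i
  rw [if_pos hi] at hci
  have h1 : Lk Adj B (∑ j, (c j - Function.update c i t j).natAbs) c (Function.update c i t) := by
    refine seg h_REC _ _ fun x hx => ?_
    have hxj : ∀ j, j ≠ i → x j = c j := by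
      intro j hj
      have := hx j
      rw [Function.update_of_ne hj, min_self, max_self] at this
      exact le_antisymm this.2 this.1
    have hxi := hx i
    rw [Function.update_self] at hxi
    have hmem : x ∈ sbx k w := by
      rw [mem_sbx]
      intro j
      by_cases hj : j = i
      · subst hj
        have h2 : (bb (k + 1) : ℤ) * w j + (bb (k + 1) / 2 : ℕ) ≤ min (c j) t := le_min hci.1 ht1
        have h3 : max (c j) t ≤ (bb (k + 1) : ℤ) * w j + (bb (k + 1) / 2 : ℕ) + 2 :=
          max_le hci.2 ht2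
        have h4 : x j ≤ (bb (k + 1) : ℤ) * w j + (bb (k + 1) / 2 : ℕ) + 2 := hxi.2.trans h3
        have h5 := h2.trans hxi.1
        constructor <;> omega
      · rw [hxj j hj]
        have h2 := isc_coord hc j
        have h3 : (if j.val ≤ 1 then (2 : ℤ) else 0) ≤ 2 := by split_ifs <;> norm_num
        constructor <;> omega
    exact hB x hmem (hc.2 i hi x hmem hxj)
  have h2 : ∑ j, (c j - Function.update c i t j).natAbs = (c i - t).natAbs := by
    rw [Finset.sum_eq_single i]
    · rw [Function.update_self]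
    · intro j _ hj
      rw [Function.update_of_ne hj]
      simp
    · intro h
      exact absurd (Finset.mem_univ i) h
  rw [h2] at h1
  refine h1.mono ?_
  omega

end ADJ_

open ADJ_ in
theorem p_ADJ (h_CEN : T_CEN) (h_CEI : T_CEI) (h_REC : T_REC) (h_TRF : T_TRF) (h_KIX : T_KIX) :
    T_ADJ := by
  intro d k
  induction k with
  | zero =>
    intro X w e hd hw hw'
    have h1 : X (w + dv e) = true := by
      have h2 : ¬ X (w + dv e) = false := hw'
      simpa using h2
    refine Lk.one ⟨e, rfl⟩ ⟨h1, Or.inr ?_⟩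
    funext j
    change (w + dv e) j / ((1 : ℕ) : ℤ) = (w + dv e) j
    simp
  | succ k ih =>
    intro X w e hd hw hw'
    obtain ⟨hK1, -, -, -⟩ := h_KIX d k
    set w' : Zd d := w + dv e with hw'def
    have hb := bb_ge k
    obtain ⟨c, hc, hhub⟩ := hub_succ (h_CEN d k X w hd hw)
    obtain ⟨c', hc', hhub'⟩ := hub_succ (h_CEN d k X w' hd hw')
    rw [hhub, hhub']
    -- the second direction
    obtain ⟨i, hi1, hie⟩ : ∃ i : Fin d, i.val ≤ 1 ∧ i ≠ e.1 := by
      by_cases h : (⟨0, by omega⟩ : Fin d) = e.1
      · refine ⟨⟨1, by omega⟩, le_rfl, fun h1 => ?_⟩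
        rw [← h] at h1
        have := congrArg Fin.val h1
        simp at this
      · exact ⟨⟨0, by omega⟩, Nat.zero_le 1, h⟩
    have hwi : w' i = w i := by
      rw [hw'def, Pi.add_apply, dv_ne e hie, add_zero]
    obtain ⟨t, ht1, ht2, htb⟩ := choose_t hw hw' i ((bb (k + 1) : ℤ) * w i + (bb (k + 1) / 2 : ℕ))
    set B : Set (Zd d) := {x | (x ∈ sbx k w ∨ x ∈ sbx k w') ∧ ¬ bad X k x} with hBdef
    -- the three parts of the path of indices
    have p1 : Lk Adj B 2 c (Function.update c i t) :=
      line h_REC hc hi1 ht1 ht2 fun x hx hbx => ⟨Or.inl hx, hbx⟩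
    have p3' : Lk Adj B 2 c' (Function.update c' i t) := by
      rw [← hwi] at ht1 ht2
      exact line h_REC hc' hi1 ht1 ht2 fun x hx hbx => ⟨Or.inr hx, hbx⟩
    have hcB : c ∈ B := by
      obtain ⟨h1, h2⟩ := h_CEI d k X w c hd hc
      exact ⟨Or.inl h1, h2⟩
    have hcB' : c' ∈ B := by
      obtain ⟨h1, h2⟩ := h_CEI d k X w' c' hd hc'
      exact ⟨Or.inr h1, h2⟩
    have p3 : Lk Adj B 2 (Function.update c' i t) c' := p3'.symm adj_symm hcB'
    have hcoord : ∀ j, j ≠ e.1 → w' j = w j := by
      intro j hj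
      rw [hw'def, Pi.add_apply, dv_ne e hj, add_zero]
    have hsg : w' e.1 = w e.1 + 1 ∨ w' e.1 = w e.1 - 1 := by
      rw [hw'def, Pi.add_apply, dv_self]
      cases e.2
      · right
        rfl
      · left
        rfl
    have p2 : Lk Adj B (∑ j, (Function.update c i t j - Function.update c' i t j).natAbs)
        (Function.update c i t) (Function.update c' i t) := by
      refine seg h_REC _ _ fun x hx => ?_
      have hxi : x i = t := by
        have := hx i
        rw [Function.update_self, Function.update_self, min_self, max_self] at this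
        exact le_antisymm this.2 this.1
      have hxj : ∀ j, j ≠ i → min (c j) (c' j) ≤ x j ∧ x j ≤ max (c j) (c' j) := by
        intro j hj
        have := hx j
        rwa [Function.update_of_ne hj, Function.update_of_ne hj] at this
      have hoth : ∀ j, j ≠ e.1 → (bb (k + 1) : ℤ) * w j ≤ x j ∧
          x j ≤ (bb (k + 1) : ℤ) * w j + bb (k + 1) - 1 := by
        intro j hj
        by_cases hji : j = i
        · subst hji
          rw [hxi]
          constructor <;> omega
        · have h1 := hxj j hji
          have h2 := isc_coord hc j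
          have h3 := isc_coord hc' j
          rw [hcoord j hj] at h3
          have h4 : (if j.val ≤ 1 then (2 : ℤ) else 0) ≤ 2 := by split_ifs <;> norm_num
          have h5 := le_min h2.1 h3.1
          have h6 := max_le h2.2 h3.2
          constructor <;> omega
      have hmem : x ∈ sbx k w ∨ x ∈ sbx k w' := by
        have h1 := hxj e.1 hie.symm
        have h2 := isc_coord hc e.1
        have h3 := isc_coord hc' e.1
        have h4 : (if e.1.val ≤ 1 then (2 : ℤ) else 0) ≤ 2 := by split_ifs <;> norm_num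
        have h5 : (0 : ℤ) ≤ (if e.1.val ≤ 1 then (2 : ℤ) else 0) := by split_ifs <;> norm_num
        by_cases hx1 : (bb (k + 1) : ℤ) * w e.1 ≤ x e.1 ∧
            x e.1 ≤ (bb (k + 1) : ℤ) * w e.1 + bb (k + 1) - 1
        · left
          rw [mem_sbx]
          intro j
          by_cases hj : j = e.1
          · rw [hj]
            exact hx1
          · exact hoth j hj
        · right
          rw [mem_sbx]
          intro j
          by_cases hj : j = e.1
          · rw [hj]
            rcases hsg with h | h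
            · rw [h] at h3 ⊢
              have h6 : (bb (k + 1) : ℤ) * (w e.1 + 1) = (bb (k + 1) : ℤ) * w e.1 + bb (k + 1) := by
                ring
              rw [h6] at h3 ⊢
              omega
            · rw [h] at h3 ⊢
              have h6 : (bb (k + 1) : ℤ) * (w e.1 - 1) = (bb (k + 1) : ℤ) * w e.1 - bb (k + 1) := by
                ring
              rw [h6] at h3 ⊢
              omega
          · rw [hcoord j hj]
            exact hoth j hj
      exact ⟨hmem, htb x hmem hxi⟩
    have hsum : ∑ j, (Function.update c i t j - Function.update c' i t j).natAbs ≤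
        bb (k + 1) + 4 := by
      have h1 : ∀ j ∈ (Finset.univ : Finset (Fin d)),
          (Function.update c i t j - Function.update c' i t j).natAbs ≤
          (if j = e.1 then bb (k + 1) else 0) + (if j.val ≤ 1 then 2 else 0) := by
        intro j _
        by_cases hji : j = i
        · subst hji
          rw [Function.update_self, Function.update_self]
          simp
        · rw [Function.update_of_ne hji, Function.update_of_ne hji]
          have h2 := isc_coord hc j
          have h3 := isc_coord hc' j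
          by_cases hj : j = e.1
          · subst hj
            rw [if_pos rfl]
            rcases hsg with h | h
            · rw [h] at h3
              have h6 : (bb (k + 1) : ℤ) * (w e.1 + 1) = (bb (k + 1) : ℤ) * w e.1 + bb (k + 1) := by
                ring
              rw [h6] at h3
              split_ifs at h2 h3 ⊢ <;> omega
            · rw [h] at h3
              have h6 : (bb (k + 1) : ℤ) * (w e.1 - 1) = (bb (k + 1) : ℤ) * w e.1 - bb (k + 1) := by
                ring
              rw [h6] at h3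
              split_ifs at h2 h3 ⊢ <;> omega
          · rw [if_neg hj]
            rw [hcoord j hj] at h3
            split_ifs at h2 h3 ⊢ <;> omega
      refine (Finset.sum_le_sum h1).trans ?_
      rw [Finset.sum_add_distrib, Finset.sum_ite_eq' Finset.univ e.1, if_pos (Finset.mem_univ _),
        ← Finset.sum_filter, Finset.sum_const, smul_eq_mul]
      have h2 := card_le_two d
      omega
    have path : Lk Adj B (bb (k + 1) + 8) c c' := by
      have h1 := (p1.trans (p2.mono hsum)).trans p3
      refine h1.mono ?_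
      omega
    -- transfer
    have htr := h_TRF d (hub X k) B
      {v | X v = true ∧ (kix (k + 1) v = w ∨ kix (k + 1) v = w')} (HH k) ?_ (bb (k + 1) + 8) c c'
      hcB path
    · exact htr
    · rintro u hu u' hu' ⟨e', rfl⟩
      refine (ih X u e' hd hu.2 hu'.2).sub ?_
      rintro v ⟨hv, hv1⟩
      refine ⟨hv, ?_⟩
      have hmem : kix k v ∈ sbx k w ∨ kix k v ∈ sbx k w' := by
        rcases hv1 with h | h
        · rw [h]
          exact hu.1
        · rw [h]
          exact hu'.1
      rcases hmem with h | h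
      · exact Or.inl ((hK1 v w).1 h)
      · exact Or.inr ((hK1 v w').1 h)

end Pool.Agent.PRC
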