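import Pool.Agent.PRC.T3

/-!
# PRC: target T_BDP (the badness of a box depends on the sites of the box)
-/

set_option autoImplicit false

open MeasureTheory Filter Topology
open scoped Classical

namespace Pool.Agent.PRC

theorem p_BDP (h_KIX : T_KIX) : T_BDP := by
  intro d k
  induction k with
  | zero =>
    intro w
    refine ⟨{w}, ?_, ?_⟩
    · intro v hv
      rw [Finset.mem_singleton] at hv
      subst hv
      funext i
      simp [kix, LL]
    · intro ω ω' h
      have h1 := h w (by simp)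
      simp only [Set.mem_ofPred_eq, bad]
      rw [h1]
  | succ k ih =>
    intro w
    choose F hF1 hF2 using ih
    refine ⟨(sbx k w).biUnion F, ?_, ?_⟩
    · intro v hv
      obtain ⟨w', hw', hv'⟩ := Finset.mem_biUnion.1 hv
      rw [← (h_KIX d k).1 v w, hF1 w' v hv']
      exact hw'
    · intro ω ω' h
      have h1 : ∀ w' ∈ sbx k w, (bad ω k w' ↔ bad ω' k w') := by
        intro w' hw'
        refine hF2 w' ω ω' ?_
        intro i hi
        exact h i (Finset.mem_coe.2 (Finset.mem_biUnion.2 ⟨w', hw', Finset.mem_coe.1 hi⟩))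
      simp only [Set.mem_ofPred_eq, bad]
      constructor
      · rintro ⟨w₁, m1, w₂, m2, hne, b1, b2⟩
        exact ⟨w₁, m1, w₂, m2, hne, (h1 w₁ m1).1 b1, (h1 w₂ m2).1 b2⟩
      · rintro ⟨w₁, m1, w₂, m2, hne, b1, b2⟩
        exact ⟨w₁, m1, w₂, m2, hne, (h1 w₁ m1).2 b1, (h1 w₂ m2).2 b2⟩

end Pool.Agent.PRC
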