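import Pool.Agent.PRC.T3
import Pool.Agent.PRC.Base

set_option autoImplicit false

/-!
# PRC, target BPR: the probability of bad boxes
-/

open MeasureTheory
open scoped Classical

namespace Pool.Agent.PRC

open TRP (bern law)

namespace BPR_

theorem pib_nonneg (d : ℕ) (ε : ℝ) (hε : 0 ≤ ε) (k : ℕ) : 0 ≤ pib d ε k := by
  cases k with
  | zero => exact hε
  | succ k => exact sq_nonneg _

theorem main (h_BDP : T_BDP) (h_IND : T_IND) (h_KIX : T_KIX) (h_PRV : T_PRV) (d : ℕ) (q : ℝ)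
    (h0 : 0 ≤ q) (h1 : q ≤ 1) (k : ℕ) : ∀ w : Zd d,
    (law fun _ : Zd d => q).real {X | bad X k w} ≤ pib d (1 - q) k := by
  have hq : ∀ _ : Zd d, 0 ≤ q ∧ q ≤ 1 := fun _ => ⟨h0, h1⟩
  have hprob : IsProbabilityMeasure (law fun _ : Zd d => q) := law_prob hq
  induction k with
  | zero =>
    intro w
    have h := (h_PRV (Zd d) (fun _ => q) {w} hq).2
    have e : {X : Zd d → Bool | bad X 0 w} = {ω | ∀ i ∈ ({w} : Finset (Zd d)), ω i = false} := by
      ext X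
      simp [bad]
    rw [e, h]
    simp [pib]
  | succ k ih =>
    intro w
    have hp := pib_nonneg d (1 - q) (by linarith) k
    set P := (sbx k w).offDiag with hP
    have hsub : {X : Zd d → Bool | bad X (k + 1) w} ⊆
        ⋃ z ∈ P, ({X | bad X k z.1} ∩ {X | bad X k z.2}) := by
      rintro X ⟨w₁, h₁, w₂, h₂, hne, hb₁, hb₂⟩
      rw [Set.mem_iUnion₂]
      exact ⟨(w₁, w₂), Finset.mem_offDiag.2 ⟨h₁, h₂, hne⟩, hb₁, hb₂⟩
    have hterm : ∀ z ∈ P, (law fun _ : Zd d => q).real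
        ({X | bad X k z.1} ∩ {X | bad X k z.2}) ≤ pib d (1 - q) k ^ 2 := by
      intro z hz
      obtain ⟨-, -, hne⟩ := Finset.mem_offDiag.1 hz
      obtain ⟨F₁, hF₁, hd₁⟩ := h_BDP d k z.1
      obtain ⟨F₂, hF₂, hd₂⟩ := h_BDP d k z.2
      have hdis : Disjoint (↑F₁ : Set (Zd d)) ↑F₂ := by
        rw [Set.disjoint_left]
        intro v hv₁ hv₂
        exact hne ((hF₁ v hv₁).symm.trans (hF₂ v hv₂))
      rw [h_IND (Zd d) (fun _ => q) hq ↑F₁ ↑F₂ _ _ hd₁ hd₂ hdis hd₁.meas hd₂.meas, sq]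
      exact mul_le_mul (ih z.1) (ih z.2) measureReal_nonneg hp
    have hcard : (P.card : ℝ) ≤ ((bb (k + 1) : ℝ) ^ d) ^ 2 := by
      have h2 : P.card ≤ (sbx k w).card * (sbx k w).card := by
        rw [hP, Finset.offDiag_card]
        exact Nat.sub_le _ _
      rw [(h_KIX d k).2.2.2 w] at h2
      calc (P.card : ℝ) ≤ ((bb (k + 1) ^ d * bb (k + 1) ^ d : ℕ) : ℝ) := by exact_mod_cast h2
        _ = ((bb (k + 1) : ℝ) ^ d) ^ 2 := by push_cast; ring
    calc (law fun _ : Zd d => q).real {X | bad X (k + 1) w}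
        ≤ (law fun _ : Zd d => q).real (⋃ z ∈ P, ({X | bad X k z.1} ∩ {X | bad X k z.2})) :=
          measureReal_mono hsub (measure_ne_top _ _)
      _ ≤ ∑ z ∈ P, (law fun _ : Zd d => q).real ({X | bad X k z.1} ∩ {X | bad X k z.2}) :=
          measureReal_biUnion_finset_le _ _
      _ ≤ ∑ _z ∈ P, pib d (1 - q) k ^ 2 := Finset.sum_le_sum hterm
      _ = P.card * pib d (1 - q) k ^ 2 := by rw [Finset.sum_const, nsmul_eq_mul]
      _ ≤ ((bb (k + 1) : ℝ) ^ d) ^ 2 * pib d (1 - q) k ^ 2 :=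
          mul_le_mul_of_nonneg_right hcard (sq_nonneg _)
      _ = pib d (1 - q) (k + 1) := by
          show _ = ((bb (k + 1) : ℝ) ^ d * pib d (1 - q) k) ^ 2
          ring

end BPR_

theorem p_BPR (h_BDP : T_BDP) (h_IND : T_IND) (h_KIX : T_KIX) (h_PRV : T_PRV) : T_BPR :=
  fun d k q w h0 h1 => BPR_.main h_BDP h_IND h_KIX h_PRV d q h0 h1 k w

end Pool.Agent.PRC
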