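import Pool.Agent.PRC.T4

/-!
# PRC: translation of the percolation input to the definitions of `LBL.Env`
-/

set_option autoImplicit false

open MeasureTheory Filter Topology
open scoped Classical

namespace Pool.Agent.PRC

open TRP (bern law)

noncomputable section

namespace BRI_

theorem PP_eq (d : ℕ) (p : ℝ) : LBL.PP d p = law (fun _ : Zd d => p) := rfl

theorem nrm_eq {d : ℕ} (x : Zd d) : LBL.nrm x = nm x := rfl

theorem nb_iff {d : ℕ} (x y : Zd d) : LBL.Nb x y ↔ Adj x y := by
  unfold LBL.Nb Adj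
  constructor
  · intro h
    obtain ⟨i, hi⟩ : ∃ i, |x i - y i| ≠ 0 := by
      by_contra hc
      push Not at hc
      rw [Finset.sum_eq_zero fun i _ => hc i] at h
      exact zero_ne_one h
    have hsum := Finset.sum_erase_add Finset.univ (fun i => |x i - y i|) (Finset.mem_univ i)
    have hnn : 0 ≤ ∑ j ∈ Finset.univ.erase i, |x j - y j| :=
      Finset.sum_nonneg fun j _ => abs_nonneg _
    have hpos : 0 < |x i - y i| := lt_of_le_of_ne (abs_nonneg _) (Ne.symm hi)
    rw [h] at hsum
    have h1 : |x i - y i| = 1 := by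
      change ∑ j ∈ Finset.univ.erase i, |x j - y j| + |x i - y i| = 1 at hsum
      omega
    have h0 : ∑ j ∈ Finset.univ.erase i, |x j - y j| = 0 := by
      change ∑ j ∈ Finset.univ.erase i, |x j - y j| + |x i - y i| = 1 at hsum
      omega
    have hz : ∀ j, j ≠ i → y j = x j := by
      intro j hj
      have := (Finset.sum_eq_zero_iff_of_nonneg fun j _ => abs_nonneg _).1 h0 j
        (Finset.mem_erase.2 ⟨hj, Finset.mem_univ j⟩)
      have := abs_eq_zero.1 this
      omega
    rcases (abs_eq (by norm_num)).1 h1 with h2 | h2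
    · refine ⟨(i, false), ?_⟩
      funext j
      by_cases hj : j = i
      · subst hj
        simp only [Pi.add_apply, dv, Pi.single_eq_same, sg]
        simp
        omega
      · simp only [Pi.add_apply, dv, Pi.single_eq_of_ne hj, add_zero]
        exact hz j hj
    · refine ⟨(i, true), ?_⟩
      funext j
      by_cases hj : j = i
      · subst hj
        simp only [Pi.add_apply, dv, Pi.single_eq_same, sg]
        simp
        omega
      · simp only [Pi.add_apply, dv, Pi.single_eq_of_ne hj, add_zero]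
        exact hz j hj
  · rintro ⟨e, rfl⟩
    have h1 : ∀ i, |x i - (x + dv e) i| = if i = e.1 then 1 else 0 := by
      intro i
      by_cases hi : i = e.1
      · subst hi
        rw [if_pos rfl, Pi.add_apply, dv_self]
        have := sg_abs e.2
        rw [sub_add_cancel_left, abs_neg]
        exact this
      · rw [if_neg hi, Pi.add_apply, dv_ne e hi]
        simp
    rw [Finset.sum_congr rfl fun i _ => h1 i]
    simp

/-- from paths to links -/
theorem lk_of_pth {d : ℕ} {ω : Zd d → Bool} {k : ℕ} {x y : Zd d} (h : LBL.Pth ω k x y) :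
    ω x = true ∧ Lk Adj (Op ω) k x y := by
  obtain ⟨u, h0, hk, ho, hn⟩ := h
  refine ⟨h0 ▸ ho 0 (Nat.zero_le k), ?_⟩
  have : ∀ j ≤ k, Lk Adj (Op ω) j x (u j) := by
    intro j
    induction j with
    | zero =>
      intro _
      exact (show x = u 0 from h0.symm)
    | succ j ih =>
      intro hj
      exact Or.inr ⟨u j, ih (by omega), (nb_iff _ _).1 (hn j (by omega)), ho (j + 1) hj⟩
  exact hk ▸ this k le_rfl

/-- from links to paths -/
theorem pth_of_lk {d : ℕ} {ω : Zd d → Bool} {n : ℕ} {x y : Zd d} (hx : ω x = true)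
    (h : Lk Adj (Op ω) n x y) : ∃ k ≤ n, LBL.Pth ω k x y := by
  induction n generalizing y with
  | zero =>
    have hxy : x = y := h
    subst hxy
    refine ⟨0, le_rfl, fun _ => x, rfl, rfl, fun _ _ => hx, fun j hj => absurd hj (by omega)⟩
  | succ n ih =>
    rcases h with h | ⟨w, h1, h2, h3⟩
    · obtain ⟨k, hk, hp⟩ := ih h
      exact ⟨k, by omega, hp⟩
    · obtain ⟨k, hk, u, hu0, huk, huo, hun⟩ := ih h1
      refine ⟨k + 1, by omega, fun j => if j ≤ k then u j else y, ?_, ?_, ?_, ?_⟩
      · simpa using hu0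
      · simp
      · intro j _
        by_cases hj : j ≤ k
        · simpa [hj] using huo j hj
        · have h3' : ω y = true := h3
          simpa [hj] using h3'
      · intro j hj
        by_cases hj' : j < k
        · have e1 : j ≤ k := by omega
          have e2 : j + 1 ≤ k := by omega
          simpa [e1, e2] using hun j hj'
        · have e1 : j = k := by omega
          subst e1
          have e2 : ¬ j + 1 ≤ j := by omega
          simp only [le_refl, if_true, e2, if_false]
          rw [huk]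
          exact (nb_iff _ _).2 h2

theorem inf_iff {d : ℕ} (ω : Zd d → Bool) : ω ∈ LBL.Inf d ↔ InfC ω 0 := by
  unfold LBL.Inf InfC
  change Set.Infinite {y : Zd d | ∃ k, LBL.Pth ω k 0 y} ↔ _
  have key : ω 0 = true → {y : Zd d | ∃ k, LBL.Pth ω k 0 y} = Rc Adj (Op ω) {0} := by
    intro h0
    ext y
    constructor
    · rintro ⟨k, hk⟩
      exact (lk_of_pth hk).2.rc
    · intro hy
      obtain ⟨u, hu, n, hn⟩ := Rc.lk hy
      rw [Set.mem_singleton_iff] at hu
      subst hu
      obtain ⟨k, _, hp⟩ := pth_of_lk h0 hn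
      exact ⟨k, hp⟩
  constructor
  · intro h
    obtain ⟨y, k, hk⟩ := h.nonempty
    have h0 := (lk_of_pth hk).1
    exact ⟨h0, key h0 ▸ h⟩
  · rintro ⟨h0, h⟩
    rw [key h0]
    exact h

end BRI_

open BRI_ in
theorem p_BRI : T_BRI := by
  intro hL d p p1 hd hp1 hpp hp hth ε hε
  have hth' : 0 < theta d p1 := by
    have : LBL.theta d p1 = theta d p1 := by
      unfold LBL.theta theta
      rw [PP_eq]
      congr 1
      ext ω
      exact inf_iff ω
    rw [← this]
    exact hth
  obtain ⟨r, C, h⟩ := hL d p1 p hd hp1 hpp hp hth' ε hε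
  refine ⟨r, C, ?_⟩
  intro x
  refine le_trans (le_of_eq ?_) (h x)
  rw [PP_eq]
  congr 1
  ext ω
  change (ω ∈ LBL.Inf d ∧ ¬ ∃ (y : Zd d) (k : ℕ), LBL.nrm (y - x) ≤ r ∧
    k ≤ C * (LBL.nrm x + 1) ∧ LBL.Pth ω k 0 y) ↔
    (InfC ω 0 ∧ ¬ ∃ z ∈ Bx x r, Lk Adj (Op ω) (C * (nm x + 1)) 0 z)
  rw [inf_iff]
  apply and_congr_right
  intro hinf
  apply not_congr
  constructor
  · rintro ⟨y, k, h1, h2, h3⟩
    exact ⟨y, mem_Bx_iff_nm.2 h1, (lk_of_pth h3).2.mono h2⟩
  · rintro ⟨z, hz, hlk⟩
    obtain ⟨k, hk, hp⟩ := pth_of_lk hinf.1 hlk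
    exact ⟨z, k, mem_Bx_iff_nm.1 hz, hk, hp⟩

end

end Pool.Agent.PRC
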