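import Pool.Agent.PRC.T3

/-!
# PRC, target CEI: a centre is the index of a good subbox
-/

set_option autoImplicit false

open MeasureTheory Filter Topology
open scoped Classical

namespace Pool.Agent.PRC

noncomputable section

namespace CEI_

theorem bb_ge (k : ℕ) : 32 ≤ bb (k + 1) := by
  unfold bb
  calc 32 = 2 ^ 5 := by norm_num
    _ ≤ 2 ^ (k + 1 + 4) := Nat.pow_le_pow_right (by norm_num) (by omega)

end CEI_

/-- CEI -/
theorem p_CEI : T_CEI := by
  intro d k X w c hd h
  have hmem : c ∈ sbx k w := by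
    obtain ⟨⟨a, ha, hc⟩, _⟩ := h
    have hb := CEI_.bb_ge k
    unfold sbx
    rw [Finset.mem_Icc, Pi.le_def, Pi.le_def]
    constructor
    · intro i
      simp only [hc i]
      split_ifs
      · have : (0 : ℤ) ≤ ((bb (k + 1) / 2 : ℕ) : ℤ) := Int.natCast_nonneg _
        have : (0 : ℤ) ≤ (a : ℤ) := Int.natCast_nonneg _
        linarith
      · have : (0 : ℤ) ≤ ((bb (k + 1) / 2 : ℕ) : ℤ) := Int.natCast_nonneg _
        linarith
    · intro i
      simp only [hc i]
      split_ifs
      · have h1 : bb (k + 1) / 2 + a + 1 ≤ bb (k + 1) := by omega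
        have h2 : ((bb (k + 1) / 2 : ℕ) : ℤ) + a + 1 ≤ bb (k + 1) := by exact_mod_cast h1
        linarith
      · have h1 : bb (k + 1) / 2 + 1 ≤ bb (k + 1) := by omega
        have h2 : ((bb (k + 1) / 2 : ℕ) : ℤ) + 1 ≤ bb (k + 1) := by exact_mod_cast h1
        linarith
  exact ⟨hmem, h.2 ⟨0, by omega⟩ (by simp) c hmem fun _ _ => rfl⟩

end

end Pool.Agent.PRC
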