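import Pool.Agent.PRC.T3

/-!
# PRC: target CEN, good boxes have a centre
-/

set_option autoImplicit false

open MeasureTheory Filter Topology
open scoped Classical

namespace Pool.Agent.PRC

open TRP (bern law)

namespace CEN_

theorem choose_a (x y A B : ℤ) : ∃ a : ℕ, a ≤ 2 ∧ x ≠ A + a ∧ y ≠ B + a := by
  by_cases h0 : x ≠ A + (0 : ℕ) ∧ y ≠ B + (0 : ℕ)
  · exact ⟨0, by norm_num, h0⟩
  · by_cases h1 : x ≠ A + (1 : ℕ) ∧ y ≠ B + (1 : ℕ)
    · exact ⟨1, by norm_num, h1⟩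
    · refine ⟨2, le_rfl, ?_, ?_⟩ <;> push_cast at * <;> omega

end CEN_

open CEN_

theorem p_CEN : T_CEN := by
  intro d k X w hd hw
  have huniq : ∀ v ∈ sbx k w, ∀ v' ∈ sbx k w, bad X k v → bad X k v' → v = v' := by
    intro v hv v' hv' hb hb'
    by_contra hne
    exact hw ⟨v, hv, v', hv', hne, hb, hb'⟩
  by_cases hex : ∃ v ∈ sbx k w, bad X k v
  · obtain ⟨v, hv, hb⟩ := hex
    obtain ⟨a, ha, h1, h0⟩ := choose_a (v ⟨1, by omega⟩) (v ⟨0, by omega⟩)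
      ((bb (k + 1) : ℤ) * w ⟨1, by omega⟩ + (bb (k + 1) / 2 : ℕ))
      ((bb (k + 1) : ℤ) * w ⟨0, by omega⟩ + (bb (k + 1) / 2 : ℕ))
    refine ⟨fun i => (bb (k + 1) : ℤ) * w i + (bb (k + 1) / 2 : ℕ) +
      if i.val ≤ 1 then (a : ℤ) else 0, ⟨a, ha, fun i => rfl⟩, ?_⟩
    intro i hi w' hw' hj hb'
    have he : v = w' := huniq v hv w' hw' hb hb'
    subst he
    rcases Nat.lt_or_ge i.val 1 with h | h
    · have := hj ⟨1, by omega⟩ (by rw [Ne, Fin.ext_iff]; simp only; omega)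
      simp only [le_refl, if_true] at this
      exact h1 this
    · have := hj ⟨0, by omega⟩ (by rw [Ne, Fin.ext_iff]; simp only; omega)
      simp only [Nat.zero_le, if_true] at this
      exact h0 this
  · refine ⟨fun i => (bb (k + 1) : ℤ) * w i + (bb (k + 1) / 2 : ℕ) +
      if i.val ≤ 1 then ((0 : ℕ) : ℤ) else 0, ⟨0, by norm_num, fun i => rfl⟩, ?_⟩
    intro i hi w' hw' _ hb'
    exact hex ⟨w', hw', hb'⟩

end Pool.Agent.PRC
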