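import Pool.Agent.PRC.T2

/-!
# PRC: CFN, a periodic enumeration of the classes
-/

set_option autoImplicit false

open MeasureTheory
open scoped Classical

namespace Pool.Agent.PRC

theorem p_CFN : T_CFN := by
  intro d hd
  have hne : Nonempty (Cl d) := ⟨(fun _ => 0, (⟨0, hd⟩, true))⟩
  have hN : 0 < Nc d := Fintype.card_pos
  let φ : Cl d ≃ Fin (Nc d) := Fintype.equivFin (Cl d)
  refine ⟨fun t => φ.symm ⟨t % Nc d, Nat.mod_lt _ hN⟩, fun c t => ?_⟩
  refine ⟨t * Nc d + (φ c : ℕ), Nat.le_add_right _ _, ?_, ?_⟩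
  · have := (φ c).2
    rw [Nat.add_mul, Nat.one_mul]
    omega
  · rw [Equiv.symm_apply_eq]
    ext
    change (t * Nc d + (φ c : ℕ)) % Nc d = _
    rw [Nat.mul_add_mod_self_right, Nat.mod_eq_of_lt (φ c).2]

end Pool.Agent.PRC
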