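import Pool.Agent.PRC.T1

set_option autoImplicit false

open MeasureTheory
open scoped Classical

namespace Pool.Agent.PRC

open TRP (bern law)

theorem CON_mem {I : Type} {J : Set I} {A : Set (I → Bool)} (hA : Dep J A) (ω ω' : I → Bool) :
    mrg J ω ω' ∈ A ↔ ω ∈ A := by
  refine hA _ _ fun i hi => ?_
  simp [mrg, hi]

theorem CON_lint (h_SPL : T_SPL) {I : Type} (q : I → ℝ) (hq : ∀ i, 0 ≤ q i ∧ q i ≤ 1) (J : Set I)
    (A B : Set (I → Bool)) (hA : Dep J A) (mA : MeasurableSet A) (mB : MeasurableSet B) :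
    (law q) (A ∩ B) = ∫⁻ ω in A, (law q) {ω' | mrg J ω ω' ∈ B} ∂(law q) := by
  have := law_prob hq
  obtain ⟨hm, hmap⟩ := h_SPL I q hq J
  conv_lhs => rw [← hmap]
  rw [Measure.map_apply hm (mA.inter mB), Measure.prod_apply (hm (mA.inter mB)),
    ← lintegral_indicator mA]
  refine lintegral_congr fun ω => ?_
  by_cases hω : ω ∈ A
  · rw [Set.indicator_of_mem hω]
    congr 1
    ext ω'
    simp only [Set.mem_preimage, Set.mem_inter_iff, Set.mem_ofPred_eq]
    exact ⟨fun h => h.2, fun h => ⟨(CON_mem hA ω ω').2 hω, h⟩⟩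
  · rw [Set.indicator_of_notMem hω]
    have : (Prod.mk ω ⁻¹' ((fun x : (I → Bool) × (I → Bool) => mrg J x.1 x.2) ⁻¹' (A ∩ B))) = ∅ := by
      refine Set.eq_empty_of_forall_notMem fun ω' h => hω ?_
      exact (CON_mem hA ω ω').1 h.1
    rw [this, measure_empty]

theorem p_CON (h_SPL : T_SPL) : T_CON := by
  intro I q hq J A B c hA mA mB hc
  have := law_prob hq
  have hl := CON_lint h_SPL q hq J A B hA mA mB
  constructor
  · intro h
    have h1 : (law q) (A ∩ B) ≤ ENNReal.ofReal c * (law q) A := by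
      rw [hl]
      calc ∫⁻ ω in A, (law q) {ω' | mrg J ω ω' ∈ B} ∂(law q)
          ≤ ∫⁻ _ in A, ENNReal.ofReal c ∂(law q) := by
            refine setLIntegral_mono' mA fun ω hω => ?_
            rw [← ofReal_measureReal]
            exact ENNReal.ofReal_le_ofReal (h ω hω)
        _ = ENNReal.ofReal c * (law q) A := setLIntegral_const _ _
    have h2 := ENNReal.toReal_mono (ENNReal.mul_ne_top ENNReal.ofReal_ne_top (measure_ne_top _ _)) h1
    rw [ENNReal.toReal_mul, ENNReal.toReal_ofReal hc] at h2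
    exact h2
  · intro h
    have h1 : ENNReal.ofReal c * (law q) A ≤ (law q) (A ∩ B) := by
      rw [hl]
      calc ENNReal.ofReal c * (law q) A = ∫⁻ _ in A, ENNReal.ofReal c ∂(law q) := (setLIntegral_const _ _).symm
        _ ≤ ∫⁻ ω in A, (law q) {ω' | mrg J ω ω' ∈ B} ∂(law q) := by
            refine setLIntegral_mono' mA fun ω hω => ?_
            rw [← ofReal_measureReal (μ := law q) (s := {ω' | mrg J ω ω' ∈ B})]
            exact ENNReal.ofReal_le_ofReal (h ω hω)
    have h2 := ENNReal.toReal_mono (measure_ne_top _ _) h1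
    rw [ENNReal.toReal_mul, ENNReal.toReal_ofReal hc] at h2
    exact h2

end Pool.Agent.PRC
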