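import Pool.Agent.PRC.T1

set_option autoImplicit false

namespace Pool.Agent.PRC

theorem p_DEL : T_DEL := by
  intro N p0 p h0 h01 h1
  have hp0 : p0 < 1 := h01.trans h1
  have hA : 0 < 1 - p0 := by linarith
  set r : ℝ := (1 - p) / (1 - p0) with hr
  have hr0 : 0 < r := div_pos (by linarith) hA
  have hr1 : r < 1 := by rw [hr, div_lt_one hA]; linarith
  have hN : (0 : ℝ) < 2 * ((N : ℝ) + 1) := by positivity
  have hNn : (0 : ℝ) ≤ (N : ℝ) := Nat.cast_nonneg N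
  set δ : ℝ := min p0 ((1 - r) / (2 * ((N : ℝ) + 1))) with hδ
  have hq : 0 < (1 - r) / (2 * ((N : ℝ) + 1)) := div_pos (by linarith) hN
  have hδ0 : 0 < δ := lt_min h0 hq
  have hδp : δ ≤ p0 := min_le_left _ _
  have hδq : δ ≤ (1 - r) / (2 * ((N : ℝ) + 1)) := min_le_right _ _
  have hδ1 : δ < 1 := lt_of_le_of_lt hδp hp0
  have hNd : (N : ℝ) * δ ≤ (1 - r) / 2 := by
    have h2 : (N : ℝ) * δ ≤ (N : ℝ) * ((1 - r) / (2 * ((N : ℝ) + 1))) :=
      mul_le_mul_of_nonneg_left hδq hNn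
    have h3 : (N : ℝ) * ((1 - r) / (2 * ((N : ℝ) + 1))) ≤ (1 - r) / 2 := by
      rw [← mul_div_assoc, div_le_div_iff₀ hN (by norm_num)]
      nlinarith
    linarith
  have hber : 1 - (N : ℝ) * δ ≤ (1 - δ) ^ N := by
    have := one_add_mul_le_pow (a := -δ) (by linarith) N
    have h4 : (1 : ℝ) + -δ = 1 - δ := by ring
    rw [h4] at this
    linarith
  have hpow : r < (1 - δ) ^ N := by linarith
  have hpow0 : 0 < (1 - δ) ^ N := hr0.trans hpow
  have hpow1 : (1 - δ) ^ N ≤ 1 := pow_le_one₀ (by linarith) (by linarith)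
  have hlog0 : Real.log (1 - p0) < 0 := Real.log_neg hA (by linarith)
  have hlogd : Real.log (1 - δ) < 0 := Real.log_neg (by linarith) (by linarith)
  have hloge : Real.log (1 - p0) ≤ Real.log (1 - δ) := Real.log_le_log hA (by linarith)
  refine ⟨δ, 1 - r / (1 - δ) ^ N, Real.log (1 - δ) / Real.log (1 - p0), hδ0, hδ1, ?_, ?_, ?_, ?_, ?_, ?_⟩
  · have : r / (1 - δ) ^ N < 1 := (div_lt_one hpow0).2 hpow
    linarith
  · have : 0 < r / (1 - δ) ^ N := div_pos hr0 hpow0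
    linarith
  · exact div_pos_of_neg_of_neg hlogd hlog0
  · rw [div_le_one_of_neg hlog0]
    exact hloge
  · rw [Real.rpow_def_of_pos hA, mul_div_cancel₀ _ hlog0.ne, Real.exp_log (by linarith)]
  · have h5 : 1 - (1 - r / (1 - δ) ^ N) = r / (1 - δ) ^ N := by ring
    rw [h5, mul_assoc, div_mul_cancel₀ _ hpow0.ne', hr, mul_div_cancel₀ _ hA.ne']

end Pool.Agent.PRC
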