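import Pool.Agent.PRC.T3
import Pool.Agent.PRC.Base

/-!
# PRC: DET, from the origin to a point of the orthant, deterministic part
-/

set_option autoImplicit false

open MeasureTheory Filter Topology
open scoped Classical

namespace Pool.Agent.PRC

noncomputable section

namespace DET_

theorem nonneg_of_kix {d : ℕ} (K : ℕ) (hL : 0 < LL K) (x : Zd d) (h : ∀ i, 0 ≤ kix K x i) :
    ∀ i, 0 ≤ x i := by
  intro i
  have h1 := h i
  unfold kix at h1
  have hp : (0 : ℤ) < (LL K : ℤ) := by exact_mod_cast hL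
  exact (Int.ediv_nonneg_iff_of_pos hp).1 h1

theorem kix_nonneg {d : ℕ} (K : ℕ) (u : Zd d) (h : ∀ i, 0 ≤ u i) : ∀ i, 0 ≤ kix K u i := by
  intro i
  unfold kix
  exact Int.ediv_nonneg (h i) (Int.natCast_nonneg _)

end DET_

theorem p_DET (h_LDR : T_LDR) (h_REC : T_REC) (h_TRF : T_TRF) (h_ADJ : T_ADJ) (h_HHN : T_HHN) :
    T_DET := by
  intro d K X u hd hu h0 hcu hb
  have hL : 0 < LL K := (h_HHN K).2.2.1
  have hk0 : kix K (0 : Zd d) = 0 := by
    funext i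
    simp [kix]
  have hku := DET_.kix_nonneg K u hu
  have hmem0 : (0 : Zd d) ∈ Finset.Icc (0 : Zd d) (kix K u) :=
    Finset.mem_Icc.2 ⟨le_rfl, hku⟩
  have hmemu : kix K u ∈ Finset.Icc (0 : Zd d) (kix K u) :=
    Finset.mem_Icc.2 ⟨hku, le_rfl⟩
  obtain ⟨D, hD⟩ : ∃ D : Set (Zd d), {v | X v = true ∧ ∀ i, 0 ≤ v i} = D := ⟨_, rfl⟩
  have hsub : ∀ w : Zd d, (∀ i, 0 ≤ w i) → {x | X x = true ∧ kix K x = w} ⊆ D := by
    intro w hw x hx
    rw [← hD]
    exact ⟨hx.1, DET_.nonneg_of_kix K hL x (by rw [hx.2]; exact hw)⟩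
  obtain ⟨hX0, hl0⟩ := h_LDR d K X 0 hd h0 (by rw [hk0]; exact hb _ hmem0)
  obtain ⟨hXu, hlu⟩ := h_LDR d K X u hd hcu (hb _ hmemu)
  have hlu' := (Lk.symm adj_symm (show u ∈ {x | X x = true ∧ kix K x = kix K u} from
    ⟨hXu, rfl⟩) hlu).sub (hsub _ hku)
  rw [hk0] at hl0
  have hl0' := hl0.sub (hsub 0 (fun _ => le_rfl))
  have hr := h_REC d 0 (kix K u) 0 (kix K u) hmem0 hmemu
  have ht := h_TRF d (hub X K) (↑(Finset.Icc (0 : Zd d) (kix K u)) : Set (Zd d)) D (HH K)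
    (by
      rintro w hw w' hw' ⟨e, rfl⟩
      have hw1 := Finset.mem_Icc.1 (Finset.mem_coe.1 hw)
      have hw1' := Finset.mem_Icc.1 (Finset.mem_coe.1 hw')
      refine (h_ADJ d K X w e hd (hb _ hw) (hb _ hw')).sub ?_
      rintro v ⟨hv1, hv2⟩
      rcases hv2 with hv2 | hv2
      · exact hsub w hw1.1 ⟨hv1, hv2⟩
      · exact hsub _ hw1'.1 ⟨hv1, hv2⟩)
    _ 0 (kix K u) (Finset.mem_coe.2 hmem0) hr
  refine ⟨hX0, ?_⟩
  rw [hD]
  have h3 := (hl0'.trans ht).trans hlu'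
  refine h3.mono (le_of_eq ?_)
  have h4 : ∑ i, ((0 : Zd d) i - kix K u i).natAbs = ∑ i, (kix K u i).natAbs := by
    refine Finset.sum_congr rfl fun i _ => ?_
    rw [Pi.zero_apply, zero_sub, Int.natAbs_neg]
  rw [h4]
  ring

end

end Pool.Agent.PRC
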