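import Pool.Agent.PRC.T4

/-!
# PRC-EDP: dependence of the exploration event
-/

set_option autoImplicit false

open MeasureTheory Filter Topology
open scoped Classical

namespace Pool.Agent.PRC

open TRP (bern law)

noncomputable section

theorem p_EDP : T_EDP := by
  intro d m n r0 k BB w o
  set F : Finset (Zd d × Ly d) :=
    (BB.biUnion fun v => (rg m n v).image fun x => x + o) ×ˢ
      (Finset.univ.filter fun l : Ly d => l ≠ some none) with hF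
  have hmem : ∀ i : Zd d × Ly d, i ∈ F ↔ (∃ v ∈ BB, i.1 - o ∈ rg m n v) ∧ i.2 ≠ some none := by
    intro i
    rw [hF, Finset.mem_product, Finset.mem_biUnion, Finset.mem_filter]
    constructor
    · rintro ⟨⟨v, hv, h1⟩, -, h2⟩
      rw [Finset.mem_image] at h1
      obtain ⟨x, hx, h3⟩ := h1
      refine ⟨⟨v, hv, ?_⟩, h2⟩
      rw [← h3, add_sub_cancel_right]
      exact hx
    · rintro ⟨⟨v, hv, h1⟩, h2⟩
      refine ⟨⟨v, hv, ?_⟩, Finset.mem_univ _, h2⟩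
      rw [Finset.mem_image]
      exact ⟨i.1 - o, h1, sub_add_cancel _ _⟩
  refine ⟨F, ?_, ?_⟩
  · intro i hi
    obtain ⟨h1, h2⟩ := (hmem i).mp hi
    exact ⟨h2, h1⟩
  · intro ω ω' h
    have hset : {x : Zd d | x ∈ Opn ω ∧ ∃ v ∈ BB, x - o ∈ rg m n v} =
        {x : Zd d | x ∈ Opn ω' ∧ ∃ v ∈ BB, x - o ∈ rg m n v} := by
      ext x
      constructor
      · rintro ⟨⟨l, hl, hx⟩, hv⟩
        have h1 : ω (x, l) = ω' (x, l) := h (x, l) (Finset.mem_coe.mpr ((hmem (x, l)).mpr ⟨hv, hl⟩))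
        exact ⟨⟨l, hl, h1 ▸ hx⟩, hv⟩
      · rintro ⟨⟨l, hl, hx⟩, hv⟩
        have h1 : ω (x, l) = ω' (x, l) := h (x, l) (Finset.mem_coe.mpr ((hmem (x, l)).mpr ⟨hv, hl⟩))
        exact ⟨⟨l, hl, h1.symm ▸ hx⟩, hv⟩
    show (∃ z ∈ Bx (o + bc m n w) (NN m n),
        Lk Adj (↑(Bx o r0) ∪ {x : Zd d | x ∈ Opn ω ∧ ∃ v ∈ BB, x - o ∈ rg m n v}) k o z) ↔
      ∃ z ∈ Bx (o + bc m n w) (NN m n),
        Lk Adj (↑(Bx o r0) ∪ {x : Zd d | x ∈ Opn ω' ∧ ∃ v ∈ BB, x - o ∈ rg m n v}) k o z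
    rw [hset]

end

end Pool.Agent.PRC
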