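import Pool.Agent.PRC.T1

/-!
# PRC: targets D (distances at high density)

Every target is a `Prop` with a complete proof in its docstring; every other target may be taken as
a hypothesis. `Pool/Agent/PRC/Base.lean` has simple proved facts.

Idea: a `(k+1)`-box consists of `bb (k+1) ^ d` boxes of level `k`; it is bad if at least two of
them are bad. Good boxes have a hub (an open site), and the hubs of adjacent good `k`-boxes are
joined by at most `HH k ≤ 2 * LL k` steps inside the two boxes.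
-/

set_option autoImplicit false

open MeasureTheory Filter Topology
open scoped Classical

namespace Pool.Agent.PRC

open TRP (bern law)

noncomputable section

/-! ## D1. Probabilities -/

/-- KIX. Index computations. `v i / LL (k+1) = (v i / LL k) / bb (k+1)` (`Int.ediv_ediv_of_nonneg`
or its present name), and `x / b = w ↔ b * w ≤ x ≤ b * w + b - 1` for `b > 0`. The box with a given
index is a finite set (`Finset.Icc`). -/
def T_KIX : Prop := ∀ (d k : ℕ),
  (∀ v w : Zd d, kix k v ∈ sbx k w ↔ kix (k + 1) v = w) ∧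
  (∀ v w : Zd d, v ∈ sbx k w ↔ ∀ i, v i / (bb (k + 1) : ℤ) = w i) ∧
  (∀ w : Zd d, ∃ F : Finset (Zd d), ∀ v, v ∈ F ↔ kix k v = w) ∧
  (∀ w : Zd d, (sbx k w).card = bb (k + 1) ^ d)

/-- BDP. `bad X k w` depends on the sites of the box: induction on `k` with `T_KIX`. -/
def T_BDP : Prop := ∀ (d k : ℕ) (w : Zd d), ∃ F : Finset (Zd d), (∀ v ∈ F, kix k v = w) ∧
  Dep (↑F : Set (Zd d)) {X : Zd d → Bool | bad X k w}

/-- BPR. Induction on `k`: `P(bad (k+1) w)` is at most the sum over ordered pairs `w₁ ≠ w₂` of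
elements of `sbx k w` of `P(bad k w₁ and bad k w₂) = P(bad k w₁) P(bad k w₂)` (`T_BDP`, `T_IND`: the
boxes are disjoint), at most `(bb (k+1) ^ d) ^ 2 * pib k ^ 2`. -/
def T_BPR : Prop := ∀ (d k : ℕ) (q : ℝ) (w : Zd d), 0 ≤ q → q ≤ 1 →
  (law fun _ : Zd d => q).real {X | bad X k w} ≤ pib d (1 - q) k

/-- PBN. By induction `bb (k+1) ^ d * pib k ≤ θ / 2 ^ (d * (k + 7))`: for `k = 0`,
`2 ^ (5 d) * ε ≤ θ / 2 ^ (7 d)`; the left side for `k + 1` is
`2 ^ (d * (k + 6)) * (bb (k+1) ^ d * pib k) ^ 2 ≤ 2 ^ (d * (k + 6)) * θ ^ 2 / 2 ^ (2 * d * (k + 7))`,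
which is `θ ^ 2 / 2 ^ (d * (k + 8))`. Also `0 ≤ pib`. -/
def T_PBN : Prop := ∀ (d : ℕ) (θ ε : ℝ), 1 ≤ d → 0 < θ → θ ≤ 1 → 0 ≤ ε → ε ≤ θ / 2 ^ (12 * d) →
  ∀ k : ℕ, 0 ≤ pib d ε k ∧ (bb (k + 1) : ℝ) ^ d * pib d ε k ≤ θ / 2 ^ (k + 1)

/-- HHN. `HH k * 2 ^ k ≤ LL k * (2 ^ (k + 1) - 1)` by induction:
`1 + 8 / bb (k+1) = 1 + 1 / 2 ^ (k + 2)` and
`(2 - 2 ^ (-k)) (1 + 2 ^ (-k-2)) ≤ 2 - 2 ^ (-k-1)`. The second statement by induction with
`2 * HH k ≤ HH (k + 1)`. -/
def T_HHN : Prop := ∀ k : ℕ, HH k ≤ 2 * LL k ∧ ∑ j ∈ Finset.range k, HH (j + 1) ≤ 2 * HH k ∧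
  0 < LL k ∧ 0 < HH k

/-! ## D2. Hubs -/

/-- CEN. There is at most one bad subbox (two different ones would make the box bad). If there is
none take `a = 0`. If `v` is bad: a line in direction `0` through the centre with parameter `a`
contains `v` only if `v 1 = bb * w 1 + bb / 2 + a`, a line in direction `1` only if
`v 0 = bb * w 0 + bb / 2 + a`; one of the values `a = 0, 1, 2` satisfies neither equation. -/
def T_CEN : Prop := ∀ (d k : ℕ) (X : Zd d → Bool) (w : Zd d), 2 ≤ d → ¬ bad X (k + 1) w →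
  ∃ c, isc X k w c

/-- CEI. A centre is the index of a good subbox: `bb (k+1) / 2 + 2 ≤ bb (k+1) - 1` because
`bb (k+1) ≥ 32`; take `w' = c` in the second condition of `isc`, `i = 0`. -/
def T_CEI : Prop := ∀ (d k : ℕ) (X : Zd d → Bool) (w c : Zd d), 2 ≤ d → isc X k w c →
  c ∈ sbx k w ∧ ¬ bad X k c

/-- HUB. The hub of a good box is an open site of the box. Induction on `k`: the hub of the
`(k+1)`-box is the hub of the subbox with index `c` (`T_CEN`, `T_CEI`), and `T_KIX`. -/
def T_HUB : Prop := ∀ (d k : ℕ) (X : Zd d → Bool) (w : Zd d), 2 ≤ d → ¬ bad X k w →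
  X (hub X k w) = true ∧ kix k (hub X k w) = w

/-- REC. A monotone path in a box of the lattice, coordinate by coordinate (induction on the
distance `∑ i, |u i - v i|`). -/
def T_REC : Prop := ∀ (d : ℕ) (a b u v : Zd d), u ∈ Finset.Icc a b → v ∈ Finset.Icc a b →
  Lk Adj (↑(Finset.Icc a b) : Set (Zd d)) (∑ i, (u i - v i).natAbs) u v

/-- TRF. Transfer of paths of indices to paths of sites: induction on `n` (`Lk.trans`). -/
def T_TRF : Prop := ∀ (d : ℕ) (f : Zd d → Zd d) (B D : Set (Zd d)) (h : ℕ),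
  (∀ w ∈ B, ∀ w' ∈ B, Adj w w' → Lk Adj D h (f w) (f w')) →
    ∀ (n : ℕ) (u v : Zd d), u ∈ B → Lk Adj B n u v → Lk Adj D (n * h) (f u) (f v)

/-- ADJ. The hubs of adjacent good boxes. Induction on `k`. For `k = 0` the hub is the site itself.
Step: let `w' = w + dv e`, `l = e.1`, `b = bb (k+1)`, `c`, `c'` the centres used in the definition of the
hubs (`T_CEN`). Choose `i` with `i.val ≤ 1`, `i ≠ l`. Both boxes have at most one bad subbox. Choose
`t` among `b * w i + b / 2 + {0, 1, 2}` different from the `i`-th coordinates of the (at most two)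
bad subboxes. Path of indices: from `c` along the line in direction `i` to
`c₁ = Function.update c i t` (in the box `w`, good by `isc`), from there inside the hyperplane
`{x i = t}` to `c₁' = Function.update c' i t` (`T_REC` in the box of the lattice spanned by `c₁` and
`c₁'`, which is contained in `sbx k w ∪ sbx k w'` and in the hyperplane, so it has no bad index), and
along the line to `c'`. The numbers of steps are `|t - c i| ≤ 2`, at most `b + 2 + 2` (coordinate
`l`: at most `b + 2`; the other coordinate with value `≤ 1`, different from `i`, if it is not `l`: at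
most `2`; if it is `l` nothing more; all others `0`; if `l` is not one of the first two
coordinates, the coordinate `l` gives exactly `b`), and `2`; in total at most `b + 8`. Every step
between adjacent good boxes costs at most `HH k` (induction hypothesis, `T_TRF`), inside boxes of
level `k` contained in one of the two boxes (`T_KIX`). -/
def T_ADJ : Prop := ∀ (d k : ℕ) (X : Zd d → Bool) (w : Zd d) (e : Dir d), 2 ≤ d →
  ¬ bad X k w → ¬ bad X k (w + dv e) →
    Lk Adj {v | X v = true ∧ (kix k v = w ∨ kix k v = w + dv e)} (HH k) (hub X k w)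
      (hub X k (w + dv e))

/-- LAD. In a clean box the hub of the subbox containing `v` is joined to the hub of the box: the
box is good (it has no bad subbox), let `c` be its centre; `T_REC` from `kix k v` to `c` in `sbx k w`
(at most `d * (bb (k+1) - 1)` steps), `T_TRF` with `T_ADJ`. -/
def T_LAD : Prop := ∀ (d k : ℕ) (X : Zd d → Bool) (v : Zd d), 2 ≤ d → cln X k (kix (k + 1) v) →
  Lk Adj {x | X x = true ∧ kix (k + 1) x = kix (k + 1) v} (d * bb (k + 1) * HH k)
    (hub X k (kix k v)) (hub X (k + 1) (kix (k + 1) v))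

/-- LDR. The ladder from a site to the hub of its `K`-box: `hub X 0 (kix 0 v) = v`, then `T_LAD` for
`k < K`. The length is at most `∑ k < K, d * bb (k+1) * HH k ≤ d * ∑ k < K, HH (k + 1)`, at most
`2 * d * HH K` by `T_HHN`. The sites are in the `K`-box of `v`. Also `X v = true` (as
`¬ bad X 0 (kix 0 v)`, by `cln X 0` if `K ≥ 1`, by the last hypothesis if `K = 0`). -/
def T_LDR : Prop := ∀ (d K : ℕ) (X : Zd d → Bool) (v : Zd d), 2 ≤ d →
  (∀ k < K, cln X k (kix (k + 1) v)) → ¬ bad X K (kix K v) →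
    X v = true ∧ Lk Adj {x | X x = true ∧ kix K x = kix K v} (2 * d * HH K) v
      (hub X K (kix K v))

/-- DET. From `0` to `u` in the orthant. `T_LDR` for `0` and for `u` (the second one reversed,
`Lk.symm`), and between the hubs of the `K`-boxes `kix K 0 = 0` and `kix K u`: `T_REC` in
`Finset.Icc 0 (kix K u)` (`∑ i, (kix K u i).natAbs` steps), `T_TRF` with `T_ADJ`. Sites whose
`K`-box has nonnegative index have nonnegative coordinates. -/
def T_DET : Prop := ∀ (d K : ℕ) (X : Zd d → Bool) (u : Zd d), 2 ≤ d → (∀ i, 0 ≤ u i) →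
  (∀ k < K, cln X k (kix (k + 1) (0 : Zd d))) → (∀ k < K, cln X k (kix (k + 1) u)) →
  (∀ w ∈ Finset.Icc (0 : Zd d) (kix K u), ¬ bad X K w) →
    X 0 = true ∧ Lk Adj {v | X v = true ∧ ∀ i, 0 ≤ v i}
      ((4 * d + ∑ i, (kix K u i).natAbs) * HH K) 0 u

/-! ## D3. Two points at high density -/

/-- HDO. Orthant version. Let `θ = min 1 (ε / 4)`, `q₀ = 1 - θ / 2 ^ (12 * d)`. Given `u` choose `K`
with `LL K ≤ nm u + 1 < LL (K + 1)` (`LL 0 = 1`, `LL` is unbounded). Then every coordinate of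
`kix K u` is at most `bb (K+1) - 1`, so `Finset.Icc 0 (kix K u)` has at most `bb (K+1) ^ d`
elements, and by `T_BPR`, `T_PBN` (union bounds) the hypotheses of `T_DET` fail with probability at
most `2 ∑ k < K, bb (k+1) ^ d * pib k + bb (K+1) ^ d * pib K ≤ 3 θ`. The length is at most
`(4 d + d * nm u / LL K) * 2 * LL K ≤ 8 d (nm u + 1) + 2 d * nm u` (`T_HHN`). -/
def T_HDO : Prop := ∀ (d : ℕ) (ε : ℝ), 2 ≤ d → 0 < ε → ∃ q₀ : ℝ, 0 < q₀ ∧ q₀ < 1 ∧
  ∀ q : ℝ, q₀ ≤ q → q ≤ 1 → ∀ u : Zd d, (∀ i, 0 ≤ u i) →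
    1 - ε ≤ (law fun _ : Zd d => q).real
      {X | X 0 = true ∧ Lk Adj {v | X v = true ∧ ∀ i, 0 ≤ v i} (16 * d * (nm u + 1)) 0 u}

/-- HDP. Half-space version. If `0 ≤ sg f.2 * (u f.1 - v f.1)` apply `T_HDO` to the point
`(u - v)` reflected: choose signs `s i` with `s i * (u i - v i) ≥ 0` and `s f.1 = sg f.2`; the map
`g x = v + s * x` is an automorphism of the lattice, the law is invariant (`TRP.p_PERM`) under
`X ↦ X ∘ g`; a path from `0` to `s * (u - v)` in the orthant for `X ∘ g` gives a path from `v` to `u`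
for `X` in the half-space (`sg f.2 * (g x) f.1 = sg f.2 * v f.1 + x f.1 ≥ c`). Otherwise exchange `u`
and `v` and reverse the path (`Lk.symm`; both ends are open sites of the half-space). -/
def T_HDP : Prop := ∀ (d : ℕ) (ε : ℝ), 2 ≤ d → 0 < ε → ∃ q₀ : ℝ, 0 < q₀ ∧ q₀ < 1 ∧
  ∀ q : ℝ, q₀ ≤ q → q ≤ 1 → ∀ (f : Dir d) (c : ℤ) (v u : Zd d), c ≤ sg f.2 * v f.1 →
    c ≤ sg f.2 * u f.1 →
    1 - ε ≤ (law fun _ : Zd d => q).real
      {X | X v = true ∧ X u = true ∧ Lk Adj {x | X x = true ∧ c ≤ sg f.2 * x f.1}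
        (16 * d * (nm (u - v) + 1)) v u}

/-- HDC. Avoiding a box. The complement of `Finset.Icc a b` is the union of the half-spaces
`{x | b i < x i}` and `{x | x i < a i}`; each is of the form `{x | c ≤ sg f.2 * x f.1}`. Let `0` be in
the half-space `H` and `w` in `H'`. If `H = H'`: `T_HDP`. If `H`, `H'` belong to different
coordinates `i ≠ j`: the point `v₁` with `v₁ j = w j` and all other coordinates `0` is in both; use
`0 → v₁` in `H`, `v₁ → w` in `H'`. If they are opposite half-spaces for the same coordinate `i`: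
choose `j ≠ i` (`2 ≤ d`), let `v₁` have the coordinate `j` equal to `b j + 1` and all other
coordinates `0`, `v₂` the coordinate `j` equal to `b j + 1` and the others those of `w`; use
`0 → v₁` in `H`, `v₁ → v₂` in `{x | b j < x j}`, `v₂ → w` in `H'`. At most three events of
`T_HDP` with `ε / 3`; the distances are at most `nm w + nm a + nm b + 1`. -/
def T_HDC : Prop := ∀ (d : ℕ) (ε : ℝ), 2 ≤ d → 0 < ε → ∃ (q₀ : ℝ) (C : ℕ), 0 < q₀ ∧ q₀ < 1 ∧
  ∀ q : ℝ, q₀ ≤ q → q ≤ 1 → ∀ a b w : Zd d, 0 ∉ Finset.Icc a b → w ∉ Finset.Icc a b →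
    1 - ε ≤ (law fun _ : Zd d => q).real
      {X | Lk Adj {x | X x = true ∧ x ∉ Finset.Icc a b} (C * (nm w + nm a + nm b + 1)) 0 w}

end

end Pool.Agent.PRC
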