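import Pool.Agent.PRC.T2
import Pool.Agent.PRC.T3
import Pool.Agent.LBL.Env

/-!
# PRC: targets E (root and conclusion)

Every target is a `Prop` with a complete proof in its docstring; every other target may be taken as
a hypothesis. `Pool/Agent/PRC/Base.lean` has simple proved facts.
-/

set_option autoImplicit false

open MeasureTheory Filter Topology
open scoped Classical

namespace Pool.Agent.PRC

open TRP (bern law)

noncomputable section

/-- TRE. Translation: the map `ω ↦ fun (x, l) => ω (x + o, l)` preserves the law (`TRP.p_PERM`: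
`dens` depends on the layer only) and carries the event at the origin to the event at `o`. -/
def T_TRE : Prop := ∀ (d m n r0 k : ℕ) (p0 δ δr : ℝ) (BB : Finset (Zd d)) (w o : Zd d),
  0 ≤ p0 → p0 ≤ 1 → 0 ≤ δ → δ ≤ 1 → 0 ≤ δr → δr ≤ 1 →
    (law (dens d p0 δ δr)).real (EE m n r0 BB k w o) =
      (law (dens d p0 δ δr)).real (EE m n r0 BB k w 0)

/-- EDP. The exploration event depends only on the layers different from the root layer and on the
regions of the blocks of `BB`: immediate from the definitions of `EE` and `Opn`. -/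
def T_EDP : Prop := ∀ (d m n r0 k : ℕ) (BB : Finset (Zd d)) (w o : Zd d),
  ∃ F : Finset (Zd d × Ly d), (∀ i ∈ F, i.2 ≠ some none ∧ ∃ v ∈ BB, i.1 - o ∈ rg m n v) ∧
    Dep (↑F : Set (Zd d × Ly d)) (EE m n r0 BB k w o)

/-- GDP. The root event depends only on the ball of radius `M` and on the root layer. -/
def T_GDP : Prop := ∀ (d M r0 : ℕ) (e : Dir d) (x : Zd d),
  ∃ F : Finset (Zd d × Ly d), (∀ i ∈ F, i.1 ∈ Bx (0 : Zd d) M ∨ i.2 = some none) ∧
    Dep (↑F : Set (Zd d × Ly d)) (Gx M r0 e x)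

/-- ROT. The root. Let `q = dens`, `1 - p = (1 - p0) (1 - δr) (1 - δ) ^ (2 * Nc d)`; under the law
`law q` the configuration `orr ω` has the law `law p` (`T_ORL`), `p < 1`. Choose `k'` with
`(1 - δr ^ ((2 r0 + 1) ^ d)) ^ k' ≤ ε / 2`, `k = 2 d * k' (2 r0 + 1) ^ d` (at least `1`), and `M` with
`P(1 ≤ |Us {0} M (Op (orr ω))| < k) ≤ ε / 2` (`T_USM`). If `InfC (orr ω) 0` then `Us {0} M` is not
empty (`T_UNE`). So it is enough that the event `{|Us {0} M| ≥ k}` and `no Gx` has probability at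
most `ε / 2`: given all the layers in `Bx 0 M` (`T_CON`) with `|Us| ≥ k`, some direction `e` has a
set `V` of at least `k / (2 d)` points `x ∈ Us` with `x e.1 = sg e.2 * M`; the pads beyond these
points are outside `Bx 0 M`, and by `T_PAD` (root layer) none of them is open in the root layer with
probability at most `ε / 2`. (If `ω' = mrg J ω ω''` with `J` the coordinates in `Bx 0 M`, then
`ω'` on the pads is `ω''`.) Here `x ∈ Us` gives the second condition in `Gx`, and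
`InfC (orr ω) 0` gives `orr ω 0 = true`. -/
def T_ROT : Prop := ∀ (d : ℕ) (p0 δ δr : ℝ), 1 ≤ d → 0 < p0 → p0 < 1 → 0 < δ → δ < 1 → 0 < δr →
  δr < 1 → ∀ (r0 : ℕ) (ε : ℝ), 0 < ε → ∃ M : ℕ,
    (law (dens d p0 δ δr)).real
      {ω | InfC (orr ω) 0 ∧ ∀ (e : Dir d), ∀ x ∈ Bx (0 : Zd d) M, x e.1 = sg e.2 * M →
        ω ∉ Gx M r0 e x} ≤ ε

/-- JOI. Joining the pieces. From `0` to `x` in `Bx 0 M` in at most `(2 M + 1) ^ d` steps (`T_RCF`),
from `x` to `o = pc r0 e x` through the pad (the points `x + j • dv e`, `1 ≤ j ≤ r0 + 1`, are in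
the pad for the centre `pc`), and from `o` to `z` in `Bx o r0 ∪ Opn ω`; `Bx o r0` is the pad. All
these sites are in `Op (orr ω)`. -/
def T_JOI : Prop := ∀ (d m n r0 k M : ℕ) (BB : Finset (Zd d)) (e : Dir d) (x w : Zd d)
  (ω : Zd d × Ly d → Bool), ω ∈ Gx M r0 e x → ω ∈ EE m n r0 BB k w (pc r0 e x) →
    orr ω 0 = true ∧ ∃ z ∈ Bx (pc r0 e x + bc m n w) (NN m n),
      Lk Adj (Op (orr ω)) ((2 * M + 1) ^ d + (r0 + 1) + k) 0 z

/-- EXB. The exploration with forbidden blocks. Take `q₀`, `C₀` from `T_HDC`; `η > 0` with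
`η ^ α ≤ 1 - q₀`; `m` from `T_GMT` for `η`, then `n` from `T_GMT` for `δ`. `cf` from `T_CFN`. Given
`r0 ≥ m` put `C = kap d m n r0 * (C₀ * Nc d + 1)`. Given `a b w` let
`k = C₀ * (nm w + nm a + nm b + 1)` and `BB = Bx 0 k` without `Finset.Icc a b`. A path with at most `k`
steps from `0` stays in `Bx 0 k`, so by `T_BAL` the event of `T_HDC` (for `q = 1 - η ^ α`) is
contained in `{X | w ∈ dyn X (sched cf BB (k * Nc d)) {0} {0}}`; `T_EXP` with `T = k * Nc d`, and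
`kap * (k * Nc d + 1) ≤ C * (nm w + nm a + nm b + 1)` (`EE` is monotone in the number of steps). -/
def T_EXB : Prop := ∀ (d : ℕ) (p0 δ δr α : ℝ), 2 ≤ d → 0 < p0 → p0 < 1 → 0 < δ → δ < 1 →
  0 ≤ δr → δr ≤ 1 → 0 < α → α ≤ 1 → (1 - p0) ^ α = 1 - δ → 0 < theta d p0 →
  ∀ ε : ℝ, 0 < ε → ∃ m n : ℕ, ∀ r0 : ℕ, m ≤ r0 → ∃ C : ℕ, ∀ a b w : Zd d,
    0 ∉ Finset.Icc a b → w ∉ Finset.Icc a b → ∃ BB : Finset (Zd d),
      (∀ v ∈ BB, v ∉ Finset.Icc a b) ∧
      1 - ε ≤ (law (dens d p0 δ δr)).real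
        (EE m n r0 BB (C * (nm w + nm a + nm b + 1)) w 0)

/-- FBX. The forbidden blocks, seen from `o` with `|o (e.1)| = M + r0 + 1`, `r0 ≥ 4 N`
(`N = NN m n ≥ 1`): `a i = (-(M + 3 N) - o i) / N`, `b i = (M + 3 N - o i) / N` (integer division).
If `v ∉ Finset.Icc a b` then `v i < a i` or `b i < v i` for some `i`, so `|o i + N * v i| > M + 3 N`,
and the region of `v` relative to `o` does not meet `Bx 0 M`. `0 ∉ Finset.Icc a b`: for `e.2 = true`,
`b (e.1) < 0` because `M + 3 N < M + r0 + 1`; for `e.2 = false`, `a (e.1) ≥ 1` because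
`-(M + 3 N) + (M + r0 + 1) ≥ N`. The block `w i = (y i - o i) / N` of a point `y` satisfies
`0 ≤ y i - o i - N * w i < N`; if `nm y > M + 5 N` then `w ∉ Finset.Icc a b` (in a coordinate with
`|y i| = nm y`). Bounds: `nm a, nm b ≤ 2 M + 3 N + r0 + 2`, `nm w ≤ nm y + M + r0 + 2` (using
`|o i| ≤ M + r0 + 1` and `|x / N| ≤ |x| + 1`). -/
def T_FBX : Prop := ∀ (d m n M r0 : ℕ) (e : Dir d) (o : Zd d), 4 * NN m n ≤ r0 →
  (∀ i, |o i| ≤ M + r0 + 1) → o e.1 = sg e.2 * (M + r0 + 1) → ∃ a b : Zd d,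
    0 ∉ Finset.Icc a b ∧ nm a ≤ 2 * M + 3 * NN m n + r0 + 2 ∧
    nm b ≤ 2 * M + 3 * NN m n + r0 + 2 ∧
    (∀ v, v ∉ Finset.Icc a b → ∀ x, x - o ∈ rg m n v → x ∉ Bx (0 : Zd d) M) ∧
    ∀ y : Zd d, M + 5 * NN m n < nm y → ∃ w : Zd d, w ∉ Finset.Icc a b ∧
      nm w ≤ nm y + M + r0 + 2 ∧ ∀ z ∈ Bx (o + bc m n w) (NN m n), z ∈ Bx y (2 * NN m n)

/-- LNR. Linear distances in the infinite cluster. Take `δ, δr, α` from `T_DEL` with `N = 2 * Nc d`;
`m, n` from `T_EXB` for `ε / 2`; `r0 = max m (4 * NN m n)`; `M` from `T_ROT` for `ε / 2`; `C₀` from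
`T_EXB` for `r0`; `r = M + 5 * NN m n + 1`. If `nm y ≤ r` the event is empty (`0 ∈ Bx y r`,
`Lk 0 0`). Let `nm y > r`. By `T_ORL` (and `T_MSI` for measurability; `T_UNE`-type events are not
needed: the event that there is a path is `∃ y', Lk`, measurable as in `T_MSI`) the probability is that
of the same event for `orr ω` under `law dens`. Indices: pairs `(e, x)` with `x ∈ Bx 0 M`,
`x e.1 = sg e.2 * M`; `o = pc r0 e x` satisfies the hypotheses of `T_FBX`; `a, b, w` from there, `BB`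
from `T_EXB`, `G (e, x) = Gx M r0 e x`, `E (e, x) = EE m n r0 BB k w o` with
`k = C₀ * (nm w + nm a + nm b + 1)`, of probability at least `1 - ε / 2` by `T_TRE`. `T_FST` with
`J = {i | i.1 ∈ Bx 0 M ∨ i.2 = some none}`, `K = {i | i.1 ∉ Bx 0 M ∧ i.2 ≠ some none}` (`T_GDP`,
`T_EDP`, `T_FBX`). Outside the exceptional events of `T_ROT` and `T_FST` some `G (e, x)` and
`E (e, x)` happen, and `T_JOI` gives a path to a point `z ∈ Bx y (2 N) ⊆ Bx y r` with at most
`(2 M + 1) ^ d + r0 + 1 + k ≤ C * (nm y + 1)` steps, `C` independent of `y`. -/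
def T_LNR : Prop := ∀ (d : ℕ) (p0 p : ℝ), 2 ≤ d → 0 < p0 → p0 < p → p < 1 → 0 < theta d p0 →
  ∀ ε : ℝ, 0 < ε → ∃ r C : ℕ, ∀ y : Zd d,
    (law fun _ : Zd d => p).real
      {ω | InfC ω 0 ∧ ¬ ∃ z ∈ Bx y r, Lk Adj (Op ω) (C * (nm y + 1)) 0 z} ≤ ε

/-- BRI. Translation to the definitions of `Pool/Agent/LBL/Env.lean`: `LBL.PP d p = law fun _ => p`,
`LBL.nrm = nm`, `LBL.Nb x y ↔ Adj x y`; `∃ k' ≤ k, LBL.Pth ω k' 0 y` iff `ω 0 = true` and
`Lk Adj (Op ω) k 0 y` (induction on `k`); so `ω ∈ LBL.Inf d ↔ InfC ω 0`. -/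
def T_BRI : Prop := T_LNR → LBL.T_LDI

end

end Pool.Agent.PRC
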