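import Pool.Agent.PRC.Base
import Pool.Agent.PRC.T4

/-!
# PRC, target EXB: the exploration with forbidden blocks
-/

set_option autoImplicit false

open MeasureTheory Filter Topology
open scoped Classical

namespace Pool.Agent.PRC

open TRP (bern law)

noncomputable section

theorem EXB_adj {d : ℕ} {x y : Zd d} {n : ℕ} (h : Adj x y) (hx : x ∈ Bx (0 : Zd d) n) :
    y ∈ Bx (0 : Zd d) (n + 1) := by
  obtain ⟨e, rfl⟩ := h
  rw [mem_Bx_zero] at hx ⊢
  intro i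
  have h1 := hx i
  have h2 : |dv e i| ≤ 1 := by
    by_cases hi : i = e.1
    · rw [hi, dv_self, sg_abs]
    · rw [dv_ne e hi]
      simp
  have h3 : |(x + dv e) i| ≤ |x i| + |dv e i| := by
    rw [Pi.add_apply]
    exact abs_add_le _ _
  push_cast
  linarith

theorem EXB_path {d : ℕ} {D : Set (Zd d)} (K : ℕ) : ∀ (j : ℕ), j ≤ K → ∀ v : Zd d, Lk Adj D j 0 v →
    v ∈ Bx (0 : Zd d) j ∧ Lk Adj {x | x ∈ D ∧ x ∈ Bx (0 : Zd d) K} j 0 v := by
  intro j
  induction j with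
  | zero =>
    intro _ v hv
    have hv' : (0 : Zd d) = v := hv
    subst hv'
    refine ⟨?_, rfl⟩
    rw [mem_Bx_zero]
    intro i
    simp
  | succ j ih =>
    intro hj v hv
    rcases hv with hv | ⟨u, hu, huv, hvD⟩
    · obtain ⟨h1, h2⟩ := ih (by omega) v hv
      refine ⟨?_, Or.inl h2⟩
      rw [mem_Bx_zero] at h1 ⊢
      intro i
      have := h1 i
      push_cast
      linarith
    · obtain ⟨h1, h2⟩ := ih (by omega) u hu
      have h3 := EXB_adj huv h1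
      refine ⟨h3, Or.inr ⟨u, h2, huv, hvD, ?_⟩⟩
      rw [mem_Bx_zero] at h3 ⊢
      intro i
      have h4 := h3 i
      have h5 : ((j + 1 : ℕ) : ℤ) ≤ (K : ℤ) := by exact_mod_cast hj
      linarith

theorem EXB_mono {d m n r0 k k' : ℕ} {BB : Finset (Zd d)} {w o : Zd d} (h : k ≤ k') :
    EE m n r0 BB k w o ⊆ EE m n r0 BB k' w o := by
  rintro ω ⟨z, hz, hl⟩
  exact ⟨z, hz, Lk.mono h hl⟩

theorem p_EXB (h_HDC : T_HDC) (h_GMT : T_GMT) (h_CFN : T_CFN) (h_BAL : T_BAL) (h_EXP : T_EXP) : T_EXB := by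
  intro d p0 δ δr α hd hp0 hp1 hδ0 hδ1 hδr0 hδr1 hα0 hα1 hα hθ ε hε
  obtain ⟨q₀, C₀, hq0, hq1, hHD⟩ := h_HDC d ε hd hε
  have h1q : 0 < 1 - q₀ := by linarith
  set η : ℝ := (1 - q₀) ^ (1 / α) with hη
  have hη0 : 0 < η := Real.rpow_pos_of_pos h1q _
  have hηα : η ^ α = 1 - q₀ := by
    rw [hη, ← Real.rpow_mul h1q.le, one_div, inv_mul_cancel₀ hα0.ne', Real.rpow_one]
  have hqq : 1 - η ^ α = q₀ := by rw [hηα]; ring
  obtain ⟨m, hm⟩ := h_GMT d p0 (by omega) hp0 hp1 hθ η hη0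
  obtain ⟨n, hn⟩ := hm δ hδ0 hδ1.le
  have hGM := hn n le_rfl
  obtain ⟨cf, hcf⟩ := h_CFN d (by omega)
  refine ⟨m, n, ?_⟩
  intro r0 hr0
  refine ⟨kap d m n r0 * (C₀ * Nc d + 1), ?_⟩
  intro a b w ha hw
  set k := C₀ * (nm w + nm a + nm b + 1) with hk
  set BB : Finset (Zd d) := (Bx (0 : Zd d) k).filter fun v => v ∉ Finset.Icc a b with hBB
  refine ⟨BB, ?_, ?_⟩
  · intro v hv
    rw [hBB, Finset.mem_filter] at hv
    exact hv.2
  have h0BB : (0 : Zd d) ∈ BB := by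
    rw [hBB, Finset.mem_filter]
    refine ⟨?_, ha⟩
    rw [mem_Bx_zero]
    intro i
    simp
  have hP : IsProbabilityMeasure (law fun _ : Zd d => q₀) := law_prob fun _ => ⟨hq0.le, hq1.le⟩
  have hdens : ∀ x : Zd d × Ly d, 0 ≤ dens d p0 δ δr x ∧ dens d p0 δ δr x ≤ 1 := by
    intro x
    unfold dens
    split_ifs
    · exact ⟨hp0.le, hp1.le⟩
    · exact ⟨hδr0, hδr1⟩
    · exact ⟨hδ0.le, hδ1.le⟩
  have hP2 : IsProbabilityMeasure (law (dens d p0 δ δr)) := law_prob hdens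
  have h1 := hHD q₀ le_rfl hq1.le a b w ha hw
  have h2 : (law fun _ : Zd d => q₀).real
      {X | Lk Adj {x | X x = true ∧ x ∉ Finset.Icc a b} (C₀ * (nm w + nm a + nm b + 1)) 0 w} ≤
      (law fun _ : Zd d => q₀).real {X | w ∈ dyn X (sched cf BB (k * Nc d)) {0} {0}} := by
    apply measureReal_mono
    · intro X hX
      have hX' : Lk Adj {x | X x = true ∧ x ∉ Finset.Icc a b} k 0 w := hX
      have h3 := (EXB_path k k le_rfl w hX').2
      show w ∈ dyn X (sched cf BB (k * Nc d)) {0} {0}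
      apply h_BAL d k cf BB X w hcf h0BB
      refine Lk.sub ?_ h3
      rintro x ⟨⟨hx1, hx2⟩, hx3⟩
      refine ⟨hx1, ?_⟩
      rw [hBB, Finset.mem_filter]
      exact ⟨hx3, hx2⟩
    · exact measure_ne_top _ _
  have h3 := h_EXP d m n r0 (k * Nc d) p0 δ δr η α cf BB w hp0 hp1 hδ0 hδ1 hδr0 hδr1 hα0 hα1 hα hGM hη0.le
    (by rw [hηα]; linarith) hr0
  rw [hqq] at h3
  have h4 : (law (dens d p0 δ δr)).real (EE m n r0 BB (kap d m n r0 * (k * Nc d + 1)) w 0) ≤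
      (law (dens d p0 δ δr)).real
        (EE m n r0 BB (kap d m n r0 * (C₀ * Nc d + 1) * (nm w + nm a + nm b + 1)) w 0) := by
    apply measureReal_mono
    · apply EXB_mono
      have e : (C₀ * Nc d + 1) * (nm w + nm a + nm b + 1) =
        C₀ * (nm w + nm a + nm b + 1) * Nc d + (nm w + nm a + nm b + 1) := by ring
      have e2 : k * Nc d + 1 ≤ (C₀ * Nc d + 1) * (nm w + nm a + nm b + 1) := by
        rw [e, hk]
        omega
      calc kap d m n r0 * (k * Nc d + 1) ≤ kap d m n r0 * ((C₀ * Nc d + 1) * (nm w + nm a + nm b + 1)) :=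
            Nat.mul_le_mul_left _ e2
        _ = kap d m n r0 * (C₀ * Nc d + 1) * (nm w + nm a + nm b + 1) := by ring
    · exact measure_ne_top _ _
  linarith

end

end Pool.Agent.PRC
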