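import Pool.Agent.PRC.T1

/-!
# PRC, target EXC: a random finite set is closed
-/

set_option autoImplicit false

open MeasureTheory
open scoped Classical

namespace Pool.Agent.PRC

open TRP (bern law)

namespace EXC_

theorem dep_cell {I : Type} {J : Finset I} {A : Set (I → Bool)} {f : (I → Bool) → Finset I}
    (hA : Dep (↑J : Set I) A) (hf : ∀ ω ω' : I → Bool, (∀ i ∈ J, ω i = ω' i) → f ω = f ω')
    (G : Finset I) : Dep (↑J : Set I) (A ∩ {ω | f ω = G}) := by
  intro ω ω' h
  have h1 := hA ω ω' h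
  have h2 : f ω = f ω' := hf ω ω' (fun i hi => h i (Finset.mem_coe.2 hi))
  constructor
  · rintro ⟨ha, hb⟩
    exact ⟨h1.1 ha, by rw [Set.mem_setOf_eq, ← h2]; exact hb⟩
  · rintro ⟨ha, hb⟩
    exact ⟨h1.2 ha, by rw [Set.mem_setOf_eq, h2]; exact hb⟩

theorem dep_closed {I : Type} (G : Finset I) :
    Dep (↑G : Set I) {ω : I → Bool | ∀ i ∈ G, ω i = false} := by
  intro ω ω' h
  constructor
  · intro ha i hi
    rw [← h i (Finset.mem_coe.2 hi)]
    exact ha i hi
  · intro ha i hi
    rw [h i (Finset.mem_coe.2 hi)]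
    exact ha i hi

end EXC_

open EXC_ in
theorem p_EXC (h_IND : T_IND) (h_PRV : T_PRV) : T_EXC := by
  intro I q F J A f hq hA hf hfF hFJ
  have hp : IsProbabilityMeasure (law q) := law_prob hq
  have hmP : ∀ G, MeasurableSet (A ∩ {ω | f ω = G}) := fun G => (dep_cell hA hf G).meas
  have hmN : ∀ G : Finset I, MeasurableSet {ω : I → Bool | ∀ i ∈ G, ω i = false} :=
    fun G => (dep_closed G).meas
  have hval : ∀ G ∈ F.powerset,
      (law q).real ((A ∩ {ω | f ω = G}) ∩ {ω : I → Bool | ∀ i ∈ G, ω i = false}) =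
        (law q).real (A ∩ {ω | f ω = G}) * ∏ i ∈ G, (1 - q i) := by
    intro G hG
    have hdis : Disjoint (↑J : Set I) (↑G : Set I) := by
      rw [Finset.disjoint_coe]
      exact (Finset.disjoint_of_subset_left (Finset.mem_powerset.1 hG) hFJ).symm
    rw [h_IND I q hq ↑J ↑G _ _ (dep_cell hA hf G) (dep_closed G) hdis (hmP G) (hmN G),
      (h_PRV I q G hq).2]
  have hset : {ω | ω ∈ A ∧ ∀ i ∈ f ω, ω i = false} =
      ⋃ G ∈ F.powerset, ((A ∩ {ω | f ω = G}) ∩ {ω : I → Bool | ∀ i ∈ G, ω i = false}) := by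
    ext ω
    simp only [Set.mem_setOf_eq, Set.mem_iUnion, Set.mem_inter_iff]
    constructor
    · rintro ⟨ha, hb⟩
      exact ⟨f ω, Finset.mem_powerset.2 (hfF ω), ⟨ha, rfl⟩, hb⟩
    · rintro ⟨G, _, ⟨ha, hb⟩, hc⟩
      subst hb
      exact ⟨ha, hc⟩
  rw [hset, measureReal_biUnion_finset]
  · rw [Finset.sum_congr rfl hval]
    have hfun : (fun ω => if ω ∈ A then ∏ i ∈ f ω, (1 - q i) else 0) =
        fun ω => ∑ G ∈ F.powerset,
          (A ∩ {ω | f ω = G}).indicator (fun _ => ∏ i ∈ G, (1 - q i)) ω := by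
      funext ω
      by_cases ha : ω ∈ A
      · rw [if_pos ha, Finset.sum_eq_single (f ω)]
        · rw [Set.indicator_of_mem]
          exact ⟨ha, rfl⟩
        · intro G _ hG
          rw [Set.indicator_of_notMem]
          rintro ⟨_, h2⟩
          exact hG h2.symm
        · intro h
          exact absurd (Finset.mem_powerset.2 (hfF ω)) h
      · rw [if_neg ha]
        symm
        apply Finset.sum_eq_zero
        intro G _
        rw [Set.indicator_of_notMem]
        rintro ⟨h1, _⟩
        exact ha h1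
    rw [hfun, integral_finset_sum]
    · apply Finset.sum_congr rfl
      intro G _
      rw [integral_indicator_const _ (hmP G), smul_eq_mul]
    · intro G _
      exact (integrable_const _).indicator (hmP G)
  · intro G _ G' _ hne
    rw [Function.onFun, Set.disjoint_left]
    rintro ω ⟨⟨_, h1⟩, _⟩ ⟨⟨_, h2⟩, _⟩
    exact hne (h1.symm.trans h2)
  · intro G _
    exact (hmP G).inter (hmN G)

end Pool.Agent.PRC
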