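import Pool.Agent.PRC.T2

set_option autoImplicit false

/-! Job PRC-EXL: assembly of the exploration facts. -/

namespace Pool.Agent.PRC

theorem p_EXL (h_IVC : T_IVC) (h_IVT : T_IVT) (h_IVL : T_IVL) (h_JMO : T_JMO) (h_FNF : T_FNF)
    (h_STO : T_STO) : T_EXL := by
  intro d m n r0 T cf BB
  refine ⟨?_, ?_, ?_, ?_⟩
  · intro τ l s ω h
    obtain ⟨h1, h2, h3, h4⟩ := h_IVT d m n r0 T cf BB τ l s ω h
    exact ⟨h1, h_IVC d m n r0 T cf BB τ l s ω h, h2, h3, h4, h_IVL d m n r0 T cf BB τ l s ω h⟩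
  · intro τ l s ω _
    exact h_JMO d m n τ s ω
  · intro τ l s _
    exact h_FNF d m n τ s
  · intro τ l s ω ω' h h'
    exact h_STO d m n r0 T cf BB τ l s ω ω' h h'

end Pool.Agent.PRC
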