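import Pool.Agent.PRC.T2

/-!
# PRC: target EXP, the conclusion of the exploration
-/

set_option autoImplicit false

open MeasureTheory Filter Topology
open scoped Classical

namespace Pool.Agent.PRC

open TRP (bern law)

namespace EXP_

theorem val_nonneg {d : ℕ} (q : ℝ) (w : Zd d) (l : List (Ln d)) (C E : Finset (Zd d)) :
    0 ≤ val q w l C E := measureReal_nonneg

theorem val_le_one {d : ℕ} {q : ℝ} (h0 : 0 ≤ q) (h1 : q ≤ 1) (w : Zd d) (l : List (Ln d))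
    (C E : Finset (Zd d)) : val q w l C E ≤ 1 := by
  have : IsProbabilityMeasure (law fun _ : Zd d => q) := law_prob fun _ => ⟨h0, h1⟩
  exact measureReal_le_one

theorem val_nil_mem {d : ℕ} {q : ℝ} (h0 : 0 ≤ q) (h1 : q ≤ 1) {w : Zd d}
    {C : Finset (Zd d)} (E : Finset (Zd d)) (h : w ∈ C) : val q w [] C E = 1 := by
  have : IsProbabilityMeasure (law fun _ : Zd d => q) := law_prob fun _ => ⟨h0, h1⟩
  unfold val
  have : {X : Zd d → Bool | w ∈ dyn X [] C E} = Set.univ := by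
    ext X
    simp [dyn, h]
  rw [this]
  exact probReal_univ

theorem val_nil_not {d : ℕ} {q : ℝ} {w : Zd d}
    {C : Finset (Zd d)} (E : Finset (Zd d)) (h : w ∉ C) : val q w [] C E = 0 := by
  unfold val
  have : {X : Zd d → Bool | w ∈ dyn X [] C E} = ∅ := by
    ext X
    simp [dyn, h]
  rw [this]
  exact measureReal_empty

theorem inv_run {S T I : Type} {F : T → S → (I → Bool) → S} {J : S → Set I}
    {P : List T → S → Prop} (hE : Expl F J P) (ω : I → Bool) :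
    ∀ (l : List T) (s : S), P l s → P [] (run F l s ω) := by
  intro l
  induction l with
  | nil => intro s hs; exact hs
  | cons τ l ih => intro s hs; exact ih _ (hE.inv τ l s ω hs)

theorem dens_bd {d : ℕ} {p0 δ δr : ℝ} (hp0 : 0 < p0) (hp01 : p0 < 1) (hδ : 0 < δ) (hδ1 : δ < 1)
    (hδr : 0 ≤ δr) (hδr1 : δr ≤ 1) (i : Zd d × Ly d) :
    0 ≤ dens d p0 δ δr i ∧ dens d p0 δ δr i ≤ 1 := by
  unfold dens
  split_ifs
  · exact ⟨hp0.le, hp01.le⟩
  · exact ⟨hδr, hδr1⟩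
  · exact ⟨hδ.le, hδ1.le⟩

/-- the final state gives the path -/
theorem path {d m n r0 T : ℕ} {cf : ℕ → Cl d} {BB : Finset (Zd d)} {s : St d}
    (hinv : Inv m n r0 cf BB T [] s) {ω : Zd d × Ly d → Bool}
    (hop : (↑s.R : Set (Zd d)) ⊆ ↑(Bx (0 : Zd d) r0) ∪ Opn ω) {w : Zd d} (hw : w ∈ s.C) :
    ω ∈ EE m n r0 BB (kap d m n r0 * (T + 1)) w 0 := by
  obtain ⟨hc1, hc2⟩ := hinv.cen w hw
  have hsub : (↑s.R : Set (Zd d)) ⊆
      ↑(Bx (0 : Zd d) r0) ∪ {x | x ∈ Opn ω ∧ ∃ v ∈ BB, x - 0 ∈ rg m n v} := by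
    intro x hx
    rcases hop hx with h | h
    · exact Or.inl h
    · rcases hinv.len x (Finset.mem_coe.1 hx) with h' | ⟨τ, hτ, hxτ, _⟩
      · exact Or.inl (Finset.mem_coe.2 h'.1)
      · refine Or.inr ⟨h, τ.2.1, (hinv.trd τ hτ).2.2.1, ?_⟩
        rw [sub_zero]
        exact hxτ
  have hz : s.cen w ∈ s.R := by
    apply hc1
    rw [mem_Bx]
    intro i
    simp
  refine ⟨s.cen w, ?_, ?_⟩
  · rw [zero_add]
    exact hc2
  · rcases hinv.len _ hz with h' | ⟨τ, hτ, _, hl⟩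
    · exact (h'.2.sub hsub).mono (Nat.le_mul_of_pos_right _ (Nat.succ_pos T))
    · refine (hl.sub hsub).mono (Nat.mul_le_mul_left _ ?_)
      have := (hinv.trd τ hτ).2.2.2.1
      omega

end EXP_

open EXP_

theorem p_EXP (h_MAR : T_MAR) (h_RFN : T_RFN) (h_EXL : T_EXL) (h_IV0 : T_IV0) (h_SCH : T_SCH)
    (h_SUB : T_SUB) (h_OPN : T_OPN) : T_EXP := by
  intro d m n r0 T p0 δ δr η α cf BB w hp0 hp01 hδ hδ1 hδr hδr1 hα hα1 hαδ hGM hη0 hη hm
  have hD : ∀ i, 0 ≤ dens d p0 δ δr i ∧ dens d p0 δ δr i ≤ 1 :=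
    dens_bd hp0 hp01 hδ hδ1 hδr hδr1
  have hprob : IsProbabilityMeasure (law (dens d p0 δ δr)) := law_prob hD
  have hq0 : 0 ≤ 1 - η ^ α := by linarith
  have hq1 : 1 - η ^ α ≤ 1 := by
    have := Real.rpow_nonneg hη0 α
    linarith
  have hinv : Inv m n r0 cf BB T (sched cf BB T) (s0 r0) :=
    h_IV0 d m n r0 T cf BB _ hm (h_SCH d T cf BB)
  have hexl := h_EXL d m n r0 T cf BB
  have hmar := h_MAR (St d) (Ln d) (Zd d × Ly d) (dens d p0 δ δr) (FF m n) (JJ m n)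
    (Inv m n r0 cf BB T) (fun l s => val (1 - η ^ α) w l s.C s.E) hD hexl
    (fun l s => ⟨val_nonneg _ _ _ _ _, val_le_one hq0 hq1 _ _ _ _⟩)
    (fun τ l s hP => h_SUB d m n r0 T p0 δ δr η α cf BB w τ l s hp0 hp01 hδ hδ1 hδr hδr1 hα hα1
      hαδ hGM hη hP) (sched cf BB T) (s0 r0) hinv
  refine le_trans (show _ ≤ _ from hmar) ?_
  set S : Set (Zd d × Ly d → Bool) := {ω | w ∈ (run (FF m n) (sched cf BB T) (s0 r0) ω).C} with hS
  have hSm : MeasurableSet S := by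
    obtain ⟨K, hK⟩ := h_RFN (St d) (Ln d) (Zd d × Ly d) (FF m n) (JJ m n)
      (Inv m n r0 cf BB T) hexl (sched cf BB T) (s0 r0) hinv
    have : Dep (↑K : Set (Zd d × Ly d)) S := by
      intro ω ω' hω
      have := hK ω ω' (fun i hi => hω i (Finset.mem_coe.2 hi))
      simp only [hS, Set.mem_setOf_eq, this]
    exact this.meas
  have hint : (fun ω => val (1 - η ^ α) w [] (run (FF m n) (sched cf BB T) (s0 r0) ω).C
      (run (FF m n) (sched cf BB T) (s0 r0) ω).E) = S.indicator 1 := by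
    funext ω
    by_cases h : w ∈ (run (FF m n) (sched cf BB T) (s0 r0) ω).C
    · rw [val_nil_mem hq0 hq1 _ h, Set.indicator_of_mem (show ω ∈ S from h)]
      rfl
    · rw [val_nil_not _ h, Set.indicator_of_notMem (show ω ∉ S from h)]
  show ∫ ω, (fun ω => val (1 - η ^ α) w [] (run (FF m n) (sched cf BB T) (s0 r0) ω).C
      (run (FF m n) (sched cf BB T) (s0 r0) ω).E) ω ∂(law (dens d p0 δ δr)) ≤ _
  rw [hint, integral_indicator_one hSm]
  refine measureReal_mono ?_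
  intro ω hω
  exact path (inv_run hexl ω _ _ hinv) (h_OPN d m n (sched cf BB T) (s0 r0) ω) hω

end Pool.Agent.PRC
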