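import Pool.Agent.PRC.T4

/-!
# PRC, job FBX: forbidden blocks
-/

set_option autoImplicit false

namespace Pool.Agent.PRC

namespace FBX_

/-- `|x / N| ≤ |x| + 1` -/
theorem abs_div_le (x N : ℤ) (hN : 0 < N) : |x / N| ≤ |x| + 1 := by
  have h1 : N * (x / N) ≤ x := Int.mul_ediv_self_le hN.ne'
  have h2 : x < N * (x / N) + N := Int.lt_mul_ediv_self_add hN
  rw [abs_le]
  rcases le_total 0 (x / N) with h | h
  · constructor
    · have := abs_nonneg x
      linarith
    · have h3 : x / N ≤ N * (x / N) := by nlinarith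
      have := le_abs_self x
      linarith
  · constructor
    · have h3 : x - N < N * (x / N) := by linarith
      have h4 : N * (x / N) ≤ x / N := by nlinarith
      by_contra hc
      push Not at hc
      have h5 : x / N ≤ -|x| - 2 := by linarith
      have h6 : N * (x / N) ≤ N * (-|x| - 2) := by nlinarith
      have h7 := neg_abs_le x
      nlinarith [abs_nonneg x]
    · have := abs_nonneg x
      linarith

theorem NN_pos (m n : ℕ) : (0 : ℤ) < (NN m n : ℤ) := by
  unfold NN
  push_cast
  omega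

theorem bc_apply {d : ℕ} (m n : ℕ) (v : Zd d) (i : Fin d) : bc m n v i = (NN m n : ℤ) * v i := by
  simp [bc]

theorem not_mem_Icc {d : ℕ} {a b v : Zd d} (h : v ∉ Finset.Icc a b) :
    ∃ i, v i < a i ∨ b i < v i := by
  by_contra hc
  push Not at hc
  exact h (Finset.mem_Icc.2 ⟨fun i => (hc i).1, fun i => (hc i).2⟩)

end FBX_

theorem p_FBX : T_FBX := by
  intro d m n M r0 e o hr ho hoe
  have hN := FBX_.NN_pos m n
  set N : ℤ := (NN m n : ℤ) with hNdef
  have hrZ : 4 * N ≤ (r0 : ℤ) := by
    rw [hNdef]; exact_mod_cast hr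
  have ha1 : ∀ t : ℤ, N * (t / N) ≤ t := fun t => Int.mul_ediv_self_le hN.ne'
  have ha2 : ∀ t : ℤ, t < N * (t / N) + N := fun t => Int.lt_mul_ediv_self_add hN
  refine ⟨fun i => (-((M : ℤ) + 3 * N) - o i) / N, fun i => ((M : ℤ) + 3 * N - o i) / N,
    ?_, ?_, ?_, ?_, ?_⟩
  · intro h0
    rw [Finset.mem_Icc] at h0
    have hA := h0.1 e.1
    have hB := h0.2 e.1
    simp only [Pi.zero_apply] at hA hB
    rw [hoe] at hA hB
    rcases he : e.2 with _ | _
    · rw [he] at hA hB
      simp only [sg, Bool.false_eq_true, if_false] at hA hB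
      have h1 := ha2 (-((M : ℤ) + 3 * N) - -1 * ((M : ℤ) + r0 + 1))
      have h2 : N * ((-((M : ℤ) + 3 * N) - -1 * ((M : ℤ) + r0 + 1)) / N) ≤ 0 :=
        mul_nonpos_of_nonneg_of_nonpos hN.le hA
      linarith
    · rw [he] at hA hB
      simp only [sg, if_true] at hA hB
      have h1 := ha1 ((M : ℤ) + 3 * N - 1 * ((M : ℤ) + r0 + 1))
      have h2 : 0 ≤ N * (((M : ℤ) + 3 * N - 1 * ((M : ℤ) + r0 + 1)) / N) :=
        mul_nonneg hN.le hB
      linarith
  · rw [nm_le]
    intro i
    refine (FBX_.abs_div_le _ N hN).trans ?_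
    have h1 := ho i
    rw [abs_le] at h1
    have h2 : |-((M : ℤ) + 3 * N) - o i| ≤ (M + 3 * N) + (M + r0 + 1) := by
      rw [abs_le]
      constructor <;> linarith [h1.1, h1.2]
    push_cast
    linarith
  · rw [nm_le]
    intro i
    refine (FBX_.abs_div_le _ N hN).trans ?_
    have h1 := ho i
    rw [abs_le] at h1
    have h2 : |(M : ℤ) + 3 * N - o i| ≤ (M + 3 * N) + (M + r0 + 1) := by
      rw [abs_le]
      constructor <;> linarith [h1.1, h1.2]
    push_cast
    linarith
  · intro v hv x hx hxM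
    obtain ⟨i, hi⟩ := FBX_.not_mem_Icc hv
    rw [rg, mem_Bx] at hx
    rw [mem_Bx_zero] at hxM
    have h1 := hx i
    have h2 := hxM i
    rw [FBX_.bc_apply, ← hNdef, Pi.sub_apply, abs_le] at h1
    rw [abs_le] at h2
    push_cast at h1
    rw [← hNdef] at h1
    rcases hi with hi | hi
    · have h3 : N * (v i + 1) ≤ N * ((-((M : ℤ) + 3 * N) - o i) / N) :=
        mul_le_mul_of_nonneg_left (by simpa using hi) hN.le
      have h4 := ha1 (-((M : ℤ) + 3 * N) - o i)
      linarith [h1.1, h1.2, h2.1, h2.2]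
    · have h3 : N * ((((M : ℤ) + 3 * N - o i) / N) + 1) ≤ N * v i :=
        mul_le_mul_of_nonneg_left (by simpa using hi) hN.le
      have h4 := ha2 ((M : ℤ) + 3 * N - o i)
      linarith [h1.1, h1.2, h2.1, h2.2]
  · intro y hy
    refine ⟨fun i => (y i - o i) / N, ?_, ?_, ?_⟩
    · intro hw
      have hny : ¬ nm y ≤ M + 5 * NN m n := not_le.2 hy
      rw [nm_le] at hny
      push Not at hny
      obtain ⟨i, hi⟩ := hny
      push_cast at hi
      rw [← hNdef] at hi
      rw [Finset.mem_Icc] at hw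
      have hA := hw.1 i
      have hB := hw.2 i
      simp only at hA hB
      have h1 := ha1 (y i - o i)
      have h2 := ha2 (y i - o i)
      have h3 := ha1 ((M : ℤ) + 3 * N - o i)
      have h4 := ha2 (-((M : ℤ) + 3 * N) - o i)
      have h5 : N * ((-((M : ℤ) + 3 * N) - o i) / N) ≤ N * ((y i - o i) / N) :=
        mul_le_mul_of_nonneg_left hA hN.le
      have h6 : N * ((y i - o i) / N) ≤ N * (((M : ℤ) + 3 * N - o i) / N) :=
        mul_le_mul_of_nonneg_left hB hN.le
      rcases lt_abs.1 hi with h | h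
      · linarith
      · linarith
    · rw [nm_le]
      intro i
      refine (FBX_.abs_div_le _ N hN).trans ?_
      have h1 := ho i
      have h2 := abs_le_nm y i
      have h3 : |y i - o i| ≤ |y i| + |o i| := abs_sub _ _
      push_cast
      linarith
    · intro z hz
      rw [mem_Bx] at hz ⊢
      intro i
      have h1 := hz i
      rw [Pi.add_apply, FBX_.bc_apply, ← hNdef, abs_le] at h1
      have h2 := ha1 (y i - o i)
      have h3 := ha2 (y i - o i)
      push_cast
      rw [← hNdef, abs_le]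
      constructor <;> linarith [h1.1, h1.2]

end Pool.Agent.PRC
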