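import Pool.Agent.PRC.T1
import Pool.Agent.TRP.P_RES

/-!
# PRC-FKG: Harris' inequality (helper13)
-/

set_option autoImplicit false

open MeasureTheory
open scoped Classical

noncomputable section

namespace Pool.Agent.PRC

open TRP (bern law)

namespace FKG_

/-- antitone functions of configurations -/
def Anti {I : Type} (f : (I → Bool) → ℝ) : Prop :=
  ∀ ω ω' : I → Bool, (∀ i, ω i = true → ω' i = true) → f ω' ≤ f ω

/-- functions of the coordinates in `F` -/
def On {I : Type} (F : Finset I) (f : (I → Bool) → ℝ) : Prop :=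
  ∀ ω ω' : I → Bool, (∀ i ∈ F, ω i = ω' i) → f ω = f ω'

/-- values in the unit interval -/
def U01 {I : Type} (f : (I → Bool) → ℝ) : Prop := ∀ ω, 0 ≤ f ω ∧ f ω ≤ 1

theorem intg {I : Type} {q : I → ℝ} (hq : ∀ i, 0 ≤ q i ∧ q i ≤ 1) {F : Finset I}
    {f : (I → Bool) → ℝ} (h1 : On F f) (h2 : U01 f) : Integrable f (law q) := by
  have := law_prob hq
  refine Integrable.of_bound (C := 1) (meas_of_fin h1).aestronglyMeasurable ?_
  refine Filter.Eventually.of_forall fun ω => ?_
  rw [Real.norm_eq_abs, abs_le]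
  constructor <;> linarith [(h2 ω).1, (h2 ω).2]

theorem On.mul {I : Type} {F : Finset I} {f g : (I → Bool) → ℝ} (h1 : On F f) (h2 : On F g) :
    On F (fun ω => f ω * g ω) := fun ω ω' h => by
  simp only [h1 ω ω' h, h2 ω ω' h]

theorem U01.mul {I : Type} {f g : (I → Bool) → ℝ} (h1 : U01 f) (h2 : U01 g) :
    U01 (fun ω => f ω * g ω) := fun ω =>
  ⟨mul_nonneg (h1 ω).1 (h2 ω).1, mul_le_one₀ (h1 ω).2 (h2 ω).1 (h2 ω).2⟩

theorem On.upd {I : Type} {F : Finset I} {y : I} {f : (I → Bool) → ℝ}
    (h : On (insert y F) f) (b : Bool) : On F (fun ω => f (Function.update ω y b)) := by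
  intro ω ω' h'
  refine h _ _ fun i hi => ?_
  by_cases hiy : i = y
  · subst hiy
    simp
  · have : i ∈ F := (Finset.mem_insert.1 hi).resolve_left hiy
    simp [hiy, h' i this]

theorem Anti.upd {I : Type} {y : I} {f : (I → Bool) → ℝ} (h : Anti f) (b : Bool) :
    Anti (fun ω => f (Function.update ω y b)) := by
  intro ω ω' h'
  refine h _ _ fun i => ?_
  by_cases hiy : i = y
  · subst hiy
    simp
  · simpa [hiy] using h' i

theorem Anti.le {I : Type} {y : I} {f : (I → Bool) → ℝ} (h : Anti f) (ω : I → Bool) :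
    f (Function.update ω y true) ≤ f (Function.update ω y false) := by
  refine h _ _ fun i => ?_
  by_cases hiy : i = y
  · subst hiy
    simp
  · simp [hiy]

/-- one step of resampling -/
theorem res {I : Type} {q : I → ℝ} (hq : ∀ i, 0 ≤ q i ∧ q i ≤ 1) {F : Finset I} {y : I}
    {f : (I → Bool) → ℝ} (h1 : On (insert y F) f) (h2 : U01 f) :
    ∫ ω, f ω ∂(law q) = q y * ∫ ω, f (Function.update ω y true) ∂(law q) +
      (1 - q y) * ∫ ω, f (Function.update ω y false) ∂(law q) := by
  have h := (TRP.p_RES I q hq).2 f 1 (meas_of_fin h1)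
    (fun ω => by rw [abs_le]; constructor <;> linarith [(h2 ω).1, (h2 ω).2]) y
  have i1 : Integrable (fun ω => f (Function.update ω y true)) (law q) :=
    intg hq (On.upd h1 true) fun ω => h2 _
  have i2 : Integrable (fun ω => f (Function.update ω y false)) (law q) :=
    intg hq (On.upd h1 false) fun ω => h2 _
  rw [h, integral_add (i1.const_mul _) (i2.const_mul _), integral_const_mul, integral_const_mul]

theorem harris {I : Type} {q : I → ℝ} (hq : ∀ i, 0 ≤ q i ∧ q i ≤ 1) (F : Finset I) :
    ∀ f g : (I → Bool) → ℝ, On F f → On F g → Anti f → Anti g → U01 f → U01 g →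
      (∫ ω, f ω ∂(law q)) * (∫ ω, g ω ∂(law q)) ≤ ∫ ω, f ω * g ω ∂(law q) := by
  have hp := law_prob hq
  induction F using Finset.induction_on with
  | empty =>
    intro f g hf hg _ _ _ _
    have e1 : f = fun _ => f (fun _ => true) := by
      funext ω
      exact hf _ _ (by simp)
    have e2 : g = fun _ => g (fun _ => true) := by
      funext ω
      exact hg _ _ (by simp)
    rw [e1, e2]
    simp
  | insert y F _ ih =>
    intro f g hf hg af ag uf ug
    have b1 := ih (fun ω => f (Function.update ω y true)) (fun ω => g (Function.update ω y true))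
      (On.upd hf true) (On.upd hg true) (Anti.upd af true) (Anti.upd ag true)
      (fun ω => uf _) (fun ω => ug _)
    have b0 := ih (fun ω => f (Function.update ω y false))
      (fun ω => g (Function.update ω y false))
      (On.upd hf false) (On.upd hg false) (Anti.upd af false) (Anti.upd ag false)
      (fun ω => uf _) (fun ω => ug _)
    have c1 : ∫ ω, f (Function.update ω y true) ∂(law q) ≤
        ∫ ω, f (Function.update ω y false) ∂(law q) :=
      integral_mono (intg hq (On.upd hf true) fun ω => uf _)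
        (intg hq (On.upd hf false) fun ω => uf _) fun ω => Anti.le af ω
    have c2 : ∫ ω, g (Function.update ω y true) ∂(law q) ≤
        ∫ ω, g (Function.update ω y false) ∂(law q) :=
      integral_mono (intg hq (On.upd hg true) fun ω => ug _)
        (intg hq (On.upd hg false) fun ω => ug _) fun ω => Anti.le ag ω
    rw [res hq hf uf, res hq hg ug, res hq (On.mul hf hg) (U01.mul uf ug)]
    obtain ⟨q0, q1⟩ := hq y
    generalize (∫ ω, f (Function.update ω y true) ∂(law q)) = a1 at *
    generalize (∫ ω, f (Function.update ω y false) ∂(law q)) = a0 at *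
    generalize (∫ ω, g (Function.update ω y true) ∂(law q)) = d1 at *
    generalize (∫ ω, g (Function.update ω y false) ∂(law q)) = d0 at *
    have k1 := mul_le_mul_of_nonneg_left b1 q0
    have k0 := mul_le_mul_of_nonneg_left b0 (sub_nonneg.2 q1)
    have k2 : 0 ≤ q y * (1 - q y) * ((a0 - a1) * (d0 - d1)) :=
      mul_nonneg (mul_nonneg q0 (sub_nonneg.2 q1))
        (mul_nonneg (sub_nonneg.2 c1) (sub_nonneg.2 c2))
    nlinarith [k0, k1, k2]

/-- the indicator function -/
def ind {I : Type} (A : Set (I → Bool)) (ω : I → Bool) : ℝ := if ω ∈ A then 1 else 0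

theorem ind_on {I : Type} {F : Finset I} {A : Set (I → Bool)} (h : Dep (↑F : Set I) A) :
    On F (ind A) := by
  intro ω ω' h'
  unfold ind
  rw [if_congr (h ω ω' fun i hi => h' i (Finset.mem_coe.1 hi)) rfl rfl]

theorem ind_anti {I : Type} {A : Set (I → Bool)} (h : Dec A) : Anti (ind A) := by
  intro ω ω' h'
  unfold ind
  by_cases h1 : ω' ∈ A
  · rw [if_pos h1, if_pos (h ω ω' h' h1)]
  · rw [if_neg h1]
    split_ifs <;> norm_num

theorem ind_01 {I : Type} (A : Set (I → Bool)) : U01 (ind A) := by
  intro ω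
  unfold ind
  split_ifs <;> norm_num

theorem ind_int {I : Type} {q : I → ℝ} (hq : ∀ i, 0 ≤ q i ∧ q i ≤ 1) {F : Finset I}
    {A : Set (I → Bool)} (h : Dep (↑F : Set I) A) :
    ∫ ω, ind A ω ∂(law q) = (law q).real A := by
  have hp := law_prob hq
  have e : ind A = A.indicator 1 := by
    funext ω
    unfold ind
    by_cases h1 : ω ∈ A
    · simp [h1]
    · simp [h1]
  rw [e, integral_indicator_one h.meas]

end FKG_

theorem p_FKG : T_FKG := by
  intro I q F A B hq dA dB hA hB
  have h := FKG_.harris hq F (FKG_.ind A) (FKG_.ind B) (FKG_.ind_on hA) (FKG_.ind_on hB)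
    (FKG_.ind_anti dA) (FKG_.ind_anti dB) (FKG_.ind_01 A) (FKG_.ind_01 B)
  have e : (fun ω => FKG_.ind A ω * FKG_.ind B ω) = FKG_.ind (A ∩ B) := by
    funext ω
    unfold FKG_.ind
    by_cases h1 : ω ∈ A <;> by_cases h2 : ω ∈ B <;> simp [h1, h2]
  rw [e, FKG_.ind_int hq hA, FKG_.ind_int hq hB, FKG_.ind_int hq (hA.inter hB)] at h
  exact h

end Pool.Agent.PRC
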