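import Pool.Agent.PRC.T1

/-!
# PRC, FKN: Harris inequality for several events
-/

set_option autoImplicit false

open MeasureTheory
open scoped Classical

namespace Pool.Agent.PRC

open TRP (bern law)

theorem p_FKN (h_FKG : T_FKG) : T_FKN := by
  intro I ι q F S A hq
  haveI := law_prob hq
  induction S using Finset.induction_on with
  | empty =>
    intro _
    simp
  | insert a S ha ih =>
    intro hA
    have h1 := hA a (Finset.mem_insert_self a S)
    have hS : ∀ s ∈ S, Dec (A s) ∧ Dep (↑F : Set I) (A s) :=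
      fun s hs => hA s (Finset.mem_insert_of_mem hs)
    have ih' := ih hS
    have hdec : Dec {ω : I → Bool | ∀ s ∈ S, ω ∈ A s} :=
      fun ω ω' hle hω' s hs => (hS s hs).1 ω ω' hle (hω' s hs)
    have hdep : Dep (↑F : Set I) {ω : I → Bool | ∀ s ∈ S, ω ∈ A s} := by
      intro ω ω' hωω'
      constructor
      · intro hω s hs
        exact ((hS s hs).2 ω ω' hωω').1 (hω s hs)
      · intro hω s hs
        exact ((hS s hs).2 ω ω' hωω').2 (hω s hs)
    have h2 := h_FKG I q F (A a) {ω : I → Bool | ∀ s ∈ S, ω ∈ A s} hq h1.1 hdec h1.2 hdep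
    have heq : {ω : I → Bool | ∀ s ∈ insert a S, ω ∈ A s} =
        A a ∩ {ω : I → Bool | ∀ s ∈ S, ω ∈ A s} := by
      ext ω
      simp [Finset.forall_mem_insert]
    rw [heq, Finset.prod_insert ha]
    exact (mul_le_mul_of_nonneg_left ih' measureReal_nonneg).trans h2

end Pool.Agent.PRC
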