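import Pool.Agent.PRC.T2

set_option autoImplicit false

open MeasureTheory
open scoped Classical

namespace Pool.Agent.PRC

namespace FNF_

theorem frt_eq {d : ℕ} {Λ : Type} (R : Finset (Zd d)) (z : Zd d) (n : ℕ) (b : Λ)
    {ω ω' : Zd d × Λ → Bool} (h : ∀ y ∈ Bx z n, ω (y, b) = ω' (y, b)) :
    frt R z n b ω = frt R z n b ω' := by
  unfold frt
  ext y
  rw [Finset.mem_filter, Finset.mem_filter]
  constructor
  · rintro ⟨h1, h2⟩
    exact ⟨h1, by rw [← h y (Finset.mem_inter.1 h1).2]; exact h2⟩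
  · rintro ⟨h1, h2⟩
    exact ⟨h1, by rw [h y (Finset.mem_inter.1 h1).2]; exact h2⟩

theorem gro_eq {d : ℕ} {Λ : Type} (R : Finset (Zd d)) (z : Zd d) (n : ℕ) (a b : Λ)
    {ω ω' : Zd d × Λ → Bool} (h : ∀ y ∈ Bx z n, ∀ l : Λ, ω (y, l) = ω' (y, l)) :
    gro R z n a b ω = gro R z n a b ω' := by
  have hset : {y | y ∈ Bx z n ∧ y ∉ R ∧ y ∉ bdy R ∧ ω (y, a) = true} =
      {y | y ∈ Bx z n ∧ y ∉ R ∧ y ∉ bdy R ∧ ω' (y, a) = true} := by
    ext y
    simp only [Set.mem_setOf_eq]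
    constructor
    · rintro ⟨h1, h2, h3, h4⟩
      exact ⟨h1, h2, h3, by rw [← h y h1 a]; exact h4⟩
    · rintro ⟨h1, h2, h3, h4⟩
      exact ⟨h1, h2, h3, by rw [h y h1 a]; exact h4⟩
  unfold gro
  rw [hset, frt_eq R z n b (fun y hy => h y hy b)]

theorem pad_mem {d : ℕ} {m n : ℕ} {e : Dir d} {x z y : Zd d} (hx : x - z ∈ Bx (0 : Zd d) n)
    (hy : y ∈ pd m e x) : y ∈ Bx z (n + 2 * m + 2) := by
  rw [mem_Bx]
  intro i
  unfold pd at hy
  have h1 := mem_Bx.1 hy i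
  have h2 := mem_Bx_zero.1 hx i
  unfold pc at h1
  rw [Pi.sub_apply] at h2
  rw [Pi.add_apply, Pi.smul_apply, smul_eq_mul] at h1
  have h3 : |dv e i| ≤ 1 := by
    by_cases hi : i = e.1
    · subst hi
      rw [dv_self, sg_abs]
    · rw [dv_ne e hi]
      norm_num
  have h4 : |((m : ℤ) + 1) * dv e i| ≤ (m : ℤ) + 1 := by
    rw [abs_mul, abs_of_nonneg (by positivity : (0 : ℤ) ≤ (m : ℤ) + 1)]
    nlinarith
  rw [abs_le] at h1 h2 h4 ⊢
  push_cast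
  constructor <;> linarith [h1.1, h1.2, h2.1, h2.2, h4.1, h4.2]

end FNF_

open FNF_ in
theorem p_FNF : T_FNF := by
  intro d m n τ s
  refine ⟨Bx (s.cen τ.2.1) (n + 2 * m + 2) ×ˢ (Finset.univ : Finset (Ly d)), ?_⟩
  intro ω ω' h
  have hb : ∀ y ∈ Bx (s.cen τ.2.1) (n + 2 * m + 2), ∀ l : Ly d, ω (y, l) = ω' (y, l) := by
    intro y hy l
    exact h (y, l) (Finset.mem_product.2 ⟨hy, Finset.mem_univ l⟩)
  have hb' : ∀ y ∈ Bx (s.cen τ.2.1) n, ∀ l : Ly d, ω (y, l) = ω' (y, l) := by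
    intro y hy l
    refine hb y ?_ l
    rw [mem_Bx] at hy ⊢
    intro i
    have := hy i
    push_cast
    linarith
  have hg : grs n s τ.2.1 τ.2.2 ω = grs n s τ.2.1 τ.2.2 ω' := by
    unfold grs
    exact gro_eq _ _ _ _ _ hb'
  have hs : sgd m n s τ.2.1 τ.2.2 ω = sgd m n s τ.2.1 τ.2.2 ω' := by
    funext x
    apply propext
    unfold sgd
    rw [hg]
    constructor
    · rintro ⟨h1, h2, h3⟩
      refine ⟨h1, h2, fun y hy => ?_⟩
      have hx : x - s.cen τ.2.1 ∈ Bx (0 : Zd d) n := (Finset.mem_filter.1 h2).1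
      rw [← hb y (pad_mem hx hy)]
      exact h3 y hy
    · rintro ⟨h1, h2, h3⟩
      refine ⟨h1, h2, fun y hy => ?_⟩
      have hx : x - s.cen τ.2.1 ∈ Bx (0 : Zd d) n := (Finset.mem_filter.1 h2).1
      rw [hb y (pad_mem hx hy)]
      exact h3 y hy
  unfold FF
  rw [hg, hs]

end Pool.Agent.PRC
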