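import Pool.Agent.PRC.T2

set_option autoImplicit false

open MeasureTheory
open scoped Classical

namespace Pool.Agent.PRC

namespace FRS_

theorem disj {d m n : ℕ} {u v : Zd d} {i : Fin d} (h : 7 ≤ |u i - v i|) :
    Disjoint (rg m n u) (rg m n v) := by
  rw [Finset.disjoint_left]
  intro x hx hy
  have h1 := Finset.mem_Icc.1 hx
  have h2 := Finset.mem_Icc.1 hy
  have a1 := h1.1 i
  have a2 := h1.2 i
  have b1 := h2.1 i
  have b2 := h2.2 i
  have hN : (1 : ℤ) ≤ (NN m n : ℤ) := by unfold NN; push_cast; omega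
  simp only [bc, Pi.smul_apply, smul_eq_mul] at a1 a2 b1 b2
  push_cast at a1 a2 b1 b2
  generalize (NN m n : ℤ) = N at *
  rcases le_abs.1 h with h | h
  · nlinarith
  · nlinarith

end FRS_

/-- freshness of the layers -/
theorem p_FRS : T_FRS := by
  intro d m n r0 T cf BB τ l s hI hE τ' hτ'
  obtain ⟨e1, e2, _, _, e5⟩ := hI.trd τ' hτ'
  have key : cls τ'.2.1 τ'.2.2 = cls τ.2.1 τ.2.2 →
      Disjoint (rg m n τ'.2.1) (rg m n τ.2.1) := by
    intro hc
    have hc1 : (fun i => ((τ'.2.1 i : ℤ) : ZMod 7)) = fun i => ((τ.2.1 i : ℤ) : ZMod 7) :=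
      congrArg (fun c : Cl d => c.1) hc
    have hc2 : τ'.2.2 = τ.2.2 := congrArg (fun c : Cl d => c.2) hc
    by_cases hu : τ'.2.1 = τ.2.1
    · exact absurd (hu ▸ hc2 ▸ e1) hE
    · obtain ⟨i, hi⟩ := Function.ne_iff.1 hu
      have h7 : ((τ'.2.1 i : ℤ) : ZMod 7) = ((τ.2.1 i : ℤ) : ZMod 7) := congrFun hc1 i
      rw [ZMod.intCast_eq_intCast_iff_dvd_sub] at h7
      refine FRS_.disj (i := i) ?_
      obtain ⟨k, hk⟩ := h7
      have hk0 : k ≠ 0 := by
        rintro rfl
        apply hi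
        omega
      have : |τ'.2.1 i - τ.2.1 i| = 7 * |k| := by
        rw [abs_sub_comm, hk]
        push_cast
        rw [abs_mul]
        norm_num
      rw [this]
      have := Int.one_le_abs hk0
      omega
  refine ⟨key, ?_⟩
  intro hd
  have h1 := e5 τ (List.mem_cons_self)
  rcases Nat.lt_or_ge τ'.1 τ.1 with h | h
  · exact h
  · exfalso
    apply hd
    apply key
    have : τ'.1 = τ.1 := le_antisymm h1 h
    rw [e2, this, hI.sch.cl τ (List.mem_cons_self)]

end Pool.Agent.PRC
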