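import Pool.Agent.PRC.T1

set_option autoImplicit false

open MeasureTheory
open scoped Classical

namespace Pool.Agent.PRC

open TRP (bern law)

namespace FST_

/-- the event that some `G a` happens -/
def ex {I ι : Type} (S : Finset ι) (G : ι → Set (I → Bool)) : Set (I → Bool) :=
  {ω | ∃ a ∈ S, ω ∈ G a}

/-- the event that no `G a ∩ E a` happens -/
def al {I ι : Type} (S : Finset ι) (G E : ι → Set (I → Bool)) : Set (I → Bool) :=
  {ω | ∀ a ∈ S, ω ∈ G a → ω ∉ E a}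

lemma ex_meas {I ι : Type} (S : Finset ι) (G : ι → Set (I → Bool))
    (hG : ∀ a ∈ S, MeasurableSet (G a)) : MeasurableSet (ex S G) := by
  have : ex S G = ⋃ a ∈ S, G a := by
    ext ω
    simp [ex]
  rw [this]
  exact Finset.measurableSet_biUnion S hG

lemma main (h_IND : T_IND) {I ι : Type} (q : I → ℝ) (J K : Set I)
    (G E : ι → Set (I → Bool)) (ε : ℝ) (hq : ∀ i, 0 ≤ q i ∧ q i ≤ 1) (hJK : Disjoint J K)
    (hε : 0 ≤ ε) (S : Finset ι)
    (hG : ∀ a ∈ S, ∃ F : Finset I, ↑F ⊆ J ∧ Dep (↑F : Set I) (G a))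
    (hE : ∀ a ∈ S, ∃ F : Finset I, ↑F ⊆ K ∧ Dep (↑F : Set I) (E a))
    (hP : ∀ a ∈ S, 1 - ε ≤ (law q).real (E a)) :
    ∀ H : Set (I → Bool), (∃ F : Finset I, ↑F ⊆ J ∧ Dep (↑F : Set I) H) →
      (law q).real (H ∩ (ex S G ∩ al S G E)) ≤ ε * (law q).real (H ∩ ex S G) := by
  haveI := law_prob hq
  induction S using Finset.induction_on with
  | empty =>
    intro H _
    have : ex (∅ : Finset ι) G = ∅ := by
      ext ω
      simp [ex]
    rw [this, Set.empty_inter, Set.inter_empty]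
    simp
  | insert b S hb ih =>
    intro H hH
    have hGS : ∀ a ∈ S, ∃ F : Finset I, ↑F ⊆ J ∧ Dep (↑F : Set I) (G a) :=
      fun a ha => hG a (Finset.mem_insert_of_mem ha)
    have hES : ∀ a ∈ S, ∃ F : Finset I, ↑F ⊆ K ∧ Dep (↑F : Set I) (E a) :=
      fun a ha => hE a (Finset.mem_insert_of_mem ha)
    have hPS : ∀ a ∈ S, 1 - ε ≤ (law q).real (E a) :=
      fun a ha => hP a (Finset.mem_insert_of_mem ha)
    obtain ⟨F0, hF0, hH0⟩ := hH
    obtain ⟨F1, hF1, hGb⟩ := hG b (Finset.mem_insert_self b S)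
    obtain ⟨F2, hF2, hEb⟩ := hE b (Finset.mem_insert_self b S)
    have hPb := hP b (Finset.mem_insert_self b S)
    have d1 : Dep (↑(F0 ∪ F1) : Set I) (H ∩ G b) :=
      (hH0.mono (by simp)).inter (hGb.mono (by simp))
    have d2 : Dep (↑(F0 ∪ F1) : Set I) (H ∩ (G b)ᶜ) :=
      (hH0.mono (by simp)).inter (hGb.compl.mono (by simp))
    have hsub : (↑(F0 ∪ F1) : Set I) ⊆ J := by
      rw [Finset.coe_union]
      exact Set.union_subset hF0 hF1
    have i1 := ih hGS hES hPS (H ∩ (G b)ᶜ) ⟨F0 ∪ F1, hsub, d2⟩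
    -- first part
    have m1 : MeasurableSet (H ∩ G b) := d1.meas
    have m2 : MeasurableSet (E b)ᶜ := hEb.compl.meas
    have i2 : (law q).real ((H ∩ G b) ∩ (E b)ᶜ) ≤ ε * (law q).real (H ∩ G b) := by
      rw [h_IND I q hq J K (H ∩ G b) (E b)ᶜ (d1.mono hsub) (hEb.compl.mono hF2) hJK m1 m2]
      have h3 : (law q).real (E b)ᶜ ≤ ε := by
        rw [probReal_compl_eq_one_sub hEb.meas]
        linarith
      rw [mul_comm]
      exact mul_le_mul_of_nonneg_right h3 measureReal_nonneg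
    have hsup : H ∩ (ex (insert b S) G ∩ al (insert b S) G E) ⊆
        ((H ∩ G b) ∩ (E b)ᶜ) ∪ ((H ∩ (G b)ᶜ) ∩ (ex S G ∩ al S G E)) := by
      rintro ω ⟨h1, ⟨a, ha, haG⟩, h3⟩
      by_cases hω : ω ∈ G b
      · exact Or.inl ⟨⟨h1, hω⟩, h3 b (Finset.mem_insert_self b S) hω⟩
      · refine Or.inr ⟨⟨h1, hω⟩, ⟨a, ?_, haG⟩, fun c hc => h3 c (Finset.mem_insert_of_mem hc)⟩
        rcases Finset.mem_insert.mp ha with rfl | ha'
        · exact absurd haG hω
        · exact ha'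
    have hexm : MeasurableSet (ex S G) := ex_meas S G fun a ha => by
      obtain ⟨F, _, hF⟩ := hGS a ha
      exact hF.meas
    have heq : H ∩ ex (insert b S) G = (H ∩ G b) ∪ ((H ∩ (G b)ᶜ) ∩ ex S G) := by
      ext ω
      constructor
      · rintro ⟨h1, a, ha, haG⟩
        by_cases hω : ω ∈ G b
        · exact Or.inl ⟨h1, hω⟩
        · refine Or.inr ⟨⟨h1, hω⟩, a, ?_, haG⟩
          rcases Finset.mem_insert.mp ha with rfl | ha'
          · exact absurd haG hω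
          · exact ha'
      · rintro (⟨h1, h2⟩ | ⟨⟨h1, h2⟩, a, ha, haG⟩)
        · exact ⟨h1, b, Finset.mem_insert_self b S, h2⟩
        · exact ⟨h1, a, Finset.mem_insert_of_mem ha, haG⟩
    have hdis : Disjoint (H ∩ G b) ((H ∩ (G b)ᶜ) ∩ ex S G) := by
      rw [Set.disjoint_left]
      rintro ω ⟨_, h2⟩ ⟨⟨_, h4⟩, _⟩
      exact h4 h2
    have hsum : (law q).real (H ∩ ex (insert b S) G) =
        (law q).real (H ∩ G b) + (law q).real ((H ∩ (G b)ᶜ) ∩ ex S G) := by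
      rw [heq]
      exact measureReal_union hdis (d2.meas.inter hexm)
    calc (law q).real (H ∩ (ex (insert b S) G ∩ al (insert b S) G E))
        ≤ (law q).real (((H ∩ G b) ∩ (E b)ᶜ) ∪ ((H ∩ (G b)ᶜ) ∩ (ex S G ∩ al S G E))) :=
          measureReal_mono hsup
      _ ≤ (law q).real ((H ∩ G b) ∩ (E b)ᶜ) +
          (law q).real ((H ∩ (G b)ᶜ) ∩ (ex S G ∩ al S G E)) := measureReal_union_le _ _
      _ ≤ ε * (law q).real (H ∩ G b) + ε * (law q).real ((H ∩ (G b)ᶜ) ∩ ex S G) :=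
          add_le_add i2 i1
      _ = ε * (law q).real (H ∩ ex (insert b S) G) := by rw [hsum]; ring

end FST_

theorem p_FST (h_IND : T_IND) : T_FST := by
  intro I ι q J K S G E ε hq hJK hG hE hε hP
  haveI := law_prob hq
  have h := FST_.main h_IND q J K G E ε hq hJK hε S hG hE hP Set.univ
    ⟨∅, by simp, fun _ _ _ => Iff.rfl⟩
  rw [Set.univ_inter, Set.univ_inter] at h
  have h2 : (law q).real (FST_.ex S G) ≤ 1 := measureReal_le_one
  calc (law q).real {ω | (∃ a ∈ S, ω ∈ G a) ∧ ∀ a ∈ S, ω ∈ G a → ω ∉ E a}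
      = (law q).real (FST_.ex S G ∩ FST_.al S G E) := rfl
    _ ≤ ε * (law q).real (FST_.ex S G) := h
    _ ≤ ε * 1 := mul_le_mul_of_nonneg_left h2 hε
    _ = ε := mul_one ε

end Pool.Agent.PRC
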