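import Pool.Agent.PRC.T4
import Pool.Agent.PRC.Base

/-!
# PRC-GDP: dependence of the root event
-/

set_option autoImplicit false

open MeasureTheory
open scoped Classical

namespace Pool.Agent.PRC

namespace GDP_

/-- inside the ball the open sites are determined by the coordinates in the ball -/
theorem orr_eq {d : ℕ} {ω ω' : Zd d × Ly d → Bool} {y : Zd d} (h : ∀ l, ω (y, l) = ω' (y, l)) :
    orr ω y = orr ω' y := by
  unfold orr
  have : (∃ l, ω (y, l) = true) ↔ ∃ l, ω' (y, l) = true := exists_congr fun l => by rw [h l]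
  simp only [this]

theorem half {d : ℕ} (M r0 : ℕ) (e : Dir d) (x : Zd d) (ω ω' : Zd d × Ly d → Bool)
    (h1 : ∀ y ∈ Bx (0 : Zd d) M, ∀ l, ω (y, l) = ω' (y, l))
    (h2 : ∀ y ∈ pd r0 e x, ω (y, some none) = ω' (y, some none)) (h : ω ∈ Gx M r0 e x) :
    ω' ∈ Gx M r0 e x := by
  obtain ⟨ha, hb, hc⟩ := h
  have h0 : (0 : Zd d) ∈ Bx (0 : Zd d) M := by
    rw [mem_Bx_zero]
    intro i
    simp
  refine ⟨?_, ?_, ?_⟩
  · rw [← orr_eq (h1 0 h0)]
    exact ha
  · refine Rc.mono ?_ (le_refl _) hb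
    rintro y ⟨hy, hy'⟩
    refine ⟨hy, ?_⟩
    have hy'' : orr ω y = true := hy'
    show orr ω' y = true
    rw [← orr_eq (h1 y (Finset.mem_coe.mp hy))]
    exact hy''
  · intro y hy
    rw [← h2 y hy]
    exact hc y hy

end GDP_

open GDP_ in
theorem p_GDP : T_GDP := by
  intro d M r0 e x
  refine ⟨(Bx (0 : Zd d) M ×ˢ (Finset.univ : Finset (Ly d))) ∪ (pd r0 e x ×ˢ {some none}), ?_, ?_⟩
  · intro i hi
    rw [Finset.mem_union, Finset.mem_product, Finset.mem_product] at hi
    rcases hi with hi | hi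
    · exact Or.inl hi.1
    · exact Or.inr (Finset.mem_singleton.mp hi.2)
  · intro ω ω' h
    have h1 : ∀ y ∈ Bx (0 : Zd d) M, ∀ l, ω (y, l) = ω' (y, l) := by
      intro y hy l
      refine h (y, l) ?_
      rw [Finset.mem_coe, Finset.mem_union, Finset.mem_product]
      exact Or.inl ⟨hy, Finset.mem_univ l⟩
    have h2 : ∀ y ∈ pd r0 e x, ω (y, some none) = ω' (y, some none) := by
      intro y hy
      refine h (y, some none) ?_
      rw [Finset.mem_coe, Finset.mem_union, Finset.mem_product, Finset.mem_product]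
      exact Or.inr ⟨hy, Finset.mem_singleton_self _⟩
    exact ⟨half M r0 e x ω ω' h1 h2, half M r0 e x ω' ω (fun y hy l => (h1 y hy l).symm)
      fun y hy => (h2 y hy).symm⟩

end Pool.Agent.PRC
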