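import Pool.Agent.PRC.T1

/-!
# PRC: target GMT (the Grimmett-Marstrand estimate)
-/

set_option autoImplicit false

open MeasureTheory Filter Topology
open scoped Classical

namespace Pool.Agent.PRC

open TRP (bern law)

noncomputable section

namespace GMT_

theorem inter_congr {d : ℕ} {n : ℕ} {ω ω' : Zd d → Bool} (h : ∀ y ∈ Bx (0 : Zd d) n, ω y = ω' y) :
    (↑(Bx (0 : Zd d) n) ∩ {y | ω y = true} : Set (Zd d)) = ↑(Bx (0 : Zd d) n) ∩ {y | ω' y = true} := by
  ext y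
  constructor
  · rintro ⟨h1, h2⟩
    refine ⟨h1, ?_⟩
    have h3 : ω y = true := h2
    change ω' y = true
    rw [← h y (Finset.mem_coe.1 h1)]
    exact h3
  · rintro ⟨h1, h2⟩
    refine ⟨h1, ?_⟩
    have h3 : ω' y = true := h2
    change ω y = true
    rw [h y (Finset.mem_coe.1 h1)]
    exact h3

theorem Us_congr {d : ℕ} (S : Finset (Zd d)) {n : ℕ} {ω ω' : Zd d → Bool}
    (h : ∀ y ∈ Bx (0 : Zd d) n, ω y = ω' y) : Us S n (Op ω) = Us S n (Op ω') := by
  have h1 : (↑(Bx (0 : Zd d) n) ∩ Op ω : Set (Zd d)) = ↑(Bx (0 : Zd d) n) ∩ Op ω' := inter_congr h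
  unfold Us
  rw [h1]

theorem meas_Us {d : ℕ} (S : Finset (Zd d)) (n : ℕ) (P : Finset (Zd d) → Prop) :
    MeasurableSet {ω : Zd d → Bool | P (Us S n (Op ω))} := by
  have : Dep (↑(Bx (0 : Zd d) n) : Set (Zd d)) {ω : Zd d → Bool | P (Us S n (Op ω))} := by
    intro ω ω' h
    have h1 : Us S n (Op ω) = Us S n (Op ω') := Us_congr S fun y hy => h y (Finset.mem_coe.2 hy)
    change P (Us S n (Op ω)) ↔ P (Us S n (Op ω'))
    rw [h1]
  exact this.meas

/-- the bad event -/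
def Bad {d : ℕ} (m n : ℕ) (e : Dir d) (σ : Fin d → Bool) : Set (Zd d × Bool → Bool) :=
  {ω | ¬ ∃ x ∈ Qd n e σ, x ∈ Rc Adj (↑(Bx (0 : Zd d) n) ∩ {y | ω (y, false) = true})
      ↑(Bx (0 : Zd d) m) ∧ ∀ y ∈ pd m e x, ω (y, true) = true}

theorem meas_Bad {d : ℕ} (m n : ℕ) (e : Dir d) (σ : Fin d → Bool) :
    MeasurableSet (Bad m n e σ) := by
  have : Dep (↑((Bx (0 : Zd d) n ∪ (Qd n e σ).biUnion (pd m e)) ×ˢ (Finset.univ : Finset Bool)) :
      Set (Zd d × Bool)) (Bad m n e σ) := by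
    intro ω ω' h
    have h1 : ∀ y ∈ Bx (0 : Zd d) n, ω (y, false) = ω' (y, false) := by
      intro y hy
      refine h _ ?_
      rw [Finset.mem_coe, Finset.mem_product]
      exact ⟨Finset.mem_union_left _ hy, Finset.mem_univ _⟩
    have h2 := inter_congr (ω := fun y => ω (y, false)) (ω' := fun y => ω' (y, false)) h1
    have h3 : ∀ x ∈ Qd n e σ, ∀ y ∈ pd m e x, ω (y, true) = ω' (y, true) := by
      intro x hx y hy
      refine h _ ?_
      rw [Finset.mem_coe, Finset.mem_product]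
      exact ⟨Finset.mem_union_right _ (Finset.mem_biUnion.2 ⟨x, hx, hy⟩), Finset.mem_univ _⟩
    unfold Bad
    simp only [Set.mem_ofPred_eq]
    rw [h2]
    refine not_congr (exists_congr fun x => and_congr_right fun hx => and_congr_right fun _ => ?_)
    refine forall_congr' fun y => forall_congr' fun hy => ?_
    rw [h3 x hx y hy]
  exact this.meas

end GMT_

theorem p_GMT (h_ONE : T_ONE) (h_USM : T_USM) (h_SQR : T_SQR) (h_PAD : T_PAD) (h_PRJ : T_PRJ)
    (h_CON : T_CON) : T_GMT := by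
  intro d p0 hd hp0 hp1 hth η hη
  set N : ℕ := 2 * d * 2 ^ d with hN
  have hN0 : N ≠ 0 := by positivity
  have hη2 : 0 < η / 2 := by linarith
  have hη1 : 0 < (η / 2) ^ N / 2 := by positivity
  obtain ⟨m, hm⟩ := h_ONE d p0 hp0.le hp1.le hth _ hη1
  refine ⟨m, fun δ hδ0 hδ1 => ?_⟩
  have hq : ∀ x : Zd d × Bool, 0 ≤ (if x.2 then δ else p0) ∧ (if x.2 then δ else p0) ≤ 1 := by
    intro x
    split_ifs
    · exact ⟨hδ0.le, hδ1⟩
    · exact ⟨hp0.le, hp1.le⟩
  have hq' : ∀ x : Zd d, 0 ≤ p0 ∧ p0 ≤ 1 := fun _ => ⟨hp0.le, hp1.le⟩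
  have hprob := law_prob (I := Zd d × Bool) hq
  have hprob' := law_prob (I := Zd d) hq'
  have hδp : 0 < δ ^ ((2 * m + 1) ^ d) := by positivity
  have hδp1 : δ ^ ((2 * m + 1) ^ d) ≤ 1 := pow_le_one₀ hδ0.le hδ1
  obtain ⟨k', hk'⟩ := exists_pow_lt_of_lt_one hη2
    (show 1 - δ ^ ((2 * m + 1) ^ d) < 1 by linarith)
  set k : ℕ := k' * (2 * m + 1) ^ d with hk
  have hev := (h_USM d p0 (Bx 0 m) (N * k) hp0.le hp1).eventually (gt_mem_nhds hη1)
  obtain ⟨n₁, hn₁⟩ := eventually_atTop.1 hev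
  refine ⟨max n₁ m, fun n hn => ?_⟩
  have hnn₁ : n₁ ≤ n := (le_max_left _ _).trans hn
  have hnm : m ≤ n := (le_max_right _ _).trans hn
  intro e σ
  -- the number of points reached on the sphere
  have hU : (law fun _ : Zd d => p0).real {ω | (Us (Bx 0 m) n (Op ω)).card < N * k} ≤
      (η / 2) ^ N := by
    have h1 : {ω : Zd d → Bool | (Us (Bx 0 m) n (Op ω)).card < N * k} ⊆
        {ω | Us (Bx 0 m) n (Op ω) = ∅} ∪
          {ω | 1 ≤ (Us (Bx 0 m) n (Op ω)).card ∧ (Us (Bx 0 m) n (Op ω)).card < N * k} := by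
      intro ω hω
      have hω' : (Us (Bx 0 m) n (Op ω)).card < N * k := hω
      by_cases h0 : Us (Bx 0 m) n (Op ω) = ∅
      · exact Or.inl h0
      · right
        exact ⟨Finset.one_le_card.2 (Finset.nonempty_iff_ne_empty.2 h0), hω'⟩
    calc (law fun _ : Zd d => p0).real {ω | (Us (Bx 0 m) n (Op ω)).card < N * k}
        ≤ (law fun _ : Zd d => p0).real ({ω | Us (Bx 0 m) n (Op ω) = ∅} ∪
          {ω | 1 ≤ (Us (Bx 0 m) n (Op ω)).card ∧ (Us (Bx 0 m) n (Op ω)).card < N * k}) :=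
          measureReal_mono h1
      _ ≤ _ := measureReal_union_le _ _
      _ ≤ (η / 2) ^ N / 2 + (η / 2) ^ N / 2 := add_le_add (hm n hnm) (hn₁ n hnn₁).le
      _ = (η / 2) ^ N := by ring
  have hV : (law fun _ : Zd d => p0).real {ω | (Us (Bx 0 m) n (Op ω) ∩ Qd n e σ).card < k} ≤
      η / 2 :=
    le_of_pow_le_pow_left₀ hN0 hη2.le ((h_SQR d p0 m n k e σ hp0.le hp1.le).trans hU)
  -- transfer to the layer `false`
  set q : Zd d × Bool → ℝ := fun x => if x.2 then δ else p0 with hqdef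
  set g : (Zd d × Bool → Bool) → Zd d → Bool := fun ω y => ω (y, false) with hg
  have hgm : Measurable g := measurable_pi_lambda _ fun y => measurable_pi_apply (y, false)
  have hmap : (law q).map g = law fun _ : Zd d => p0 := by
    have h1 := h_PRJ (Zd d × Bool) (Zd d) q (fun y => (y, false)) hq
      (fun a b hab => (Prod.mk.inj hab).1)
    rw [hg, h1]
    simp [hqdef]
  set G : Set (Zd d → Bool) := {ω | (Us (Bx 0 m) n (Op ω) ∩ Qd n e σ).card < k} with hG
  have hGm : MeasurableSet G :=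
    GMT_.meas_Us (Bx 0 m) n (fun U => (U ∩ Qd n e σ).card < k)
  have hG1 : (law q).real (g ⁻¹' G) ≤ η / 2 := by
    rw [← map_measureReal_apply hgm hGm, hmap]
    exact hV
  set J : Set (Zd d × Bool) := {x | x.2 = false} with hJ
  have hAdep : Dep J (g ⁻¹' G)ᶜ := by
    intro ω ω' h
    have h1 : g ω = g ω' := by
      funext y
      exact h (y, false) rfl
    change ¬ (g ω ∈ G) ↔ ¬ (g ω' ∈ G)
    rw [h1]
  have hcon := (h_CON (Zd d × Bool) q hq J (g ⁻¹' G)ᶜ (GMT_.Bad m n e σ) (η / 2) hAdep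
    (hgm hGm).compl (GMT_.meas_Bad m n e σ) hη2.le).1 (by
      intro ω hω
      have hω1 : k' * (2 * m + 1) ^ d ≤ (Us (Bx 0 m) n (Op (g ω)) ∩ Qd n e σ).card := by
        have h1 : ¬ ((Us (Bx 0 m) n (Op (g ω)) ∩ Qd n e σ).card < k) := hω
        exact not_lt.1 h1
      have hpad := h_PAD d Bool q true δ hq (fun x => by simp [hqdef]) m e k'
        (Us (Bx 0 m) n (Op (g ω)) ∩ Qd n e σ) hω1
      refine le_trans (measureReal_mono ?_) (hpad.trans hk'.le)
      intro ω' hω' x hx hall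
      have hbad : mrg J ω ω' ∈ GMT_.Bad m n e σ := hω'
      apply hbad
      have hx1 := (Finset.mem_inter.1 hx).1
      have hx2 := (Finset.mem_inter.1 hx).2
      refine ⟨x, hx2, ?_, ?_⟩
      · have h2 : x ∈ Rc Adj (↑(Bx (0 : Zd d) n) ∩ Op (g ω)) ↑(Bx (0 : Zd d) m) := by
          unfold Us at hx1
          exact (Finset.mem_filter.1 hx1).2.2
        have h3 : (↑(Bx (0 : Zd d) n) ∩ {y | mrg J ω ω' (y, false) = true} : Set (Zd d)) =
            ↑(Bx (0 : Zd d) n) ∩ Op (g ω) := by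
          refine GMT_.inter_congr (ω := fun y => mrg J ω ω' (y, false)) (ω' := g ω) ?_
          intro y _
          have h5 : ((y, false) : Zd d × Bool) ∈ J := rfl
          change mrg J ω ω' (y, false) = ω (y, false)
          unfold mrg
          rw [if_pos h5]
        rw [h3]
        exact h2
      · intro y hy
        have h5 : ((y, true) : Zd d × Bool) ∉ J := by
          intro h
          have h4 : (true : Bool) = false := h
          exact absurd h4 (by decide)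
        unfold mrg
        rw [if_neg h5]
        exact hall y hy)
  have hsub : GMT_.Bad m n e σ ⊆ g ⁻¹' G ∪ ((g ⁻¹' G)ᶜ ∩ GMT_.Bad m n e σ) := by
    intro ω hω
    by_cases h : ω ∈ g ⁻¹' G
    · exact Or.inl h
    · exact Or.inr ⟨h, hω⟩
  calc (law q).real (GMT_.Bad m n e σ)
      ≤ (law q).real (g ⁻¹' G ∪ ((g ⁻¹' G)ᶜ ∩ GMT_.Bad m n e σ)) := measureReal_mono hsub
    _ ≤ (law q).real (g ⁻¹' G) + (law q).real ((g ⁻¹' G)ᶜ ∩ GMT_.Bad m n e σ) :=
        measureReal_union_le _ _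
    _ ≤ η / 2 + η / 2 * (law q).real (g ⁻¹' G)ᶜ := add_le_add hG1 hcon
    _ ≤ η / 2 + η / 2 * 1 := by
        gcongr
        exact measureReal_le_one
    _ = η := by ring

end

end Pool.Agent.PRC
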