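import Pool.Agent.PRC.T3

/-!
# PRC, target HDC: two points in the complement of a box
-/

set_option autoImplicit false

open MeasureTheory
open scoped Classical

namespace Pool.Agent.PRC

open TRP (bern law)

noncomputable section

namespace HDC_

theorem meas_true {d : ℕ} (v : Zd d) : MeasurableSet {X : Zd d → Bool | X v = true} :=
  (measurable_pi_apply (X := fun _ : Zd d => Bool) v) (measurableSet_singleton true)

theorem meas_lk {d : ℕ} (P : Zd d → Prop) (u : Zd d) : ∀ (n : ℕ) (v : Zd d),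
    MeasurableSet {X : Zd d → Bool | Lk Adj {x | X x = true ∧ P x} n u v} := by
  intro n
  induction n with
  | zero =>
    intro v
    exact MeasurableSet.const (u = v)
  | succ n ih =>
    intro v
    have h : {X : Zd d → Bool | Lk Adj {x | X x = true ∧ P x} (n + 1) u v} =
        {X : Zd d → Bool | Lk Adj {x | X x = true ∧ P x} n u v} ∪
        ⋃ w : Zd d, ({X : Zd d → Bool | Lk Adj {x | X x = true ∧ P x} n u w} ∩
          ({_X : Zd d → Bool | Adj w v ∧ P v} ∩ {X : Zd d → Bool | X v = true})) := by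
      ext X
      simp only [Lk, Set.mem_union, Set.mem_iUnion, Set.mem_inter_iff, Set.mem_ofPred_eq]
      constructor
      · rintro (h | ⟨w, h1, h2, h3, h4⟩)
        · exact Or.inl h
        · exact Or.inr ⟨w, h1, ⟨h2, h4⟩, h3⟩
      · rintro (h | ⟨w, h1, ⟨h2, h4⟩, h3⟩)
        · exact Or.inl h
        · exact Or.inr ⟨w, h1, h2, h3, h4⟩
    rw [h]
    refine (ih v).union (MeasurableSet.iUnion fun w => ?_)
    exact (ih w).inter ((MeasurableSet.const _).inter (meas_true v))

/-- the event of `T_HDP` -/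
def Ev {d : ℕ} (f : Dir d) (c : ℤ) (v u : Zd d) : Set (Zd d → Bool) :=
  {X | X v = true ∧ X u = true ∧ Lk Adj {x | X x = true ∧ c ≤ sg f.2 * x f.1}
        (16 * d * (nm (u - v) + 1)) v u}

theorem meas_Ev {d : ℕ} (f : Dir d) (c : ℤ) (v u : Zd d) : MeasurableSet (Ev f c v u) :=
  (meas_true v).inter ((meas_true u).inter (meas_lk _ v _ u))

theorem prob3 {Ω : Type} [MeasurableSpace Ω] (μ : Measure Ω) [IsProbabilityMeasure μ]
    {E1 E2 E3 : Set Ω} (h1 : MeasurableSet E1) (h2 : MeasurableSet E2) (h3 : MeasurableSet E3)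
    (ε : ℝ) (p1 : 1 - ε / 3 ≤ μ.real E1) (p2 : 1 - ε / 3 ≤ μ.real E2)
    (p3 : 1 - ε / 3 ≤ μ.real E3) : 1 - ε ≤ μ.real (E1 ∩ (E2 ∩ E3)) := by
  have hc := probReal_compl_eq_one_sub (μ := μ) (h1.inter (h2.inter h3))
  have hc1 := probReal_compl_eq_one_sub (μ := μ) h1
  have hc2 := probReal_compl_eq_one_sub (μ := μ) h2
  have hc3 := probReal_compl_eq_one_sub (μ := μ) h3
  have hu : μ.real (E1 ∩ (E2 ∩ E3))ᶜ ≤ μ.real E1ᶜ + (μ.real E2ᶜ + μ.real E3ᶜ) := by
    rw [Set.compl_inter, Set.compl_inter]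
    refine (measureReal_union_le _ _).trans ?_
    gcongr
    exact measureReal_union_le _ _
  linarith

/-- three half-spaces joining two points of the complement of a box -/
theorem chain {d : ℕ} (hd : 2 ≤ d) (a b w : Zd d) (h0 : (0 : Zd d) ∉ Finset.Icc a b)
    (hw : w ∉ Finset.Icc a b) :
    ∃ (v1 v2 : Zd d) (f1 f2 f3 : Dir d) (c1 c2 c3 : ℤ),
      (∀ x : Zd d, c1 ≤ sg f1.2 * x f1.1 → x ∉ Finset.Icc a b) ∧
      (∀ x : Zd d, c2 ≤ sg f2.2 * x f2.1 → x ∉ Finset.Icc a b) ∧
      (∀ x : Zd d, c3 ≤ sg f3.2 * x f3.1 → x ∉ Finset.Icc a b) ∧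
      c1 ≤ sg f1.2 * (0 : Zd d) f1.1 ∧ c1 ≤ sg f1.2 * v1 f1.1 ∧
      c2 ≤ sg f2.2 * v1 f2.1 ∧ c2 ≤ sg f2.2 * v2 f2.1 ∧
      c3 ≤ sg f3.2 * v2 f3.1 ∧ c3 ≤ sg f3.2 * w f3.1 ∧
      nm (v1 - 0) ≤ nm w + nm a + nm b + 1 ∧ nm (v2 - v1) ≤ nm w + nm a + nm b + 1 ∧
      nm (w - v2) ≤ nm w + nm a + nm b + 1 := by
  have key : ∀ x : Zd d, x ∉ Finset.Icc a b → ∃ (f : Dir d) (c : ℤ),
      (∀ y : Zd d, c ≤ sg f.2 * y f.1 → y ∉ Finset.Icc a b) ∧ c ≤ sg f.2 * x f.1 := by
    intro x hx
    rw [Finset.mem_Icc, not_and_or, Pi.le_def, Pi.le_def] at hx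
    simp only [not_forall, not_le] at hx
    rcases hx with ⟨i, hi⟩ | ⟨i, hi⟩
    · refine ⟨(i, false), 1 - a i, ?_, ?_⟩
      · intro y hy hyI
        rw [Finset.mem_Icc] at hyI
        have : a i ≤ y i := hyI.1 i
        simp only [sg] at hy
        simp at hy
        omega
      · simp only [sg]
        simp
        omega
    · refine ⟨(i, true), b i + 1, ?_, ?_⟩
      · intro y hy hyI
        rw [Finset.mem_Icc] at hyI
        have : y i ≤ b i := hyI.2 i
        simp only [sg] at hy
        simp at hy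
        omega
      · simp only [sg]
        simp
        omega
  obtain ⟨f, c, hf, hc⟩ := key 0 h0
  obtain ⟨f', c', hf', hc'⟩ := key w hw
  by_cases hij : f.1 = f'.1
  · obtain ⟨j, hj⟩ : ∃ j : Fin d, j ≠ f.1 := by
      have : Nontrivial (Fin d) := Fin.nontrivial_iff_two_le.mpr hd
      exact exists_ne f.1
    refine ⟨Function.update 0 j (b j + 1), Function.update w j (b j + 1), f, (j, true), f',
      c, b j + 1, c', hf, ?_, hf', hc, ?_, ?_, ?_, ?_, hc', ?_, ?_, ?_⟩
    · intro y hy hyI
      rw [Finset.mem_Icc] at hyI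
      have : y j ≤ b j := hyI.2 j
      simp only [sg] at hy
      simp at hy
      omega
    · rw [Function.update_of_ne hj.symm]
      exact hc
    · simp [sg]
    · simp [sg]
    · rw [Function.update_of_ne (by rw [← hij]; exact hj.symm)]
      exact hc'
    · rw [nm_le]
      intro i
      have hb := abs_le_nm b j
      rw [sub_zero]
      by_cases hi : i = j
      · subst hi
        rw [Function.update_self]
        rw [abs_le] at hb ⊢
        push_cast
        omega
      · rw [Function.update_of_ne hi]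
        simp
        positivity
    · rw [nm_le]
      intro i
      have hwn := abs_le_nm w i
      rw [Pi.sub_apply]
      by_cases hi : i = j
      · subst hi
        rw [Function.update_self, Function.update_self, sub_self]
        simp
        positivity
      · rw [Function.update_of_ne hi, Function.update_of_ne hi]
        rw [abs_le] at hwn ⊢
        push_cast
        simp only [Pi.zero_apply]
        omega
    · rw [nm_le]
      intro i
      have hb := abs_le_nm b j
      have hwn := abs_le_nm w i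
      rw [Pi.sub_apply]
      by_cases hi : i = j
      · subst hi
        rw [Function.update_self]
        rw [abs_le] at hb hwn ⊢
        push_cast
        omega
      · rw [Function.update_of_ne hi, sub_self]
        simp
        positivity
  · refine ⟨Function.update 0 f'.1 (w f'.1), w, f, f', f', c, c', c', hf, hf', hf', hc, ?_, ?_,
      hc', hc', hc', ?_, ?_, ?_⟩
    · rw [Function.update_of_ne hij]
      exact hc
    · rw [Function.update_self]
      exact hc'
    · rw [nm_le]
      intro i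
      rw [sub_zero]
      by_cases hi : i = f'.1
      · subst hi
        rw [Function.update_self]
        have hwn := abs_le_nm w f'.1
        rw [abs_le] at hwn ⊢
        push_cast
        omega
      · rw [Function.update_of_ne hi]
        simp
        positivity
    · rw [nm_le]
      intro i
      have hwn := abs_le_nm w i
      rw [Pi.sub_apply]
      by_cases hi : i = f'.1
      · subst hi
        rw [Function.update_self, sub_self]
        simp
        positivity
      · rw [Function.update_of_ne hi]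
        rw [abs_le] at hwn ⊢
        push_cast
        simp only [Pi.zero_apply]
        omega
    · rw [nm_le]
      intro i
      rw [sub_self]
      simp
      positivity

end HDC_

theorem p_HDC (h_HDP : T_HDP) : T_HDC := by
  intro d ε hd hε
  obtain ⟨q₀, hq0, hq1, hq⟩ := h_HDP d (ε / 3) hd (by positivity)
  refine ⟨q₀, 96 * d, hq0, hq1, ?_⟩
  intro q hqq hqle a b w h0 hw
  have hprob : IsProbabilityMeasure (law fun _ : Zd d => q) :=
    law_prob fun _ => ⟨hq0.le.trans hqq, hqle⟩
  obtain ⟨v1, v2, f1, f2, f3, c1, c2, c3, H1, H2, H3, e1, e2, e3, e4, e5, e6, n1, n2, n3⟩ :=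
    HDC_.chain hd a b w h0 hw
  have p1 := hq q hqq hqle f1 c1 0 v1 e1 e2
  have p2 := hq q hqq hqle f2 c2 v1 v2 e3 e4
  have p3 := hq q hqq hqle f3 c3 v2 w e5 e6
  have hp := HDC_.prob3 (law fun _ : Zd d => q) (HDC_.meas_Ev f1 c1 0 v1)
    (HDC_.meas_Ev f2 c2 v1 v2) (HDC_.meas_Ev f3 c3 v2 w) ε p1 p2 p3
  refine hp.trans (measureReal_mono ?_)
  rintro X ⟨⟨_, _, l1⟩, ⟨_, _, l2⟩, ⟨_, _, l3⟩⟩
  have hsub : ∀ (f : Dir d) (c : ℤ), (∀ x : Zd d, c ≤ sg f.2 * x f.1 → x ∉ Finset.Icc a b) →
      {x : Zd d | X x = true ∧ c ≤ sg f.2 * x f.1} ⊆ {x | X x = true ∧ x ∉ Finset.Icc a b} :=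
    fun f c h x hx => ⟨hx.1, h x hx.2⟩
  have l := ((l1.sub (hsub f1 c1 H1)).trans (l2.sub (hsub f2 c2 H2))).trans
    (l3.sub (hsub f3 c3 H3))
  show Lk Adj {x | X x = true ∧ x ∉ Finset.Icc a b} (96 * d * (nm w + nm a + nm b + 1)) 0 w
  refine l.mono ?_
  set N := nm w + nm a + nm b + 1 with hN
  have hN1 : 1 ≤ N := by omega
  have k : ∀ m : ℕ, m ≤ N → 16 * d * (m + 1) ≤ 32 * d * N := by
    intro m hm
    have : m + 1 ≤ 2 * N := by omega
    calc 16 * d * (m + 1) ≤ 16 * d * (2 * N) := Nat.mul_le_mul_left _ this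
      _ = 32 * d * N := by ring
  have k1 := k _ n1
  have k2 := k _ n2
  have k3 := k _ n3
  have : 96 * d * N = 32 * d * N + 32 * d * N + 32 * d * N := by ring
  omega

end

end Pool.Agent.PRC
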