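import Pool.Agent.PRC.T3
import Pool.Agent.PRC.Base
import Pool.Agent.TRP.P_PERM

/-!
# PRC: HDP, two points in a half-space at high density
-/

set_option autoImplicit false

open MeasureTheory Filter Topology
open scoped Classical

namespace Pool.Agent.PRC

open TRP (bern law)

noncomputable section

namespace HDP_

theorem lk_map {V W : Type} {adj : V → V → Prop} {adj' : W → W → Prop} {D : Set V} {D' : Set W}
    (g : V → W) (h1 : ∀ a b, adj a b → adj' (g a) (g b)) (h2 : ∀ a ∈ D, g a ∈ D') (n : ℕ)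
    (u v : V) (h : Lk adj D n u v) : Lk adj' D' n (g u) (g v) := by
  induction n generalizing v with
  | zero => exact congrArg g (show u = v from h)
  | succ n ih =>
    rcases h with h | ⟨w, h3, h4, h5⟩
    · exact Or.inl (ih _ h)
    · exact Or.inr ⟨g w, ih _ h3, h1 _ _ h4, h2 _ h5⟩

/-- reflected translation -/
def ref {d : ℕ} (v : Zd d) (s : Fin d → Bool) : Zd d ≃ Zd d where
  toFun x := fun i => v i + sg (s i) * x i
  invFun y := fun i => sg (s i) * (y i - v i)
  left_inv x := by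
    funext i
    simp only [add_sub_cancel_left]
    rw [← mul_assoc, sg_sq, one_mul]
  right_inv y := by
    funext i
    simp only
    rw [← mul_assoc, sg_sq, one_mul]
    ring

theorem ref_apply {d : ℕ} (v : Zd d) (s : Fin d → Bool) (x : Zd d) (i : Fin d) :
    ref v s x i = v i + sg (s i) * x i := rfl

theorem ref_adj {d : ℕ} (v : Zd d) (s : Fin d → Bool) (a b : Zd d) (h : Adj a b) :
    Adj (ref v s a) (ref v s b) := by
  obtain ⟨e, rfl⟩ := h
  rcases hs : s e.1 with _ | _
  · refine ⟨(e.1, !e.2), ?_⟩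
    rw [dv_not]
    funext i
    rw [Pi.add_apply, ref_apply, ref_apply, Pi.add_apply, Pi.neg_apply]
    by_cases hi : i = e.1
    · subst hi
      rw [hs, dv_self, show sg false = -1 from rfl]
      ring
    · rw [dv_ne e hi]
      ring
  · refine ⟨e, ?_⟩
    funext i
    rw [Pi.add_apply, ref_apply, ref_apply, Pi.add_apply]
    by_cases hi : i = e.1
    · subst hi
      rw [hs, dv_self, show sg true = 1 from rfl]
      ring
    · rw [dv_ne e hi]
      ring

/-- the case in which the path goes up -/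
theorem up {d : ℕ} {ε q : ℝ} (h0 : 0 ≤ q) (h1 : q ≤ 1)
    (hq : ∀ u : Zd d, (∀ i, 0 ≤ u i) → 1 - ε ≤ (law fun _ : Zd d => q).real
      {X | X 0 = true ∧ Lk Adj {v | X v = true ∧ ∀ i, 0 ≤ v i} (16 * d * (nm u + 1)) 0 u})
    (f : Dir d) (c : ℤ) (v u : Zd d) (hc : c ≤ sg f.2 * v f.1)
    (hvu : 0 ≤ sg f.2 * (u f.1 - v f.1)) :
    1 - ε ≤ (law fun _ : Zd d => q).real
      {X | X v = true ∧ X u = true ∧ Lk Adj {x | X x = true ∧ c ≤ sg f.2 * x f.1}
        (16 * d * (nm (u - v) + 1)) v u} := by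
  have hprob := law_prob (I := Zd d) (q := fun _ => q) fun _ => ⟨h0, h1⟩
  obtain ⟨s, hs⟩ : ∃ s : Fin d → Bool, s = fun i => if i = f.1 then f.2 else
    decide (0 ≤ u i - v i) := ⟨_, rfl⟩
  have hsf : s f.1 = f.2 := by rw [hs]; simp
  have hspos : ∀ i, 0 ≤ sg (s i) * (u i - v i) := by
    intro i
    by_cases hi : i = f.1
    · rw [hi, hsf]
      exact hvu
    · have : s i = decide (0 ≤ u i - v i) := by rw [hs]; simp [hi]
      rw [this]
      by_cases h : 0 ≤ u i - v i
      · simp [sg]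
        omega
      · simp [sg]
        omega
  obtain ⟨w, hw⟩ : ∃ w : Zd d, (ref v s).symm u = w := ⟨_, rfl⟩
  have hwi : ∀ i, w i = sg (s i) * (u i - v i) := fun i => by rw [← hw]; rfl
  have hgw : ref v s w = u := by rw [← hw]; exact Equiv.apply_symm_apply _ _
  have hg0 : ref v s 0 = v := by
    funext i
    rw [ref_apply, Pi.zero_apply]
    ring
  have hnm : nm w = nm (u - v) := by
    unfold nm
    refine Finset.sup_congr rfl fun i _ => ?_
    rw [hwi, Int.natAbs_mul, Pi.sub_apply]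
    have : (sg (s i)).natAbs = 1 := by
      have h := sg_abs (s i)
      rw [Int.abs_eq_natAbs] at h
      exact_mod_cast h
    rw [this, one_mul]
  have h2 := hq w (fun i => by rw [hwi]; exact hspos i)
  rw [hnm] at h2
  refine h2.trans ?_
  obtain ⟨E0, hE0⟩ : ∃ E0 : Set (Zd d → Bool), {X | X 0 = true ∧
    Lk Adj {v | X v = true ∧ ∀ i, 0 ≤ v i} (16 * d * (nm (u - v) + 1)) 0 w} = E0 := ⟨_, rfl⟩
  rw [hE0]
  obtain ⟨F, hF⟩ : ∃ F : Set (Zd d → Bool), {X | (fun y => X (ref v s y)) ∈ E0} = F := ⟨_, rfl⟩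
  have hperm := TRP.p_PERM (Zd d) (fun _ => q) (fun _ => ⟨h0, h1⟩) (ref v s).symm (fun _ => rfl)
  have hmeas : Measurable (fun (ω : Zd d → Bool) (y : Zd d) => ω ((ref v s).symm y)) :=
    measurable_pi_lambda _ fun y => measurable_pi_apply _
  have h3 : (law fun _ : Zd d => q).real E0 ≤ (law fun _ : Zd d => q).real F := by
    have h4 := Measure.le_map_apply (μ := law fun _ : Zd d => q) hmeas.aemeasurable F
    rw [hperm] at h4
    have h5 : (fun (ω : Zd d → Bool) (y : Zd d) => ω ((ref v s).symm y)) ⁻¹' F = E0 := by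
      ext X
      rw [← hF]
      simp only [Set.mem_preimage, Set.mem_ofPred_eq, Equiv.symm_apply_apply]
    rw [h5] at h4
    exact ENNReal.toReal_mono (measure_ne_top _ _) h4
  refine h3.trans (measureReal_mono ?_)
  intro X hX
  rw [← hF, ← hE0] at hX
  obtain ⟨hX0, hl⟩ := hX
  have hX0 : X (ref v s 0) = true := hX0
  rw [hg0] at hX0
  have hl' := lk_map (D' := {x | X x = true ∧ c ≤ sg f.2 * x f.1}) (ref v s)
    (ref_adj v s) (by
      rintro a ⟨ha1, ha2⟩
      refine ⟨ha1, ?_⟩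
      rw [ref_apply, hsf]
      have h6 : sg f.2 * (v f.1 + sg f.2 * a f.1) = sg f.2 * v f.1 + (sg f.2 * sg f.2) * a f.1 := by
        ring
      rw [h6, sg_sq, one_mul]
      have := ha2 f.1
      linarith) _ _ _ hl
  rw [hg0, hgw] at hl'
  refine ⟨hX0, ?_, hl'⟩
  rcases hl'.end_mem with h | h
  · rw [← h]
    exact hX0
  · exact h.1

end HDP_

theorem p_HDP (h_HDO : T_HDO) : T_HDP := by
  intro d ε hd hε
  obtain ⟨q₀, hq0, hq1, hq⟩ := h_HDO d ε hd hε
  refine ⟨q₀, hq0, hq1, ?_⟩
  intro q hqa hqb f c v u hv hu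
  have hprob := law_prob (I := Zd d) (q := fun _ => q) fun _ => ⟨by linarith, hqb⟩
  by_cases h : 0 ≤ sg f.2 * (u f.1 - v f.1)
  · exact HDP_.up (by linarith) hqb (hq q hqa hqb) f c v u hv h
  · have h1 := HDP_.up (by linarith) hqb (hq q hqa hqb) f c u v hu (by
      have : sg f.2 * (v f.1 - u f.1) = -(sg f.2 * (u f.1 - v f.1)) := by ring
      rw [this]
      linarith)
    refine h1.trans (measureReal_mono ?_)
    rintro X ⟨h2, h3, h4⟩
    refine ⟨h3, h2, ?_⟩
    have h5 := Lk.symm adj_symm (show u ∈ {x | X x = true ∧ c ≤ sg f.2 * x f.1} from ⟨h2, hu⟩) h4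
    have h6 : nm (v - u) = nm (u - v) := by
      rw [← nm_neg, neg_sub]
    rw [h6] at h5
    exact h5

end

end Pool.Agent.PRC
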