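import Pool.Agent.PRC.T3

/-!
# PRC: numerical bound for HH (T_HHN)
-/

set_option autoImplicit false

namespace Pool.Agent.PRC

namespace HHN_

theorem HH_succ (k : ℕ) : HH (k + 1) = (32 * 2 ^ k + 8) * HH k := by
  show (2 ^ (k + 1 + 4) + 8) * HH k = _
  rw [show k + 1 + 4 = k + 5 by ring, pow_add]
  ring

theorem LL_succ (k : ℕ) : LL (k + 1) = LL k * (32 * 2 ^ k) := by
  show LL k * 2 ^ (k + 1 + 4) = _
  rw [show k + 1 + 4 = k + 5 by ring, pow_add]
  ring

theorem LL_pos (k : ℕ) : 0 < LL k := by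
  induction k with
  | zero => exact Nat.one_pos
  | succ k ih =>
    rw [LL_succ]
    positivity

theorem HH_pos (k : ℕ) : 0 < HH k := by
  induction k with
  | zero => exact Nat.one_pos
  | succ k ih =>
    rw [HH_succ]
    positivity

theorem main (k : ℕ) : HH k * 2 ^ k + LL k ≤ LL k * 2 ^ k * 2 := by
  induction k with
  | zero =>
    show 1 * 2 ^ 0 + 1 ≤ 1 * 2 ^ 0 * 2
    norm_num
  | succ k ih =>
    rw [HH_succ, LL_succ, pow_succ]
    generalize 2 ^ k = a at ih ⊢
    generalize HH k = h at ih ⊢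
    generalize LL k = L at ih ⊢
    have h1 : (64 * a + 16) * (h * a + L) ≤ (64 * a + 16) * (L * a * 2) := Nat.mul_le_mul_left _ ih
    nlinarith [h1]

end HHN_

/-- T_HHN -/
theorem p_HHN : T_HHN := by
  intro k
  refine ⟨?_, ?_, HHN_.LL_pos k, HHN_.HH_pos k⟩
  · have h := HHN_.main k
    have h1 : HH k * 2 ^ k ≤ (2 * LL k) * 2 ^ k := by
      nlinarith [HHN_.LL_pos k]
    exact Nat.le_of_mul_le_mul_right h1 (by positivity)
  · induction k with
    | zero => simp
    | succ k ih =>
      rw [Finset.sum_range_succ]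
      have h1 : 2 * HH k ≤ HH (k + 1) := by
        rw [HHN_.HH_succ]
        exact Nat.mul_le_mul_right _ (by omega)
      omega

end Pool.Agent.PRC
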