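import Pool.Agent.PRC.T3

/-!
# PRC: HUB, the hub of a good box is an open site of the box
-/

set_option autoImplicit false

open MeasureTheory Filter Topology
open scoped Classical

namespace Pool.Agent.PRC

theorem HUB_.kix_zero {d : ℕ} (w : Zd d) : kix 0 w = w := by
  funext i
  simp [kix, LL]

theorem p_HUB (h_CEN : T_CEN) (h_CEI : T_CEI) (h_KIX : T_KIX) : T_HUB := by
  intro d k X
  induction k with
  | zero =>
    intro w _ hb
    refine ⟨?_, ?_⟩
    · by_contra hX
      apply hb
      show X w = false
      have hX' : ¬ X w = true := hX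
      exact Bool.not_eq_true _ ▸ hX'
    · exact HUB_.kix_zero w
  | succ k ih =>
    intro w hd hb
    have hc : ∃ c, isc X k w c := h_CEN d k X w hd hb
    have hh : hub X (k + 1) w = hub X k (Classical.choose hc) := by
      show (if h : ∃ c, isc X k w c then hub X k (Classical.choose h) else 0) = _
      rw [dif_pos hc]
    obtain ⟨h1, h2⟩ := h_CEI d k X w _ hd (Classical.choose_spec hc)
    obtain ⟨h3, h4⟩ := ih (Classical.choose hc) hd h2
    rw [hh]
    refine ⟨h3, ?_⟩
    apply ((h_KIX d k).1 _ w).1
    rw [h4]
    exact h1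

end Pool.Agent.PRC
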