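import Pool.Agent.PRC.T1

/-!
# PRC, target IND: independence of events with disjoint supports
-/

set_option autoImplicit false

open MeasureTheory Filter Topology
open scoped Classical

namespace Pool.Agent.PRC

open TRP (bern law)

theorem p_IND (h_SPL : T_SPL) : T_IND := by
  intro I q hq J K A B hA hB hJK hmA hmB
  obtain ⟨hm, he⟩ := h_SPL I q hq J
  have hp : IsProbabilityMeasure (law q) := law_prob hq
  have hpre : (fun x : (I → Bool) × (I → Bool) => mrg J x.1 x.2) ⁻¹' (A ∩ B) = A ×ˢ B := by
    ext ⟨ω, ω'⟩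
    have h1 : mrg J ω ω' ∈ A ↔ ω ∈ A := hA _ _ (fun i hi => by simp [mrg, hi])
    have h2 : mrg J ω ω' ∈ B ↔ ω' ∈ B := hB _ _ (fun i hi => by
      have h3 : i ∉ J := fun h => Set.disjoint_left.1 hJK h hi
      simp [mrg, h3])
    simp only [Set.mem_preimage, Set.mem_inter_iff, Set.mem_prod, h1, h2]
  have h : (law q) (A ∩ B) = (law q) A * (law q) B := by
    calc (law q) (A ∩ B)
        = (((law q).prod (law q)).map (fun x : (I → Bool) × (I → Bool) => mrg J x.1 x.2))
            (A ∩ B) := by rw [he]
      _ = ((law q).prod (law q)) (A ×ˢ B) := by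
          rw [Measure.map_apply hm (hmA.inter hmB), hpre]
      _ = (law q) A * (law q) B := Measure.prod_prod A B
  show ((law q) (A ∩ B)).toReal = ((law q) A).toReal * ((law q) B).toReal
  rw [h, ENNReal.toReal_mul]

end Pool.Agent.PRC
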