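import Pool.Agent.PRC.T1
import Pool.Agent.PRC.Base

/-!
# PRC, INF: independence of an event and a function
-/

set_option autoImplicit false

open MeasureTheory
open scoped Classical

namespace Pool.Agent.PRC

open TRP (bern law)

theorem p_INF (h_SPL : T_SPL) : T_INF := by
  intro I q hq J K A f hA hf hJK hAm hfm _
  obtain ⟨hm, hmap⟩ := h_SPL I q hq J
  have hprob : IsProbabilityMeasure (law q) := law_prob hq
  have h1 : ∫ ω in A, f ω ∂(law q) = ∫ ω, A.indicator f ω ∂(law q) := (integral_indicator hAm).symm
  have h2 : ∫ ω, A.indicator f ω ∂(law q) =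
      ∫ x : (I → Bool) × (I → Bool), A.indicator f (mrg J x.1 x.2) ∂((law q).prod (law q)) := by
    conv_lhs => rw [← hmap]
    rw [integral_map hm.aemeasurable]
    exact (hfm.indicator hAm).aestronglyMeasurable
  have h3 : ∀ x : (I → Bool) × (I → Bool), A.indicator f (mrg J x.1 x.2) =
      A.indicator (1 : (I → Bool) → ℝ) x.1 * f x.2 := by
    intro x
    have h4 : mrg J x.1 x.2 ∈ A ↔ x.1 ∈ A := by
      apply hA
      intro i hi
      unfold mrg
      rw [if_pos hi]
    have h5 : f (mrg J x.1 x.2) = f x.2 := by
      apply hf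
      intro i hi
      unfold mrg
      rw [if_neg]
      intro hiJ
      exact (Set.disjoint_left.1 hJK) hiJ hi
    by_cases h6 : x.1 ∈ A
    · rw [Set.indicator_of_mem (h4.2 h6), Set.indicator_of_mem h6, h5]
      simp
    · rw [Set.indicator_of_notMem (fun h => h6 (h4.1 h)), Set.indicator_of_notMem h6]
      simp
  rw [h1, h2]
  rw [integral_congr_ae (Filter.Eventually.of_forall h3)]
  rw [integral_prod_mul]
  rw [integral_indicator_one hAm]

end Pool.Agent.PRC
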