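import Pool.Agent.PRC.T2

/-!
# PRC, target IV0
-/

set_option autoImplicit false

open MeasureTheory
open scoped Classical

namespace Pool.Agent.PRC

namespace IV0_

theorem walk {d r0 : ℕ} (k : ℕ) : ∀ x : Zd d, x ∈ Bx (0 : Zd d) r0 →
    ∑ i, (x i).natAbs = k → Lk Adj (↑(Bx (0 : Zd d) r0) : Set (Zd d)) k 0 x := by
  induction k with
  | zero =>
    intro x _ hs
    have : x = 0 := by
      funext i
      have := (Finset.sum_eq_zero_iff.1 hs) i (Finset.mem_univ i)
      simpa using this
    exact this.symm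
  | succ k ih =>
    intro x hx hs
    have hne : ∃ i, x i ≠ 0 := by
      by_contra hcon
      push Not at hcon
      have : ∑ i, (x i).natAbs = 0 := by simp [hcon]
      omega
    obtain ⟨i, hi⟩ := hne
    obtain ⟨b, hb⟩ : ∃ b : Bool, (x i - sg b).natAbs + 1 = (x i).natAbs := by
      rcases lt_or_gt_of_ne hi with h | h
      · refine ⟨false, ?_⟩
        simp only [sg]
        simp only [Bool.false_eq_true, if_false]
        omega
      · refine ⟨true, ?_⟩
        simp only [sg, if_true]
        omega
    have hx' : x - dv (i, b) ∈ Bx (0 : Zd d) r0 := by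
      rw [mem_Bx_zero] at hx ⊢
      intro j
      by_cases hj : j = i
      · subst hj
        have h1 := hx j
        have h2 : (x - dv (j, b)) j = x j - sg b := by
          rw [Pi.sub_apply, dv_self]
        rw [h2]
        rw [Int.abs_eq_natAbs] at h1 ⊢
        omega
      · have h2 : (x - dv (i, b)) j = x j := by
          rw [Pi.sub_apply, dv_ne _ hj, sub_zero]
        rw [h2]
        exact hx j
    have hs' : ∑ j, ((x - dv (i, b)) j).natAbs = k := by
      rw [← Finset.add_sum_erase _ _ (Finset.mem_univ i)] at hs ⊢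
      have h2 : (x - dv (i, b)) i = x i - sg b := by
        rw [Pi.sub_apply, dv_self]
      rw [h2]
      have h3 : ∑ j ∈ Finset.univ.erase i, ((x - dv (i, b)) j).natAbs =
          ∑ j ∈ Finset.univ.erase i, (x j).natAbs := by
        refine Finset.sum_congr rfl fun j hj => ?_
        rw [Pi.sub_apply, dv_ne _ (Finset.ne_of_mem_erase hj), sub_zero]
      rw [h3]
      omega
    refine Or.inr ⟨x - dv (i, b), ih _ hx' hs', ⟨(i, b), ?_⟩, Finset.mem_coe.2 hx⟩
    simp

theorem ball {d r0 : ℕ} {x : Zd d} (hx : x ∈ Bx (0 : Zd d) r0) :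
    Lk Adj (↑(Bx (0 : Zd d) r0) : Set (Zd d)) (d * r0) 0 x := by
  refine (walk _ x hx rfl).mono ?_
  rw [mem_Bx_zero] at hx
  calc ∑ i, (x i).natAbs ≤ ∑ _i : Fin d, r0 := by
        refine Finset.sum_le_sum fun i _ => ?_
        have := hx i
        rw [Int.abs_eq_natAbs] at this
        omega
    _ = d * r0 := by simp

end IV0_

theorem p_IV0 : T_IV0 := by
  intro d m n r0 T cf BB l hm hl
  refine ⟨?_, ?_, ?_, hl, ?_, ?_⟩
  · exact Finset.Subset.refl _
  · intro u hu
    have hu0 : u = 0 := by simpa [s0] using hu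
    subst hu0
    constructor
    · intro y hy
      have hy' : y ∈ Bx (0 : Zd d) m := hy
      show y ∈ Bx (0 : Zd d) r0
      rw [mem_Bx_zero] at hy' ⊢
      intro i
      have := hy' i
      have h2 : (m : ℤ) ≤ r0 := by exact_mod_cast hm
      linarith
    · show (0 : Zd d) ∈ Bx (bc m n 0) (NN m n)
      rw [mem_Bx]
      intro i
      simp [bc]
  · exact Finset.Subset.refl _
  · intro τ hτ
    simp [s0] at hτ
  · intro x hx
    left
    refine ⟨hx, ?_⟩
    refine (IV0_.ball (hx : x ∈ Bx (0 : Zd d) r0)).mono ?_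
    unfold kap
    omega

end Pool.Agent.PRC
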