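import Pool.Agent.PRC.T2

/-!
# PRC, IVC: the invariant of the centres
-/

set_option autoImplicit false

open MeasureTheory Filter Topology
open scoped Classical

namespace Pool.Agent.PRC

namespace IVC_

theorem pick_spec {V : Type} {P : V → Prop} {x : V} (h : pick P = some x) : P x := by
  unfold pick at h
  split_ifs at h with h'
  rw [← Option.some.inj h]
  exact Classical.choose_spec h'

theorem sub_grs {d : ℕ} (n : ℕ) (s : St d) (u : Zd d) (e : Dir d) (ω : Zd d × Ly d → Bool) :
    s.R ⊆ grs n s u e ω := by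
  unfold grs gro
  exact Finset.subset_union_left

end IVC_

open IVC_ in
theorem p_IVC (h_REG : T_REG) : T_IVC := by
  intro d m n r0 T cf BB τ l s ω hI
  unfold FF
  by_cases hact : τ.2.1 ∈ s.C ∧ τ.2.1 + dv τ.2.2 ∉ s.E
  · rw [if_pos hact]
    obtain ⟨hz1, hz2⟩ := hI.cen τ.2.1 hact.1
    cases ho : pick (sgd m n s τ.2.1 τ.2.2 ω) with
    | none =>
      intro u hu
      have hu' : u ∈ s.C := hu
      obtain ⟨h1, h2⟩ := hI.cen u hu'
      exact ⟨h1.trans (sub_grs n s τ.2.1 τ.2.2 ω), h2⟩
    | some x =>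
      have hx := pick_spec ho
      obtain ⟨_, hx2, _⟩ := hx
      obtain ⟨_, hreg⟩ := h_REG d m n τ.2.1 (s.cen τ.2.1) τ.2.2 hz2
      obtain ⟨_, hreg2⟩ := hreg x hx2
      intro u hu
      have hu' : u ∈ insert (τ.2.1 + dv τ.2.2) s.C := hu
      show Bx (Function.update s.cen (τ.2.1 + dv τ.2.2) (pc m τ.2.2 x) u) m ⊆
          grs n s τ.2.1 τ.2.2 ω ∪ pd m τ.2.2 x ∧
        Function.update s.cen (τ.2.1 + dv τ.2.2) (pc m τ.2.2 x) u ∈ Bx (bc m n u) (NN m n)
      by_cases huv : u = τ.2.1 + dv τ.2.2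
      · rw [huv, Function.update_self]
        exact ⟨Finset.subset_union_right, hreg2⟩
      · rw [Function.update_of_ne huv]
        have hu2 : u ∈ s.C := by
          rcases Finset.mem_insert.1 hu' with h | h
          · exact absurd h huv
          · exact h
        obtain ⟨h1, h2⟩ := hI.cen u hu2
        exact ⟨(h1.trans (sub_grs n s τ.2.1 τ.2.2 ω)).trans Finset.subset_union_left, h2⟩
  · rw [if_neg hact]
    exact hI.cen

end Pool.Agent.PRC
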