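import Pool.Agent.PRC.T2

/-!
# PRC: the invariant `len` is preserved (job IVL)
-/

set_option autoImplicit false

open MeasureTheory Filter Topology
open scoped Classical

namespace Pool.Agent.PRC

open TRP (bern law)

namespace IVL_

/-- a path from a point of `S` in `D` stays in the points reached from `S` in `D` -/
theorem lk_rc {V : Type} {adj : V → V → Prop} {D S : Set V} {n : ℕ} {u v : V} (hu : u ∈ S)
    (h : Lk adj D n u v) : Lk adj (D ∩ Rc adj D S) n u v ∧ v ∈ Rc adj D S := by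
  induction n generalizing v with
  | zero => exact ⟨h, (show u = v from h) ▸ Rc.self hu⟩
  | succ n ih =>
    rcases h with h | ⟨w, h1, h2, h3⟩
    · exact ⟨Or.inl (ih h).1, (ih h).2⟩
    · have h4 := ih h1
      have h5 : v ∈ Rc adj D S := Rc.step h4.2 h2 h3
      exact ⟨Or.inr ⟨w, h4.1, h2, h3, h5⟩, h5⟩

theorem adj_Bx {d : ℕ} {x y z : Zd d} {n : ℕ} (h : Adj x y) (hy : y ∈ Bx z n) :
    x ∈ Bx z (n + 1) := by
  obtain ⟨e, rfl⟩ := h
  rw [mem_Bx] at hy ⊢
  intro i
  have h1 := hy i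
  by_cases hi : i = e.1
  · subst hi
    rw [Pi.add_apply, dv_self] at h1
    have h2 := sg_abs e.2
    rw [abs_le] at h1 ⊢
    have h3 := abs_le.mp h2.le
    push_cast
    constructor <;> linarith [h1.1, h1.2, h3.1, h3.2]
  · rw [Pi.add_apply, dv_ne e hi, add_zero] at h1
    push_cast
    linarith

theorem Bx_mono {d : ℕ} {z : Zd d} {n n' : ℕ} (h : n ≤ n') : Bx z n ⊆ Bx z n' := by
  intro x hx
  rw [mem_Bx] at hx ⊢
  intro i
  have := hx i
  have h' : (n : ℤ) ≤ n' := by exact_mod_cast h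
  linarith

/-- the points of a ball are joined in the ball -/
theorem ball_rc {d : ℕ} (c a : Zd d) (m : ℕ) (ha : a ∈ Bx c m) : ∀ (k : ℕ) (b : Zd d),
    ∑ i, (b i - a i).natAbs = k → b ∈ Bx c m → b ∈ Rc Adj (↑(Bx c m) : Set (Zd d)) {a} := by
  intro k
  induction k with
  | zero =>
    intro b hb _
    have h1 : b = a := by
      funext i
      have h2 := (Finset.sum_eq_zero_iff.mp hb) i (Finset.mem_univ i)
      omega
    rw [h1]
    exact Rc.self rfl
  | succ k ih =>
    intro b hb hbB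
    have h1 : ∃ i, b i ≠ a i := by
      by_contra hcon
      push Not at hcon
      have h2 : ∑ i, (b i - a i).natAbs = 0 :=
        Finset.sum_eq_zero fun i _ => by rw [hcon i, sub_self, Int.natAbs_zero]
      omega
    obtain ⟨i, hi⟩ := h1
    obtain ⟨e, he, hlt⟩ : ∃ e : Dir d, e.1 = i ∧
        ((sg e.2 = 1 ∧ b i < a i) ∨ (sg e.2 = -1 ∧ a i < b i)) := by
      rcases lt_or_gt_of_ne hi with h | h
      · exact ⟨(i, true), rfl, Or.inl ⟨by simp [sg], h⟩⟩
      · exact ⟨(i, false), rfl, Or.inr ⟨by simp [sg], h⟩⟩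
    subst he
    have hself : (b + dv e) e.1 = b e.1 + sg e.2 := by rw [Pi.add_apply, dv_self]
    have hne : ∀ j, j ≠ e.1 → (b + dv e) j = b j := by
      intro j hj
      rw [Pi.add_apply, dv_ne e hj, add_zero]
    have hin : b + dv e ∈ Bx c m := by
      rw [mem_Bx] at hbB ha ⊢
      intro j
      by_cases hj : j = e.1
      · subst hj
        rw [hself, abs_le]
        have h3 := abs_le.mp (hbB e.1)
        have h4 := abs_le.mp (ha e.1)
        rcases hlt with ⟨h5, h6⟩ | ⟨h5, h6⟩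
        · rw [h5]
          constructor <;> omega
        · rw [h5]
          constructor <;> omega
      · rw [hne j hj]
        exact hbB j
    have hsum : ∑ j, ((b + dv e) j - a j).natAbs = k := by
      have h3 : ∑ j, (b j - a j).natAbs =
          (b e.1 - a e.1).natAbs + ∑ j ∈ Finset.univ.erase e.1, (b j - a j).natAbs :=
        (Finset.add_sum_erase _ _ (Finset.mem_univ e.1)).symm
      have h4 : ∑ j, ((b + dv e) j - a j).natAbs = ((b + dv e) e.1 - a e.1).natAbs +
          ∑ j ∈ Finset.univ.erase e.1, ((b + dv e) j - a j).natAbs :=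
        (Finset.add_sum_erase _ _ (Finset.mem_univ e.1)).symm
      have h5 : ∑ j ∈ Finset.univ.erase e.1, ((b + dv e) j - a j).natAbs =
          ∑ j ∈ Finset.univ.erase e.1, (b j - a j).natAbs := by
        refine Finset.sum_congr rfl fun j hj => ?_
        rw [hne j (Finset.ne_of_mem_erase hj)]
      rw [h4, h5, hself]
      rw [h3] at hb
      rcases hlt with ⟨h6, h7⟩ | ⟨h6, h7⟩
      · rw [h6]
        omega
      · rw [h6]
        omega
    have h6 : Adj (b + dv e) b := by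
      have : Adj b (b + dv e) := ⟨e, rfl⟩
      exact this.symm
    exact Rc.step (ih (b + dv e) hsum hin) h6 hbB

/-- the points of a ball are joined in the ball by few steps -/
theorem ball_lk (hR : T_RCF) {d : ℕ} {c a b : Zd d} {m : ℕ} (ha : a ∈ Bx c m) (hb : b ∈ Bx c m) :
    Lk Adj (↑(Bx c m) : Set (Zd d)) ((2 * m + 1) ^ d) a b := by
  obtain ⟨u, hu, h⟩ := hR (Zd d) Adj (Bx c m) {a} b (ball_rc c a m ha _ b rfl hb)
  rw [Bx_card] at h
  rw [Set.mem_singleton_iff] at hu
  exact hu ▸ h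

/-- the first point of the pad -/
theorem first_pad {d : ℕ} (m : ℕ) (e : Dir d) (x : Zd d) : x + dv e ∈ pd m e x := by
  unfold pd pc
  rw [mem_Bx]
  intro i
  by_cases hi : i = e.1
  · subst hi
    simp only [Pi.add_apply, Pi.smul_apply, smul_eq_mul, dv_self]
    have h1 : x e.1 + sg e.2 - (x e.1 + ((m : ℤ) + 1) * sg e.2) = -((m : ℤ) * sg e.2) := by ring
    rw [h1, abs_neg, abs_mul, sg_abs, mul_one, Nat.abs_cast]
  · simp only [Pi.add_apply, Pi.smul_apply, smul_eq_mul, dv_ne e hi]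
    simp

theorem pick_spec {V : Type} {P : V → Prop} {x : V} (h : pick P = some x) : P x := by
  unfold pick at h
  split_ifs at h with h1
  · have h2 := Option.some.inj h
    rw [← h2]
    exact Classical.choose_spec h1

end IVL_

open IVL_ in
/-- **IVL.** -/
theorem p_IVL (hF : T_FRS) (hG : T_REG) (hR : T_RCF) : T_IVL := by
  intro d m n r0 T cf BB τ l s ω hI x hx
  by_cases hact : τ.2.1 ∈ s.C ∧ τ.2.1 + dv τ.2.2 ∉ s.E
  swap
  · have h1 : FF m n τ s ω = s := by
      unfold FF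
      rw [if_neg hact]
    rw [h1] at hx ⊢
    exact hI.len x hx
  have hFF : FF m n τ s ω =
      nxt m s τ (grs n s τ.2.1 τ.2.2 ω) (pick (sgd m n s τ.2.1 τ.2.2 ω)) := by
    unfold FF
    rw [if_pos hact]
  set s' := FF m n τ s ω with hs'
  set G := grs n s τ.2.1 τ.2.2 ω with hGd
  set z := s.cen τ.2.1 with hz
  set κ := kap d m n r0 with hκ
  have hcen := hI.cen τ.2.1 hact.1
  have hreg := hG d m n τ.2.1 z τ.2.2 hcen.2
  -- simple facts on the new state
  have hGs : G ⊆ s'.R := by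
    rw [hFF]
    unfold nxt
    cases pick (sgd m n s τ.2.1 τ.2.2 ω) with
    | none => exact subset_rfl
    | some y => exact Finset.subset_union_left
  have htr : s'.trd = insert τ s.trd := by
    rw [hFF]
    unfold nxt
    cases pick (sgd m n s τ.2.1 τ.2.2 ω) with
    | none => rfl
    | some y => rfl
  have hsG : s.R ⊆ G := by
    rw [hGd]
    unfold grs gro
    exact Finset.subset_union_left
  have hsR : (↑s.R : Set (Zd d)) ⊆ ↑s'.R := by
    exact_mod_cast hsG.trans hGs
  have hGR : (↑G : Set (Zd d)) ⊆ ↑s'.R := by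
    exact_mod_cast hGs
  -- (a)
  have ha : ∀ y ∈ s.R, y ∈ rg m n τ.2.1 → Lk Adj (↑s.R : Set (Zd d)) (κ * (τ.1 + 1)) 0 y := by
    intro y hy hyr
    rcases hI.len y hy with ⟨_, h⟩ | ⟨τ', hτ', h1, h2⟩
    · refine h.mono ?_
      exact Nat.le_mul_of_pos_right κ (Nat.succ_pos _)
    · refine h2.mono ?_
      have h3 : ¬ Disjoint (rg m n τ'.2.1) (rg m n τ.2.1) := by
        rw [Finset.not_disjoint_iff]
        exact ⟨y, h1, hyr⟩
      have h4 := ((hF d m n r0 T cf BB τ l s hI hact.2) τ' hτ').2 h3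
      exact Nat.mul_le_mul_left κ (by omega)
  -- (b)
  have hb : ∀ y ∈ G, y ∈ Bx z n →
      Lk Adj (↑s'.R : Set (Zd d)) (κ * (τ.1 + 1) + 1 + (2 * n + 1) ^ d) 0 y := by
    intro y hy hyz
    by_cases hys : y ∈ s.R
    · refine ((ha y hys (hreg.1 (Bx_mono (Nat.le_succ n) hyz))).sub hsR).mono ?_
      omega
    · have h1 : y ∈ (Bx z n).filter fun y =>
          y ∈ Rc Adj {y | y ∈ Bx z n ∧ y ∉ s.R ∧ y ∉ bdy s.R ∧ ω (y, none) = true}
            ↑(frt s.R z n (ls (cls τ.2.1 τ.2.2)) ω) := by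
        have h2 : y ∈ s.R ∪ (Bx z n).filter fun y =>
            y ∈ Rc Adj {y | y ∈ Bx z n ∧ y ∉ s.R ∧ y ∉ bdy s.R ∧ ω (y, none) = true}
              ↑(frt s.R z n (ls (cls τ.2.1 τ.2.2)) ω) := hy
        rcases Finset.mem_union.mp h2 with h3 | h3
        · exact absurd h3 hys
        · exact h3
      have h2 := (Finset.mem_filter.mp h1).2
      let F : Finset (Zd d) := (Bx z n).filter fun y =>
        y ∉ s.R ∧ y ∉ bdy s.R ∧ ω (y, none) = true
      have hFD : {y | y ∈ Bx z n ∧ y ∉ s.R ∧ y ∉ bdy s.R ∧ ω (y, none) = true} =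
          (↑F : Set (Zd d)) := by
        ext y
        simp [F]
      rw [hFD] at h2
      obtain ⟨f, hf, hlk⟩ := hR (Zd d) Adj F _ y h2
      have hlk' := (lk_rc hf hlk).1
      have hsub : (↑F : Set (Zd d)) ∩ Rc Adj (↑F : Set (Zd d))
          ↑(frt s.R z n (ls (cls τ.2.1 τ.2.2)) ω) ⊆ ↑s'.R := by
        rintro v ⟨hv1, hv2⟩
        refine hGR ?_
        have hv3 : v ∈ (Bx z n).filter fun y =>
            y ∈ Rc Adj {y | y ∈ Bx z n ∧ y ∉ s.R ∧ y ∉ bdy s.R ∧ ω (y, none) = true}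
              ↑(frt s.R z n (ls (cls τ.2.1 τ.2.2)) ω) := by
          refine Finset.mem_filter.mpr ⟨?_, ?_⟩
          · exact (Finset.mem_filter.mp (Finset.mem_coe.mp hv1)).1
          · rw [hFD]
            exact hv2
        exact Finset.mem_coe.mpr (Finset.mem_union_right _ hv3)
      have hlk2 := hlk'.sub hsub
      have hf1 := Finset.mem_filter.mp (Finset.mem_coe.mp hf)
      have hf2 := Finset.mem_inter.mp hf1.1
      have hfG : f ∈ (↑s'.R : Set (Zd d)) := by
        refine hGR ?_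
        have hv3 : f ∈ (Bx z n).filter fun y =>
            y ∈ Rc Adj {y | y ∈ Bx z n ∧ y ∉ s.R ∧ y ∉ bdy s.R ∧ ω (y, none) = true}
              ↑(frt s.R z n (ls (cls τ.2.1 τ.2.2)) ω) :=
          Finset.mem_filter.mpr ⟨hf2.2, Rc.self hf⟩
        exact Finset.mem_coe.mpr (Finset.mem_union_right _ hv3)
      obtain ⟨⟨y0, hy0, hadj⟩, _⟩ := mem_bdy.mp hf2.1
      have h3 := ha y0 hy0 (hreg.1 (adj_Bx hadj hf2.2))
      have h4 := ((h3.sub hsR).trans (Lk.one hadj hfG)).trans hlk2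
      refine h4.mono ?_
      have h5 : F.card ≤ (2 * n + 1) ^ d := by
        rw [← Bx_card z n]
        exact Finset.card_le_card (Finset.filter_subset _ _)
      omega
  have hkap : κ * (τ.1 + 1) + 1 + (2 * n + 1) ^ d + 1 + (2 * m + 1) ^ d ≤ κ * (τ.1 + 2) := by
    have h1 : κ * (τ.1 + 2) = κ * (τ.1 + 1) + κ := by ring
    have h2 : κ = d * r0 + (2 * n + 1) ^ d + (2 * m + 1) ^ d + 2 := rfl
    rw [h1]
    omega
  have hτ' : τ ∈ s'.trd := by
    rw [htr]
    exact Finset.mem_insert_self _ _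
  by_cases hxs : x ∈ s.R
  · rcases hI.len x hxs with ⟨h1, h2⟩ | ⟨τ', h1, h2, h3⟩
    · exact Or.inl ⟨h1, h2.sub hsR⟩
    · exact Or.inr ⟨τ', by rw [htr]; exact Finset.mem_insert_of_mem h1, h2, h3.sub hsR⟩
  · right
    refine ⟨τ, hτ', ?_⟩
    by_cases hxG : x ∈ G
    · have hxz : x ∈ Bx z n := by
        have h2 : x ∈ s.R ∪ (Bx z n).filter fun y =>
            y ∈ Rc Adj {y | y ∈ Bx z n ∧ y ∉ s.R ∧ y ∉ bdy s.R ∧ ω (y, none) = true}
              ↑(frt s.R z n (ls (cls τ.2.1 τ.2.2)) ω) := hxG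
        rcases Finset.mem_union.mp h2 with h3 | h3
        · exact absurd h3 hxs
        · exact (Finset.mem_filter.mp h3).1
      refine ⟨hreg.1 (Bx_mono (Nat.le_succ n) hxz), (hb x hxG hxz).mono ?_⟩
      omega
    · -- the pad
      have hpick : ∃ y, pick (sgd m n s τ.2.1 τ.2.2 ω) = some y ∧ x ∈ pd m τ.2.2 y := by
        rw [hFF] at hx
        unfold nxt at hx
        cases hp : pick (sgd m n s τ.2.1 τ.2.2 ω) with
        | none =>
          rw [hp] at hx
          exact absurd hx hxG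
        | some y =>
          rw [hp] at hx
          rcases Finset.mem_union.mp hx with h3 | h3
          · exact absurd h3 hxG
          · exact ⟨y, rfl, h3⟩
      obtain ⟨y, hp, hxy⟩ := hpick
      obtain ⟨hyG, hyQ, _⟩ := pick_spec hp
      have hpad := (hreg.2 y hyQ).1
      refine ⟨hpad hxy, ?_⟩
      have hyz : y ∈ Bx z n := by
        have h3 := (Finset.mem_filter.mp hyQ).1
        rw [mem_Bx_zero] at h3
        rw [mem_Bx]
        intro i
        exact h3 i
      have hpdR : (↑(pd m τ.2.2 y) : Set (Zd d)) ⊆ ↑s'.R := by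
        rw [hFF]
        unfold nxt
        rw [hp]
        intro v hv
        exact Finset.mem_coe.mpr (Finset.mem_union_right _ (Finset.mem_coe.mp hv))
      have h1 := hb y hyG hyz
      have h2 : y + dv τ.2.2 ∈ pd m τ.2.2 y := first_pad m τ.2.2 y
      have h3 : Lk Adj (↑s'.R : Set (Zd d)) 1 y (y + dv τ.2.2) :=
        Lk.one ⟨τ.2.2, rfl⟩ (hpdR (Finset.mem_coe.mpr h2))
      have h4 : Lk Adj (↑(pd m τ.2.2 y) : Set (Zd d)) ((2 * m + 1) ^ d) (y + dv τ.2.2) x :=
        ball_lk hR h2 hxy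
      exact ((h1.trans h3).trans (h4.sub hpdR)).mono hkap

end Pool.Agent.PRC
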