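import Pool.Agent.PRC.T2

/-!
# PRC: the invariants of the tried links
-/

set_option autoImplicit false

open scoped Classical

namespace Pool.Agent.PRC

theorem IVT_sch {d : ℕ} {cf : ℕ → Cl d} {BB : Finset (Zd d)} {T : ℕ} {τ : Ln d}
    {l : List (Ln d)} (h : Sch cf BB T (τ :: l)) :
    Sch cf BB T l ∧ (∀ τ'' ∈ l, τ.1 ≤ τ''.1) ∧ cls τ.2.1 τ.2.2 = cf τ.1 ∧ τ.2.1 ∈ BB ∧ τ.1 < T := by
  have hs := List.pairwise_cons.1 h.sorted
  refine ⟨⟨hs.2, fun a ha => h.cl a (List.mem_cons_of_mem _ ha),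
    fun a ha => h.mem a (List.mem_cons_of_mem _ ha), fun a ha => h.lt a (List.mem_cons_of_mem _ ha)⟩,
    hs.1, h.cl τ List.mem_cons_self, h.mem τ List.mem_cons_self, h.lt τ List.mem_cons_self⟩

theorem IVT_grs {d : ℕ} {n : ℕ} {s : St d} {u : Zd d} {e : Dir d} {ω : Zd d × Ly d → Bool} :
    s.R ⊆ grs n s u e ω := by
  unfold grs gro
  exact Finset.subset_union_left

theorem IVT_nxt {d : ℕ} {m : ℕ} {s : St d} {τ : Ln d} {G : Finset (Zd d)} (o : Option (Zd d))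
    (hG : s.R ⊆ G) (hsub : s.C ⊆ s.E) :
    s.R ⊆ (nxt m s τ G o).R ∧ (nxt m s τ G o).C ⊆ (nxt m s τ G o).E ∧
      s.E ⊆ (nxt m s τ G o).E ∧ τ.2.1 + dv τ.2.2 ∈ (nxt m s τ G o).E ∧
      (nxt m s τ G o).trd = insert τ s.trd := by
  cases o with
  | none =>
    exact ⟨hG, hsub.trans (Finset.subset_insert _ _), Finset.subset_insert _ _,
      Finset.mem_insert_self _ _, rfl⟩
  | some x =>
    exact ⟨hG.trans Finset.subset_union_left, Finset.insert_subset_insert _ hsub,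
      Finset.subset_insert _ _, Finset.mem_insert_self _ _, rfl⟩

theorem p_IVT : T_IVT := by
  intro d m n r0 T cf BB τ l s ω h
  obtain ⟨hl, hle, hcl, hBB, hT⟩ := IVT_sch h.sch
  have hold : ∀ τ' ∈ s.trd, τ'.2.1 + dv τ'.2.2 ∈ s.E ∧
      cls τ'.2.1 τ'.2.2 = cf τ'.1 ∧ τ'.2.1 ∈ BB ∧ τ'.1 < T ∧ ∀ τ'' ∈ l, τ'.1 ≤ τ''.1 := by
    intro τ' h'
    obtain ⟨a, b, c, e, f⟩ := h.trd τ' h'
    exact ⟨a, b, c, e, fun τ'' h'' => f τ'' (List.mem_cons_of_mem _ h'')⟩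
  unfold FF
  split_ifs with hc
  · obtain ⟨hR, hC, hE, hv, ht⟩ := IVT_nxt (m := m) (τ := τ) (s := s)
      (G := grs n s τ.2.1 τ.2.2 ω) (pick (sgd m n s τ.2.1 τ.2.2 ω)) IVT_grs h.sub
    refine ⟨h.root.trans hR, hC, hl, ?_⟩
    intro τ' h'
    rw [ht] at h'
    rcases Finset.mem_insert.1 h' with rfl | h'
    · exact ⟨hv, hcl, hBB, hT, hle⟩
    · obtain ⟨a, b⟩ := hold τ' h'
      exact ⟨hE a, b⟩
  · exact ⟨h.root, h.sub, hl, hold⟩

end Pool.Agent.PRC
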