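import Pool.Agent.PRC.T1

/-!
# PRC-JEN: Jensen's inequality for powers
-/

set_option autoImplicit false

open MeasureTheory Filter Topology

namespace Pool.Agent.PRC

theorem p_JEN : T_JEN := by
  intro Ω _ μ _ f α hf h01 h0 h1
  have hfm : AEStronglyMeasurable f μ := hf.aestronglyMeasurable
  have hfi : Integrable f μ := by
    refine Integrable.of_bound hfm 1 (Filter.Eventually.of_forall fun ω => ?_)
    rw [Real.norm_eq_abs, abs_of_nonneg (h01 ω).1]
    exact (h01 ω).2
  have hgm : AEStronglyMeasurable ((fun x : ℝ => x ^ α) ∘ f) μ :=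
    (hf.pow_const α).aestronglyMeasurable
  have hgi : Integrable ((fun x : ℝ => x ^ α) ∘ f) μ := by
    refine Integrable.of_bound hgm 1 (Filter.Eventually.of_forall fun ω => ?_)
    have h2 : 0 ≤ f ω ^ α := Real.rpow_nonneg (h01 ω).1 α
    show ‖f ω ^ α‖ ≤ 1
    rw [Real.norm_eq_abs, abs_of_nonneg h2]
    exact Real.rpow_le_one (h01 ω).1 (h01 ω).2 h0.le
  have hc : ConcaveOn ℝ (Set.Ici (0 : ℝ)) (fun x : ℝ => x ^ α) :=
    Real.concaveOn_rpow h0.le h1
  have hcont : ContinuousOn (fun x : ℝ => x ^ α) (Set.Ici (0 : ℝ)) :=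
    (Real.continuous_rpow_const h0.le).continuousOn
  exact hc.le_map_integral hcont isClosed_Ici
    (Filter.Eventually.of_forall fun ω => (h01 ω).1) hfi hgi

end Pool.Agent.PRC
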