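import Pool.Agent.PRC.T2

/-!
# PRC: T_JMO, revealed coordinates increase
-/

set_option autoImplicit false

open MeasureTheory Filter Topology
open scoped Classical

namespace Pool.Agent.PRC

noncomputable section

namespace JMO_

theorem mem_closure {d : ℕ} (R : Finset (Zd d)) (x : Zd d) :
    x ∈ R ∪ bdy R ↔ x ∈ R ∨ ∃ y ∈ R, x ∈ nbr y := by
  unfold bdy
  rw [Finset.mem_union, Finset.mem_sdiff, Finset.mem_biUnion]
  tauto

theorem mono {d : ℕ} (m n : ℕ) (s s' : St d) (hR : s.R ⊆ s'.R) (ht : s.trd ⊆ s'.trd) :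
    JJ m n s ⊆ JJ m n s' := by
  intro x hx
  rcases hx with ⟨h1, h2⟩ | ⟨τ, h1, h2⟩
  · refine Or.inl ⟨h1, ?_⟩
    rw [mem_closure] at h2 ⊢
    rcases h2 with h2 | ⟨y, hy, h2⟩
    · exact Or.inl (hR h2)
    · exact Or.inr ⟨y, hR hy, h2⟩
  · exact Or.inr ⟨τ, ht h1, h2⟩

theorem R_sub {d : ℕ} (n : ℕ) (s : St d) (u : Zd d) (e : Dir d) (ω : Zd d × Ly d → Bool) :
    s.R ⊆ grs n s u e ω := Finset.subset_union_left

end JMO_

open JMO_ in
theorem p_JMO : T_JMO := by
  intro d m n τ s ω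
  unfold FF
  split_ifs with h
  · cases pick (sgd m n s τ.2.1 τ.2.2 ω) with
    | none =>
      refine mono m n _ _ ?_ ?_
      · exact R_sub n s _ _ ω
      · exact Finset.subset_insert _ _
    | some x =>
      refine mono m n _ _ ?_ ?_
      · exact (R_sub n s _ _ ω).trans Finset.subset_union_left
      · exact Finset.subset_insert _ _
  · exact Set.Subset.rfl

end

end Pool.Agent.PRC
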