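import Pool.Agent.PRC.T4

set_option autoImplicit false

open MeasureTheory Filter Topology
open scoped Classical

namespace Pool.Agent.PRC

namespace JOI_

theorem pad_mem {d : ℕ} (r0 : ℕ) (e : Dir d) (x : Zd d) (j : ℕ) (h1 : 1 ≤ j) (h2 : j ≤ r0 + 1) :
    x + (j : ℤ) • dv e ∈ pd r0 e x := by
  unfold pd
  rw [mem_Bx]
  intro i
  unfold pc
  have e1 : (x + (j : ℤ) • dv e) i - (x + ((r0 : ℤ) + 1) • dv e) i = ((j : ℤ) - (r0 + 1)) * dv e i := by
    simp only [Pi.add_apply, Pi.smul_apply, smul_eq_mul]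
    ring
  rw [e1, abs_mul]
  have e2 : |dv e i| ≤ 1 := by
    by_cases h : i = e.1
    · rw [h, dv_self, sg_abs]
    · rw [dv_ne e h]
      simp
  have e3 : |(j : ℤ) - (r0 + 1)| ≤ r0 := by
    rw [abs_le]
    constructor
    · have : (1 : ℤ) ≤ j := by exact_mod_cast h1
      linarith
    · have : (j : ℤ) ≤ r0 + 1 := by exact_mod_cast h2
      have : (0 : ℤ) ≤ r0 := by positivity
      linarith
  calc |(j : ℤ) - (r0 + 1)| * |dv e i| ≤ r0 * 1 :=
        mul_le_mul e3 e2 (abs_nonneg _) (by positivity)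
    _ = r0 := mul_one _

theorem pad_open {d : ℕ} {M r0 : ℕ} {e : Dir d} {x : Zd d} {ω : Zd d × Ly d → Bool}
    (h : ω ∈ Gx M r0 e x) (y : Zd d) (hy : y ∈ pd r0 e x) : y ∈ Op (orr ω) := by
  show decide (∃ l, ω (y, l) = true) = true
  rw [decide_eq_true_iff]
  exact ⟨some none, h.2.2 y hy⟩

theorem line {d : ℕ} {M r0 : ℕ} {e : Dir d} {x : Zd d} {ω : Zd d × Ly d → Bool}
    (h : ω ∈ Gx M r0 e x) (j : ℕ) (hj : j ≤ r0 + 1) :
    Lk Adj (Op (orr ω)) j x (x + (j : ℤ) • dv e) := by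
  induction j with
  | zero =>
    show x = x + ((0 : ℕ) : ℤ) • dv e
    simp
  | succ j ih =>
    refine Or.inr ⟨x + (j : ℤ) • dv e, ih (by omega), ⟨e, ?_⟩, ?_⟩
    · push_cast
      rw [add_smul, one_smul, add_assoc]
    · exact pad_open h _ (pad_mem r0 e x (j + 1) (by omega) hj)

end JOI_

open JOI_

theorem p_JOI (h_RCF : T_RCF) : T_JOI := by
  intro d m n r0 k M BB e x w ω hG hE
  refine ⟨hG.1, ?_⟩
  obtain ⟨z, hz, hL⟩ := hE
  refine ⟨z, hz, ?_⟩
  -- from the origin to `x`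
  have h1 : Lk Adj (Op (orr ω)) ((2 * M + 1) ^ d) 0 x := by
    have hF : ((↑(Bx (0 : Zd d) M) : Set (Zd d)) ∩ Op (orr ω)) =
        ↑((Bx (0 : Zd d) M).filter fun y => y ∈ Op (orr ω)) := by
      ext y
      simp
    have hx := hG.2.1
    rw [hF] at hx
    obtain ⟨u, hu, hL1⟩ := h_RCF (Zd d) Adj _ {0} x hx
    have hu0 : u = 0 := hu
    rw [hu0] at hL1
    have hc : ((Bx (0 : Zd d) M).filter fun y => y ∈ Op (orr ω)).card ≤ (2 * M + 1) ^ d := by
      rw [← Bx_card (0 : Zd d) M]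
      exact Finset.card_filter_le _ _
    refine Lk.mono hc (Lk.sub ?_ hL1)
    rw [← hF]
    exact Set.inter_subset_right
  -- from `x` to the centre of the pad
  have h2 : Lk Adj (Op (orr ω)) (r0 + 1) x (pc r0 e x) := by
    have := line hG (r0 + 1) le_rfl
    have e1 : x + ((r0 + 1 : ℕ) : ℤ) • dv e = pc r0 e x := by
      unfold pc
      push_cast
      rfl
    rw [e1] at this
    exact this
  -- from the centre to `z`
  have h3 : Lk Adj (Op (orr ω)) k (pc r0 e x) z := by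
    refine Lk.sub ?_ hL
    rintro y (hy | hy)
    · exact pad_open hG y hy
    · obtain ⟨⟨l, _, hl⟩, _⟩ := hy
      show decide (∃ l, ω (y, l) = true) = true
      rw [decide_eq_true_iff]
      exact ⟨l, hl⟩
  exact (h1.trans h2).trans h3

end Pool.Agent.PRC
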