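import Pool.Agent.PRC.T3

/-!
# PRC, KIX: indices of boxes
-/

set_option autoImplicit false

open MeasureTheory Filter Topology
open scoped Classical

namespace Pool.Agent.PRC

namespace KIX_

theorem div_iff {b : ℤ} (hb : 0 < b) (x w : ℤ) : x / b = w ↔ b * w ≤ x ∧ x ≤ b * w + b - 1 := by
  have h1 := Int.emod_add_mul_ediv x b
  have h2 := Int.emod_nonneg x hb.ne'
  have h3 := Int.emod_lt_of_pos x hb
  constructor
  · intro h
    rw [h] at h1
    constructor <;> linarith
  · rintro ⟨h4, h5⟩
    have h6 : x / b < w + 1 := by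
      by_contra hcon
      push Not at hcon
      have := mul_le_mul_of_nonneg_left hcon hb.le
      nlinarith
    have h7 : w < x / b + 1 := by
      by_contra hcon
      push Not at hcon
      have := mul_le_mul_of_nonneg_left hcon hb.le
      nlinarith
    omega

theorem bb_pos (k : ℕ) : 0 < bb k := by
  unfold bb
  positivity

theorem LL_pos (k : ℕ) : 0 < LL k := by
  induction k with
  | zero => simp [LL]
  | succ k ih =>
    simp only [LL]
    exact Nat.mul_pos ih (bb_pos _)

theorem mem_box {d : ℕ} {b : ℤ} (hb : 0 < b) (v w : Zd d) :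
    v ∈ Finset.Icc (fun i => b * w i) (fun i => b * w i + b - 1) ↔ ∀ i, v i / b = w i := by
  rw [Finset.mem_Icc, Pi.le_def, Pi.le_def]
  constructor
  · rintro ⟨h1, h2⟩ i
    exact (div_iff hb _ _).2 ⟨h1 i, h2 i⟩
  · intro h
    exact ⟨fun i => ((div_iff hb _ _).1 (h i)).1, fun i => ((div_iff hb _ _).1 (h i)).2⟩

theorem kix_succ {d : ℕ} (k : ℕ) (v : Zd d) (i : Fin d) :
    kix (k + 1) v i = (kix k v i) / (bb (k + 1) : ℤ) := by
  unfold kix
  simp only [LL]
  push_cast
  rw [Int.ediv_ediv_of_nonneg (Int.natCast_nonneg _)]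

end KIX_

open KIX_ in
theorem p_KIX : T_KIX := by
  intro d k
  have hb : (0 : ℤ) < (bb (k + 1) : ℤ) := by exact_mod_cast bb_pos (k + 1)
  have hL : (0 : ℤ) < (LL k : ℤ) := by exact_mod_cast LL_pos k
  have h2 : ∀ v w : Zd d, v ∈ sbx k w ↔ ∀ i, v i / (bb (k + 1) : ℤ) = w i := by
    intro v w
    unfold sbx
    exact mem_box hb v w
  refine ⟨?_, h2, ?_, ?_⟩
  · intro v w
    rw [h2]
    constructor
    · intro h
      funext i
      rw [kix_succ]
      exact h i
    · intro h i
      rw [← h, kix_succ]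
  · intro w
    refine ⟨Finset.Icc (fun i => (LL k : ℤ) * w i) (fun i => (LL k : ℤ) * w i + LL k - 1), ?_⟩
    intro v
    rw [mem_box hL]
    constructor
    · intro h
      funext i
      exact h i
    · intro h i
      rw [← h]
      rfl
  · intro w
    unfold sbx
    rw [Pi.card_Icc]
    have : ∀ i : Fin d, (Finset.Icc ((bb (k + 1) : ℤ) * w i) ((bb (k + 1) : ℤ) * w i + bb (k + 1) - 1)).card =
        bb (k + 1) := by
      intro i
      rw [Int.card_Icc]
      have h3 : (bb (k + 1) : ℤ) * w i + bb (k + 1) - 1 + 1 - (bb (k + 1) : ℤ) * w i = (bb (k + 1) : ℤ) := by ring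
      rw [h3]
      exact Int.toNat_natCast _
    rw [Finset.prod_congr rfl (fun i _ => this i)]
    simp

end Pool.Agent.PRC
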