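import Pool.Agent.PRC.T3

/-!
# PRC: clean boxes
-/

set_option autoImplicit false

open scoped Classical

namespace Pool.Agent.PRC

theorem p_LAD (h_CEN : T_CEN) (h_CEI : T_CEI) (h_REC : T_REC) (h_TRF : T_TRF) (h_ADJ : T_ADJ)
    (h_KIX : T_KIX) : T_LAD := by
  intro d k X v hd hc
  obtain ⟨hk1, hk2, hk3, hk4⟩ := h_KIX d k
  have hvw : kix k v ∈ sbx k (kix (k + 1) v) := (hk1 v _).2 rfl
  have hb : ¬ bad X (k + 1) (kix (k + 1) v) := by
    rintro ⟨w1, h1, w2, h2, _, hb1, _⟩
    exact hc w1 h1 hb1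
  have hex : ∃ c, isc X k (kix (k + 1) v) c := h_CEN d k X _ hd hb
  have hc1 : isc X k (kix (k + 1) v) (Classical.choose hex) := Classical.choose_spec hex
  obtain ⟨hcs, hcb⟩ := h_CEI d k X _ _ hd hc1
  have hhub : hub X (k + 1) (kix (k + 1) v) = hub X k (Classical.choose hex) := by
    show (if h : ∃ c, isc X k (kix (k + 1) v) c then hub X k (Classical.choose h) else 0) = _
    rw [dif_pos hex]
  rw [hhub]
  have hp := h_REC d _ _ (kix k v) (Classical.choose hex) hvw hcs
  have key := h_TRF d (hub X k) (↑(sbx k (kix (k + 1) v)) : Set (Zd d))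
    {x | X x = true ∧ kix (k + 1) x = kix (k + 1) v} (HH k) (by
      rintro w hw w' hw' ⟨e, rfl⟩
      have h1 := h_ADJ d k X w e hd (hc w hw) (hc _ hw')
      refine h1.sub ?_
      rintro x ⟨hx1, hx2⟩
      refine ⟨hx1, (hk1 x _).1 ?_⟩
      rcases hx2 with h | h
      · rw [h]
        exact hw
      · rw [h]
        exact hw') _ (kix k v) (Classical.choose hex) hvw hp
  refine key.mono ?_
  refine Nat.mul_le_mul_right _ ?_
  have hle : ∀ i ∈ (Finset.univ : Finset (Fin d)),
      (kix k v i - Classical.choose hex i).natAbs ≤ bb (k + 1) := by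
    intro i _
    have h1 := Finset.mem_Icc.1 hvw
    have h2 := Finset.mem_Icc.1 hcs
    have a1 := h1.1 i
    have a2 := h1.2 i
    have b1 := h2.1 i
    have b2 := h2.2 i
    simp only at a1 a2 b1 b2
    omega
  calc ∑ i, (kix k v i - Classical.choose hex i).natAbs ≤ ∑ _i : Fin d, bb (k + 1) :=
        Finset.sum_le_sum hle
    _ = d * bb (k + 1) := by simp

end Pool.Agent.PRC
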