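import Pool.Agent.PRC.T3

/-!
# PRC: LDR, the ladder from a site to the hub of its box (helper49)
-/

set_option autoImplicit false

open MeasureTheory Filter Topology
open scoped Classical

namespace Pool.Agent.PRC

noncomputable section

namespace LDR_

theorem kix_zero {d : ℕ} (v : Zd d) : kix 0 v = v := by
  funext i
  simp [kix, LL]

/-- the set of the ladder -/
def DD {d : ℕ} (X : Zd d → Bool) (k : ℕ) (v : Zd d) : Set (Zd d) :=
  {x | X x = true ∧ kix k x = kix k v}

theorem DD_sub (h_KIX : T_KIX) {d : ℕ} (X : Zd d → Bool) (k : ℕ) (v : Zd d) :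
    DD X k v ⊆ DD X (k + 1) v := by
  intro x hx
  refine ⟨hx.1, ?_⟩
  have h1 := (h_KIX d k).1 v (kix (k + 1) v)
  have h2 := (h_KIX d k).1 x (kix (k + 1) v)
  rw [← h2, hx.2, h1]

theorem ladder (h_LAD : T_LAD) (h_KIX : T_KIX) {d : ℕ} (hd : 2 ≤ d) (X : Zd d → Bool)
    (v : Zd d) : ∀ k : ℕ, (∀ j < k, cln X j (kix (j + 1) v)) →
    Lk Adj (DD X k v) (d * ∑ j ∈ Finset.range k, HH (j + 1)) v (hub X k (kix k v)) := by
  intro k
  induction k with
  | zero =>
    intro _
    have : hub X 0 (kix 0 v) = v := by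
      rw [kix_zero]; rfl
    rw [this]
    exact Lk.refl _ _
  | succ k ih =>
    intro h
    have h1 := (ih (fun j hj => h j (Nat.lt_succ_of_lt hj))).sub (DD_sub h_KIX X k v)
    have h2 := h_LAD d k X v hd (h k (Nat.lt_succ_self k))
    have h3 : d * bb (k + 1) * HH k ≤ d * HH (k + 1) := by
      show d * bb (k + 1) * HH k ≤ d * ((bb (k + 1) + 8) * HH k)
      rw [mul_assoc]
      exact Nat.mul_le_mul_left _ (Nat.mul_le_mul_right _ (Nat.le_add_right _ _))
    have h4 := h1.trans (h2.mono h3)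
    rw [Finset.sum_range_succ, mul_add]
    exact h4

end LDR_

theorem p_LDR (h_LAD : T_LAD) (h_HHN : T_HHN) (h_KIX : T_KIX) : T_LDR := by
  intro d K X v hd hc hb
  have h1 := LDR_.ladder h_LAD h_KIX hd X v K hc
  constructor
  · rcases Nat.eq_zero_or_pos K with h0 | h0
    · subst h0
      rw [LDR_.kix_zero] at hb
      have : ¬ (X v = false) := hb
      simpa using this
    · have h2 := hc 0 h0 (kix 0 v) (((h_KIX d 0).1 v (kix 1 v)).2 rfl)
      rw [LDR_.kix_zero] at h2
      have : ¬ (X v = false) := h2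
      simpa using this
  · refine h1.mono ?_
    have h3 := (h_HHN K).2.1
    calc d * ∑ j ∈ Finset.range K, HH (j + 1) ≤ d * (2 * HH K) := Nat.mul_le_mul_left _ h3
      _ = 2 * d * HH K := by ring

end

end Pool.Agent.PRC
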