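import Pool.Agent.PRC.T4

/-!
# PRC: LNR, linear distances in the infinite cluster (helper37)
-/

set_option autoImplicit false

open MeasureTheory Filter Topology
open scoped Classical

namespace Pool.Agent.PRC

open TRP (bern law)

namespace LNR_

/-- reachability in at most `n` steps is a measurable event -/
lemma meas_lk {d : ℕ} (n : ℕ) (u v : Zd d) :
    MeasurableSet {ω : Zd d → Bool | Lk Adj (Op ω) n u v} := by
  induction n generalizing v with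
  | zero =>
    show MeasurableSet {_ω : Zd d → Bool | u = v}
    exact MeasurableSet.const _
  | succ n ih =>
    have h : {ω : Zd d → Bool | Lk Adj (Op ω) (n + 1) u v} =
        {ω : Zd d → Bool | Lk Adj (Op ω) n u v} ∪
        ⋃ w : Zd d, ({ω : Zd d → Bool | Lk Adj (Op ω) n u w} ∩
          ({_ω : Zd d → Bool | Adj w v} ∩ (fun ω : Zd d → Bool => ω v) ⁻¹' {true})) := by
      ext ω
      simp only [Set.mem_union, Set.mem_iUnion, Set.mem_inter_iff, Set.mem_preimage,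
        Set.mem_singleton_iff]
      exact Iff.rfl
    rw [h]
    refine (ih v).union (MeasurableSet.iUnion fun w => (ih w).inter
      ((MeasurableSet.const _).inter ?_))
    exact (measurable_pi_apply v) (measurableSet_singleton true)

/-- the event of the theorem is measurable -/
lemma meas_ev (h_MSI : T_MSI) {d : ℕ} (k r : ℕ) (y : Zd d) :
    MeasurableSet {ω : Zd d → Bool | InfC ω 0 ∧ ¬ ∃ z ∈ Bx y r, Lk Adj (Op ω) k 0 z} := by
  have h1 : MeasurableSet {ω : Zd d → Bool | InfC ω 0} := (h_MSI d).2 0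
  have h2 : {ω : Zd d → Bool | InfC ω 0 ∧ ¬ ∃ z ∈ Bx y r, Lk Adj (Op ω) k 0 z} =
      {ω : Zd d → Bool | InfC ω 0} ∩
        (⋃ z : Zd d, ({_ω : Zd d → Bool | z ∈ Bx y r} ∩
          {ω : Zd d → Bool | Lk Adj (Op ω) k 0 z}))ᶜ := by
    ext ω
    simp only [Set.mem_inter_iff, Set.mem_compl_iff, Set.mem_iUnion]
    exact Iff.rfl
  rw [h2]
  exact h1.inter (MeasurableSet.iUnion fun z =>
    (MeasurableSet.const _).inter (meas_lk k 0 z)).compl

/-- densities are probabilities -/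
lemma dens_mem {d : ℕ} {p0 δ δr : ℝ} (h0 : 0 ≤ p0) (h0' : p0 ≤ 1) (h1 : 0 ≤ δ) (h1' : δ ≤ 1)
    (h2 : 0 ≤ δr) (h2' : δr ≤ 1) (i : Zd d × Ly d) :
    0 ≤ dens d p0 δ δr i ∧ dens d p0 δ δr i ≤ 1 := by
  unfold dens
  split_ifs <;> constructor <;> assumption

lemma pc_apply {d : ℕ} (r0 : ℕ) (e : Dir d) (x : Zd d) (i : Fin d) :
    pc r0 e x i = x i + ((r0 : ℤ) + 1) * dv e i := by
  unfold pc
  simp

/-- the centre of a pad beyond a point of the sphere -/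
lemma pc_bd {d : ℕ} {M r0 : ℕ} {e : Dir d} {x : Zd d} (hx : x ∈ Bx (0 : Zd d) M) (i : Fin d) :
    |pc r0 e x i| ≤ M + r0 + 1 := by
  rw [pc_apply]
  have h1 := mem_Bx_zero.1 hx i
  have h2 : |dv e i| ≤ 1 := by
    by_cases h : i = e.1
    · subst h
      rw [dv_self, sg_abs]
    · rw [dv_ne e h]
      simp
  have h3 : |((r0 : ℤ) + 1) * dv e i| ≤ (r0 : ℤ) + 1 := by
    rw [abs_mul, abs_of_nonneg (by positivity : (0 : ℤ) ≤ (r0 : ℤ) + 1)]
    nlinarith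
  have h4 := abs_add_le (x i) (((r0 : ℤ) + 1) * dv e i)
  linarith

lemma pc_eq {d : ℕ} {M r0 : ℕ} {e : Dir d} {x : Zd d} (hx : x e.1 = sg e.2 * M) :
    pc r0 e x e.1 = sg e.2 * (M + r0 + 1) := by
  rw [pc_apply, dv_self, hx]
  ring

end LNR_

open LNR_ in
theorem p_LNR (h_DEL : T_DEL) (h_EXB : T_EXB) (h_ROT : T_ROT) (h_ORL : T_ORL) (h_MSI : T_MSI)
    (h_FBX : T_FBX) (h_FST : T_FST) (h_GDP : T_GDP) (h_EDP : T_EDP) (h_TRE : T_TRE)
    (h_JOI : T_JOI) : T_LNR := by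
  intro d p0 p hd hp0 hp0p hp1 hth ε hε
  obtain ⟨δ, δr, α, hδ0, hδ1, hr0, hr1, hα0, hα1, hαe, hpe⟩ := h_DEL (2 * Nc d) p0 p hp0 hp0p hp1
  have hp01 : p0 < 1 := hp0p.trans hp1
  have hε2 : 0 < ε / 2 := by positivity
  obtain ⟨m, n, hEXB⟩ := h_EXB d p0 δ δr α hd hp0 hp01 hδ0 hδ1 hr0.le hr1.le hα0 hα1 hαe hth
    (ε / 2) hε2
  set N : ℕ := NN m n with hN
  set r0 : ℕ := max m (4 * N) with hr0d
  obtain ⟨C₀, hC₀⟩ := hEXB r0 (le_max_left _ _)
  obtain ⟨M, hM⟩ := h_ROT d p0 δ δr (by omega) hp0 hp01 hδ0 hδ1 hr0 hr1 r0 (ε / 2) hε2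
  have h4N : 4 * NN m n ≤ r0 := le_max_right _ _
  refine ⟨M + 5 * N + 1, (2 * M + 1) ^ d + (r0 + 1) +
    C₀ * (M + r0 + 2 + (2 * M + 3 * N + r0 + 2) + (2 * M + 3 * N + r0 + 2) + 2), ?_⟩
  intro y
  set C : ℕ := (2 * M + 1) ^ d + (r0 + 1) +
    C₀ * (M + r0 + 2 + (2 * M + 3 * N + r0 + 2) + (2 * M + 3 * N + r0 + 2) + 2) with hC
  set r : ℕ := M + 5 * N + 1 with hr
  -- the case of small `y`
  by_cases hy : nm y ≤ r
  · have he : {ω : Zd d → Bool | InfC ω 0 ∧ ¬ ∃ z ∈ Bx y r, Lk Adj (Op ω) (C * (nm y + 1)) 0 z} =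
        ∅ := by
      ext ω
      constructor
      · rintro ⟨_, h⟩
        refine (h ⟨0, ?_, Lk.refl _ _⟩).elim
        rw [mem_Bx_iff_nm, zero_sub, nm_neg]
        exact hy
      · rintro ⟨⟩
    rw [he]
    simp [hε.le]
  push Not at hy
  have hy' : M + 5 * NN m n < nm y := by omega
  -- the layers
  have hq := dens_mem (d := d) hp0.le hp01.le hδ0.le hδ1.le hr0.le hr1.le
  have : IsProbabilityMeasure (law (dens d p0 δ δr)) := law_prob hq
  obtain ⟨hom, hor⟩ := h_ORL d p0 δ δr p hp0.le hp01.le hδ0.le hδ1.le hr0.le hr1.le hpe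
  rw [← hor, map_measureReal_apply hom (meas_ev h_MSI _ _ y)]
  -- the indices
  set S : Finset (Dir d × Zd d) :=
    ((Finset.univ : Finset (Dir d)) ×ˢ Bx (0 : Zd d) M).filter
      fun a => a.2 a.1.1 = sg a.1.2 * M with hS
  have hSm : ∀ a ∈ S, a.2 ∈ Bx (0 : Zd d) M ∧ a.2 a.1.1 = sg a.1.2 * M := by
    intro a ha
    rw [hS, Finset.mem_filter, Finset.mem_product] at ha
    exact ⟨ha.1.2, ha.2⟩
  -- the data for every index
  have key : ∀ a : Dir d × Zd d, ∃ (k : ℕ) (w : Zd d) (BB : Finset (Zd d)), a ∈ S →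
      (1 - ε / 2 ≤ (law (dens d p0 δ δr)).real (EE m n r0 BB k w (pc r0 a.1 a.2))) ∧
      (∀ v ∈ BB, ∀ x, x - pc r0 a.1 a.2 ∈ rg m n v → x ∉ Bx (0 : Zd d) M) ∧
      (∀ z ∈ Bx (pc r0 a.1 a.2 + bc m n w) (NN m n), z ∈ Bx y r) ∧
      (2 * M + 1) ^ d + (r0 + 1) + k ≤ C * (nm y + 1) := by
    intro a
    by_cases ha : a ∈ S
    · obtain ⟨hx1, hx2⟩ := hSm a ha
      obtain ⟨aa, bb', h0, hna, hnb, hreg, hwy⟩ := h_FBX d m n M r0 a.1 (pc r0 a.1 a.2) h4N
        (pc_bd hx1) (pc_eq hx2)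
      obtain ⟨w, hw, hnw, hz⟩ := hwy y hy'
      obtain ⟨BB, hBB, hE⟩ := hC₀ aa bb' w h0 hw
      refine ⟨C₀ * (nm w + nm aa + nm bb' + 1), w, BB, fun _ => ⟨?_, ?_, ?_, ?_⟩⟩
      · rw [h_TRE d m n r0 _ p0 δ δr BB w _ hp0.le hp01.le hδ0.le hδ1.le hr0.le hr1.le]
        exact hE
      · intro v hv
        exact hreg v (hBB v hv)
      · intro z hz'
        have h1 := hz z hz'
        rw [mem_Bx] at h1 ⊢
        intro i
        refine (h1 i).trans ?_
        have : 2 * NN m n ≤ r := by omega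
        exact_mod_cast this
      · have h1 : nm w + nm aa + nm bb' + 1 ≤
            (M + r0 + 2 + (2 * M + 3 * N + r0 + 2) + (2 * M + 3 * N + r0 + 2) + 2) *
              (nm y + 1) := by
          have : nm w + nm aa + nm bb' + 1 ≤ nm y + (M + r0 + 2) + (2 * M + 3 * N + r0 + 2) +
              (2 * M + 3 * N + r0 + 2) + 1 := by omega
          refine this.trans ?_
          generalize M + r0 + 2 = A
          generalize 2 * M + 3 * N + r0 + 2 = B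
          nlinarith [Nat.zero_le (nm y), Nat.zero_le A, Nat.zero_le B,
            Nat.zero_le (A * nm y), Nat.zero_le (B * nm y)]
        calc (2 * M + 1) ^ d + (r0 + 1) + C₀ * (nm w + nm aa + nm bb' + 1)
            ≤ ((2 * M + 1) ^ d + (r0 + 1)) * (nm y + 1) +
              C₀ * ((M + r0 + 2 + (2 * M + 3 * N + r0 + 2) + (2 * M + 3 * N + r0 + 2) + 2) *
                (nm y + 1)) := by
              refine add_le_add ?_ (Nat.mul_le_mul le_rfl h1)
              exact Nat.le_mul_of_pos_right _ (Nat.succ_pos _)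
          _ = C * (nm y + 1) := by
              rw [hC]
              ring
    · exact ⟨0, 0, ∅, fun h => (ha h).elim⟩
  choose k w BB hkey using key
  -- the two exceptional events
  set Bad1 : Set (Zd d × Ly d → Bool) :=
    {ω | InfC (orr ω) 0 ∧ ∀ (e : Dir d), ∀ x ∈ Bx (0 : Zd d) M, x e.1 = sg e.2 * M →
        ω ∉ Gx M r0 e x} with hB1
  set Bad2 : Set (Zd d × Ly d → Bool) :=
    {ω | (∃ a ∈ S, ω ∈ Gx M r0 a.1 a.2) ∧ ∀ a ∈ S, ω ∈ Gx M r0 a.1 a.2 →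
      ω ∉ EE m n r0 (BB a) (k a) (w a) (pc r0 a.1 a.2)} with hB2
  have hb2 : (law (dens d p0 δ δr)).real Bad2 ≤ ε / 2 := by
    refine h_FST (Zd d × Ly d) (Dir d × Zd d) (dens d p0 δ δr)
      {i | i.1 ∈ Bx (0 : Zd d) M ∨ i.2 = some none}
      {i | i.1 ∉ Bx (0 : Zd d) M ∧ i.2 ≠ some none} S (fun a => Gx M r0 a.1 a.2)
      (fun a => EE m n r0 (BB a) (k a) (w a) (pc r0 a.1 a.2)) (ε / 2) hq ?_ ?_ ?_ hε2.le ?_
    · rw [Set.disjoint_left]
      rintro i hi ⟨h1, h2⟩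
      rcases hi with hi | hi
      · exact h1 hi
      · exact h2 hi
    · intro a _
      obtain ⟨F, hF, hD⟩ := h_GDP d M r0 a.1 a.2
      exact ⟨F, fun i hi => hF i hi, hD⟩
    · intro a ha
      obtain ⟨F, hF, hD⟩ := h_EDP d m n r0 (k a) (BB a) (w a) (pc r0 a.1 a.2)
      refine ⟨F, fun i hi => ?_, hD⟩
      obtain ⟨h1, v, hv, h2⟩ := hF i hi
      exact ⟨(hkey a ha).2.1 v hv i.1 h2, h1⟩
    · intro a ha
      exact (hkey a ha).1
  have hsub : orr ⁻¹' {ω : Zd d → Bool | InfC ω 0 ∧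
      ¬ ∃ z ∈ Bx y r, Lk Adj (Op ω) (C * (nm y + 1)) 0 z} ⊆ Bad1 ∪ Bad2 := by
    rintro ω ⟨hinf, hno⟩
    by_cases h1 : ω ∈ Bad1
    · exact Or.inl h1
    · refine Or.inr ?_
      have h2 : ∃ a ∈ S, ω ∈ Gx M r0 a.1 a.2 := by
        by_contra hcon
        push Not at hcon
        refine h1 ⟨hinf, fun e x hx he => ?_⟩
        refine hcon (e, x) ?_
        rw [hS, Finset.mem_filter, Finset.mem_product]
        exact ⟨⟨Finset.mem_univ _, hx⟩, he⟩
      refine ⟨h2, fun a ha hG hE => hno ?_⟩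
      obtain ⟨_, z, hz, hL⟩ := h_JOI d m n r0 (k a) M (BB a) a.1 a.2 (w a) ω hG hE
      exact ⟨z, (hkey a ha).2.2.1 z hz, hL.mono (hkey a ha).2.2.2⟩
  calc (law (dens d p0 δ δr)).real (orr ⁻¹' {ω : Zd d → Bool | InfC ω 0 ∧
      ¬ ∃ z ∈ Bx y r, Lk Adj (Op ω) (C * (nm y + 1)) 0 z})
      ≤ (law (dens d p0 δ δr)).real (Bad1 ∪ Bad2) := measureReal_mono hsub
    _ ≤ (law (dens d p0 δ δr)).real Bad1 + (law (dens d p0 δ δr)).real Bad2 :=
        measureReal_union_le _ _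
    _ ≤ ε / 2 + ε / 2 := add_le_add hM hb2
    _ = ε := by ring

end Pool.Agent.PRC
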