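import Pool.Agent.PRC.T2

/-!
# PRC, target MAR: a value which does not decrease in expectation along an exploration
-/

set_option autoImplicit false

open MeasureTheory Filter Topology
open scoped Classical

namespace Pool.Agent.PRC

open TRP (bern law)

/-- the integral is the sum of the integrals over the finitely many values of a function of
finitely many coordinates -/
theorem MAR_split {I S : Type} (q : I → ℝ) {K : Finset I}
    {f : (I → Bool) → S} (hf : ∀ ω ω' : I → Bool, (∀ i ∈ K, ω i = ω' i) → f ω = f ω') :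
    ∃ R : Finset S, (∀ s ∈ R, ∃ ω, f ω = s) ∧ (∀ s, MeasurableSet {ω | f ω = s}) ∧
      ∀ g : (I → Bool) → ℝ, Integrable g (law q) →
        ∫ ω, g ω ∂(law q) = ∑ s ∈ R, ∫ ω in {ω | f ω = s}, g ω ∂(law q) := by
  have hmeas : ∀ s, MeasurableSet {ω | f ω = s} := by
    intro s
    have : Dep (↑K : Set I) {ω | f ω = s} := by
      intro ω ω' h
      have := hf ω ω' (fun i hi => h i (Finset.mem_coe.2 hi))
      show f ω = s ↔ f ω' = s
      rw [this]
    exact this.meas
  have hfin : (Set.range f).Finite := by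
    have hsub : Set.range f ⊆
        Set.range (fun x : K → Bool => f (fun i => if h : i ∈ K then x ⟨i, h⟩ else false)) := by
      rintro _ ⟨ω, rfl⟩
      refine ⟨fun i => ω i, ?_⟩
      apply hf
      intro i hi
      simp [hi]
    exact (Set.finite_range _).subset hsub
  refine ⟨hfin.toFinset, ?_, hmeas, ?_⟩
  · intro s hs
    exact (Set.Finite.mem_toFinset hfin).1 hs
  · intro g hg
    have hun : (⋃ s ∈ hfin.toFinset, {ω | f ω = s}) = Set.univ := by
      ext ω
      simp only [Set.mem_iUnion, Set.mem_univ, iff_true]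
      exact ⟨f ω, (Set.Finite.mem_toFinset hfin).2 ⟨ω, rfl⟩, rfl⟩
    have h := integral_biUnion_finset (μ := law q) (f := g) hfin.toFinset
      (s := fun s => {ω | f ω = s}) (fun s _ => hmeas s) (by
        intro a _ b _ hab
        show Disjoint {ω | f ω = a} {ω | f ω = b}
        rw [Set.disjoint_left]
        intro ω h1 h2
        exact hab ((show f ω = a from h1).symm.trans h2))
      (fun s _ => hg.integrableOn)
    rw [hun, setIntegral_univ] at h
    exact h

theorem p_MAR (h_RUN : T_RUN) (h_RFN : T_RFN) (h_INF : T_INF) : T_MAR := by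
  intro S T I q F J P Φ hq hE hΦ hstep l
  have hp : IsProbabilityMeasure (law q) := law_prob hq
  have hint : ∀ l s, P l s → Integrable (fun ω => Φ [] (run F l s ω)) (law q) := by
    intro l s hs
    obtain ⟨K, hK⟩ := h_RFN S T I F J P hE l s hs
    have hm : Measurable (fun ω => Φ [] (run F l s ω)) :=
      meas_of_fin (F := K) (fun ω ω' h => by rw [hK ω ω' h])
    refine Integrable.of_bound hm.aestronglyMeasurable 1 (ae_of_all _ fun ω => ?_)
    rw [Real.norm_eq_abs, abs_of_nonneg (hΦ _ _).1]
    exact (hΦ _ _).2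
  induction l with
  | nil =>
    intro s _
    simp [run]
  | cons τ l ih =>
    intro s hs
    obtain ⟨K, hK⟩ := hE.fin τ l s hs
    obtain ⟨R, hR, hmR, hsum⟩ := MAR_split q hK
    have hi1 : Integrable (fun ω => Φ l (F τ s ω)) (law q) := by
      have hm : Measurable (fun ω => Φ l (F τ s ω)) :=
        meas_of_fin (F := K) (fun ω ω' h => by rw [hK ω ω' h])
      refine Integrable.of_bound hm.aestronglyMeasurable 1 (ae_of_all _ fun ω => ?_)
      rw [Real.norm_eq_abs, abs_of_nonneg (hΦ _ _).1]
      exact (hΦ _ _).2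
    refine (hstep τ l s hs).trans ?_
    rw [hsum _ hi1, hsum _ (hint (τ :: l) s hs)]
    refine Finset.sum_le_sum fun s' hs' => ?_
    obtain ⟨ω₀, hω₀⟩ := hR s' hs'
    have hPs' : P l s' := hω₀ ▸ hE.inv τ l s ω₀ hs
    have e1 : ∫ ω in {ω | F τ s ω = s'}, Φ l (F τ s ω) ∂(law q) =
        (law q).real {ω | F τ s ω = s'} * Φ l s' := by
      rw [setIntegral_congr_fun (g := fun _ => Φ l s') (hmR s') (fun ω hω => by
        show Φ l (F τ s ω) = Φ l s'
        rw [show F τ s ω = s' from hω])]
      rw [setIntegral_const, smul_eq_mul]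
    have e2 : ∫ ω in {ω | F τ s ω = s'}, Φ [] (run F (τ :: l) s ω) ∂(law q) =
        ∫ ω in {ω | F τ s ω = s'}, Φ [] (run F l s' ω) ∂(law q) := by
      refine setIntegral_congr_fun (hmR s') (fun ω hω => ?_)
      show Φ [] (run F l (F τ s ω) ω) = Φ [] (run F l s' ω)
      rw [show F τ s ω = s' from hω]
    obtain ⟨K', hK'⟩ := h_RFN S T I F J P hE l s' hPs'
    have e3 := h_INF I q hq (J s' \ J s) (J s')ᶜ {ω | F τ s ω = s'}
      (fun ω => Φ [] (run F l s' ω)) (by
        have key : ∀ ω ω' : I → Bool, (∀ i ∈ J s' \ J s, ω i = ω' i) → F τ s ω = s' →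
            F τ s ω' = s' := by
          intro ω ω' h hω
          rw [hE.stop τ l s ω ω' hs (fun i hi hi' => h i ⟨hω ▸ hi, hi'⟩), hω]
        intro ω ω' h
        exact ⟨key ω ω' h, key ω' ω fun i hi => (h i hi).symm⟩)
      (fun ω ω' h => by
        show Φ [] (run F l s' ω) = Φ [] (run F l s' ω')
        rw [h_RUN S T I F J P hE l s' hPs' ω ω' (fun i hi => h i hi)])
      (by
        rw [Set.disjoint_left]
        intro i hi hi'
        exact hi' hi.1)
      (hmR s')
      (meas_of_fin (F := K') (fun ω ω' h => by rw [hK' ω ω' h]))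
      ⟨1, fun ω => by
        rw [abs_of_nonneg (hΦ _ _).1]
        exact (hΦ _ _).2⟩
    rw [e1, e2, e3]
    exact mul_le_mul_of_nonneg_left (ih s' hPs') measureReal_nonneg

end Pool.Agent.PRC
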