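import Pool.Agent.PRC.T1

/-!
# PRC: measurability of connection events
-/

set_option autoImplicit false

open MeasureTheory
open scoped Classical

namespace Pool.Agent.PRC

namespace MSI_

theorem op {d : ℕ} (y : Zd d) : MeasurableSet {ω : Zd d → Bool | y ∈ Op ω} := by
  have h : Measurable fun ω : Zd d → Bool => ω y := measurable_pi_apply y
  have h2 := h (measurableSet_singleton true)
  have e : {ω : Zd d → Bool | y ∈ Op ω} = (fun ω : Zd d → Bool => ω y) ⁻¹' {true} := by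
    ext ω
    rfl
  rw [e]
  exact h2

theorem lk {d : ℕ} (D₀ : Set (Zd d)) (n : ℕ) (u y : Zd d) :
    MeasurableSet {ω : Zd d → Bool | Lk Adj (D₀ ∩ Op ω) n u y} := by
  induction n generalizing y with
  | zero => exact MeasurableSet.const (u = y)
  | succ n ih =>
    have e : {ω : Zd d → Bool | Lk Adj (D₀ ∩ Op ω) (n + 1) u y} =
        {ω : Zd d → Bool | Lk Adj (D₀ ∩ Op ω) n u y} ∪
          ⋃ w : Zd d, ({ω : Zd d → Bool | Lk Adj (D₀ ∩ Op ω) n u w} ∩
            ({_ω : Zd d → Bool | Adj w y ∧ y ∈ D₀} ∩ {ω : Zd d → Bool | y ∈ Op ω})) := by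
      ext ω
      simp only [Set.mem_ofPred_eq, Set.mem_union, Set.mem_iUnion, Set.mem_inter_iff]
      constructor
      · rintro (h | ⟨w, h1, h2, h3, h4⟩)
        · exact Or.inl h
        · exact Or.inr ⟨w, h1, ⟨h2, h3⟩, h4⟩
      · rintro (h | ⟨w, h1, ⟨h2, h3⟩, h4⟩)
        · exact Or.inl h
        · exact Or.inr ⟨w, h1, h2, h3, h4⟩
    rw [e]
    exact (ih y).union (MeasurableSet.iUnion fun w =>
      (ih w).inter ((MeasurableSet.const _).inter (op y)))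

theorem rc {d : ℕ} (D₀ S : Set (Zd d)) (y : Zd d) :
    MeasurableSet {ω : Zd d → Bool | y ∈ Rc Adj (D₀ ∩ Op ω) S} := by
  have e : {ω : Zd d → Bool | y ∈ Rc Adj (D₀ ∩ Op ω) S} =
      ⋃ u : S, ⋃ n : ℕ, {ω : Zd d → Bool | Lk Adj (D₀ ∩ Op ω) n (u : Zd d) y} := by
    ext ω
    simp only [Set.mem_ofPred_eq, Set.mem_iUnion]
    constructor
    · intro h
      obtain ⟨u, hu, n, h⟩ := Rc.lk h
      exact ⟨⟨u, hu⟩, n, h⟩
    · rintro ⟨⟨u, hu⟩, n, h⟩
      exact Rc.mono (le_refl _) (Set.singleton_subset_iff.2 hu) (Lk.rc h)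
  rw [e]
  exact MeasurableSet.iUnion fun u => MeasurableSet.iUnion fun n => lk D₀ n u y

theorem inf_iff {d : ℕ} (C : Set (Zd d)) :
    C.Infinite ↔ ∀ n : ℕ, ∃ y, y ∉ Bx (0 : Zd d) n ∧ y ∈ C := by
  constructor
  · intro h n
    obtain ⟨y, hy, hn⟩ := h.exists_notMem_finset (Bx (0 : Zd d) n)
    exact ⟨y, hn, hy⟩
  · intro h hC
    obtain ⟨y, hy, hyC⟩ := h (hC.toFinset.sup nm)
    refine hy ?_
    rw [mem_Bx_iff_nm, sub_zero]
    exact Finset.le_sup (f := nm) (hC.mem_toFinset.2 hyC)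

end MSI_

theorem p_MSI : T_MSI := by
  intro d
  refine ⟨fun D₀ S y => MSI_.rc D₀ S y, fun x => ?_⟩
  have e : {ω : Zd d → Bool | InfC ω x} = {ω : Zd d → Bool | x ∈ Op ω} ∩
      ⋂ n : ℕ, ⋃ y : Zd d, ({_ω : Zd d → Bool | y ∉ Bx (0 : Zd d) n} ∩
        {ω : Zd d → Bool | y ∈ Rc Adj (Set.univ ∩ Op ω) {x}}) := by
    ext ω
    simp only [Set.mem_ofPred_eq, Set.mem_iUnion, Set.mem_iInter, Set.mem_inter_iff,
      Set.univ_inter]
    unfold InfC
    rw [MSI_.inf_iff]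
    rfl
  rw [e]
  exact (MSI_.op x).inter (MeasurableSet.iInter fun n => MeasurableSet.iUnion fun y =>
    (MeasurableSet.const _).inter (MSI_.rc Set.univ {x} y))

end Pool.Agent.PRC
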