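import Pool.Agent.PRC.T1

/-!
# PRC: target ONE (large balls are joined to every larger sphere)
-/

set_option autoImplicit false

open MeasureTheory Filter Topology
open scoped Classical

namespace Pool.Agent.PRC

open TRP (bern law)

noncomputable section

namespace ONE_

/-- some vertex has an infinite cluster -/
def AA (d : ℕ) : Set (Zd d → Bool) := {ω | ∃ y, InfC ω y}

/-- some vertex of the ball has an infinite cluster -/
def AM (d m : ℕ) : Set (Zd d → Bool) := {ω | ∃ y ∈ Bx (0 : Zd d) m, InfC ω y}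

theorem meas_AM (h_MSI : T_MSI) (d m : ℕ) : MeasurableSet (AM d m) := by
  have h : AM d m = ⋃ y ∈ Bx (0 : Zd d) m, {ω : Zd d → Bool | InfC ω y} := by
    ext ω
    simp only [AM, Set.mem_ofPred_eq, Set.mem_iUnion, exists_prop]
  rw [h]
  exact Finset.measurableSet_biUnion _ fun y _ => (h_MSI d).2 y

theorem AM_mono (d : ℕ) : Monotone (AM d) := by
  intro m m' hm ω hω
  obtain ⟨y, hy, hi⟩ := hω
  refine ⟨y, ?_, hi⟩
  rw [mem_Bx_iff_nm] at hy ⊢
  omega

theorem AA_eq (d : ℕ) : AA d = ⋃ m, AM d m := by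
  ext ω
  simp only [AA, AM, Set.mem_ofPred_eq, Set.mem_iUnion]
  constructor
  · rintro ⟨y, hy⟩
    refine ⟨nm y, y, ?_, hy⟩
    rw [mem_Bx_iff_nm, sub_zero]
  · rintro ⟨m, y, _, hy⟩
    exact ⟨y, hy⟩

theorem meas_AA (h_MSI : T_MSI) (d : ℕ) : MeasurableSet (AA d) := by
  rw [AA_eq]
  exact MeasurableSet.iUnion fun m => meas_AM h_MSI d m

theorem AA_dep (h_RMV : T_RMV) (d : ℕ) (F : Finset (Zd d)) : Dep (↑F : Set (Zd d))ᶜ (AA d) := by
  intro ω ω' h
  constructor
  · intro hω
    exact h_RMV d F ω ω' (fun x hx => h x (fun hx' => hx (Finset.mem_coe.1 hx'))) hω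
  · intro hω
    exact h_RMV d F ω' ω (fun x hx => (h x (fun hx' => hx (Finset.mem_coe.1 hx'))).symm) hω

end ONE_

open ONE_

theorem p_ONE (h_ZOL : T_ZOL) (h_RMV : T_RMV) (h_MSI : T_MSI) (h_UNE : T_UNE) : T_ONE := by
  intro d p hp0 hp1 hθ η hη
  have hq : ∀ _ : Zd d, 0 ≤ p ∧ p ≤ 1 := fun _ => ⟨hp0, hp1⟩
  have hprob : IsProbabilityMeasure (law fun _ : Zd d => p) := law_prob hq
  have hA : (law fun _ : Zd d => p).real (AA d) = 1 := by
    rcases h_ZOL (Zd d) (fun _ => p) (AA d) hq (meas_AA h_MSI d) (AA_dep h_RMV d) with h | h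
    · exfalso
      have h1 : theta d p ≤ (law fun _ : Zd d => p).real (AA d) := by
        unfold theta
        exact measureReal_mono (fun ω hω => ⟨0, hω⟩)
      linarith
    · exact h
  have hA' : (law fun _ : Zd d => p) (AA d) = 1 := by
    have h1 : ((law fun _ : Zd d => p) (AA d)).toReal = 1 := hA
    rw [← ENNReal.ofReal_toReal (measure_ne_top (law fun _ : Zd d => p) (AA d)), h1]
    simp
  have ht : Tendsto (fun m => (law fun _ : Zd d => p) (AM d m)) atTop (𝓝 1) := by
    have := tendsto_measure_iUnion_atTop (μ := law fun _ : Zd d => p) (AM_mono d)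
    rw [← AA_eq, hA'] at this
    exact this
  have ht' : Tendsto (fun m => (law fun _ : Zd d => p).real (AM d m)) atTop (𝓝 1) := by
    have := (ENNReal.tendsto_toReal ENNReal.one_ne_top).comp ht
    simpa [Measure.real, Function.comp_def] using this
  obtain ⟨m, hm⟩ := (ht'.eventually (lt_mem_nhds (show 1 - η < 1 by linarith))).exists
  refine ⟨m, fun n hn => ?_⟩
  have hsub : {ω : Zd d → Bool | Us (Bx 0 m) n (Op ω) = ∅} ⊆ (AM d m)ᶜ := by
    intro ω hω hω'
    obtain ⟨y, hy, hi⟩ := hω'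
    have hS : Bx (0 : Zd d) m ⊆ Bx 0 n := by
      intro z hz
      rw [mem_Bx_iff_nm] at hz ⊢
      omega
    have h1 := h_UNE d (Bx 0 m) n ω y hS hy hi
    have h2 : Us (Bx 0 m) n (Op ω) = ∅ := hω
    rw [h2] at h1
    exact Finset.not_nonempty_empty h1
  have h3 := measureReal_mono (μ := law fun _ : Zd d => p) hsub
  rw [probReal_compl_eq_one_sub (meas_AM h_MSI d m)] at h3
  linarith

end

end Pool.Agent.PRC
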