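import Pool.Agent.PRC.T2

set_option autoImplicit false

open MeasureTheory
open scoped Classical

namespace Pool.Agent.PRC

noncomputable section

theorem OPN_grs {d : ℕ} (n : ℕ) (s : St d) (u : Zd d) (e : Dir d) (ω : Zd d × Ly d → Bool)
    (x : Zd d) (hx : x ∈ grs n s u e ω) : x ∈ (↑s.R : Set (Zd d)) ∪ Opn ω := by
  unfold grs gro at hx
  rw [Finset.mem_union] at hx
  rcases hx with hx | hx
  · exact Or.inl hx
  right
  rw [Finset.mem_filter] at hx
  obtain ⟨_, v, hv, hvx⟩ := hx
  rcases Relation.ReflTransGen.cases_tail hvx with h | ⟨c, _, hc⟩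
  · subst h
    unfold frt at hv
    rw [Finset.mem_coe, Finset.mem_filter] at hv
    exact ⟨ls (cls u e), by simp [ls], hv.2⟩
  · exact ⟨none, by simp, hc.2.2.2.2⟩

theorem OPN_pick {V : Type} (P : V → Prop) (x : V) (h : pick P = some x) : P x := by
  unfold pick at h
  split_ifs at h with h1
  have h2 := Option.some.inj h
  rw [← h2]
  exact Classical.choose_spec h1

theorem OPN_step {d : ℕ} (m n : ℕ) (τ : Ln d) (s : St d) (ω : Zd d × Ly d → Bool) :
    (↑(FF m n τ s ω).R : Set (Zd d)) ⊆ ↑s.R ∪ Opn ω := by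
  intro x hx
  unfold FF at hx
  split_ifs at hx with h1
  · cases hp : pick (sgd m n s τ.2.1 τ.2.2 ω) with
    | none =>
      rw [hp] at hx
      exact OPN_grs n s τ.2.1 τ.2.2 ω x hx
    | some y =>
      rw [hp] at hx
      have hy := OPN_pick _ _ hp
      have hx' : x ∈ grs n s τ.2.1 τ.2.2 ω ∪ pd m τ.2.2 y := hx
      rw [Finset.mem_union] at hx'
      rcases hx' with hx' | hx'
      · exact OPN_grs n s τ.2.1 τ.2.2 ω x hx'
      · right
        exact ⟨lp (cls τ.2.1 τ.2.2), by simp [lp], hy.2.2 x hx'⟩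
  · exact Or.inl hx

theorem p_OPN : T_OPN := by
  intro d m n l
  induction l with
  | nil =>
    intro s ω x hx
    exact Or.inl hx
  | cons τ l ih =>
    intro s ω x hx
    have h1 := ih (FF m n τ s ω) ω hx
    rcases h1 with h1 | h1
    · exact OPN_step m n τ s ω h1
    · exact Or.inr h1

end

end Pool.Agent.PRC
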