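import Pool.Agent.PRC.T1

/-!
# PRC-ORL: the union of independent layers
-/

set_option autoImplicit false

open MeasureTheory Filter Topology
open scoped Classical

namespace Pool.Agent.PRC

open TRP (bern law)

noncomputable section

namespace ORL_

theorem dep_one {d : ℕ} (x : Zd d) (B : Set Bool) :
    Dep (↑((Finset.univ : Finset (Ly d)).image fun l => (x, l)) : Set (Zd d × Ly d))
      {ω : Zd d × Ly d → Bool | orr ω x ∈ B} := by
  intro ω ω' h
  have e : orr ω x = orr ω' x := by
    unfold orr
    congr 1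
    apply propext
    constructor
    · rintro ⟨l, hl⟩
      refine ⟨l, ?_⟩
      rw [← h (x, l) (by simp)]
      exact hl
    · rintro ⟨l, hl⟩
      refine ⟨l, ?_⟩
      rw [h (x, l) (by simp)]
      exact hl
  simp only [Set.mem_ofPred_eq, e]

theorem meas_one {d : ℕ} (x : Zd d) (B : Set Bool) :
    MeasurableSet {ω : Zd d × Ly d → Bool | orr ω x ∈ B} := (dep_one x B).meas

theorem meas_orr {d : ℕ} : Measurable (orr : (Zd d × Ly d → Bool) → Zd d → Bool) := by
  rw [measurable_pi_iff]
  intro x B _
  exact meas_one x B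

theorem prod_dens {d : ℕ} (p0 δ δr : ℝ) (x : Zd d) :
    ∏ l : Ly d, (1 - dens d p0 δ δr (x, l)) = (1 - p0) * (1 - δr) * (1 - δ) ^ (2 * Nc d) := by
  rw [Fintype.prod_option, Fintype.prod_option]
  have h1 : dens d p0 δ δr (x, none) = p0 := by simp [dens]
  have h2 : dens d p0 δ δr (x, some none) = δr := by simp [dens]
  have h3 : ∀ c : Bool × Cl d, dens d p0 δ δr (x, some (some c)) = δ := by
    intro c
    simp [dens]
  rw [h1, h2]
  simp only [h3]
  rw [Finset.prod_const, Finset.card_univ, Fintype.card_prod, Fintype.card_bool]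
  unfold Nc
  ring

theorem dens_mem {d : ℕ} {p0 δ δr : ℝ} (h1 : 0 ≤ p0) (h2 : p0 ≤ 1) (h3 : 0 ≤ δ) (h4 : δ ≤ 1)
    (h5 : 0 ≤ δr) (h6 : δr ≤ 1) (x : Zd d × Ly d) :
    0 ≤ dens d p0 δ δr x ∧ dens d p0 δ δr x ≤ 1 := by
  unfold dens
  split_ifs
  · exact ⟨h1, h2⟩
  · exact ⟨h5, h6⟩
  · exact ⟨h3, h4⟩

theorem one_false {d : ℕ} (hPRV : T_PRV) (q : Zd d × Ly d → ℝ) (hq : ∀ i, 0 ≤ q i ∧ q i ≤ 1)
    (x : Zd d) :
    (law q).real {ω | orr ω x = false} = ∏ l : Ly d, (1 - q (x, l)) := by
  have h := (hPRV (Zd d × Ly d) q ((Finset.univ : Finset (Ly d)).image fun l => (x, l)) hq).2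
  have e : {ω : Zd d × Ly d → Bool | orr ω x = false} =
      {ω | ∀ i ∈ (Finset.univ : Finset (Ly d)).image fun l => (x, l), ω i = false} := by
    ext ω
    simp only [Set.mem_ofPred_eq, orr, decide_eq_false_iff_not, not_exists, Bool.not_eq_true,
      Finset.mem_image, Finset.mem_univ, true_and]
    constructor
    · rintro h i ⟨l, rfl⟩
      exact h l
    · intro h l
      exact h (x, l) ⟨l, rfl⟩
  rw [e, h, Finset.prod_image]
  intro a _ b _ hab
  exact (Prod.mk.inj hab).2

theorem one_site {d : ℕ} (hPRV : T_PRV) (q : Zd d × Ly d → ℝ) (hq : ∀ i, 0 ≤ q i ∧ q i ≤ 1)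
    (x : Zd d) (p : ℝ) (hp0 : 0 ≤ p) (hp1 : p ≤ 1) (hp : ∏ l : Ly d, (1 - q (x, l)) = 1 - p)
    (B : Set Bool) :
    law q {ω | orr ω x ∈ B} = bern p B := by
  have hprob := law_prob hq
  have hprob' := bern_prob hp0 hp1
  have hm : Measurable (fun ω : Zd d × Ly d → Bool => orr ω x) :=
    (measurable_pi_apply x).comp meas_orr
  have hF : law q {ω | orr ω x = false} = ENNReal.ofReal (1 - p) := by
    rw [← hp, ← one_false hPRV q hq x]
    exact (ofReal_measureReal (measure_ne_top _ _)).symm
  have hmap : (law q).map (fun ω : Zd d × Ly d → Bool => orr ω x) = bern p := by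
    have : IsProbabilityMeasure ((law q).map (fun ω : Zd d × Ly d → Bool => orr ω x)) :=
      Measure.isProbabilityMeasure_map hm.aemeasurable
    have hf : (law q).map (fun ω : Zd d × Ly d → Bool => orr ω x) {false} = bern p {false} := by
      rw [Measure.map_apply hm (MeasurableSet.singleton _)]
      have e : (fun ω : Zd d × Ly d → Bool => orr ω x) ⁻¹' {false} = {ω | orr ω x = false} := rfl
      rw [e, hF]
      simp [bern]
    have hc : ({true} : Set Bool) = {false}ᶜ := by
      ext b; cases b <;> simp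
    rw [Measure.ext_iff_singleton]
    intro b
    cases b
    · exact hf
    · rw [hc, measure_compl (MeasurableSet.singleton _) (measure_ne_top _ _),
        measure_compl (MeasurableSet.singleton _) (measure_ne_top _ _), hf, measure_univ,
        measure_univ]
  rw [← hmap, Measure.map_apply hm (Set.toFinite B).measurableSet]
  rfl

end ORL_

open ORL_ in
theorem p_ORL (hIND : T_IND) (hPRV : T_PRV) : T_ORL := by
  intro d p0 δ δr p h1 h2 h3 h4 h5 h6 hp
  refine ⟨meas_orr, ?_⟩
  have hq := dens_mem (d := d) h1 h2 h3 h4 h5 h6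
  have hprob := law_prob hq
  have hpp : 0 ≤ 1 - p ∧ 1 - p ≤ 1 := by
    rw [← hp]
    have a1 : 0 ≤ 1 - p0 := by linarith
    have a2 : 0 ≤ 1 - δr := by linarith
    have a3 : 0 ≤ 1 - δ := by linarith
    constructor
    · positivity
    · have b1 : (1 - p0) * (1 - δr) ≤ 1 := by nlinarith
      have b2 : (1 - δ) ^ (2 * Nc d) ≤ 1 := pow_le_one₀ a3 (by linarith)
      exact mul_le_one₀ b1 (by positivity) b2
  have hp0 : 0 ≤ p := by linarith [hpp.2]
  have hp1 : p ≤ 1 := by linarith [hpp.1]
  have hprob' : IsProbabilityMeasure (bern p) := bern_prob hp0 hp1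
  unfold law
  refine Measure.eq_infinitePi _ fun s t ht => ?_
  have hmeas : MeasurableSet (Set.pi (s : Set (Zd d)) t) :=
    MeasurableSet.pi s.countable_toSet fun i _ => ht i
  rw [Measure.map_apply meas_orr hmeas]
  change law (dens d p0 δ δr) _ = _
  have key : ∀ s : Finset (Zd d),
      law (dens d p0 δ δr) {ω | ∀ x ∈ s, orr ω x ∈ t x} = ∏ x ∈ s, bern p (t x) := by
    intro s
    induction s using Finset.induction_on with
    | empty => simp
    | insert x s hx ih =>
      rw [Finset.prod_insert hx, ← ih,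
        ← one_site hPRV (dens d p0 δ δr) hq x p hp0 hp1 (by rw [prod_dens, hp]) (t x)]
      have e : {ω : Zd d × Ly d → Bool | ∀ y ∈ insert x s, orr ω y ∈ t y} =
          {ω | orr ω x ∈ t x} ∩ {ω | ∀ y ∈ s, orr ω y ∈ t y} := by
        ext ω
        simp
      have hA : Dep {z : Zd d × Ly d | z.1 = x} {ω : Zd d × Ly d → Bool | orr ω x ∈ t x} := by
        refine (dep_one x (t x)).mono ?_
        intro z hz
        simp only [Finset.coe_image, Finset.coe_univ, Set.image_univ, Set.mem_range] at hz
        obtain ⟨l, rfl⟩ := hz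
        rfl
      have hB : Dep {z : Zd d × Ly d | z.1 ∈ s}
          {ω : Zd d × Ly d → Bool | ∀ y ∈ s, orr ω y ∈ t y} := by
        intro ω ω' h
        have h' : ∀ y ∈ s, (orr ω y ∈ t y ↔ orr ω' y ∈ t y) := by
          intro y hy
          refine dep_one y (t y) ω ω' ?_
          intro z hz
          simp only [Finset.coe_image, Finset.coe_univ, Set.image_univ, Set.mem_range] at hz
          obtain ⟨l, rfl⟩ := hz
          exact h (y, l) hy
        constructor
        · intro h1 y hy
          exact (h' y hy).1 (h1 y hy)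
        · intro h1 y hy
          exact (h' y hy).2 (h1 y hy)
      have hmB : MeasurableSet {ω : Zd d × Ly d → Bool | ∀ y ∈ s, orr ω y ∈ t y} := by
        have : {ω : Zd d × Ly d → Bool | ∀ y ∈ s, orr ω y ∈ t y} =
            ⋂ y ∈ s, {ω | orr ω y ∈ t y} := by
          ext ω; simp
        rw [this]
        exact Finset.measurableSet_biInter s fun y _ => meas_one y (t y)
      have hdis : Disjoint {z : Zd d × Ly d | z.1 = x} {z : Zd d × Ly d | z.1 ∈ s} := by
        rw [Set.disjoint_left]
        intro z hz hz'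
        simp only [Set.mem_ofPred_eq] at hz hz'
        exact hx (hz ▸ hz')
      have := hIND (Zd d × Ly d) (dens d p0 δ δr) hq _ _ _ _ hA hB hdis (meas_one x (t x)) hmB
      rw [e, ← ofReal_measureReal (measure_ne_top _ _), this,
        ENNReal.ofReal_mul measureReal_nonneg, ofReal_measureReal (measure_ne_top _ _),
        ofReal_measureReal (measure_ne_top _ _)]
  rw [← key s]
  congr 1

end

end Pool.Agent.PRC
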