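import Pool.Agent.PRC.T1

/-!
# PRC-PAD: many points give an open pad
-/

set_option autoImplicit false

open MeasureTheory Filter Topology
open scoped Classical

namespace Pool.Agent.PRC

open TRP (bern law)

noncomputable section

/-- the pad beyond `x` is open in the layer `a` -/
def PAD_.ev {d : ℕ} {Λ : Type} (m : ℕ) (e : Dir d) (a : Λ) (x : Zd d) : Set (Zd d × Λ → Bool) :=
  {ω | ∀ y ∈ pd m e x, ω (y, a) = true}

theorem PAD_.dep {d : ℕ} {Λ : Type} (m : ℕ) (e : Dir d) (a : Λ) (x : Zd d) :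
    Dep (↑((pd m e x).image fun y => (y, a)) : Set (Zd d × Λ)) (PAD_.ev m e a x) := by
  intro ω ω' h
  unfold PAD_.ev
  simp only [Set.mem_setOf_eq]
  apply forall₂_congr
  intro y hy
  rw [h (y, a) (by simp only [Finset.coe_image, Set.mem_image]; exact ⟨y, hy, rfl⟩)]

theorem PAD_.disj {d : ℕ} (m : ℕ) (e : Dir d) (x x' : Zd d)
    (h : ∀ i, ((x i : ℤ) : ZMod (2 * m + 1)) = ((x' i : ℤ) : ZMod (2 * m + 1))) (y : Zd d)
    (hy : y ∈ pd m e x) (hy' : y ∈ pd m e x') : x = x' := by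
  funext i
  unfold pd at hy hy'
  rw [mem_Bx] at hy hy'
  have h1 := hy i
  have h2 := hy' i
  unfold pc at h1 h2
  simp only [Pi.add_apply] at h1 h2
  rw [abs_le] at h1 h2
  have h3 := h i
  rw [ZMod.intCast_eq_intCast_iff_dvd_sub] at h3
  obtain ⟨c, hc⟩ := h3
  have h4 : x' i - x i ≤ 2 * m := by linarith [h1.1, h2.2, h1.2, h2.1]
  have h5 : -(2 * (m : ℤ)) ≤ x' i - x i := by linarith [h1.1, h2.2, h1.2, h2.1]
  push_cast at hc
  have hc0 : c = 0 := by
    by_contra hne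
    rcases lt_or_gt_of_ne hne with hlt | hgt
    · have : c ≤ -1 := by omega
      nlinarith
    · have : 1 ≤ c := by omega
      nlinarith
  rw [hc0] at hc
  linarith

theorem PAD_.prob {d : ℕ} {Λ : Type} (h_PRV : T_PRV) (q : Zd d × Λ → ℝ) (a : Λ) (δ : ℝ)
    (hq : ∀ x, 0 ≤ q x ∧ q x ≤ 1) (hδ : ∀ x : Zd d, q (x, a) = δ) (m : ℕ) (e : Dir d) (x : Zd d) :
    (law q).real (PAD_.ev m e a x) = δ ^ ((2 * m + 1) ^ d) := by
  have h := (h_PRV (Zd d × Λ) q ((pd m e x).image fun y => (y, a)) hq).1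
  have h1 : {ω : Zd d × Λ → Bool | ∀ i ∈ (pd m e x).image (fun y => (y, a)), ω i = true} =
      PAD_.ev m e a x := by
    ext ω
    unfold PAD_.ev
    simp only [Set.mem_setOf_eq, Finset.forall_mem_image]
  rw [h1] at h
  rw [h, Finset.prod_image (by
    intro y _ y' _ hyy
    exact (Prod.ext_iff.1 hyy).1)]
  simp only [hδ]
  rw [Finset.prod_const]
  unfold pd
  rw [Bx_card]

theorem PAD_.ind {d : ℕ} {Λ : Type} (h_PRV : T_PRV) (h_IND : T_IND) (q : Zd d × Λ → ℝ) (a : Λ)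
    (δ : ℝ) (hq : ∀ x, 0 ≤ q x ∧ q x ≤ 1) (hδ : ∀ x : Zd d, q (x, a) = δ) (m : ℕ) (e : Dir d)
    (V : Finset (Zd d)) (hV : ∀ x ∈ V, ∀ x' ∈ V, ∀ i, ((x i : ℤ) : ZMod (2 * m + 1)) =
      ((x' i : ℤ) : ZMod (2 * m + 1))) :
    (law q).real {ω | ∀ x ∈ V, ω ∉ PAD_.ev m e a x} = (1 - δ ^ ((2 * m + 1) ^ d)) ^ V.card := by
  have hp := law_prob hq
  induction V using Finset.induction_on with
  | empty => simp
  | insert x s hx ih =>
    have hset : {ω : Zd d × Λ → Bool | ∀ x' ∈ insert x s, ω ∉ PAD_.ev m e a x'} =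
        (PAD_.ev m e a x)ᶜ ∩ {ω | ∀ x' ∈ s, ω ∉ PAD_.ev m e a x'} := by
      ext ω
      simp only [Finset.mem_insert, forall_eq_or_imp, Set.mem_setOf_eq, Set.mem_inter_iff,
        Set.mem_compl_iff]
    have hB : Dep (↑(s.biUnion fun x' => (pd m e x').image fun y => (y, a)) : Set (Zd d × Λ))
        {ω : Zd d × Λ → Bool | ∀ x' ∈ s, ω ∉ PAD_.ev m e a x'} := by
      intro ω ω' h
      simp only [Set.mem_setOf_eq]
      apply forall₂_congr
      intro x' hx'
      apply not_congr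
      apply PAD_.dep m e a x' ω ω'
      intro i hi
      apply h i
      rw [Finset.mem_coe] at hi ⊢
      exact Finset.mem_biUnion.2 ⟨x', hx', hi⟩
    have hA := PAD_.dep m e a x
    have hdis : Disjoint (↑((pd m e x).image fun y => (y, a)) : Set (Zd d × Λ))
        (↑(s.biUnion fun x' => (pd m e x').image fun y => (y, a)) : Set (Zd d × Λ)) := by
      rw [Finset.disjoint_coe, Finset.disjoint_left]
      intro z hz hz'
      rw [Finset.mem_biUnion] at hz'
      obtain ⟨x', hx', hz'⟩ := hz'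
      rw [Finset.mem_image] at hz hz'
      obtain ⟨y, hy, rfl⟩ := hz
      obtain ⟨y', hy', he⟩ := hz'
      have hyy : y' = y := (Prod.ext_iff.1 he).1
      rw [hyy] at hy'
      have := PAD_.disj m e x x' (hV x (Finset.mem_insert_self _ _) x'
        (Finset.mem_insert_of_mem hx')) y hy hy'
      rw [this] at hx
      exact hx hx'
    rw [hset, h_IND (Zd d × Λ) q hq _ _ _ _ hA.compl hB hdis hA.meas.compl hB.meas,
      ih (fun x1 h1 x2 h2 => hV x1 (Finset.mem_insert_of_mem h1) x2 (Finset.mem_insert_of_mem h2)),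
      probReal_compl_eq_one_sub hA.meas, PAD_.prob h_PRV q a δ hq hδ, Finset.card_insert_of_notMem hx,
      pow_succ]
    ring

theorem p_PAD (h_PRV : T_PRV) (h_IND : T_IND) : T_PAD := by
  intro d Λ q a δ hq hδ m e k V hk
  have hp := law_prob hq
  have : NeZero (2 * m + 1) := ⟨by omega⟩
  let ρ : Zd d → (Fin d → ZMod (2 * m + 1)) := fun x i => ((x i : ℤ) : ZMod (2 * m + 1))
  have hcard : (Finset.univ : Finset (Fin d → ZMod (2 * m + 1))).card = (2 * m + 1) ^ d := by
    rw [Finset.card_univ, Fintype.card_fun, ZMod.card, Fintype.card_fin]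
  obtain ⟨c, _, hc⟩ := Finset.exists_le_card_fiber_of_mul_le_card_of_maps_to
    (s := V) (t := (Finset.univ : Finset (Fin d → ZMod (2 * m + 1)))) (f := ρ) (n := k)
    (fun x _ => Finset.mem_univ _) Finset.univ_nonempty (by rw [hcard, mul_comm]; exact hk)
  obtain ⟨V', hV', hk'⟩ := Finset.exists_subset_card_eq hc
  have h1 := PAD_.ind h_PRV h_IND q a δ hq hδ m e V' (by
    intro x hx x' hx' i
    have h2 := (Finset.mem_filter.1 (hV' hx)).2
    have h3 := (Finset.mem_filter.1 (hV' hx')).2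
    have h4 : ρ x = ρ x' := h2.trans h3.symm
    exact congrFun h4 i)
  rw [hk'] at h1
  rw [← h1]
  apply measureReal_mono _ (measure_ne_top _ _)
  intro ω hω x hx
  exact hω x (Finset.mem_filter.1 (hV' hx)).1

end

end Pool.Agent.PRC
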