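import Pool.Agent.PRC.T3

/-!
# PRC: target PBN (numerical bound for the probabilities of bad boxes)
-/

set_option autoImplicit false

open scoped Classical

namespace Pool.Agent.PRC

noncomputable section

namespace PBN_

theorem bb_cast (k : ℕ) : (bb k : ℝ) = 2 ^ (k + 4) := by
  unfold bb
  push_cast
  ring

theorem main {d : ℕ} {θ ε : ℝ} (hθ : 0 < θ) (hθ1 : θ ≤ 1) (hε : 0 ≤ ε)
    (h : ε ≤ θ / 2 ^ (12 * d)) (k : ℕ) :
    0 ≤ pib d ε k ∧ (bb (k + 1) : ℝ) ^ d * pib d ε k * 2 ^ (d * (k + 7)) ≤ θ := by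
  induction k with
  | zero =>
    refine ⟨hε, ?_⟩
    rw [bb_cast]
    change ((2 : ℝ) ^ (0 + 1 + 4)) ^ d * ε * 2 ^ (d * (0 + 7)) ≤ θ
    rw [le_div_iff₀ (by positivity)] at h
    refine le_trans (le_of_eq ?_) h
    rw [← pow_mul]
    have h1 : (2 : ℝ) ^ (12 * d) = 2 ^ ((0 + 1 + 4) * d) * 2 ^ (d * (0 + 7)) := by
      rw [← pow_add]
      congr 1
      ring
    rw [h1]
    ring
  | succ k ih =>
    obtain ⟨h1, h2⟩ := ih
    refine ⟨sq_nonneg _, ?_⟩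
    change (bb (k + 1 + 1) : ℝ) ^ d * ((bb (k + 1) : ℝ) ^ d * pib d ε k) ^ 2 *
      2 ^ (d * (k + 1 + 7)) ≤ θ
    have h3 : (bb (k + 1 + 1) : ℝ) ^ d * ((bb (k + 1) : ℝ) ^ d * pib d ε k) ^ 2 *
      2 ^ (d * (k + 1 + 7)) = ((bb (k + 1) : ℝ) ^ d * pib d ε k * 2 ^ (d * (k + 7))) ^ 2 := by
      rw [bb_cast (k + 1 + 1), ← pow_mul, mul_pow ((bb (k + 1) : ℝ) ^ d * pib d ε k), ← pow_mul]
      have h4 : (2 : ℝ) ^ (d * (k + 7) * 2) = 2 ^ ((k + 1 + 1 + 4) * d) * 2 ^ (d * (k + 1 + 7)) := by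
        rw [← pow_add]
        congr 1
        ring
      rw [h4]
      ring
    rw [h3]
    have h5 : 0 ≤ (bb (k + 1) : ℝ) ^ d * pib d ε k * 2 ^ (d * (k + 7)) := by positivity
    calc ((bb (k + 1) : ℝ) ^ d * pib d ε k * 2 ^ (d * (k + 7))) ^ 2 ≤ θ ^ 2 :=
          pow_le_pow_left₀ h5 h2 2
      _ ≤ θ := by nlinarith

end PBN_

theorem p_PBN : T_PBN := by
  intro d θ ε hd hθ hθ1 hε h k
  obtain ⟨h1, h2⟩ := PBN_.main hθ hθ1 hε h k
  refine ⟨h1, ?_⟩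
  rw [le_div_iff₀ (by positivity)]
  refine le_trans ?_ h2
  have h3 : 0 ≤ (bb (k + 1) : ℝ) ^ d * pib d ε k := by positivity
  refine mul_le_mul_of_nonneg_left ?_ h3
  refine pow_le_pow_right₀ (by norm_num) ?_
  nlinarith

end

end Pool.Agent.PRC
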