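import Pool.Agent.PRC.T1

set_option autoImplicit false

open MeasureTheory
open scoped Classical

namespace Pool.Agent.PRC

open TRP (bern law)

theorem p_PRJ : T_PRJ := by
  intro I K q f hq hf
  have h1 : ∀ x, IsProbabilityMeasure (bern (q x)) := fun x => bern_prob (hq x).1 (hq x).2
  have h2 : ∀ k, IsProbabilityMeasure (bern (q (f k))) := fun k => h1 (f k)
  have hm : Measurable (fun (ω : I → Bool) (k : K) => ω (f k)) :=
    measurable_pi_lambda _ fun k => measurable_pi_apply (f k)
  unfold law
  refine Measure.eq_infinitePi _ fun s t ht => ?_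
  have hmeas : MeasurableSet (Set.pi (s : Set K) t) :=
    MeasurableSet.pi s.countable_toSet fun i _ => ht i
  rw [Measure.map_apply hm hmeas]
  have h3 : (fun (ω : I → Bool) (k : K) => ω (f k)) ⁻¹' (Set.pi (s : Set K) t) =
      Set.pi ((s.map ⟨f, hf⟩ : Finset I) : Set I) (Function.extend f t (fun _ => Set.univ)) := by
    ext ω
    simp only [Set.mem_preimage, Set.mem_pi, Finset.mem_coe, Finset.mem_map, Function.Embedding.coeFn_mk]
    constructor
    · rintro h x ⟨k, hk, rfl⟩
      rw [hf.extend_apply]
      exact h k hk
    · intro h k hk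
      have := h (f k) ⟨k, hk, rfl⟩
      rw [hf.extend_apply] at this
      exact this
  have h4 : ∀ i, MeasurableSet (Function.extend f t (fun _ => Set.univ) i) := by
    intro i
    by_cases hi : ∃ k, f k = i
    · obtain ⟨k, rfl⟩ := hi
      rw [hf.extend_apply]
      exact ht k
    · rw [Function.extend_apply' _ _ _ hi]
      exact MeasurableSet.univ
  rw [h3, Measure.infinitePi_pi _ fun i _ => h4 i, Finset.prod_map]
  apply Finset.prod_congr rfl
  intro k _
  simp only [Function.Embedding.coeFn_mk, hf.extend_apply]

end Pool.Agent.PRC
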