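import Pool.Agent.PRC.T1

set_option autoImplicit false

/-!
# PRC, target PRV: all sites of a finite set are open (closed)
-/

open MeasureTheory
open scoped Classical

namespace Pool.Agent.PRC

open TRP (bern law)

namespace PRV_

theorem bern_true {p : ℝ} : (bern p) {true} = ENNReal.ofReal p := by
  unfold bern
  simp

theorem bern_false {p : ℝ} : (bern p) {false} = ENNReal.ofReal (1 - p) := by
  unfold bern
  simp

theorem pi_real {I : Type} {q : I → ℝ} (h : ∀ i, 0 ≤ q i ∧ q i ≤ 1) (F : Finset I) (b : Bool)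
    (f : I → ℝ) (hf : ∀ i, 0 ≤ f i) (hb : ∀ i, bern (q i) {b} = ENNReal.ofReal (f i)) :
    (law q).real {ω | ∀ i ∈ F, ω i = b} = ∏ i ∈ F, f i := by
  have hp : ∀ i, IsProbabilityMeasure (bern (q i)) := fun i => bern_prob (h i).1 (h i).2
  have hset : {ω : I → Bool | ∀ i ∈ F, ω i = b} = Set.pi (↑F : Set I) (fun _ => {b}) := by
    ext ω
    simp [Set.mem_pi]
  rw [hset, Measure.real]
  unfold law
  rw [Measure.infinitePi_pi _ (fun i _ => measurableSet_singleton b)]
  rw [Finset.prod_congr rfl (fun i _ => hb i), ENNReal.toReal_prod]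
  exact Finset.prod_congr rfl (fun i _ => ENNReal.toReal_ofReal (hf i))

end PRV_

open PRV_ in
theorem p_PRV : T_PRV := by
  intro I q F h
  exact ⟨pi_real h F true q (fun i => (h i).1) (fun i => bern_true),
    pi_real h F false (fun i => 1 - q i) (fun i => by have := (h i).2; linarith)
      (fun i => bern_false)⟩

end Pool.Agent.PRC
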