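import Pool.Agent.PRC.T3
import Pool.Agent.PRC.Base

/-!
# PRC-REC: monotone path in a box
-/

set_option autoImplicit false

open scoped Classical

namespace Pool.Agent.PRC

theorem p_REC : T_REC := by
  intro d a b u v hu hv
  obtain ⟨n, hn⟩ : ∃ n : ℕ, n = ∑ i, (u i - v i).natAbs := ⟨_, rfl⟩
  rw [← hn]
  induction n generalizing u with
  | zero =>
    have h0 : ∀ i, (u i - v i).natAbs = 0 := by
      intro i
      exact (Finset.sum_eq_zero_iff.1 hn.symm) i (Finset.mem_univ i)
    have huv : u = v := by
      funext i
      have := h0 i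
      omega
    rw [huv]
    exact Lk.refl 0 v
  | succ n ih =>
    have hex : ∃ i, u i ≠ v i := by
      by_contra hc
      push Not at hc
      have h0 : ∑ i, (u i - v i).natAbs = 0 := by
        apply Finset.sum_eq_zero
        intro i _
        rw [hc i]
        simp
      omega
    obtain ⟨i, hi⟩ := hex
    rw [Finset.mem_Icc, Pi.le_def, Pi.le_def] at hu hv
    have hdi : ∀ j, j ≠ i → dv ((i, decide (u i < v i)) : Dir d) j = 0 := fun j hj => dv_ne _ hj
    have hdi' : dv ((i, decide (u i < v i)) : Dir d) i = if u i < v i then 1 else -1 := by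
      rw [dv_self]
      unfold sg
      simp
    have hu' : u + dv ((i, decide (u i < v i)) : Dir d) ∈ Finset.Icc a b := by
      rw [Finset.mem_Icc, Pi.le_def, Pi.le_def]
      have h1 := hu.1 i
      have h2 := hu.2 i
      have h3 := hv.1 i
      have h4 := hv.2 i
      constructor
      · intro j
        by_cases hj : j = i
        · subst hj
          rw [Pi.add_apply, hdi']
          split_ifs <;> omega
        · rw [Pi.add_apply, hdi j hj, add_zero]
          exact hu.1 j
      · intro j
        by_cases hj : j = i
        · subst hj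
          rw [Pi.add_apply, hdi']
          split_ifs <;> omega
        · rw [Pi.add_apply, hdi j hj, add_zero]
          exact hu.2 j
    have hsum : n = ∑ j, ((u + dv ((i, decide (u i < v i)) : Dir d)) j - v j).natAbs := by
      rw [← Finset.add_sum_erase _ _ (Finset.mem_univ i)] at hn ⊢
      have h1 : ∑ x ∈ Finset.univ.erase i, ((u + dv ((i, decide (u i < v i)) : Dir d)) x - v x).natAbs
          = ∑ x ∈ Finset.univ.erase i, (u x - v x).natAbs := by
        apply Finset.sum_congr rfl
        intro x hx
        rw [Pi.add_apply, hdi x (Finset.ne_of_mem_erase hx), add_zero]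
      rw [h1, Pi.add_apply, hdi']
      split_ifs <;> omega
    have h2 := ih _ hu' hsum
    have h3 : Lk Adj (↑(Finset.Icc a b) : Set (Zd d)) 1 u
        (u + dv ((i, decide (u i < v i)) : Dir d)) :=
      Lk.one ⟨_, rfl⟩ (Finset.mem_coe.2 hu')
    have h4 := h3.trans h2
    rwa [add_comm] at h4

end Pool.Agent.PRC
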