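import Pool.Agent.PRC.T2

/-!
# PRC-RFN: the final state depends on finitely many coordinates
-/

set_option autoImplicit false

open MeasureTheory
open scoped Classical

namespace Pool.Agent.PRC

noncomputable section

namespace RFN_

/-- extension by `false` -/
def ext {I : Type} (K : Finset I) (η : K → Bool) : I → Bool :=
  fun i => if h : i ∈ K then η ⟨i, h⟩ else false

end RFN_

open RFN_ in
theorem p_RFN : T_RFN := by
  intro S T I F J P hE l
  induction l with
  | nil =>
    intro s _
    exact ⟨∅, fun ω ω' _ => rfl⟩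
  | cons τ l ih =>
    intro s hP
    obtain ⟨K0, hK0⟩ := hE.fin τ l s hP
    have h : ∀ η : K0 → Bool, ∃ K : Finset I, ∀ ω ω' : I → Bool, (∀ i ∈ K, ω i = ω' i) →
        run F l (F τ s (ext K0 η)) ω = run F l (F τ s (ext K0 η)) ω' :=
      fun η => ih (F τ s (ext K0 η)) (hE.inv τ l s _ hP)
    choose Kf hKf using h
    refine ⟨K0 ∪ Finset.univ.biUnion Kf, ?_⟩
    intro ω ω' hω
    set η : K0 → Bool := fun i => ω i with hη
    have h1 : F τ s ω = F τ s (ext K0 η) := by
      apply hK0
      intro i hi
      unfold ext
      rw [dif_pos hi]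
    have h2 : F τ s ω' = F τ s (ext K0 η) := by
      apply hK0
      intro i hi
      unfold ext
      rw [dif_pos hi]
      exact (hω i (Finset.mem_union_left _ hi)).symm
    show run F l (F τ s ω) ω = run F l (F τ s ω') ω'
    rw [h1, h2]
    apply hKf η
    intro i hi
    exact hω i (Finset.mem_union_right _ (Finset.mem_biUnion.mpr ⟨η, Finset.mem_univ _, hi⟩))

end

end Pool.Agent.PRC
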