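import Pool.Agent.PRC.T1

/-!
# PRC: target T_RMV (changing finitely many sites does not destroy all the infinite clusters)
-/

set_option autoImplicit false

open MeasureTheory Filter Topology
open scoped Classical

namespace Pool.Agent.PRC

theorem RMV_.mem_nbr {d : ℕ} {x y : Zd d} (h : Adj x y) : y ∈ nbr x := by
  obtain ⟨e, he⟩ := h
  exact Finset.mem_image.2 ⟨e, Finset.mem_univ e, he.symm⟩

theorem p_RMV : T_RMV := by
  rintro d F ω ω' hF ⟨y, hy, hinf⟩
  by_contra hcon
  have hfin : ∀ w : Zd d, w ∉ F → ω w = true →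
      (Rc Adj (Op ω \ (↑F : Set (Zd d))) {w}).Finite := by
    intro w hw ho
    by_contra hni
    apply hcon
    refine ⟨w, ?_, ?_⟩
    · rw [← hF w hw]; exact ho
    · refine Set.Infinite.mono ?_ hni
      refine Rc.mono ?_ (le_refl _)
      rintro x ⟨hx1, hx2⟩
      have hx3 : x ∉ F := fun h => hx2 (Finset.mem_coe.2 h)
      show ω' x = true
      rw [← hF x hx3]
      exact hx1
  let W : Finset (Zd d) := insert y (F.biUnion nbr)
  let W' : Set (Zd d) := {w | w ∈ W ∧ w ∉ F ∧ ω w = true}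
  let T : Set (Zd d) := ↑F ∪ ⋃ w ∈ W', Rc Adj (Op ω \ (↑F : Set (Zd d))) {w}
  have hW' : W'.Finite := W.finite_toSet.subset fun w hw => Finset.mem_coe.2 hw.1
  have hT : T.Finite := by
    refine F.finite_toSet.union (Set.Finite.biUnion hW' ?_)
    intro w hw
    exact hfin w hw.2.1 hw.2.2
  have hmemT : ∀ w : Zd d, w ∈ W → ω w = true → w ∈ T := by
    intro w hw ho
    by_cases hwF : w ∈ F
    · exact Or.inl (Finset.mem_coe.2 hwF)
    · refine Or.inr (Set.mem_biUnion (show w ∈ W' from ⟨hw, hwF, ho⟩) (Rc.self rfl))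
  have hsub : Rc Adj (Op ω) {y} ⊆ T := by
    refine Rc.sub_of_closed ?_ ?_
    · intro x hx
      rw [Set.mem_singleton_iff] at hx
      subst hx
      exact hmemT _ (Finset.mem_insert_self _ _) hy
    · intro a ha b hb hab
      rcases ha with ha | ha
      · refine hmemT b (Finset.mem_insert_of_mem (Finset.mem_biUnion.2
          ⟨a, Finset.mem_coe.1 ha, RMV_.mem_nbr hab⟩)) hb
      · by_cases hbF : b ∈ F
        · exact Or.inl (Finset.mem_coe.2 hbF)
        · obtain ⟨w, hw, haw⟩ := Set.mem_iUnion₂.1 ha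
          refine Or.inr (Set.mem_biUnion hw (Rc.step haw hab ⟨hb, fun h => hbF (Finset.mem_coe.1 h)⟩))
  exact hinf (hT.subset hsub)

end Pool.Agent.PRC
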