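import Pool.Agent.PRC.T4

/-!
# PRC: the root event
-/

set_option autoImplicit false

open MeasureTheory Filter Topology
open scoped Classical

namespace Pool.Agent.PRC

open TRP (bern law)

noncomputable section

namespace ROT_

variable {d : ℕ}

lemma dens01 {p0 δ δr : ℝ} (h0 : 0 < p0) (h0' : p0 < 1) (h1 : 0 < δ) (h1' : δ < 1) (h2 : 0 < δr)
    (h2' : δr < 1) : ∀ i : Zd d × Ly d, 0 ≤ dens d p0 δ δr i ∧ dens d p0 δ δr i ≤ 1 := by
  intro i
  unfold dens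
  split_ifs <;> constructor <;> linarith

lemma rc_congr {D D' : Set (Zd d)} {n : ℕ} (h : ∀ x ∈ Bx (0 : Zd d) n, (x ∈ D ↔ x ∈ D')) :
    (↑(Bx (0 : Zd d) n) ∩ D : Set (Zd d)) = ↑(Bx (0 : Zd d) n) ∩ D' := by
  ext x
  constructor
  · rintro ⟨h1, h2⟩
    exact ⟨h1, (h x h1).1 h2⟩
  · rintro ⟨h1, h2⟩
    exact ⟨h1, (h x h1).2 h2⟩

lemma us_congr {S : Finset (Zd d)} {D D' : Set (Zd d)} {n : ℕ}
    (h : ∀ x ∈ Bx (0 : Zd d) n, (x ∈ D ↔ x ∈ D')) : Us S n D = Us S n D' := by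
  unfold Us
  rw [rc_congr h]

lemma orr_congr {ω ω' : Zd d × Ly d → Bool} {x : Zd d} (h : ∀ l, ω (x, l) = ω' (x, l)) :
    orr ω x = orr ω' x := by
  unfold orr
  simp only [h]

lemma op_congr {ω ω' : Zd d × Ly d → Bool} {x : Zd d} (h : ∀ l, ω (x, l) = ω' (x, l)) :
    x ∈ Op (orr ω) ↔ x ∈ Op (orr ω') := by
  unfold Op
  rw [Set.mem_setOf_eq, Set.mem_setOf_eq, orr_congr h]

lemma zero_mem (n : ℕ) : (0 : Zd d) ∈ Bx (0 : Zd d) n := by
  rw [mem_Bx_zero]
  intro i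
  simp

/-- the coordinates of the ball -/
def FM (d M : ℕ) : Finset (Zd d × Ly d) := (Bx (0 : Zd d) M) ×ˢ Finset.univ

lemma mem_FM {M : ℕ} {i : Zd d × Ly d} : i ∈ FM d M ↔ i.1 ∈ Bx (0 : Zd d) M := by
  unfold FM
  rw [Finset.mem_product]
  simp

lemma dep_us {M : ℕ} (k : ℕ) : Dep (↑(FM d M) : Set (Zd d × Ly d))
    {ω | k ≤ (Us {0} M (Op (orr ω))).card ∧ orr ω 0 = true} := by
  intro ω ω' h
  have h1 : ∀ x ∈ Bx (0 : Zd d) M, ∀ l, ω (x, l) = ω' (x, l) := fun x hx l =>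
    h (x, l) (Finset.mem_coe.2 (mem_FM.2 hx))
  rw [Set.mem_setOf_eq, Set.mem_setOf_eq, us_congr fun x hx => op_congr (h1 x hx),
    orr_congr (h1 0 (zero_mem M))]

lemma dep_us2 {M : ℕ} (k : ℕ) : Dep (↑(Bx (0 : Zd d) M) : Set (Zd d))
    {ω : Zd d → Bool | 1 ≤ (Us {0} M (Op ω)).card ∧ (Us {0} M (Op ω)).card < k} := by
  intro ω ω' h
  have h1 : Us {0} M (Op ω) = Us {0} M (Op ω') := us_congr fun x hx => by
    unfold Op
    rw [Set.mem_setOf_eq, Set.mem_setOf_eq, h x (Finset.mem_coe.2 hx)]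
  rw [Set.mem_setOf_eq, Set.mem_setOf_eq, h1]

lemma dep_gx {M r0 : ℕ} (e : Dir d) (x : Zd d) :
    Dep (↑(FM d M ∪ (pd r0 e x) ×ˢ {(some none : Ly d)}) : Set (Zd d × Ly d)) (Gx M r0 e x) := by
  intro ω ω' h
  have h1 : ∀ x ∈ Bx (0 : Zd d) M, ∀ l, ω (x, l) = ω' (x, l) := fun x hx l =>
    h (x, l) (Finset.mem_coe.2 (Finset.mem_union_left _ (mem_FM.2 hx)))
  have h2 : ∀ y ∈ pd r0 e x, ω (y, some none) = ω' (y, some none) := fun y hy =>
    h (y, some none) (Finset.mem_coe.2 (Finset.mem_union_right _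
      (Finset.mem_product.2 ⟨hy, Finset.mem_singleton_self _⟩)))
  unfold Gx
  rw [Set.mem_setOf_eq, Set.mem_setOf_eq, orr_congr (h1 0 (zero_mem M)),
    rc_congr fun x hx => op_congr (h1 x hx)]
  constructor
  · rintro ⟨a, b, c⟩
    exact ⟨a, b, fun y hy => by rw [← h2 y hy]; exact c y hy⟩
  · rintro ⟨a, b, c⟩
    exact ⟨a, b, fun y hy => by rw [h2 y hy]; exact c y hy⟩

lemma pad_out {M r0 : ℕ} {e : Dir d} {x y : Zd d} (hx : x e.1 = sg e.2 * M) (hy : y ∈ pd r0 e x) :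
    y ∉ Bx (0 : Zd d) M := by
  intro h
  rw [mem_Bx_zero] at h
  unfold pd pc at hy
  rw [mem_Bx] at hy
  have h1 := h e.1
  have h2 := hy e.1
  rw [Pi.add_apply, Pi.smul_apply, dv_self, hx, smul_eq_mul] at h2
  rw [abs_le] at h1 h2
  cases hb : e.2
  · rw [hb] at h2
    simp only [sg] at h2
    simp at h2
    omega
  · rw [hb] at h2
    simp only [sg] at h2
    simp at h2
    omega

/-- pigeonhole for the facets -/
lemma facet {M K : ℕ} (U : Finset (Zd d)) (hU : ∀ x ∈ U, ∃ i, |x i| = M) (hk : 2 * d * K < U.card) :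
    ∃ e : Dir d, K ≤ (U.filter fun x => x e.1 = sg e.2 * M).card := by
  by_contra hcon
  push Not at hcon
  have h1 : U ⊆ (Finset.univ : Finset (Dir d)).biUnion fun e => U.filter fun x => x e.1 = sg e.2 * M := by
    intro x hx
    obtain ⟨i, hi⟩ := hU x hx
    rw [Finset.mem_biUnion]
    rcases abs_eq (by positivity : (0 : ℤ) ≤ (M : ℤ)) |>.1 hi with h | h
    · exact ⟨(i, true), Finset.mem_univ _, Finset.mem_filter.2 ⟨hx, by simp [sg, h]⟩⟩
    · exact ⟨(i, false), Finset.mem_univ _, Finset.mem_filter.2 ⟨hx, by simp [sg, h]⟩⟩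
  have h2 := (Finset.card_le_card h1).trans Finset.card_biUnion_le
  have h3 : ∑ e : Dir d, (U.filter fun x => x e.1 = sg e.2 * M).card ≤ ∑ e : Dir d, K :=
    Finset.sum_le_sum fun e _ => (hcon e).le
  rw [Finset.sum_const, Finset.card_univ, Fintype.card_prod, Fintype.card_fin, Fintype.card_bool,
    smul_eq_mul] at h3
  have h4 : d * 2 * K = 2 * d * K := by ring
  omega

end ROT_

open ROT_ in
theorem p_ROT (h_ORL : T_ORL) (h_USM : T_USM) (h_UNE : T_UNE) (h_PAD : T_PAD) (h_CON : T_CON) :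
    T_ROT := by
  intro d p0 δ δr hd hp0 hp0' hδ hδ' hδr hδr' r0 ε hε
  have h01 := dens01 (d := d) hp0 hp0' hδ hδ' hδr hδr'
  haveI : IsProbabilityMeasure (law (dens d p0 δ δr)) := law_prob h01
  -- the density `p`
  set p : ℝ := 1 - (1 - p0) * (1 - δr) * (1 - δ) ^ (2 * Nc d) with hp
  have hpow : 0 < (1 - δ) ^ (2 * Nc d) := by
    have : 0 < 1 - δ := by linarith
    positivity
  have hpow1 : (1 - δ) ^ (2 * Nc d) ≤ 1 := pow_le_one₀ (by linarith) (by linarith)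
  have hprod : 0 < (1 - p0) * (1 - δr) * (1 - δ) ^ (2 * Nc d) :=
    mul_pos (mul_pos (by linarith) (by linarith)) hpow
  have hprod1 : (1 - p0) * (1 - δr) * (1 - δ) ^ (2 * Nc d) ≤ 1 := by
    have h1 : (1 - p0) * (1 - δr) ≤ 1 := mul_le_one₀ (by linarith) (by linarith) (by linarith)
    exact mul_le_one₀ h1 hpow.le hpow1
  have hp1 : p < 1 := by linarith
  have hp0'' : 0 ≤ p := by linarith
  obtain ⟨hmeas, hmap⟩ := h_ORL d p0 δ δr p hp0.le hp0'.le hδ.le hδ'.le hδr.le hδr'.le (by rw [hp]; ring)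
  -- constants
  have hx0 : 0 < δr ^ ((2 * r0 + 1) ^ d) := by positivity
  have hx1 : δr ^ ((2 * r0 + 1) ^ d) ≤ 1 := pow_le_one₀ hδr.le hδr'.le
  obtain ⟨k', hk'⟩ := exists_pow_lt_of_lt_one (half_pos hε)
    (show 1 - δr ^ ((2 * r0 + 1) ^ d) < 1 by linarith)
  set K : ℕ := k' * (2 * r0 + 1) ^ d with hK
  have husm := h_USM d p {0} (2 * d * K + 1) hp0'' hp1
  obtain ⟨M, hM⟩ := (husm.eventually (gt_mem_nhds (half_pos hε))).exists
  refine ⟨M, ?_⟩
  set A : Set (Zd d × Ly d → Bool) :=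
    {ω | 2 * d * K + 1 ≤ (Us {0} M (Op (orr ω))).card ∧ orr ω 0 = true} with hA
  set B : Set (Zd d × Ly d → Bool) :=
    {ω | ∀ (e : Dir d), ∀ x ∈ Bx (0 : Zd d) M, x e.1 = sg e.2 * M → ω ∉ Gx M r0 e x} with hB
  set U : Set (Zd d → Bool) :=
    {ω | 1 ≤ (Us {0} M (Op ω)).card ∧ (Us {0} M (Op ω)).card < 2 * d * K + 1} with hU
  have hUm : MeasurableSet U := (dep_us2 _).meas
  have hAm : MeasurableSet A := (dep_us _).meas
  have hBm : MeasurableSet B := by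
    have : B = ⋂ e : Dir d, ⋂ x : Zd d, ⋂ (_ : x ∈ Bx (0 : Zd d) M), ⋂ (_ : x e.1 = sg e.2 * M),
        (Gx M r0 e x)ᶜ := by
      ext ω
      simp [hB]
    rw [this]
    exact MeasurableSet.iInter fun e => MeasurableSet.iInter fun x => MeasurableSet.iInter fun _ =>
      MeasurableSet.iInter fun _ => (dep_gx e x).meas.compl
  have hsub : {ω | InfC (orr ω) 0 ∧ ∀ (e : Dir d), ∀ x ∈ Bx (0 : Zd d) M, x e.1 = sg e.2 * M →
        ω ∉ Gx M r0 e x} ⊆ (orr ⁻¹' U) ∪ (A ∩ B) := by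
    rintro ω ⟨h1, h2⟩
    have h3 := h_UNE d {0} M (orr ω) 0 (by
      intro x hx
      rw [Finset.mem_singleton] at hx
      rw [hx]
      exact zero_mem M) (Finset.mem_singleton_self _) h1
    have h4 : 1 ≤ (Us {0} M (Op (orr ω))).card := Finset.card_pos.2 h3
    by_cases h5 : (Us {0} M (Op (orr ω))).card < 2 * d * K + 1
    · exact Or.inl ⟨h4, h5⟩
    · exact Or.inr ⟨⟨not_lt.1 h5, h1.1⟩, h2⟩
  have hB1 : (law (dens d p0 δ δr)).real (orr ⁻¹' U) ≤ ε / 2 := by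
    rw [← map_measureReal_apply hmeas hUm, hmap]
    exact hM.le
  have hB2 : (law (dens d p0 δ δr)).real (A ∩ B) ≤ ε / 2 := by
    have hc0 : 0 ≤ (1 - δr ^ ((2 * r0 + 1) ^ d)) ^ k' := by
      have : 0 ≤ 1 - δr ^ ((2 * r0 + 1) ^ d) := by linarith
      positivity
    have hdep : Dep {i : Zd d × Ly d | i.1 ∈ Bx (0 : Zd d) M} A :=
      (dep_us _).mono fun i hi => mem_FM.1 (Finset.mem_coe.1 hi)
    have h1 := (h_CON (Zd d × Ly d) (dens d p0 δ δr) h01 {i | i.1 ∈ Bx (0 : Zd d) M} A B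
      ((1 - δr ^ ((2 * r0 + 1) ^ d)) ^ k') hdep hAm hBm hc0).1 (by
      intro ω hω
      obtain ⟨hω1, hω2⟩ := hω
      obtain ⟨e, he⟩ := facet (M := M) (K := K) (Us {0} M (Op (orr ω))) (fun x hx => by
        unfold Us at hx
        rw [Finset.mem_filter] at hx
        exact hx.2.1) (by omega)
      set V := (Us {0} M (Op (orr ω))).filter fun x => x e.1 = sg e.2 * M with hV
      refine le_trans (measureReal_mono ?_) (h_PAD d (Ly d) (dens d p0 δ δr) (some none) δr h01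
        (fun x => by
          unfold dens
          rw [if_neg (by simp), if_pos rfl]) r0 e k' V he)
      intro ω' hω' x hx hop
      rw [hV, Finset.mem_filter] at hx
      obtain ⟨hxU, hxe⟩ := hx
      unfold Us at hxU
      rw [Finset.mem_filter] at hxU
      have hm : ∀ z ∈ Bx (0 : Zd d) M, ∀ l,
          mrg {i : Zd d × Ly d | i.1 ∈ Bx (0 : Zd d) M} ω ω' (z, l) = ω (z, l) := by
        intro z hz l
        unfold mrg
        rw [if_pos (show (z, l) ∈ {i : Zd d × Ly d | i.1 ∈ Bx (0 : Zd d) M} from hz)]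
      refine hω' e x hxU.1 hxe ⟨?_, ?_, ?_⟩
      · rw [orr_congr (hm 0 (zero_mem M))]
        exact hω2
      · rw [rc_congr fun z hz => op_congr (hm z hz)]
        have := hxU.2.2
        rwa [Finset.coe_singleton] at this
      · intro y hy
        unfold mrg
        rw [if_neg (show (y, (some none : Ly d)) ∉ {i : Zd d × Ly d | i.1 ∈ Bx (0 : Zd d) M} from
          pad_out hxe hy)]
        exact hop y hy)
    calc (law (dens d p0 δ δr)).real (A ∩ B)
        ≤ (1 - δr ^ ((2 * r0 + 1) ^ d)) ^ k' * (law (dens d p0 δ δr)).real A := h1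
      _ ≤ (1 - δr ^ ((2 * r0 + 1) ^ d)) ^ k' * 1 := mul_le_mul_of_nonneg_left measureReal_le_one hc0
      _ ≤ ε / 2 := by
        rw [mul_one]
        exact hk'.le
  calc (law (dens d p0 δ δr)).real _ ≤ (law (dens d p0 δ δr)).real ((orr ⁻¹' U) ∪ (A ∩ B)) :=
        measureReal_mono hsub
    _ ≤ (law (dens d p0 δ δr)).real (orr ⁻¹' U) + (law (dens d p0 δ δr)).real (A ∩ B) :=
        measureReal_union_le _ _
    _ ≤ ε := by linarith

end

end Pool.Agent.PRC
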