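import Pool.Agent.PRC.T2

/-!
# PRC: the final state depends only on the coordinates outside `J s` (T_RUN)
-/

set_option autoImplicit false

namespace Pool.Agent.PRC

/-- T_RUN -/
theorem p_RUN : T_RUN := by
  intro S T I F J P h l
  induction l with
  | nil =>
    intro s _ ω ω' _
    rfl
  | cons τ l ih =>
    intro s hs ω ω' hω
    have h1 : F τ s ω' = F τ s ω := h.stop τ l s ω ω' hs fun i _ hi => hω i hi
    show run F l (F τ s ω) ω = run F l (F τ s ω') ω'
    rw [h1]
    exact ih (F τ s ω) (h.inv τ l s ω hs) ω ω' fun i hi => hω i fun hi' => hi (h.mon τ l s ω hs hi')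

end Pool.Agent.PRC
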