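import Pool.Agent.PRC.T2

/-!
# PRC: the schedule is a schedule (T_SCH)
-/

set_option autoImplicit false

open scoped Classical

namespace Pool.Agent.PRC

namespace SCH_

theorem mem_sched {d : ℕ} {cf : ℕ → Cl d} {BB : Finset (Zd d)} {T : ℕ} {τ : Ln d}
    (h : τ ∈ sched cf BB T) : τ.1 < T ∧ τ.2.1 ∈ BB ∧ cls τ.2.1 τ.2.2 = cf τ.1 := by
  unfold sched at h
  rw [List.mem_flatMap] at h
  obtain ⟨t, ht, h⟩ := h
  rw [List.mem_map] at h
  obtain ⟨x, hx, rfl⟩ := h
  rw [Finset.mem_toList, Finset.mem_filter, Finset.mem_product] at hx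
  exact ⟨List.mem_range.1 ht, hx.1.1, hx.2.1⟩

end SCH_

/-- T_SCH -/
theorem p_SCH : T_SCH := by
  intro d T cf BB
  refine ⟨?_, fun τ h => (SCH_.mem_sched h).2.2, fun τ h => (SCH_.mem_sched h).2.1,
    fun τ h => (SCH_.mem_sched h).1⟩
  unfold sched
  rw [List.pairwise_flatMap]
  constructor
  · intro t _
    rw [List.pairwise_map]
    exact List.pairwise_of_forall fun _ _ => le_rfl
  · refine List.Pairwise.imp ?_ List.pairwise_lt_range
    intro a b hab x hx y hy
    rw [List.mem_map] at hx hy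
    obtain ⟨x', _, rfl⟩ := hx
    obtain ⟨y', _, rfl⟩ := hy
    exact hab.le

end Pool.Agent.PRC
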