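import Pool.Agent.PRC.T1

/-!
# PRC: symmetries of the lattice
-/

set_option autoImplicit false

open scoped Classical

namespace Pool.Agent.PRC

namespace SGP_

/-- signed permutations of the coordinates -/
def G {d : ℕ} (t : Fin d → Bool) (π : Equiv.Perm (Fin d)) : Zd d ≃ Zd d where
  toFun x i := sg (t i) * x (π i)
  invFun y j := sg (t (π.symm j)) * y (π.symm j)
  left_inv x := by
    funext j
    simp only [Equiv.apply_symm_apply]
    rw [← mul_assoc, sg_sq, one_mul]
  right_inv y := by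
    funext i
    simp only [Equiv.symm_apply_apply]
    rw [← mul_assoc, sg_sq, one_mul]

theorem G_apply {d : ℕ} (t : Fin d → Bool) (π : Equiv.Perm (Fin d)) (x : Zd d) (i : Fin d) :
    G t π x i = sg (t i) * x (π i) := rfl

theorem sg_mul (a b : Bool) : sg a * sg b = sg (a == b) := by
  cases a <;> cases b <;> simp [sg]

theorem sg_cancel (a : Bool) {x y : ℤ} : sg a * x = sg a * y ↔ x = y := by
  constructor
  · intro h
    have := congrArg (sg a * ·) h
    simpa only [← mul_assoc, sg_sq, one_mul] using this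
  · rintro rfl
    rfl

theorem abs_sg (a : Bool) (x : ℤ) : |sg a * x| = |x| := by
  rw [abs_mul, sg_abs, one_mul]

theorem adj_iff {d : ℕ} {x y : Zd d} :
    Adj x y ↔ ∃ (i : Fin d) (b : Bool), y i = x i + sg b ∧ ∀ j, j ≠ i → y j = x j := by
  constructor
  · rintro ⟨e, rfl⟩
    refine ⟨e.1, e.2, ?_, fun j hj => ?_⟩
    · rw [Pi.add_apply, dv_self]
    · rw [Pi.add_apply, dv_ne e hj, add_zero]
  · rintro ⟨i, b, h1, h2⟩
    refine ⟨(i, b), ?_⟩
    funext j
    by_cases hj : j = i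
    · subst hj
      rw [Pi.add_apply, h1, dv_self (j, b)]
    · rw [Pi.add_apply, h2 j hj, dv_ne (i, b) hj, add_zero]

theorem adj_G {d : ℕ} (t : Fin d → Bool) (π : Equiv.Perm (Fin d)) (x y : Zd d) :
    Adj (G t π x) (G t π y) ↔ Adj x y := by
  rw [adj_iff, adj_iff]
  simp only [G_apply, sg_cancel]
  constructor
  · rintro ⟨i, b, h1, h2⟩
    refine ⟨π i, t i == b, ?_, fun j hj => ?_⟩
    · rw [← sg_mul]
      rw [← sg_cancel (t i), h1, mul_add, ← mul_assoc, sg_sq, one_mul]
    · have := h2 (π.symm j) (fun h => hj (by rw [← h, Equiv.apply_symm_apply]))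
      rwa [Equiv.apply_symm_apply] at this
  · rintro ⟨i, b, h1, h2⟩
    refine ⟨π.symm i, t (π.symm i) == b, ?_, fun j hj => ?_⟩
    · rw [Equiv.apply_symm_apply, h1, mul_add, sg_mul]
    · exact h2 _ fun h => hj (by rw [← h, Equiv.symm_apply_apply])

theorem Bx_G {d : ℕ} (t : Fin d → Bool) (π : Equiv.Perm (Fin d)) (n : ℕ) (x : Zd d) :
    G t π x ∈ Bx (0 : Zd d) n ↔ x ∈ Bx (0 : Zd d) n := by
  rw [mem_Bx_zero, mem_Bx_zero]
  simp only [G_apply, abs_sg]
  exact ⟨fun h i => by simpa using h (π.symm i), fun h i => h (π i)⟩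

theorem mem_Qd {d : ℕ} {n : ℕ} {e : Dir d} {σ : Fin d → Bool} {x : Zd d} :
    x ∈ Qd n e σ ↔ x ∈ Bx (0 : Zd d) n ∧ x e.1 = sg e.2 * n ∧
      ∀ j, j ≠ e.1 → 0 ≤ sg (σ j) * x j := by
  unfold Qd
  rw [Finset.mem_filter]

end SGP_

open SGP_

/-- SGP -/
theorem p_SGP : T_SGP := by
  intro d e e' σ σ'
  set π : Equiv.Perm (Fin d) := Equiv.swap e.1 e'.1 with hπ
  refine ⟨G (fun i => if i = e'.1 then (e.2 == e'.2) else (σ (π i) == σ' i)) π,
    adj_G _ _, fun n x => Bx_G _ _ n x, fun n x => ?_, fun n x => ?_⟩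
  · simp only [G_apply, abs_sg]
    exact ⟨fun ⟨i, hi⟩ => ⟨π i, hi⟩, fun ⟨i, hi⟩ => ⟨π.symm i, by simpa using hi⟩⟩
  · rw [mem_Qd, mem_Qd, Bx_G]
    have h1 : π e'.1 = e.1 := by rw [hπ, Equiv.swap_apply_right]
    refine and_congr Iff.rfl (and_congr ?_ ?_)
    · rw [G_apply, if_pos rfl, h1, ← sg_mul, mul_comm (sg e.2), mul_assoc, sg_cancel]
      rw [← sg_cancel e.2 (y := sg e.2 * (n : ℤ)), ← mul_assoc, sg_sq, one_mul]
    · constructor
      · intro h j hj
        have hj' : π.symm j ≠ e'.1 := fun h' => hj (by rw [← h1, ← h', Equiv.apply_symm_apply])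
        have := h (π.symm j) hj'
        rw [G_apply, if_neg hj', Equiv.apply_symm_apply, ← sg_mul, mul_comm (sg (σ j)), mul_assoc,
          ← mul_assoc, sg_sq, one_mul] at this
        exact this
      · intro h j hj
        have hj' : π j ≠ e.1 := fun h' => hj (π.injective (h'.trans h1.symm))
        have := h (π j) hj'
        rw [G_apply, if_neg hj, ← sg_mul, mul_comm (sg (σ (π j))), mul_assoc,
          ← mul_assoc, sg_sq, one_mul]
        exact this

end Pool.Agent.PRC
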