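import Pool.Agent.PRC.T1

/-!
# PRC, target SPL: two independent configurations merged (job PRC-SPL, helper23)
-/

set_option autoImplicit false

open MeasureTheory Filter Topology
open scoped Classical

namespace Pool.Agent.PRC

open TRP (bern law)

theorem SPL_meas (I : Type) (J : Set I) :
    Measurable (fun x : (I → Bool) × (I → Bool) => mrg J x.1 x.2) := by
  rw [measurable_pi_iff]
  intro i
  unfold mrg
  by_cases h : i ∈ J
  · simp only [h, if_true]
    exact (measurable_pi_apply i).comp measurable_fst
  · simp only [h, if_false]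
    exact (measurable_pi_apply i).comp measurable_snd

theorem p_SPL : T_SPL := by
  intro I q hq J
  refine ⟨SPL_meas I J, ?_⟩
  have hb : ∀ i, IsProbabilityMeasure (bern (q i)) := fun i => bern_prob (hq i).1 (hq i).2
  have hl : IsProbabilityMeasure (law q) := law_prob hq
  unfold law
  apply Measure.eq_infinitePi
  intro s t ht
  have hbox : MeasurableSet (Set.pi (↑s : Set I) t) :=
    MeasurableSet.pi s.countable_toSet fun i _ => ht i
  have hpre : (fun x : (I → Bool) × (I → Bool) => mrg J x.1 x.2) ⁻¹' (Set.pi (↑s : Set I) t) =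
      (Set.pi (↑(s.filter fun i => i ∈ J) : Set I) t) ×ˢ
        (Set.pi (↑(s.filter fun i => ¬ i ∈ J) : Set I) t) := by
    ext ⟨ω, ω'⟩
    simp only [Set.mem_preimage, Set.mem_pi, Set.mem_prod, Finset.mem_coe, Finset.mem_filter, mrg]
    constructor
    · intro h
      refine ⟨fun i hi => ?_, fun i hi => ?_⟩
      · have := h i hi.1
        rwa [if_pos hi.2] at this
      · have := h i hi.1
        rwa [if_neg hi.2] at this
    · rintro ⟨h1, h2⟩ i hi
      by_cases hJ : i ∈ J
      · rw [if_pos hJ]
        exact h1 i ⟨hi, hJ⟩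
      · rw [if_neg hJ]
        exact h2 i ⟨hi, hJ⟩
  rw [Measure.map_apply (SPL_meas I J) hbox, hpre, Measure.prod_prod,
    Measure.infinitePi_pi _ fun i _ => ht i, Measure.infinitePi_pi _ fun i _ => ht i,
    Finset.prod_filter_mul_prod_filter_not]

end Pool.Agent.PRC
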