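import Pool.Agent.PRC.T1
import Pool.Agent.PRC.Base

/-!
# PRC-SQR: square root trick
-/

set_option autoImplicit false

open MeasureTheory
open scoped Classical

namespace Pool.Agent.PRC

open TRP (bern law)

namespace SQR_

theorem us_dep {d : ℕ} (S : Finset (Zd d)) (n : ℕ) {ω ω' : Zd d → Bool}
    (h : ∀ i ∈ Bx (0 : Zd d) n, ω i = ω' i) : Us S n (Op ω) = Us S n (Op ω') := by
  have h1 : (↑(Bx (0 : Zd d) n) ∩ Op ω : Set (Zd d)) = ↑(Bx (0 : Zd d) n) ∩ Op ω' := by
    ext x
    simp only [Set.mem_inter_iff, Finset.mem_coe]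
    constructor
    · rintro ⟨hx, h2⟩
      refine ⟨hx, ?_⟩
      have h3 : ω x = true := h2
      rw [h x hx] at h3
      exact h3
    · rintro ⟨hx, h2⟩
      refine ⟨hx, ?_⟩
      have h3 : ω' x = true := h2
      rw [← h x hx] at h3
      exact h3
  unfold Us
  rw [h1]

theorem us_mono {d : ℕ} (S : Finset (Zd d)) (n : ℕ) {ω ω' : Zd d → Bool}
    (h : ∀ i, ω i = true → ω' i = true) : Us S n (Op ω) ⊆ Us S n (Op ω') := by
  intro x hx
  unfold Us at hx ⊢
  rw [Finset.mem_filter] at hx ⊢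
  refine ⟨hx.1, hx.2.1, ?_⟩
  refine Rc.mono ?_ (subset_refl _) hx.2.2
  rintro y ⟨hy1, hy2⟩
  exact ⟨hy1, h y hy2⟩

theorem quad {d : ℕ} (S : Finset (Zd d)) (n : ℕ) (D : Set (Zd d)) :
    Us S n D ⊆ (Finset.univ : Finset (Dir d × (Fin d → Bool))).biUnion
      fun s => Us S n D ∩ Qd n s.1 s.2 := by
  intro x hx
  rw [Finset.mem_biUnion]
  have hx' := hx
  unfold Us at hx'
  rw [Finset.mem_filter] at hx'
  obtain ⟨hB, ⟨i, hi⟩, _⟩ := hx'
  refine ⟨((i, decide (0 ≤ x i)), fun j => decide (0 ≤ x j)), Finset.mem_univ _, ?_⟩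
  rw [Finset.mem_inter]
  refine ⟨hx, ?_⟩
  unfold Qd
  rw [Finset.mem_filter]
  refine ⟨hB, ?_, ?_⟩
  · by_cases h0 : 0 ≤ x i
    · simp only [h0, decide_true, sg, if_true]
      rw [abs_of_nonneg h0] at hi
      rw [hi]; ring
    · simp only [h0, decide_false, sg]
      rw [abs_of_neg (not_le.1 h0)] at hi
      simp
      rw [← hi]; ring
  · intro j _
    by_cases h0 : 0 ≤ x j
    · simp only [h0, decide_true, sg, if_true]
      rw [one_mul]; exact h0
    · simp only [h0, decide_false, sg]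
      have : x j < 0 := not_le.1 h0
      simp
      exact this.le

end SQR_

theorem p_SQR (h_FKN : T_FKN) (h_SYU : T_SYU) : T_SQR := by
  intro d p m n k e σ hp0 hp1
  have hcard : (Finset.univ : Finset (Dir d × (Fin d → Bool))).card = 2 * d * 2 ^ d := by
    rw [Finset.card_univ, Fintype.card_prod, Fintype.card_prod, Fintype.card_fun, Fintype.card_fin,
      Fintype.card_bool]
    ring
  have hlaw : IsProbabilityMeasure (law fun _ : Zd d => p) := law_prob fun _ => ⟨hp0, hp1⟩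
  have h1 := h_FKN (Zd d) (Dir d × (Fin d → Bool)) (fun _ => p) (Bx 0 n) Finset.univ
    (fun s => {ω | (Us (Bx 0 m) n (Op ω) ∩ Qd n s.1 s.2).card < k}) (fun _ => ⟨hp0, hp1⟩) (by
      intro s _
      constructor
      · intro ω ω' hω hω'
        exact lt_of_le_of_lt (Finset.card_le_card (Finset.inter_subset_inter_right
          (SQR_.us_mono _ _ hω))) hω'
      · intro ω ω' hω
        have h2 := SQR_.us_dep (Bx 0 m) n (ω := ω) (ω' := ω') (fun i hi => hω i hi)
        show (Us (Bx 0 m) n (Op ω) ∩ Qd n s.1 s.2).card < k ↔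
          (Us (Bx 0 m) n (Op ω') ∩ Qd n s.1 s.2).card < k
        rw [h2])
  have h2 : ∏ s ∈ (Finset.univ : Finset (Dir d × (Fin d → Bool))), (law fun _ : Zd d => p).real
      {ω | (Us (Bx 0 m) n (Op ω) ∩ Qd n s.1 s.2).card < k} =
      (law fun _ : Zd d => p).real {ω | (Us (Bx 0 m) n (Op ω) ∩ Qd n e σ).card < k} ^
      (2 * d * 2 ^ d) := by
    rw [← hcard, ← Finset.prod_const]
    apply Finset.prod_congr rfl
    intro s _
    exact h_SYU d p m n k s.1 e s.2 σ hp0 hp1
  rw [← h2]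
  refine le_trans h1 ?_
  apply measureReal_mono
  · intro ω hω
    show (Us (Bx 0 m) n (Op ω)).card < 2 * d * 2 ^ d * k
    calc (Us (Bx 0 m) n (Op ω)).card
        ≤ ((Finset.univ : Finset (Dir d × (Fin d → Bool))).biUnion
            fun s => Us (Bx 0 m) n (Op ω) ∩ Qd n s.1 s.2).card :=
          Finset.card_le_card (SQR_.quad _ _ _)
      _ ≤ ∑ s : Dir d × (Fin d → Bool), (Us (Bx 0 m) n (Op ω) ∩ Qd n s.1 s.2).card :=
          Finset.card_biUnion_le
      _ < ∑ _s : Dir d × (Fin d → Bool), k :=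
          Finset.sum_lt_sum_of_nonempty ⟨(e, σ), Finset.mem_univ _⟩ (fun s hs => hω s hs)
      _ = 2 * d * 2 ^ d * k := by
          rw [Finset.sum_const, hcard, smul_eq_mul]
  · exact measure_ne_top _ _

end Pool.Agent.PRC
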