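import Pool.Agent.PRC.T1

/-!
# PRC: STD, the deterministic part of the step
-/

set_option autoImplicit false

open MeasureTheory
open scoped Classical

namespace Pool.Agent.PRC

theorem STD_.mem_gro {d : ℕ} {Λ : Type} {R : Finset (Zd d)} {z : Zd d} {n : ℕ} {a b : Λ}
    {ω : Zd d × Λ → Bool} {x : Zd d} : x ∈ gro R z n a b ω ↔ x ∈ R ∨ (x ∈ Bx z n ∧
      x ∈ Rc Adj {y | y ∈ Bx z n ∧ y ∉ R ∧ y ∉ bdy R ∧ ω (y, a) = true} ↑(frt R z n b ω)) := by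
  unfold gro
  rw [Finset.mem_union, Finset.mem_filter]

theorem STD_.mem_frt {d : ℕ} {Λ : Type} {R : Finset (Zd d)} {z : Zd d} {n : ℕ} {b : Λ}
    {ω : Zd d × Λ → Bool} {x : Zd d} :
    x ∈ frt R z n b ω ↔ (x ∈ bdy R ∧ x ∈ Bx z n) ∧ ω (x, b) = true := by
  unfold frt
  rw [Finset.mem_filter, Finset.mem_inter]

theorem STD_.mem_vfr {d : ℕ} {Λ : Type} {m n : ℕ} {e : Dir d} {σ : Fin d → Bool}
    {R : Finset (Zd d)} {z : Zd d} {a c : Λ} {ω : Zd d × Λ → Bool} {f : Zd d} :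
    f ∈ vfr m n e σ R z a c ω ↔ (f ∈ bdy R ∧ f ∈ Bx z n) ∧
      ∃ x, x - z ∈ Qd n e σ ∧ (∀ y ∈ pd m e x, ω (y, c) = true) ∧
        x ∈ Rc Adj {y | y ∈ Bx z n ∧ y ∉ R ∧ y ∉ bdy R ∧ ω (y, a) = true} {f} := by
  unfold vfr
  rw [Finset.mem_filter, Finset.mem_inter]

theorem STD_.qd_box {d : ℕ} {n : ℕ} {e : Dir d} {σ : Fin d → Bool} {x z : Zd d}
    (h : x - z ∈ Qd n e σ) : x ∈ Bx z n := by
  unfold Qd at h
  rw [Finset.mem_filter, mem_Bx_zero] at h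
  rw [mem_Bx]
  exact h.1

theorem p_STD : T_STD := by
  intro d Λ a b c m n e σ R z ω hR
  constructor
  · constructor
    · intro h
      constructor
      · rintro ⟨x, hx, hP⟩
        exact h ⟨x, STD_.mem_gro.2 (Or.inl hx), hP⟩
      · intro f hf
        rw [STD_.mem_vfr] at hf
        obtain ⟨hf, x, hx1, hx2, hx3⟩ := hf
        by_contra h'
        rw [Bool.not_eq_false] at h'
        refine h ⟨x, STD_.mem_gro.2 (Or.inr ⟨STD_.qd_box hx1, ?_⟩), hx1, hx2⟩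
        refine Rc.mono subset_rfl ?_ hx3
        rw [Set.singleton_subset_iff, Finset.mem_coe, STD_.mem_frt]
        exact ⟨hf, h'⟩
    · rintro ⟨h1, h2⟩ ⟨x, hx, hP1, hP2⟩
      rw [STD_.mem_gro] at hx
      rcases hx with hx | ⟨_, u, hu, hx⟩
      · exact h1 ⟨x, hx, hP1, hP2⟩
      · rw [Finset.mem_coe, STD_.mem_frt] at hu
        have h3 := h2 u (STD_.mem_vfr.2 ⟨hu.1, x, hP1, hP2, u, rfl, hx⟩)
        rw [hu.2] at h3
        exact Bool.noConfusion h3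
  · rintro h1 h2 ⟨x, hP1, hP2, hx⟩
    have h3 : Rc Adj (↑(Bx z n) ∩ {y | ω (y, a) = true}) (↑(Bx z m) : Set (Zd d)) ⊆
        {v | v ∈ R ∨ ∃ f, (f ∈ bdy R ∧ f ∈ Bx z n) ∧ ω (f, a) = true ∧
          v ∈ Rc Adj {y | y ∈ Bx z n ∧ y ∉ R ∧ y ∉ bdy R ∧ ω (y, a) = true} {f}} := by
      refine Rc.sub_of_closed ?_ ?_
      · intro v hv
        exact Or.inl (hR hv)
      · rintro v hv w ⟨hw1, hw2⟩ hvw
        rw [Finset.mem_coe] at hw1
        change ω (w, a) = true at hw2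
        by_cases hwR : w ∈ R
        · exact Or.inl hwR
        right
        by_cases hwB : w ∈ bdy R
        · exact ⟨w, ⟨hwB, hw1⟩, hw2, Rc.self rfl⟩
        rcases hv with hv | ⟨f, hf1, hf2, hf3⟩
        · exact absurd (mem_bdy.2 ⟨⟨v, hv, hvw⟩, hwR⟩) hwB
        · exact ⟨f, hf1, hf2, Rc.step hf3 hvw ⟨hw1, hwR, hwB, hw2⟩⟩
    rcases h3 hx with h | ⟨f, hf1, hf2, hf3⟩
    · exact h1 ⟨x, h, hP1, hP2⟩
    · have h4 := h2 f (STD_.mem_vfr.2 ⟨hf1, x, hP1, hP2, hf3⟩)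
      rw [hf2] at h4
      exact Bool.noConfusion h4

end Pool.Agent.PRC
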