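import Pool.Agent.PRC.T2

/-!
# PRC, target STO: one step is determined by the coordinates which it reveals
-/

set_option autoImplicit false

open MeasureTheory Filter Topology
open scoped Classical

namespace Pool.Agent.PRC

open TRP (bern law)

namespace STO_

theorem trd_nxt {d : ℕ} (m : ℕ) (s : St d) (τ : Ln d) (G : Finset (Zd d)) (o : Option (Zd d)) :
    (nxt m s τ G o).trd = insert τ s.trd := by
  cases o <;> rfl

theorem R_nxt {d : ℕ} (m : ℕ) (s : St d) (τ : Ln d) (G : Finset (Zd d)) (o : Option (Zd d)) :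
    G ⊆ (nxt m s τ G o).R := by
  cases o
  · exact Finset.Subset.refl _
  · exact Finset.subset_union_left

theorem ls_inj {d : ℕ} {c c' : Cl d} (h : ls c = ls c') : c = c' := by
  unfold ls at h
  have h1 := Option.some.inj (Option.some.inj h)
  exact (Prod.mk.inj h1).2

theorem lp_inj {d : ℕ} {c c' : Cl d} (h : lp c = lp c') : c = c' := by
  unfold lp at h
  have h1 := Option.some.inj (Option.some.inj h)
  exact (Prod.mk.inj h1).2

theorem ls_ne_lp {d : ℕ} {c c' : Cl d} : ls c ≠ lp c' := by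
  intro h
  unfold ls lp at h
  have h1 := Option.some.inj (Option.some.inj h)
  exact absurd (Prod.mk.inj h1).1 (by simp)

theorem ls_ne_none {d : ℕ} {c : Cl d} : ls c ≠ none := by
  unfold ls
  simp

theorem lp_ne_none {d : ℕ} {c : Cl d} : lp c ≠ none := by
  unfold lp
  simp

theorem gro_congr {d : ℕ} {Λ : Type} (R R' : Finset (Zd d)) (z : Zd d) (n : ℕ) (a b : Λ)
    (ω ω' : Zd d × Λ → Bool)
    (hb : ∀ y ∈ Bx z n, ω (y, b) = ω' (y, b))
    (hG : gro R z n a b ω ⊆ R')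
    (ha : ∀ y, y ∈ R' ∪ bdy R' → y ∉ R ∪ bdy R → ω (y, a) = ω' (y, a)) :
    gro R z n a b ω' = gro R z n a b ω := by
  have hf : frt R z n b ω' = frt R z n b ω := by
    unfold frt
    apply Finset.filter_congr
    intro y hy
    rw [hb y (Finset.mem_inter.1 hy).2]
  have hFB : ∀ y ∈ frt R z n b ω, y ∈ Bx z n := by
    intro y hy
    unfold frt at hy
    exact (Finset.mem_inter.1 (Finset.mem_filter.1 hy).1).2
  have hB : ∀ y ∈ Rc Adj {y | y ∈ Bx z n ∧ y ∉ R ∧ y ∉ bdy R ∧ ω (y, a) = true}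
      ↑(frt R z n b ω), y ∈ Bx z n := by
    intro y hy
    rcases Rc.sub_union hy with h | h
    · exact hFB y (Finset.mem_coe.1 h)
    · exact h.1
  have hR' : ∀ y ∈ Rc Adj {y | y ∈ Bx z n ∧ y ∉ R ∧ y ∉ bdy R ∧ ω (y, a) = true}
      ↑(frt R z n b ω), y ∈ R' := by
    intro y hy
    apply hG
    unfold gro
    exact Finset.mem_union_right _ (Finset.mem_filter.2 ⟨hB y hy, hy⟩)
  have h1 : Rc Adj {y | y ∈ Bx z n ∧ y ∉ R ∧ y ∉ bdy R ∧ ω (y, a) = true} ↑(frt R z n b ω) ⊆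
      {x | x ∈ Rc Adj {y | y ∈ Bx z n ∧ y ∉ R ∧ y ∉ bdy R ∧ ω (y, a) = true} ↑(frt R z n b ω) ∧
        x ∈ Rc Adj {y | y ∈ Bx z n ∧ y ∉ R ∧ y ∉ bdy R ∧ ω' (y, a) = true}
          ↑(frt R z n b ω)} := by
    apply Rc.sub_of_closed
    · intro y hy
      exact ⟨Rc.self hy, Rc.self hy⟩
    · rintro x ⟨hx1, hx2⟩ y hy hxy
      have hy1 := Rc.step hx1 hxy hy
      refine ⟨hy1, ?_⟩
      have h3 : ω (y, a) = ω' (y, a) := by
        apply ha y (Finset.mem_union_left _ (hR' y hy1))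
        rw [Finset.mem_union]
        rintro (h | h)
        · exact hy.2.1 h
        · exact hy.2.2.1 h
      exact Rc.step hx2 hxy ⟨hy.1, hy.2.1, hy.2.2.1, by rw [← h3]; exact hy.2.2.2⟩
  have h2 : Rc Adj {y | y ∈ Bx z n ∧ y ∉ R ∧ y ∉ bdy R ∧ ω' (y, a) = true} ↑(frt R z n b ω) ⊆
      Rc Adj {y | y ∈ Bx z n ∧ y ∉ R ∧ y ∉ bdy R ∧ ω (y, a) = true} ↑(frt R z n b ω) := by
    apply Rc.sub_of_closed
    · intro y hy
      exact Rc.self hy
    · intro x hx y hy hxy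
      have hxR := hR' x hx
      have hy1 : y ∈ R' ∪ bdy R' := by
        by_cases hyR : y ∈ R'
        · exact Finset.mem_union_left _ hyR
        · exact Finset.mem_union_right _ (mem_bdy.2 ⟨⟨x, hxR, hxy⟩, hyR⟩)
      have h3 : ω (y, a) = ω' (y, a) := by
        apply ha y hy1
        rw [Finset.mem_union]
        rintro (h | h)
        · exact hy.2.1 h
        · exact hy.2.2.1 h
      exact Rc.step hx hxy ⟨hy.1, hy.2.1, hy.2.2.1, by rw [h3]; exact hy.2.2.2⟩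
  unfold gro
  rw [hf]
  congr 1
  apply Finset.filter_congr
  intro y _
  exact ⟨fun h => h2 h, fun h => (h1 h).2⟩

end STO_

theorem p_STO (h_FRS : T_FRS) (h_REG : T_REG) : T_STO := by
  intro d m n r0 T cf BB τ l s ω ω' hI hag
  by_cases hact : τ.2.1 ∈ s.C ∧ τ.2.1 + dv τ.2.2 ∉ s.E
  swap
  · unfold FF
    rw [if_neg hact, if_neg hact]
  have hFF : ∀ w : Zd d × Ly d → Bool, FF m n τ s w =
      nxt m s τ (grs n s τ.2.1 τ.2.2 w) (pick (sgd m n s τ.2.1 τ.2.2 w)) := by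
    intro w
    unfold FF
    rw [if_pos hact]
  have hz := (hI.cen τ.2.1 hact.1).2
  obtain ⟨hreg1, hreg2⟩ := h_REG d m n τ.2.1 (s.cen τ.2.1) τ.2.2 hz
  have hτ : τ ∈ (FF m n τ s ω).trd := by
    rw [hFF, STO_.trd_nxt]
    exact Finset.mem_insert_self _ _
  have hfr := h_FRS d m n r0 T cf BB τ l s hI hact.2
  have hls : ∀ x ∈ rg m n τ.2.1, ω (x, ls (cls τ.2.1 τ.2.2)) = ω' (x, ls (cls τ.2.1 τ.2.2)) := by
    intro x hx
    apply hag
    · right
      exact ⟨τ, hτ, hx, Or.inl rfl⟩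
    · rintro (⟨h1, -⟩ | ⟨τ', hτ', hx', h1 | h1⟩)
      · exact STO_.ls_ne_none h1
      · exact Finset.disjoint_left.1 ((hfr τ' hτ').1 (STO_.ls_inj h1).symm) hx' hx
      · exact STO_.ls_ne_lp h1
  have hlp : ∀ x ∈ rg m n τ.2.1, ω (x, lp (cls τ.2.1 τ.2.2)) = ω' (x, lp (cls τ.2.1 τ.2.2)) := by
    intro x hx
    apply hag
    · right
      exact ⟨τ, hτ, hx, Or.inr rfl⟩
    · rintro (⟨h1, -⟩ | ⟨τ', hτ', hx', h1 | h1⟩)
      · exact STO_.lp_ne_none h1
      · exact STO_.ls_ne_lp h1.symm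
      · exact Finset.disjoint_left.1 ((hfr τ' hτ').1 (STO_.lp_inj h1).symm) hx' hx
  have hnone : ∀ y, y ∈ (FF m n τ s ω).R ∪ bdy (FF m n τ s ω).R → y ∉ s.R ∪ bdy s.R →
      ω (y, none) = ω' (y, none) := by
    intro y hy1 hy2
    apply hag
    · left
      exact ⟨rfl, hy1⟩
    · rintro (⟨-, h1⟩ | ⟨τ', hτ', hx', h1 | h1⟩)
      · exact hy2 h1
      · exact STO_.ls_ne_none h1.symm
      · exact STO_.lp_ne_none h1.symm
  have hG : grs n s τ.2.1 τ.2.2 ω' = grs n s τ.2.1 τ.2.2 ω := by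
    unfold grs
    apply STO_.gro_congr s.R (FF m n τ s ω).R
    · intro y hy
      apply hls
      apply hreg1
      rw [mem_Bx] at hy ⊢
      intro i
      have h1 := hy i
      push_cast
      linarith
    · have h1 : grs n s τ.2.1 τ.2.2 ω ⊆ (FF m n τ s ω).R := by
        rw [hFF]
        exact STO_.R_nxt _ _ _ _ _
      exact h1
    · exact hnone
  have hsgd : sgd m n s τ.2.1 τ.2.2 ω' = sgd m n s τ.2.1 τ.2.2 ω := by
    funext x
    apply propext
    unfold sgd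
    rw [hG]
    constructor
    · rintro ⟨h1, h2, h3⟩
      refine ⟨h1, h2, fun y hy => ?_⟩
      rw [hlp y ((hreg2 x h2).1 hy)]
      exact h3 y hy
    · rintro ⟨h1, h2, h3⟩
      refine ⟨h1, h2, fun y hy => ?_⟩
      rw [← hlp y ((hreg2 x h2).1 hy)]
      exact h3 y hy
  rw [hFF ω', hFF ω, hG, hsgd]

end Pool.Agent.PRC
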