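import Pool.Agent.PRC.T1

set_option autoImplicit false

open MeasureTheory Filter Topology
open scoped Classical

namespace Pool.Agent.PRC

open TRP (bern law)

noncomputable section

namespace STP_

variable {d : ℕ} {Λ : Type}

/-- translation of connections -/
theorem rc_shift (z : Zd d) (n m : ℕ) (D : Set (Zd d)) (x : Zd d)
    (h : x ∈ Rc Adj (↑(Bx z n) ∩ D) ↑(Bx z m)) :
    x - z ∈ Rc Adj (↑(Bx (0 : Zd d) n) ∩ {y | y + z ∈ D}) ↑(Bx (0 : Zd d) m) := by
  have key : Rc Adj (↑(Bx z n) ∩ D) ↑(Bx z m) ⊆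
      {x | x - z ∈ Rc Adj (↑(Bx (0 : Zd d) n) ∩ {y | y + z ∈ D}) ↑(Bx (0 : Zd d) m)} := by
    apply Rc.sub_of_closed
    · intro y hy
      apply Rc.self
      have hy' : y ∈ Bx z m := hy
      show y - z ∈ Bx (0 : Zd d) m
      rw [mem_Bx] at hy'
      rw [mem_Bx_zero]
      exact hy'
    · intro a ha b hb hab
      obtain ⟨e, he⟩ := hab
      refine Rc.step ha ⟨e, ?_⟩ ⟨?_, ?_⟩
      · rw [he]; abel
      · have hb1 : b ∈ Bx z n := hb.1
        show b - z ∈ Bx (0 : Zd d) n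
        rw [mem_Bx] at hb1
        rw [mem_Bx_zero]
        exact hb1
      · show b - z + z ∈ D
        rw [sub_add_cancel]
        exact hb.2
  exact key h

theorem rc_shift' (z : Zd d) (n m : ℕ) (D : Set (Zd d)) (x : Zd d)
    (h : x ∈ Rc Adj (↑(Bx (0 : Zd d) n) ∩ {y | y + z ∈ D}) ↑(Bx (0 : Zd d) m)) :
    x + z ∈ Rc Adj (↑(Bx z n) ∩ D) ↑(Bx z m) := by
  have key : Rc Adj (↑(Bx (0 : Zd d) n) ∩ {y | y + z ∈ D}) ↑(Bx (0 : Zd d) m) ⊆
      {x | x + z ∈ Rc Adj (↑(Bx z n) ∩ D) ↑(Bx z m)} := by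
    apply Rc.sub_of_closed
    · intro y hy
      apply Rc.self
      have hy' : y ∈ Bx (0 : Zd d) m := hy
      show y + z ∈ Bx z m
      rw [mem_Bx_zero] at hy'
      rw [mem_Bx]
      intro i
      have := hy' i
      rwa [Pi.add_apply, add_sub_cancel_right]
    · intro a ha b hb hab
      obtain ⟨e, he⟩ := hab
      refine Rc.step ha ⟨e, ?_⟩ ⟨?_, ?_⟩
      · rw [he]; abel
      · have hb1 : b ∈ Bx (0 : Zd d) n := hb.1
        show b + z ∈ Bx z n
        rw [mem_Bx_zero] at hb1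
        rw [mem_Bx]
        intro i
        have := hb1 i
        rwa [Pi.add_apply, add_sub_cancel_right]
      · exact hb.2
  exact key h

theorem pd_shift (m : ℕ) (e : Dir d) (x z y : Zd d) :
    y + z ∈ pd m e (x + z) ↔ y ∈ pd m e x := by
  unfold pd pc
  rw [mem_Bx, mem_Bx]
  apply forall_congr'
  intro i
  have : (y + z) i - (x + z + ((m : ℤ) + 1) • dv e) i = y i - (x + ((m : ℤ) + 1) • dv e) i := by
    simp only [Pi.add_apply]; ring
  rw [this]

/-- the event of the Grimmett-Marstrand estimate -/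
def BE (d m n : ℕ) (e : Dir d) (σ : Fin d → Bool) : Set (Zd d × Bool → Bool) :=
  {ω | ¬ ∃ x ∈ Qd n e σ, x ∈ Rc Adj (↑(Bx (0 : Zd d) n) ∩ {y | ω (y, false) = true})
      ↑(Bx (0 : Zd d) m) ∧ ∀ y ∈ pd m e x, ω (y, true) = true}

theorem BE_meas (m n : ℕ) (e : Dir d) (σ : Fin d → Bool) : MeasurableSet (BE d m n e σ) := by
  have h : Dep (↑((Bx (0 : Zd d) n).image (fun y => (y, false)) ∪
      ((Qd n e σ).biUnion (pd m e)).image (fun y => (y, true))) : Set (Zd d × Bool))
      (BE d m n e σ) := by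
    intro ω ω' hω
    have h1 : ∀ y ∈ Bx (0 : Zd d) n, ω (y, false) = ω' (y, false) := by
      intro y hy
      apply hω
      rw [Finset.coe_union]
      left
      exact Finset.mem_coe.2 (Finset.mem_image_of_mem _ hy)
    have h2 : ∀ x ∈ Qd n e σ, ∀ y ∈ pd m e x, ω (y, true) = ω' (y, true) := by
      intro x hx y hy
      apply hω
      rw [Finset.coe_union]
      right
      exact Finset.mem_coe.2 (Finset.mem_image_of_mem _ (Finset.mem_biUnion.2 ⟨x, hx, hy⟩))
    have h3 : (↑(Bx (0 : Zd d) n) ∩ {y | ω (y, false) = true} : Set (Zd d)) =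
        ↑(Bx (0 : Zd d) n) ∩ {y | ω' (y, false) = true} := by
      ext y
      constructor
      · rintro ⟨hy, hy'⟩
        exact ⟨hy, by
          have := h1 y hy
          show ω' (y, false) = true
          rw [← this]; exact hy'⟩
      · rintro ⟨hy, hy'⟩
        exact ⟨hy, by
          have := h1 y hy
          show ω (y, false) = true
          rw [this]; exact hy'⟩
    show (¬ _) ↔ (¬ _)
    apply not_congr
    rw [h3]
    constructor
    · rintro ⟨x, hx, hx2, hx3⟩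
      exact ⟨x, hx, hx2, fun y hy => (h2 x hx y hy) ▸ hx3 y hy⟩
    · rintro ⟨x, hx, hx2, hx3⟩
      exact ⟨x, hx, hx2, fun y hy => (h2 x hx y hy).symm ▸ hx3 y hy⟩
  exact h.meas

end STP_

open STP_

theorem p_STP (h_STD : T_STD) (h_EXC : T_EXC) (h_JEN : T_JEN) (h_PRJ : T_PRJ) : T_STP := by
  intro d Λ D a b c m n p0 δ η α e σ R z hD hab hac hbc hDa hDb hDc hp0 hp1 hδ0 hδ1 hα0 hα1 hpα
    hGM hBR
  have hq : ∀ i : Zd d × Λ, 0 ≤ D i.2 ∧ D i.2 ≤ 1 := fun i => hD i.2
  have hprob : IsProbabilityMeasure (law fun x : Zd d × Λ => D x.2) := law_prob hq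
  set P : Measure (Zd d × Λ → Bool) := law fun x : Zd d × Λ => D x.2 with hP
  -- the finite sets of coordinates
  set Pc : Finset (Zd d) := (R ∪ (Qd n e σ).image (fun x => x + z)).biUnion (pd m e) with hPc
  set J : Finset (Zd d × Λ) := Pc.image (fun y => (y, c)) ∪
    ((Bx z n) \ (R ∪ bdy R)).image (fun y => (y, a)) with hJ
  set A0 : Set (Zd d × Λ → Bool) :=
    {ω | ¬ ∃ x ∈ R, x - z ∈ Qd n e σ ∧ ∀ y ∈ pd m e x, ω (y, c) = true} with hA0
  have hJc : ∀ ω ω' : Zd d × Λ → Bool, (∀ i ∈ (↑J : Set (Zd d × Λ)), ω i = ω' i) →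
      ∀ x : Zd d, (x ∈ R ∨ x - z ∈ Qd n e σ) → ∀ y ∈ pd m e x, ω (y, c) = ω' (y, c) := by
    intro ω ω' hω x hx y hy
    apply hω
    rw [hJ, Finset.coe_union]
    left
    refine Finset.mem_coe.2 (Finset.mem_image_of_mem _ (Finset.mem_biUnion.2 ⟨x, ?_, hy⟩))
    rw [Finset.mem_union]
    rcases hx with hx | hx
    · exact Or.inl hx
    · exact Or.inr (Finset.mem_image.2 ⟨x - z, hx, sub_add_cancel x z⟩)
  have hJa : ∀ ω ω' : Zd d × Λ → Bool, (∀ i ∈ (↑J : Set (Zd d × Λ)), ω i = ω' i) →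
      {y | y ∈ Bx z n ∧ y ∉ R ∧ y ∉ bdy R ∧ ω (y, a) = true} =
      {y | y ∈ Bx z n ∧ y ∉ R ∧ y ∉ bdy R ∧ ω' (y, a) = true} := by
    intro ω ω' hω
    have h1 : ∀ y, y ∈ Bx z n → y ∉ R → y ∉ bdy R → ω (y, a) = ω' (y, a) := by
      intro y hy1 hy2 hy3
      apply hω
      rw [hJ, Finset.coe_union]
      right
      refine Finset.mem_coe.2 (Finset.mem_image_of_mem _ ?_)
      rw [Finset.mem_sdiff, Finset.mem_union]
      exact ⟨hy1, fun h => h.elim hy2 hy3⟩
    ext y
    constructor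
    · rintro ⟨h2, h3, h4, h5⟩
      exact ⟨h2, h3, h4, (h1 y h2 h3 h4) ▸ h5⟩
    · rintro ⟨h2, h3, h4, h5⟩
      exact ⟨h2, h3, h4, (h1 y h2 h3 h4).symm ▸ h5⟩
  have hDepA : Dep (↑J : Set (Zd d × Λ)) A0 := by
    intro ω ω' hω
    show (¬ _) ↔ (¬ _)
    apply not_congr
    constructor
    · rintro ⟨x, hx, hx2, hx3⟩
      exact ⟨x, hx, hx2, fun y hy => (hJc ω ω' hω x (Or.inl hx) y hy) ▸ hx3 y hy⟩
    · rintro ⟨x, hx, hx2, hx3⟩
      exact ⟨x, hx, hx2, fun y hy => (hJc ω ω' hω x (Or.inl hx) y hy).symm ▸ hx3 y hy⟩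
  have hDepV : ∀ ω ω' : Zd d × Λ → Bool, (∀ i ∈ J, ω i = ω' i) →
      vfr m n e σ R z a c ω = vfr m n e σ R z a c ω' := by
    intro ω ω' hω'
    have hω : ∀ i ∈ (↑J : Set (Zd d × Λ)), ω i = ω' i := fun i hi => hω' i (Finset.mem_coe.1 hi)
    unfold vfr
    rw [hJa ω ω' hω]
    apply Finset.filter_congr
    intro f _
    constructor
    · rintro ⟨x, hx, hx2, hx3⟩
      exact ⟨x, hx, fun y hy => (hJc ω ω' hω x (Or.inr hx) y hy) ▸ hx2 y hy, hx3⟩
    · rintro ⟨x, hx, hx2, hx3⟩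
      exact ⟨x, hx, fun y hy => (hJc ω ω' hω x (Or.inr hx) y hy).symm ▸ hx2 y hy, hx3⟩
  have hvsub : ∀ ω, vfr m n e σ R z a c ω ⊆ bdy R ∩ Bx z n := fun ω => Finset.filter_subset _ _
  -- the two applications of EXC
  have hexc : ∀ l : Λ, l ≠ c → (∀ y ∈ bdy R ∩ Bx z n, ((y, l) : Zd d × Λ) ∉
      ((Bx z n) \ (R ∪ bdy R)).image (fun y => ((y, a) : Zd d × Λ))) →
      P.real {ω | ω ∈ A0 ∧ ∀ f ∈ vfr m n e σ R z a c ω, ω (f, l) = false} =
      ∫ ω, (if ω ∈ A0 then (1 - D l) ^ (vfr m n e σ R z a c ω).card else 0) ∂P := by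
    intro l hlc hla
    have h1 := h_EXC (Zd d × Λ) (fun x => D x.2) ((bdy R ∩ Bx z n).image (fun y => (y, l))) J A0
      (fun ω => (vfr m n e σ R z a c ω).image (fun y => (y, l))) hq hDepA
      (fun ω ω' hω => by
        show Finset.image _ _ = Finset.image _ _
        rw [hDepV ω ω' hω])
      (fun ω => Finset.image_subset_image (hvsub ω))
      (by
        rw [Finset.disjoint_left]
        intro x hx hx'
        obtain ⟨y, hy, rfl⟩ := Finset.mem_image.1 hx
        rw [hJ, Finset.mem_union] at hx'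
        rcases hx' with hx' | hx'
        · obtain ⟨y', _, he⟩ := Finset.mem_image.1 hx'
          exact hlc (congrArg Prod.snd he).symm
        · exact hla y hy hx')
    have e1 : {ω | ω ∈ A0 ∧ ∀ i ∈ (vfr m n e σ R z a c ω).image (fun y => ((y, l) : Zd d × Λ)),
        ω i = false} =
        {ω : Zd d × Λ → Bool | ω ∈ A0 ∧ ∀ f ∈ vfr m n e σ R z a c ω, ω (f, l) = false} := by
      ext ω
      constructor
      · rintro ⟨h2, h3⟩
        exact ⟨h2, fun f hf => h3 _ (Finset.mem_image_of_mem _ hf)⟩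
      · rintro ⟨h2, h3⟩
        refine ⟨h2, fun i hi => ?_⟩
        obtain ⟨f, hf, rfl⟩ := Finset.mem_image.1 hi
        exact h3 f hf
    rw [← e1]
    refine h1.trans ?_
    congr 1
    funext ω
    by_cases hω : ω ∈ A0
    · rw [if_pos hω, if_pos hω]
      rw [Finset.prod_image (fun x _ y _ hxy => congrArg Prod.fst hxy)]
      simp only
      rw [Finset.prod_const]
    · rw [if_neg hω, if_neg hω]
  -- the left side
  have e0 : {ω : Zd d × Λ → Bool | ¬ ∃ x ∈ gro R z n a b ω, x - z ∈ Qd n e σ ∧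
      ∀ y ∈ pd m e x, ω (y, c) = true} =
      {ω | ω ∈ A0 ∧ ∀ f ∈ vfr m n e σ R z a c ω, ω (f, b) = false} := by
    ext ω
    exact (h_STD d Λ a b c m n e σ R z ω hBR).1
  rw [e0, hexc b hbc (by
    intro y _ hy
    obtain ⟨y', _, he⟩ := Finset.mem_image.1 hy
    exact hab (congrArg Prod.snd he)), hDb]
  set g : (Zd d × Λ → Bool) → ℝ :=
    fun ω => if ω ∈ A0 then (1 - p0) ^ (vfr m n e σ R z a c ω).card else 0 with hg
  have hg01 : ∀ ω, 0 ≤ g ω ∧ g ω ≤ 1 := by
    intro ω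
    rw [hg]
    simp only
    split_ifs
    · exact ⟨pow_nonneg (by linarith) _, pow_le_one₀ (by linarith) (by linarith)⟩
    · exact ⟨le_rfl, zero_le_one⟩
  have hgm : Measurable g := by
    apply meas_of_fin (F := J)
    intro ω ω' hω
    rw [hg]
    simp only
    rw [hDepV ω ω' hω]
    have := hDepA ω ω' (fun i hi => hω i (Finset.mem_coe.1 hi))
    by_cases h1 : ω ∈ A0
    · rw [if_pos h1, if_pos (this.1 h1)]
    · rw [if_neg h1, if_neg (fun h => h1 (this.2 h))]
  have e2 : (fun ω => if ω ∈ A0 then (1 - δ) ^ (vfr m n e σ R z a c ω).card else 0) =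
      fun ω => g ω ^ α := by
    funext ω
    rw [hg]
    simp only
    split_ifs
    · rw [← hpα, ← Real.rpow_natCast, ← Real.rpow_mul (by linarith), mul_comm,
        Real.rpow_mul (by linarith), Real.rpow_natCast]
    · rw [Real.zero_rpow hα0.ne']
  rw [e2]
  refine (h_JEN _ P g α hgm hg01 hα0 hα1).trans ?_
  -- the expectation of `g`
  have e3 := hexc a hac (by
    intro y hy hy'
    obtain ⟨y', hy'', he⟩ := Finset.mem_image.1 hy'
    have : y' = y := congrArg Prod.fst he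
    subst this
    rw [Finset.mem_sdiff, Finset.mem_union] at hy''
    exact hy''.2 (Or.inr (Finset.mem_inter.1 hy).1))
  rw [hDa] at e3
  rw [← e3]
  apply Real.rpow_le_rpow measureReal_nonneg _ hα0.le
  -- transport
  set φ : Zd d × Bool → Zd d × Λ := fun x => (x.1 + z, if x.2 then c else a) with hφ
  have hφi : Function.Injective φ := by
    rintro ⟨x, s⟩ ⟨y, t⟩ h
    have h1 : x = y := add_right_cancel (congrArg Prod.fst h)
    have h2 : (if s = true then c else a) = (if t = true then c else a) := congrArg Prod.snd h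
    rw [h1]
    cases s
    · cases t
      · rfl
      · exact absurd h2 hac
    · cases t
      · exact absurd h2.symm hac
      · rfl
  have hmap := h_PRJ (Zd d × Λ) (Zd d × Bool) (fun x => D x.2) φ hq hφi
  have hlaw : (law fun k : Zd d × Bool => D (φ k).2) =
      law fun x : Zd d × Bool => if x.2 then δ else p0 := by
    congr 1
    funext x
    rw [hφ]
    simp only
    cases x.2 <;> simp [hDa, hDc]
  rw [hlaw] at hmap
  have hφm : Measurable (fun (ω : Zd d × Λ → Bool) (k : Zd d × Bool) => ω (φ k)) := by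
    rw [measurable_pi_iff]
    intro k
    exact measurable_pi_apply _
  have hGM' := hGM e σ
  have e4 : (law fun x : Zd d × Bool => if x.2 then δ else p0).real (BE d m n e σ) =
      P.real ((fun (ω : Zd d × Λ → Bool) (k : Zd d × Bool) => ω (φ k)) ⁻¹' (BE d m n e σ)) := by
    rw [← hmap]
    exact map_measureReal_apply hφm (BE_meas m n e σ)
  refine le_trans ?_ (e4 ▸ hGM' : P.real ((fun (ω : Zd d × Λ → Bool) (k : Zd d × Bool) =>
    ω (φ k)) ⁻¹' (BE d m n e σ)) ≤ η)
  apply measureReal_mono _ (measure_ne_top P _)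
  rintro ω ⟨h1, h2⟩
  have h3 := (h_STD d Λ a b c m n e σ R z ω hBR).2 h1 h2
  show ¬ _
  rintro ⟨x, hx, hx2, hx3⟩
  apply h3
  refine ⟨x + z, by rwa [add_sub_cancel_right], ?_, ?_⟩
  · intro y hy
    have hy' : y - z ∈ pd m e x := by
      rw [← pd_shift m e x z (y - z), sub_add_cancel]
      exact hy
    have := hx3 (y - z) hy'
    rw [hφ] at this
    simpa using this
  · apply rc_shift' z n m {y | ω (y, a) = true} x
    have e5 : {y : Zd d | (fun k => ω (φ k)) (y, false) = true} =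
        {y | y + z ∈ {y | ω (y, a) = true}} := by
      ext y
      rw [hφ]
      simp
    rw [e5] at hx2
    exact hx2

end

end Pool.Agent.PRC
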