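import Pool.Agent.PRC.T2

/-!
# PRC, target SUB: the value does not decrease in expectation in a step
-/

set_option autoImplicit false

open MeasureTheory Filter Topology
open scoped Classical

namespace Pool.Agent.PRC

open TRP (bern law)

noncomputable section

theorem SUB_act {d : ℕ} (m n : ℕ) (τ : Ln d) (s : St d) (ω : Zd d × Ly d → Bool)
    (h : τ.2.1 ∈ s.C ∧ τ.2.1 + dv τ.2.2 ∉ s.E) :
    (FF m n τ s ω).E = insert (τ.2.1 + dv τ.2.2) s.E ∧
    (FF m n τ s ω).C = if (∃ x, sgd m n s τ.2.1 τ.2.2 ω x) then insert (τ.2.1 + dv τ.2.2) s.C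
      else s.C := by
  unfold FF
  rw [if_pos h]
  unfold pick
  by_cases hx : ∃ x, sgd m n s τ.2.1 τ.2.2 ω x
  · rw [dif_pos hx, if_pos hx]
    exact ⟨rfl, rfl⟩
  · rw [dif_neg hx, if_neg hx]
    exact ⟨rfl, rfl⟩

theorem SUB_meas (h_FNF : T_FNF) {d : ℕ} (m n : ℕ) (τ : Ln d) (s : St d)
    (h : τ.2.1 ∈ s.C ∧ τ.2.1 + dv τ.2.2 ∉ s.E) (hsub : s.C ⊆ s.E) :
    MeasurableSet {ω : Zd d × Ly d → Bool | ∃ x, sgd m n s τ.2.1 τ.2.2 ω x} := by
  obtain ⟨K, hK⟩ := h_FNF d m n τ s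
  have hv : τ.2.1 + dv τ.2.2 ∉ s.C := fun hc => h.2 (hsub hc)
  have key : ∀ ω : Zd d × Ly d → Bool, (∃ x, sgd m n s τ.2.1 τ.2.2 ω x) ↔
      τ.2.1 + dv τ.2.2 ∈ (FF m n τ s ω).C := by
    intro ω
    rw [(SUB_act m n τ s ω h).2]
    by_cases hx : ∃ x, sgd m n s τ.2.1 τ.2.2 ω x
    · rw [if_pos hx]
      exact ⟨fun _ => Finset.mem_insert_self _ _, fun _ => hx⟩
    · rw [if_neg hx]
      exact ⟨fun h1 => absurd h1 hx, fun h1 => absurd h1 hv⟩
  have hD : Dep (↑K : Set (Zd d × Ly d))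
      {ω : Zd d × Ly d → Bool | ∃ x, sgd m n s τ.2.1 τ.2.2 ω x} := by
    intro ω ω' hω
    have h1 := hK ω ω' (fun i hi => hω i (Finset.mem_coe.2 hi))
    show (∃ x, sgd m n s τ.2.1 τ.2.2 ω x) ↔ (∃ x, sgd m n s τ.2.1 τ.2.2 ω' x)
    rw [key, key, h1]
  exact hD.meas

theorem p_SUB (h_VLR : T_VLR) (h_VLM : T_VLM) (h_STP : T_STP) (h_FNF : T_FNF) : T_SUB := by
  intro d m n r0 T p0 δ δr η α cf BB w τ l s hp0 hp1 hδ hδ1 hr0 hr1 hα hα1 hpow hGM hη hInv
  have hη0 : 0 ≤ η := le_trans measureReal_nonneg (hGM τ.2.2 (fun _ => true))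
  have hηα : 0 ≤ η ^ α := Real.rpow_nonneg hη0 α
  have hq0 : 0 ≤ 1 - η ^ α := by linarith
  have hq1 : 1 - η ^ α ≤ 1 := by linarith
  have hP : IsProbabilityMeasure (law (dens d p0 δ δr)) := law_prob (fun x => by
    unfold dens
    split_ifs <;> constructor <;> linarith)
  by_cases hact : τ.2.1 ∈ s.C ∧ τ.2.1 + dv τ.2.2 ∉ s.E
  · rw [(h_VLR d _ w τ l s.C s.E hq0 hq1).1 hact]
    have hab : val (1 - η ^ α) w l s.C (insert (τ.2.1 + dv τ.2.2) s.E) ≤
        val (1 - η ^ α) w l (insert (τ.2.1 + dv τ.2.2) s.C) (insert (τ.2.1 + dv τ.2.2) s.E) :=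
      h_VLM d _ w l _ _ _ hq0 hq1 (Finset.subset_insert _ _)
    have hA : MeasurableSet {ω : Zd d × Ly d → Bool | ∃ x, sgd m n s τ.2.1 τ.2.2 ω x} :=
      SUB_meas h_FNF m n τ s hact hInv.sub
    have hst : (law (dens d p0 δ δr)).real
        {ω : Zd d × Ly d → Bool | ∃ x, sgd m n s τ.2.1 τ.2.2 ω x}ᶜ ≤ η ^ α := by
      have := h_STP d (Ly d) (fun l => if l = none then p0 else if l = some none then δr else δ)
        none (ls (cls τ.2.1 τ.2.2)) (lp (cls τ.2.1 τ.2.2)) m n p0 δ η α τ.2.2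
        (ste (s.cen τ.2.1) (bc m n τ.2.1)) s.R (s.cen τ.2.1)
        (by
          intro l
          split_ifs <;> constructor <;> linarith)
        (by simp [ls]) (by simp [lp]) (by simp [ls, lp]) (by simp) (by simp [ls]) (by simp [lp])
        hp0 hp1 hδ hδ1 hα hα1 hpow hGM (hInv.cen τ.2.1 hact.1).1
      exact this
    have hπ : 1 - η ^ α ≤ (law (dens d p0 δ δr)).real
        {ω : Zd d × Ly d → Bool | ∃ x, sgd m n s τ.2.1 τ.2.2 ω x} := by
      rw [probReal_compl_eq_one_sub hA] at hst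
      linarith
    generalize hva : val (1 - η ^ α) w l (insert (τ.2.1 + dv τ.2.2) s.C)
      (insert (τ.2.1 + dv τ.2.2) s.E) = a at hab ⊢
    generalize hvb : val (1 - η ^ α) w l s.C (insert (τ.2.1 + dv τ.2.2) s.E) = b at hab ⊢
    have hf : ∀ ω : Zd d × Ly d → Bool,
        val (1 - η ^ α) w l (FF m n τ s ω).C (FF m n τ s ω).E =
        b + {ω : Zd d × Ly d → Bool | ∃ x, sgd m n s τ.2.1 τ.2.2 ω x}.indicator
          (fun _ => a - b) ω := by
      intro ω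
      rw [(SUB_act m n τ s ω hact).1, (SUB_act m n τ s ω hact).2]
      by_cases hx : ∃ x, sgd m n s τ.2.1 τ.2.2 ω x
      · rw [if_pos hx, Set.indicator_of_mem (show ω ∈ {ω : Zd d × Ly d → Bool | ∃ x, sgd m n s τ.2.1 τ.2.2 ω x} from hx), hva]
        ring
      · rw [if_neg hx, Set.indicator_of_notMem (show ω ∉ {ω : Zd d × Ly d → Bool | ∃ x, sgd m n s τ.2.1 τ.2.2 ω x} from hx), hvb]
        ring
    have hint : Integrable (fun ω : Zd d × Ly d → Bool =>
        {ω : Zd d × Ly d → Bool | ∃ x, sgd m n s τ.2.1 τ.2.2 ω x}.indicator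
          (fun _ => a - b) ω) (law (dens d p0 δ δr)) :=
      (integrable_const (a - b)).indicator hA
    have hI : ∫ ω, val (1 - η ^ α) w l (FF m n τ s ω).C (FF m n τ s ω).E
        ∂(law (dens d p0 δ δr)) = b + (law (dens d p0 δ δr)).real
        {ω : Zd d × Ly d → Bool | ∃ x, sgd m n s τ.2.1 τ.2.2 ω x} * (a - b) := by
      simp_rw [hf]
      rw [integral_add (integrable_const b) hint, integral_const, integral_indicator_const _ hA]
      simp
    rw [hI]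
    have := mul_le_mul_of_nonneg_right hπ (sub_nonneg.2 hab)
    linarith
  · rw [(h_VLR d _ w τ l s.C s.E hq0 hq1).2 hact]
    have hF : ∀ ω, FF m n τ s ω = s := fun ω => by
      unfold FF
      rw [if_neg hact]
    simp [hF]

end

end Pool.Agent.PRC
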