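import Pool.Agent.PRC.T1
import Pool.Agent.PRC.Base
import Pool.Agent.TRP.P_PERM

/-!
# PRC-SYU: all quadrants are alike
-/

set_option autoImplicit false

open MeasureTheory
open scoped Classical

namespace Pool.Agent.PRC

open TRP (bern law)

namespace SYU_

theorem rc_equiv {d : ℕ} (g : Zd d ≃ Zd d) (hg : ∀ x y, Adj (g x) (g y) ↔ Adj x y)
    {D D' S S' : Set (Zd d)} (hD : ∀ x, x ∈ D' ↔ g x ∈ D) (hS : ∀ x, x ∈ S' ↔ g x ∈ S) (x : Zd d) :
    x ∈ Rc Adj D' S' ↔ g x ∈ Rc Adj D S := by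
  constructor
  · intro h
    have h1 : Rc Adj D' S' ⊆ {y | g y ∈ Rc Adj D S} := by
      apply Rc.sub_of_closed
      · intro y hy
        exact Rc.self ((hS y).1 hy)
      · intro a ha b hb hab
        exact Rc.step ha ((hg a b).2 hab) ((hD b).1 hb)
    exact h1 h
  · intro h
    have h1 : Rc Adj D S ⊆ {y | g.symm y ∈ Rc Adj D' S'} := by
      apply Rc.sub_of_closed
      · intro y hy
        refine Rc.self ((hS _).2 ?_)
        rwa [g.apply_symm_apply]
      · intro a ha b hb hab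
        refine Rc.step ha ((hg _ _).1 ?_) ((hD _).2 ?_)
        · rw [g.apply_symm_apply, g.apply_symm_apply]
          exact hab
        · rwa [g.apply_symm_apply]
    have h2 := h1 h
    simpa using h2

theorem us_dep {d : ℕ} (S : Finset (Zd d)) (n : ℕ) {ω ω' : Zd d → Bool}
    (h : ∀ i ∈ Bx (0 : Zd d) n, ω i = ω' i) : Us S n (Op ω) = Us S n (Op ω') := by
  have h1 : (↑(Bx (0 : Zd d) n) ∩ Op ω : Set (Zd d)) = ↑(Bx (0 : Zd d) n) ∩ Op ω' := by
    ext x
    simp only [Set.mem_inter_iff, Finset.mem_coe, Op, Set.mem_ofPred_eq]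
    constructor
    · rintro ⟨hx, h2⟩
      exact ⟨hx, by rw [← h x hx]; exact h2⟩
    · rintro ⟨hx, h2⟩
      exact ⟨hx, by rw [h x hx]; exact h2⟩
  unfold Us
  rw [h1]

end SYU_

theorem p_SYU (h_SGP : T_SGP) : T_SYU := by
  intro d p m n k e e' σ σ' h0 h1
  obtain ⟨g, hadj, hbx, hsp, hq⟩ := h_SGP d e e' σ σ'
  have hmap := TRP.p_PERM (Zd d) (fun _ => p) (fun _ => ⟨h0, h1⟩) g (fun _ => rfl)
  set T : (Zd d → Bool) → (Zd d → Bool) := fun ω y => ω (g y) with hT
  have hTm : Measurable T := measurable_pi_lambda _ fun y => measurable_pi_apply (g y)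
  have hA : MeasurableSet {ω : Zd d → Bool | (Us (Bx 0 m) n (Op ω) ∩ Qd n e σ).card < k} := by
    have : Dep (↑(Bx (0 : Zd d) n) : Set (Zd d))
        {ω : Zd d → Bool | (Us (Bx 0 m) n (Op ω) ∩ Qd n e σ).card < k} := by
      intro ω ω' hω
      simp only [Set.mem_ofPred_eq]
      rw [SYU_.us_dep (Bx 0 m) n (fun i hi => hω i (Finset.mem_coe.2 hi))]
    exact this.meas
  have hcard : ∀ ω : Zd d → Bool, (Us (Bx 0 m) n (Op (T ω)) ∩ Qd n e σ).card =
      (Us (Bx 0 m) n (Op ω) ∩ Qd n e' σ').card := by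
    intro ω
    have h2 : ∀ x, x ∈ Us (Bx 0 m) n (Op (T ω)) ∩ Qd n e σ ↔
        g x ∈ Us (Bx 0 m) n (Op ω) ∩ Qd n e' σ' := by
      intro x
      rw [Finset.mem_inter, Finset.mem_inter, hq n x]
      unfold Us
      rw [Finset.mem_filter, Finset.mem_filter, hbx n x, hsp n x]
      have h3 := SYU_.rc_equiv g hadj (D := ↑(Bx (0 : Zd d) n) ∩ Op ω)
        (D' := ↑(Bx (0 : Zd d) n) ∩ Op (T ω)) (S := ↑(Bx (0 : Zd d) m))
        (S' := ↑(Bx (0 : Zd d) m)) ?_ ?_ x
      · rw [h3]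
      · intro y
        simp only [Set.mem_inter_iff, Finset.mem_coe, Op, Set.mem_ofPred_eq]
        rw [hbx n y]
      · intro y
        simp only [Finset.mem_coe]
        rw [hbx m y]
    have h4 : (Us (Bx 0 m) n (Op ω) ∩ Qd n e' σ') =
        (Us (Bx 0 m) n (Op (T ω)) ∩ Qd n e σ).map g.toEmbedding := by
      ext y
      rw [Finset.mem_map_equiv, h2, g.apply_symm_apply]
    rw [h4, Finset.card_map]
  have h5 : {ω : Zd d → Bool | (Us (Bx 0 m) n (Op ω) ∩ Qd n e' σ').card < k} =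
      T ⁻¹' {ω : Zd d → Bool | (Us (Bx 0 m) n (Op ω) ∩ Qd n e σ).card < k} := by
    ext ω
    simp only [Set.mem_ofPred_eq, Set.mem_preimage]
    rw [hcard ω]
  rw [h5, Measure.real, Measure.real, ← Measure.map_apply hTm hA, hmap]

end Pool.Agent.PRC
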