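import Pool.Agent.PRC.T4
import Pool.Agent.PRC.Base
import Pool.Agent.TRP.P_PERM

/-!
# PRC-TRE: translation of the exploration event
-/

set_option autoImplicit false

open MeasureTheory Filter Topology
open scoped Classical

namespace Pool.Agent.PRC

open TRP (bern law)

noncomputable section

namespace TRE_

theorem lk_shift {d : ℕ} {D D' : Set (Zd d)} (o : Zd d) (hD : ∀ x, x ∈ D → x + o ∈ D') {k : ℕ} {u v : Zd d}
    (h : Lk Adj D k u v) : Lk Adj D' k (u + o) (v + o) := by
  induction k generalizing v with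
  | zero =>
    have h0 : u = v := h
    rw [h0]
    exact (rfl : v + o = v + o)
  | succ k ih =>
    rcases h with h | ⟨w, h1, ⟨e, he⟩, h3⟩
    · exact Or.inl (ih h)
    · refine Or.inr ⟨w + o, ih h1, ⟨e, ?_⟩, hD v h3⟩
      rw [he]
      abel

/-- the translation of the coordinates -/
def tr {d : ℕ} (o : Zd d) : (Zd d × Ly d) ≃ (Zd d × Ly d) where
  toFun x := (x.1 + o, x.2)
  invFun x := (x.1 - o, x.2)
  left_inv x := by simp
  right_inv x := by simp

/-- the translation of configurations as a measurable equivalence -/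
def trm {d : ℕ} (o : Zd d) : (Zd d × Ly d → Bool) ≃ᵐ (Zd d × Ly d → Bool) where
  toFun ω y := ω (tr o y)
  invFun ω y := ω ((tr o).symm y)
  left_inv ω := by
    funext y
    simp
  right_inv ω := by
    funext y
    simp
  measurable_toFun := measurable_pi_lambda _ fun y => measurable_pi_apply (tr o y)
  measurable_invFun := measurable_pi_lambda _ fun y => measurable_pi_apply ((tr o).symm y)

theorem mem_iff {d : ℕ} (m n r0 k : ℕ) (BB : Finset (Zd d)) (w o : Zd d) (ω : Zd d × Ly d → Bool) :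
    ω ∈ EE m n r0 BB k w o ↔ trm o ω ∈ EE m n r0 BB k w 0 := by
  have hop : ∀ x : Zd d, x ∈ Opn (trm o ω) ↔ x + o ∈ Opn ω := fun x => Iff.rfl
  have hbx : ∀ (x c : Zd d) (r : ℕ), x + o ∈ Bx (o + c) r ↔ x ∈ Bx (0 + c) r := by
    intro x c r
    rw [mem_Bx, mem_Bx]
    refine forall_congr' fun i => ?_
    have h : (x + o) i - (o + c) i = x i - (0 + c) i := by
      simp only [Pi.add_apply, Pi.zero_apply]
      ring
    rw [h]
  have hbx0 : ∀ (x : Zd d) (r : ℕ), x + o ∈ Bx o r ↔ x ∈ Bx 0 r := by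
    intro x r
    have h := hbx x 0 r
    rwa [add_zero, add_zero] at h
  constructor
  · rintro ⟨z, hz, hl⟩
    refine ⟨z + -o, ?_, ?_⟩
    · rw [← hbx, neg_add_cancel_right]
      exact hz
    · have h := lk_shift (D' := ↑(Bx (0 : Zd d) r0) ∪ {x | x ∈ Opn (trm o ω) ∧ ∃ v ∈ BB, x - 0 ∈ rg m n v}) (-o)
        (fun x hx => ?_) hl
      · rwa [add_neg_cancel] at h
      · rcases hx with hx | ⟨hx, v, hv, hxv⟩
        · left
          rw [Finset.mem_coe] at hx ⊢
          rw [← hbx0, neg_add_cancel_right]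
          exact hx
        · right
          refine ⟨?_, v, hv, ?_⟩
          · rw [hop, neg_add_cancel_right]
            exact hx
          · rw [sub_zero, ← sub_eq_add_neg]
            exact hxv
  · rintro ⟨z, hz, hl⟩
    refine ⟨z + o, ?_, ?_⟩
    · rw [hbx]
      exact hz
    · have h := lk_shift (D' := ↑(Bx o r0) ∪ {x | x ∈ Opn ω ∧ ∃ v ∈ BB, x - o ∈ rg m n v}) o
        (fun x hx => ?_) hl
      · rwa [zero_add] at h
      · rcases hx with hx | ⟨hx, v, hv, hxv⟩
        · left
          rw [Finset.mem_coe] at hx ⊢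
          rw [hbx0]
          exact hx
        · right
          refine ⟨(hop x).1 hx, v, hv, ?_⟩
          rw [add_sub_cancel_right]
          rwa [sub_zero] at hxv

end TRE_

open TRE_ in
theorem p_TRE : T_TRE := by
  intro d m n r0 k p0 δ δr BB w o h1 h2 h3 h4 h5 h6
  have hq : ∀ x : Zd d × Ly d, 0 ≤ dens d p0 δ δr x ∧ dens d p0 δ δr x ≤ 1 := by
    intro x
    unfold dens
    split_ifs
    · exact ⟨h1, h2⟩
    · exact ⟨h5, h6⟩
    · exact ⟨h3, h4⟩
  have hperm := TRP.p_PERM (Zd d × Ly d) (dens d p0 δ δr) hq (tr o) (fun x => rfl)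
  have hmap : (law (dens d p0 δ δr)).map (trm o) = law (dens d p0 δ δr) := hperm
  have hpre : EE m n r0 BB k w o = (trm o) ⁻¹' (EE m n r0 BB k w 0) := by
    ext ω
    exact mem_iff m n r0 k BB w o ω
  unfold Measure.real
  rw [hpre, ← MeasurableEquiv.map_apply, hmap]

end

end Pool.Agent.PRC
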