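import Pool.Agent.PRC.T3

set_option autoImplicit false

open MeasureTheory
open scoped Classical

namespace Pool.Agent.PRC

theorem p_TRF : T_TRF := by
  intro d f B D h hf n
  induction n with
  | zero =>
    intro u v _ huv
    have h1 : u = v := huv
    subst h1
    exact Lk.refl _ _
  | succ n ih =>
    intro u v hu huv
    rcases huv with huv | ⟨w, h1, h2, h3⟩
    · exact (ih u v hu huv).mono (Nat.mul_le_mul_right h (Nat.le_succ n))
    · have hw : w ∈ B := by
        rcases h1.end_mem with h4 | h4
        · exact h4 ▸ hu
        · exact h4
      have h5 := (ih u w hu h1).trans (hf w hw v h3 h2)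
      have h6 : (n + 1) * h = n * h + h := by ring
      rw [h6]
      exact h5

end Pool.Agent.PRC
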