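import Pool.Agent.PRC.T1

set_option autoImplicit false

open MeasureTheory
open scoped Classical

namespace Pool.Agent.PRC

namespace UCL_

theorem coord {d : ℕ} {n : ℕ} {a b : Zd d} (ha : a ∈ Bx (0 : Zd d) n)
    (hb : b ∉ Bx (0 : Zd d) n) (h : Adj a b) : ∃ i, |a i| = n := by
  obtain ⟨e, rfl⟩ := h
  rw [mem_Bx_zero] at ha hb
  simp only [not_forall, not_le] at hb
  obtain ⟨i, hi⟩ := hb
  have hai := ha i
  by_cases hie : i = e.1
  · subst hie
    refine ⟨e.1, ?_⟩
    rw [Pi.add_apply, dv_self] at hi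
    have h1 := abs_add_le (a e.1) (sg e.2)
    rw [sg_abs] at h1
    omega
  · rw [Pi.add_apply, dv_ne e hie, add_zero] at hi
    omega

end UCL_

open UCL_ in
theorem p_UCL : T_UCL := by
  intro d S n D hS h j hj
  rw [Finset.eq_empty_iff_forall_notMem]
  intro x hx
  unfold Us at hx
  rw [Finset.mem_filter] at hx
  obtain ⟨_, ⟨i, hi⟩, hr⟩ := hx
  have hin : ∀ y, y ∈ Rc Adj (↑(Bx (0 : Zd d) n) ∩ D) (↑S : Set (Zd d)) →
      y ∈ Bx (0 : Zd d) n := by
    intro y hy
    rcases Rc.sub_union hy with h1 | h1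
    · exact hS (Finset.mem_coe.1 h1)
    · exact Finset.mem_coe.1 h1.1
  have hsub : Rc Adj (↑(Bx (0 : Zd d) j) ∩ D) (↑S : Set (Zd d)) ⊆
      Rc Adj (↑(Bx (0 : Zd d) n) ∩ D) (↑S : Set (Zd d)) := by
    apply Rc.sub_of_closed
    · intro y hy
      exact Rc.self hy
    · intro a ha b hb hab
      by_cases hbn : b ∈ Bx (0 : Zd d) n
      · exact Rc.step ha hab ⟨Finset.mem_coe.2 hbn, hb.2⟩
      · exfalso
        have han := hin a ha
        have hc := coord han hbn hab
        have haU : a ∈ Us S n D := by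
          unfold Us
          rw [Finset.mem_filter]
          exact ⟨han, hc, ha⟩
        exact h a haU b hab hbn hb.2
  have h2 := mem_Bx_zero.1 (hin x (hsub hr)) i
  omega

end Pool.Agent.PRC
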