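import Pool.Agent.PRC.T1

set_option autoImplicit false

open MeasureTheory
open scoped Classical

namespace Pool.Agent.PRC

namespace UNE_

theorem coord {d : ℕ} {n : ℕ} {a b : Zd d} (ha : a ∈ Bx (0 : Zd d) n)
    (hb : b ∉ Bx (0 : Zd d) n) (h : Adj a b) : ∃ i, |a i| = n := by
  obtain ⟨e, rfl⟩ := h
  rw [mem_Bx_zero] at ha hb
  simp only [not_forall, not_le] at hb
  obtain ⟨i, hi⟩ := hb
  have hai := ha i
  by_cases hie : i = e.1
  · subst hie
    refine ⟨e.1, ?_⟩
    rw [Pi.add_apply, dv_self] at hi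
    have h1 := abs_add_le (a e.1) (sg e.2)
    rw [sg_abs] at h1
    omega
  · rw [Pi.add_apply, dv_ne e hie, add_zero] at hi
    omega

end UNE_

open UNE_ in
theorem p_UNE : T_UNE := by
  intro d S n ω y hS hy hinf
  by_contra hemp
  rw [Finset.not_nonempty_iff_eq_empty] at hemp
  have hin : ∀ z, z ∈ Rc Adj (↑(Bx (0 : Zd d) n) ∩ Op ω) ({y} : Set (Zd d)) →
      z ∈ Bx (0 : Zd d) n := by
    intro z hz
    rcases Rc.sub_union hz with h1 | h1
    · rw [Set.mem_singleton_iff.1 h1]
      exact hS hy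
    · exact Finset.mem_coe.1 h1.1
  have hsub : Rc Adj (Op ω) ({y} : Set (Zd d)) ⊆
      Rc Adj (↑(Bx (0 : Zd d) n) ∩ Op ω) ({y} : Set (Zd d)) := by
    apply Rc.sub_of_closed
    · intro z hz
      exact Rc.self hz
    · intro a ha b hb hab
      by_cases hbn : b ∈ Bx (0 : Zd d) n
      · exact Rc.step ha hab ⟨Finset.mem_coe.2 hbn, hb⟩
      · exfalso
        have han := hin a ha
        have hc := coord han hbn hab
        have haU : a ∈ Us S n (Op ω) := by
          unfold Us
          rw [Finset.mem_filter]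
          refine ⟨han, hc, Rc.mono (Set.Subset.refl _) ?_ ha⟩
          intro z hz
          rw [Set.mem_singleton_iff.1 hz]
          exact Finset.mem_coe.2 hy
        rw [hemp] at haU
        exact absurd haU (Finset.notMem_empty a)
  refine hinf.2 (Set.Finite.subset (Finset.finite_toSet (Bx (0 : Zd d) n)) ?_)
  intro z hz
  exact Finset.mem_coe.2 (hin z (hsub hz))

end Pool.Agent.PRC
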