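import Pool.Agent.PRC.T1

/-!
# PRC, target USM: the number of reached points is zero or large
-/

set_option autoImplicit false

open MeasureTheory Filter Topology
open scoped Classical

namespace Pool.Agent.PRC

open TRP (bern law)

noncomputable section

namespace USM_

variable {d : ℕ}

/-- the points reached on the sphere depend only on the ball -/
theorem Us_congr (S : Finset (Zd d)) (n : ℕ) {ω ω' : Zd d → Bool}
    (h : ∀ i ∈ (↑(Bx (0 : Zd d) n) : Set (Zd d)), ω i = ω' i) :
    Us S n (Op ω) = Us S n (Op ω') := by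
  have h1 : (↑(Bx (0 : Zd d) n) : Set (Zd d)) ∩ Op ω = ↑(Bx (0 : Zd d) n) ∩ Op ω' := by
    ext x
    simp only [Set.mem_inter_iff]
    refine and_congr_right fun hx => ?_
    unfold Op
    simp only [Set.mem_ofPred_eq]
    rw [h x hx]
  unfold Us
  rw [h1]

/-- the event that between one and `k - 1` points are reached -/
def AA (S : Finset (Zd d)) (k n : ℕ) : Set (Zd d → Bool) :=
  {ω | 1 ≤ (Us S n (Op ω)).card ∧ (Us S n (Op ω)).card < k}

/-- the event that all the outer neighbours of the reached points are closed -/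
def CC (S : Finset (Zd d)) (n : ℕ) : Set (Zd d → Bool) :=
  {ω | ∀ x ∈ Us S n (Op ω), ∀ y, Adj x y → y ∉ Bx (0 : Zd d) n → ω y = false}

theorem AA_dep (S : Finset (Zd d)) (k n : ℕ) : Dep (↑(Bx (0 : Zd d) n) : Set (Zd d)) (AA S k n) := by
  intro ω ω' h
  unfold AA
  simp only [Set.mem_ofPred_eq]
  rw [Us_congr S n h]

theorem mem_nbr {x y : Zd d} : y ∈ nbr x ↔ Adj x y := by
  unfold nbr Adj
  simp only [Finset.mem_image, Finset.mem_univ, true_and]
  exact exists_congr fun e => eq_comm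

theorem Us_sub (S : Finset (Zd d)) (n : ℕ) (D : Set (Zd d)) : Us S n D ⊆ Bx 0 n :=
  Finset.filter_subset _ _

theorem CC_dep (S : Finset (Zd d)) (n : ℕ) :
    Dep (↑(Bx (0 : Zd d) n ∪ (Bx (0 : Zd d) n).biUnion nbr) : Set (Zd d)) (CC S n) := by
  intro ω ω' h
  have h1 : Us S n (Op ω) = Us S n (Op ω') := Us_congr S n fun i hi => h i (by
    rw [Finset.coe_union]
    exact Or.inl hi)
  unfold CC
  simp only [Set.mem_ofPred_eq]
  rw [h1]
  refine forall_congr' fun x => forall_congr' fun hx => forall_congr' fun y =>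
    forall_congr' fun hy => ?_
  rw [h y]
  rw [Finset.mem_coe, Finset.mem_union]
  right
  rw [Finset.mem_biUnion]
  exact ⟨x, Us_sub _ _ _ hx, mem_nbr.2 hy⟩

theorem nbr_card (x : Zd d) : (nbr x).card ≤ 2 * d := by
  unfold nbr
  refine Finset.card_image_le.trans ?_
  rw [Finset.card_univ, Fintype.card_prod, Fintype.card_fin, Fintype.card_bool, mul_comm]

/-- the lower bound -/
theorem lower (h_CON : T_CON) (h_PRV : T_PRV) (p : ℝ) (hp0 : 0 ≤ p) (hp1 : p < 1)
    (S : Finset (Zd d)) (k n : ℕ) :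
    (1 - p) ^ (2 * d * k) * (law fun _ : Zd d => p).real (AA S k n) ≤
      (law fun _ : Zd d => p).real (AA S k n ∩ CC S n) := by
  have hq : ∀ i : Zd d, 0 ≤ (fun _ : Zd d => p) i ∧ (fun _ : Zd d => p) i ≤ 1 :=
    fun _ => ⟨hp0, hp1.le⟩
  have hprob : IsProbabilityMeasure (law fun _ : Zd d => p) := law_prob hq
  have hc0 : 0 ≤ (1 - p) ^ (2 * d * k) := by apply pow_nonneg; linarith
  generalize hc : (1 - p) ^ (2 * d * k) = c at hc0 ⊢
  have hCON := (h_CON (Zd d) (fun _ => p) hq (↑(Bx (0 : Zd d) n)) (AA S k n) (CC S n)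
    c (AA_dep S k n) (AA_dep S k n).meas (CC_dep S n).meas hc0).2
  apply hCON
  intro ω hω
  have hU : ∀ ω', Us S n (Op (mrg (↑(Bx (0 : Zd d) n)) ω ω')) = Us S n (Op ω) := by
    intro ω'
    refine Us_congr S n fun i hi => ?_
    unfold mrg
    rw [if_pos hi]
  let G : Finset (Zd d) := (Us S n (Op ω)).biUnion nbr \ Bx 0 n
  have hG : G.card ≤ 2 * d * k := by
    calc G.card ≤ ((Us S n (Op ω)).biUnion nbr).card := Finset.card_le_card Finset.sdiff_subset
      _ ≤ ∑ x ∈ Us S n (Op ω), (nbr x).card := Finset.card_biUnion_le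
      _ ≤ ∑ x ∈ Us S n (Op ω), 2 * d := Finset.sum_le_sum fun x _ => nbr_card x
      _ = (Us S n (Op ω)).card * (2 * d) := by rw [Finset.sum_const, smul_eq_mul]
      _ ≤ k * (2 * d) := Nat.mul_le_mul_right _ hω.2.le
      _ = 2 * d * k := by ring
  have h1 := (h_PRV (Zd d) (fun _ => p) G hq).2
  rw [Finset.prod_const] at h1
  have hc2 : c ≤ (1 - p) ^ G.card := by
    rw [← hc]
    exact pow_le_pow_of_le_one (by linarith) (by linarith) hG
  rw [← h1] at hc2
  refine hc2.trans ?_
  have hsub : {ω' : Zd d → Bool | ∀ i ∈ G, ω' i = false} ⊆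
      {ω' | mrg (↑(Bx (0 : Zd d) n)) ω ω' ∈ CC S n} := by
    intro ω' hω'
    have hω2 : ∀ i ∈ G, ω' i = false := hω'
    have hgoal : mrg (↑(Bx (0 : Zd d) n)) ω ω' ∈ CC S n := by
      intro x hx y hy hyn
      rw [hU] at hx
      unfold mrg
      rw [if_neg (fun h => hyn (Finset.mem_coe.1 h))]
      apply hω2
      rw [Finset.mem_sdiff, Finset.mem_biUnion]
      exact ⟨⟨x, hx, mem_nbr.2 hy⟩, hyn⟩
    exact hgoal
  exact measureReal_mono hsub (measure_ne_top _ _)

end USM_

/-- USM -/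
theorem p_USM (h_UCL : T_UCL) (h_CON : T_CON) (h_PRV : T_PRV) : T_USM := by
  intro d p S k hp0 hp1
  have hq : ∀ i : Zd d, 0 ≤ (fun _ : Zd d => p) i ∧ (fun _ : Zd d => p) i ≤ 1 :=
    fun _ => ⟨hp0, hp1.le⟩
  have hprob : IsProbabilityMeasure (law fun _ : Zd d => p) := law_prob hq
  let n₀ : ℕ := S.sup nm
  have hS : ∀ n, n₀ ≤ n → S ⊆ Bx 0 n := by
    intro n hn x hx
    rw [mem_Bx_zero, ← nm_le]
    exact (Finset.le_sup (f := nm) hx).trans hn
  have hdis : Pairwise (Function.onFun Disjoint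
      fun n : ℕ => USM_.AA S k (n + n₀) ∩ USM_.CC S (n + n₀)) := by
    have key : ∀ a b : ℕ, a < b →
        Disjoint (USM_.AA S k (a + n₀) ∩ USM_.CC S (a + n₀))
          (USM_.AA S k (b + n₀) ∩ USM_.CC S (b + n₀)) := by
      intro a b hab
      rw [Set.disjoint_left]
      rintro ω ⟨_, h1⟩ ⟨h2, _⟩
      have h3 := h_UCL d S (a + n₀) (Op ω) (hS _ (by omega)) (by
        intro x hx y hy hyn hyo
        have := h1 x hx y hy hyn
        unfold Op at hyo
        simp only [Set.mem_ofPred_eq] at hyo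
        rw [hyo] at this
        exact Bool.noConfusion this) (b + n₀) (by omega)
      have h4 := h2.1
      rw [h3] at h4
      simp at h4
    intro a b hab
    rcases lt_or_gt_of_ne hab with h | h
    · exact key a b h
    · exact (key b a h).symm
  have hsum := summable_measure_toReal (μ := law fun _ : Zd d => p)
    (fun n : ℕ => (USM_.AA_dep S k (n + n₀)).meas.inter (USM_.CC_dep S (n + n₀)).meas) hdis
  have hlim := hsum.tendsto_atTop_zero
  have hc : 0 < (1 - p) ^ (2 * d * k) := pow_pos (by linarith) _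
  rw [← tendsto_add_atTop_iff_nat n₀]
  have h2 : Tendsto (fun n : ℕ => ((1 - p) ^ (2 * d * k))⁻¹ *
      (law fun _ : Zd d => p).real (USM_.AA S k (n + n₀) ∩ USM_.CC S (n + n₀)))
      atTop (𝓝 0) := by
    simpa using hlim.const_mul ((1 - p) ^ (2 * d * k))⁻¹
  refine squeeze_zero (fun n => measureReal_nonneg) (fun n => ?_) h2
  have h3 := USM_.lower h_CON h_PRV p hp0 hp1 S k (n + n₀)
  rw [le_inv_mul_iff₀ hc]
  exact h3

end

end Pool.Agent.PRC
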