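import Pool.Agent.PRC.T2

/-!
# PRC: target VLM (monotonicity of the comparison dynamics)
-/

set_option autoImplicit false

open MeasureTheory
open scoped Classical

namespace Pool.Agent.PRC

open TRP (bern law)

noncomputable section

namespace VLM_

/-- pathwise monotonicity -/
theorem path {d : ℕ} (X : Zd d → Bool) : ∀ (l : List (Ln d)) (C C' E E' : Finset (Zd d)),
    C ⊆ C' → (∀ v ∈ E', v ∈ E ∨ v ∈ C' ∨ X v = false) → dyn X l C E ⊆ dyn X l C' E' := by
  intro l
  induction l with
  | nil =>
    intro C C' E E' hC _
    exact hC
  | cons τ l ih =>
    intro C C' E E' hC hE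
    set v : Zd d := τ.2.1 + dv τ.2.2 with hv
    by_cases h1 : τ.2.1 ∈ C ∧ v ∉ E
    · by_cases h2 : τ.2.1 ∈ C' ∧ v ∉ E'
      · by_cases hX : X v = true
        · simp only [dyn, ← hv, if_pos h1, if_pos h2, if_pos hX]
          refine ih _ _ _ _ (Finset.insert_subset_insert _ hC) fun x hx => ?_
          rcases Finset.mem_insert.1 hx with rfl | hx
          · exact Or.inl (Finset.mem_insert_self _ _)
          · rcases hE x hx with h | h | h
            · exact Or.inl (Finset.mem_insert_of_mem h)
            · exact Or.inr (Or.inl (Finset.mem_insert_of_mem h))
            · exact Or.inr (Or.inr h)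
        · simp only [dyn, ← hv, if_pos h1, if_pos h2, if_neg hX]
          refine ih _ _ _ _ hC fun x hx => ?_
          rcases Finset.mem_insert.1 hx with rfl | hx
          · exact Or.inl (Finset.mem_insert_self _ _)
          · rcases hE x hx with h | h | h
            · exact Or.inl (Finset.mem_insert_of_mem h)
            · exact Or.inr (Or.inl h)
            · exact Or.inr (Or.inr h)
      · have hvE : v ∈ E' := by
          by_contra hcon
          exact h2 ⟨hC h1.1, hcon⟩
        by_cases hX : X v = true
        · simp only [dyn, ← hv, if_pos h1, if_neg h2, if_pos hX]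
          refine ih _ _ _ _ (Finset.insert_subset ?_ hC) fun x hx => ?_
          · rcases hE v hvE with h | h | h
            · exact absurd h h1.2
            · exact h
            · rw [hX] at h
              exact absurd h (by decide)
          · rcases hE x hx with h | h | h
            · exact Or.inl (Finset.mem_insert_of_mem h)
            · exact Or.inr (Or.inl h)
            · exact Or.inr (Or.inr h)
        · simp only [dyn, ← hv, if_pos h1, if_neg h2, if_neg hX]
          refine ih _ _ _ _ hC fun x hx => ?_
          rcases hE x hx with h | h | h
          · exact Or.inl (Finset.mem_insert_of_mem h)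
          · exact Or.inr (Or.inl h)
          · exact Or.inr (Or.inr h)
    · by_cases h2 : τ.2.1 ∈ C' ∧ v ∉ E'
      · by_cases hX : X v = true
        · simp only [dyn, ← hv, if_neg h1, if_pos h2, if_pos hX]
          refine ih _ _ _ _ (hC.trans (Finset.subset_insert _ _)) fun x hx => ?_
          rcases Finset.mem_insert.1 hx with rfl | hx
          · exact Or.inr (Or.inl (Finset.mem_insert_self _ _))
          · rcases hE x hx with h | h | h
            · exact Or.inl h
            · exact Or.inr (Or.inl (Finset.mem_insert_of_mem h))
            · exact Or.inr (Or.inr h)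
        · simp only [dyn, ← hv, if_neg h1, if_pos h2, if_neg hX]
          refine ih _ _ _ _ hC fun x hx => ?_
          rcases Finset.mem_insert.1 hx with rfl | hx
          · exact Or.inr (Or.inr (by simpa using hX))
          · exact hE x hx
      · simp only [dyn, ← hv, if_neg h1, if_neg h2]
        exact ih _ _ _ _ hC hE

end VLM_

theorem p_VLM : T_VLM := by
  intro d q w l C C' E hq0 hq1 hC
  have := law_prob (I := Zd d) (q := fun _ => q) fun _ => ⟨hq0, hq1⟩
  unfold val
  refine measureReal_mono fun X hX => ?_
  exact VLM_.path X l C C' E E hC (fun v hv => Or.inl hv) hX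

end

end Pool.Agent.PRC
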