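import Pool.Agent.PRC.T2

/-!
# PRC-VLR: recursion for the comparison dynamics
-/

set_option autoImplicit false

open MeasureTheory
open scoped Classical

namespace Pool.Agent.PRC

open TRP (bern law)

noncomputable section

namespace VLR_

theorem dyn_cons {d : ℕ} (X : Zd d → Bool) (τ : Ln d) (l : List (Ln d)) (C E : Finset (Zd d)) :
    dyn X (τ :: l) C E = if τ.2.1 ∈ C ∧ τ.2.1 + dv τ.2.2 ∉ E then
      (if X (τ.2.1 + dv τ.2.2) = true then
        dyn X l (insert (τ.2.1 + dv τ.2.2) C) (insert (τ.2.1 + dv τ.2.2) E)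
      else dyn X l C (insert (τ.2.1 + dv τ.2.2) E)) else dyn X l C E := rfl

/-- the dynamics examines only blocks outside `E` -/
theorem dyn_out {d : ℕ} (X X' : Zd d → Bool) (v : Zd d) (h : ∀ x, x ≠ v → X x = X' x) (l : List (Ln d)) :
    ∀ C E : Finset (Zd d), v ∈ E → dyn X l C E = dyn X' l C E := by
  induction l with
  | nil => intro C E _; rfl
  | cons τ l ih =>
    intro C E hv
    rw [dyn_cons, dyn_cons]
    by_cases hA : τ.2.1 ∈ C ∧ τ.2.1 + dv τ.2.2 ∉ E
    · have hne : τ.2.1 + dv τ.2.2 ≠ v := fun h => hA.2 (h ▸ hv)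
      rw [if_pos hA, if_pos hA, h _ hne, ih _ _ (Finset.mem_insert_of_mem hv), ih _ _ (Finset.mem_insert_of_mem hv)]
    · rw [if_neg hA, if_neg hA, ih _ _ hv]

/-- finitely many coordinates -/
theorem dyn_fin {d : ℕ} (l : List (Ln d)) : ∃ K : Finset (Zd d), ∀ X X' : Zd d → Bool, (∀ x ∈ K, X x = X' x) →
    ∀ C E : Finset (Zd d), dyn X l C E = dyn X' l C E := by
  induction l with
  | nil => exact ⟨∅, fun _ _ _ _ _ => rfl⟩
  | cons τ l ih =>
    obtain ⟨K, hK⟩ := ih
    refine ⟨insert (τ.2.1 + dv τ.2.2) K, ?_⟩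
    intro X X' h C E
    have h1 : X (τ.2.1 + dv τ.2.2) = X' (τ.2.1 + dv τ.2.2) := h _ (Finset.mem_insert_self _ _)
    have h2 := hK X X' fun x hx => h x (Finset.mem_insert_of_mem hx)
    rw [dyn_cons, dyn_cons, h1, h2, h2, h2]

/-- the event depends on finitely many coordinates different from `v` -/
theorem dyn_dep {d : ℕ} (v w : Zd d) (l : List (Ln d)) : ∃ K : Finset (Zd d), v ∉ K ∧
    ∀ C E : Finset (Zd d), v ∈ E → Dep (↑K : Set (Zd d)) {X : Zd d → Bool | w ∈ dyn X l C E} := by
  obtain ⟨K, hK⟩ := dyn_fin l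
  refine ⟨K.erase v, Finset.notMem_erase v K, ?_⟩
  intro C E hv X X' h
  have h1 : dyn X l C E = dyn (Function.update X v (X' v)) l C E := by
    apply dyn_out X _ v _ l C E hv
    intro x hx
    rw [Function.update_of_ne hx]
  have h2 : dyn (Function.update X v (X' v)) l C E = dyn X' l C E := by
    apply hK
    intro x hx
    by_cases hxv : x = v
    · subst hxv
      rw [Function.update_self]
    · rw [Function.update_of_ne hxv]
      exact h x (by rw [Finset.mem_coe]; exact Finset.mem_erase.mpr ⟨hxv, hx⟩)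
  show w ∈ dyn X l C E ↔ w ∈ dyn X' l C E
  rw [h1, h2]

end VLR_

open VLR_ in
theorem p_VLR (h_IND : T_IND) (h_PRV : T_PRV) : T_VLR := by
  intro d q w τ l C E hq0 hq1
  constructor
  · intro hA
    set v := τ.2.1 + dv τ.2.2 with hv
    have hq : ∀ i : Zd d, 0 ≤ (fun _ : Zd d => q) i ∧ (fun _ : Zd d => q) i ≤ 1 := fun _ => ⟨hq0, hq1⟩
    haveI := law_prob hq
    obtain ⟨K, hvK, hK⟩ := dyn_dep v w l
    have hvE : v ∈ insert v E := Finset.mem_insert_self _ _
    set B1 : Set (Zd d → Bool) := {X | w ∈ dyn X l (insert v C) (insert v E)} with hB1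
    set B0 : Set (Zd d → Bool) := {X | w ∈ dyn X l C (insert v E)} with hB0
    have hd1 : Dep (↑K : Set (Zd d)) B1 := hK _ _ hvE
    have hd0 : Dep (↑K : Set (Zd d)) B0 := hK _ _ hvE
    set A1 : Set (Zd d → Bool) := {X | ∀ i ∈ ({v} : Finset (Zd d)), X i = true} with hA1
    set A0 : Set (Zd d → Bool) := {X | ∀ i ∈ ({v} : Finset (Zd d)), X i = false} with hA0
    have ha1 : Dep (↑({v} : Finset (Zd d)) : Set (Zd d)) A1 := by
      intro X X' h
      show (∀ i ∈ ({v} : Finset (Zd d)), X i = true) ↔ ∀ i ∈ ({v} : Finset (Zd d)), X' i = true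
      constructor
      · intro h1 i hi
        rw [← h i (Finset.mem_coe.mpr hi)]
        exact h1 i hi
      · intro h1 i hi
        rw [h i (Finset.mem_coe.mpr hi)]
        exact h1 i hi
    have ha0 : Dep (↑({v} : Finset (Zd d)) : Set (Zd d)) A0 := by
      intro X X' h
      show (∀ i ∈ ({v} : Finset (Zd d)), X i = false) ↔ ∀ i ∈ ({v} : Finset (Zd d)), X' i = false
      constructor
      · intro h1 i hi
        rw [← h i (Finset.mem_coe.mpr hi)]
        exact h1 i hi
      · intro h1 i hi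
        rw [h i (Finset.mem_coe.mpr hi)]
        exact h1 i hi
    have hdis : Disjoint (↑({v} : Finset (Zd d)) : Set (Zd d)) (↑K : Set (Zd d)) := by
      rw [Finset.disjoint_coe, Finset.disjoint_singleton_left]
      exact hvK
    have e1 := h_IND (Zd d) (fun _ => q) hq _ _ A1 B1 ha1 hd1 hdis ha1.meas hd1.meas
    have e0 := h_IND (Zd d) (fun _ => q) hq _ _ A0 B0 ha0 hd0 hdis ha0.meas hd0.meas
    have p1 := (h_PRV (Zd d) (fun _ => q) {v} hq).1
    have p0 := (h_PRV (Zd d) (fun _ => q) {v} hq).2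
    rw [Finset.prod_singleton] at p1 p0
    have hset : {X : Zd d → Bool | w ∈ dyn X (τ :: l) C E} = (A1 ∩ B1) ∪ (A0 ∩ B0) := by
      ext X
      rw [Set.mem_union, Set.mem_inter_iff, Set.mem_inter_iff]
      have hA1m : X ∈ A1 ↔ X v = true := by
        show (∀ i ∈ ({v} : Finset (Zd d)), X i = true) ↔ _
        simp
      have hA0m : X ∈ A0 ↔ X v = false := by
        show (∀ i ∈ ({v} : Finset (Zd d)), X i = false) ↔ _
        simp
      rw [hA1m, hA0m]
      show w ∈ dyn X (τ :: l) C E ↔ (X v = true ∧ w ∈ dyn X l (insert v C) (insert v E)) ∨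
        (X v = false ∧ w ∈ dyn X l C (insert v E))
      rw [dyn_cons, ← hv, if_pos hA]
      by_cases hX : X v = true
      · rw [if_pos hX]
        simp [hX]
      · rw [if_neg hX]
        have hX' : X v = false := by simpa using hX
        simp [hX']
    have hdisj : Disjoint (A1 ∩ B1) (A0 ∩ B0) := by
      rw [Set.disjoint_left]
      rintro X ⟨h1, _⟩ ⟨h2, _⟩
      have h3 : X v = true := h1 v (Finset.mem_singleton_self v)
      have h4 : X v = false := h2 v (Finset.mem_singleton_self v)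
      rw [h3] at h4
      exact absurd h4 (by decide)
    unfold val
    rw [hset, measureReal_union hdisj (ha0.meas.inter hd0.meas), e1, e0, p1, p0]
  · intro hA
    unfold val
    congr 1
    ext X
    show w ∈ dyn X (τ :: l) C E ↔ w ∈ dyn X l C E
    rw [dyn_cons, if_neg hA]

end

end Pool.Agent.PRC
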