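import Pool.Agent.PRC.T1

/-!
# PRC-ZOL: zero-one law
-/

set_option autoImplicit false

open MeasureTheory
open scoped Classical ENNReal

namespace Pool.Agent.PRC

open TRP (bern law)

namespace ZOL_

theorem dep_cyl {I : Type} (s : Finset I) (S : Set (s → Bool)) :
    Dep (↑s : Set I) (cylinder (α := fun _ : I => Bool) s S) := by
  intro ω ω' h
  rw [mem_cylinder, mem_cylinder]
  have : (s.restrict ω : s → Bool) = s.restrict ω' := by
    funext i
    exact h i i.2
  rw [this]

/-- `A` is independent of all measurable sets -/
theorem indep_all (h_IND : T_IND) {I : Type} {q : I → ℝ} {A : Set (I → Bool)}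
    (hq : ∀ i, 0 ≤ q i ∧ q i ≤ 1) (hA : MeasurableSet A)
    (hD : ∀ F : Finset I, Dep (↑F : Set I)ᶜ A) :
    (law q).restrict A = (law q A) • law q := by
  have := law_prob hq
  refine ext_of_generate_finite (measurableCylinders fun _ : I => Bool)
    generateFrom_measurableCylinders.symm isPiSystem_measurableCylinders ?_ ?_
  · intro B hB
    obtain ⟨s, S, hS, rfl⟩ := (mem_measurableCylinders B).1 hB
    have hm : MeasurableSet (cylinder (α := fun _ : I => Bool) s S) :=
      MeasurableSet.of_mem_measurableCylinders hB
    rw [Measure.restrict_apply hm, Measure.smul_apply, smul_eq_mul, Set.inter_comm]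
    have h1 := h_IND I q hq (↑s : Set I)ᶜ (↑s : Set I) A _ (hD s) (dep_cyl s S)
      disjoint_compl_left hA hm
    unfold Measure.real at h1
    rw [← ENNReal.toReal_mul] at h1
    exact (ENNReal.toReal_eq_toReal_iff' (measure_ne_top _ _)
      (ENNReal.mul_ne_top (measure_ne_top _ _) (measure_ne_top _ _))).1 h1
  · rw [Measure.restrict_apply MeasurableSet.univ, Measure.smul_apply, Set.univ_inter,
      measure_univ, smul_eq_mul, mul_one]

end ZOL_

theorem p_ZOL (h_IND : T_IND) : T_ZOL := by
  intro I q A hq hA hD
  have := law_prob hq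
  have h1 := ZOL_.indep_all h_IND hq hA hD
  have h2 : law q A = law q A * law q A := by
    have h3 := congrArg (fun μ => μ A) h1
    simp only [Measure.restrict_apply hA, Set.inter_self, Measure.smul_apply, smul_eq_mul] at h3
    exact h3
  have h4 : (law q).real A = (law q).real A * (law q).real A := by
    unfold Measure.real
    rw [← ENNReal.toReal_mul, ← h2]
  by_cases h0 : (law q).real A = 0
  · exact Or.inl h0
  · exact Or.inr (mul_left_cancel₀ h0 (by rw [← h4, mul_one]))

end Pool.Agent.PRC
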