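import Pool.Agent.PRC.T4
import Pool.Agent.PRC.P_SPL
import Pool.Agent.PRC.P_IND
import Pool.Agent.PRC.P_INF
import Pool.Agent.PRC.P_CON
import Pool.Agent.PRC.P_PRJ
import Pool.Agent.PRC.P_PRV
import Pool.Agent.PRC.P_EXC
import Pool.Agent.PRC.P_FKG
import Pool.Agent.PRC.P_FKN
import Pool.Agent.PRC.P_ZOL
import Pool.Agent.PRC.P_FST
import Pool.Agent.PRC.P_JEN
import Pool.Agent.PRC.P_ORL
import Pool.Agent.PRC.P_DEL
import Pool.Agent.PRC.P_MSI
import Pool.Agent.PRC.P_RCF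
import Pool.Agent.PRC.P_UNE
import Pool.Agent.PRC.P_UCL
import Pool.Agent.PRC.P_USM
import Pool.Agent.PRC.P_RMV
import Pool.Agent.PRC.P_ONE
import Pool.Agent.PRC.P_SGP
import Pool.Agent.PRC.P_SYU
import Pool.Agent.PRC.P_SQR
import Pool.Agent.PRC.P_PAD
import Pool.Agent.PRC.P_GMT
import Pool.Agent.PRC.P_STD
import Pool.Agent.PRC.P_STP
import Pool.Agent.PRC.P_RUN
import Pool.Agent.PRC.P_RFN
import Pool.Agent.PRC.P_MAR
import Pool.Agent.PRC.P_REG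
import Pool.Agent.PRC.P_FRS
import Pool.Agent.PRC.P_IVC
import Pool.Agent.PRC.P_IVT
import Pool.Agent.PRC.P_IVL
import Pool.Agent.PRC.P_IV0
import Pool.Agent.PRC.P_JMO
import Pool.Agent.PRC.P_FNF
import Pool.Agent.PRC.P_STO
import Pool.Agent.PRC.P_EXL
import Pool.Agent.PRC.P_OPN
import Pool.Agent.PRC.P_VLR
import Pool.Agent.PRC.P_VLM
import Pool.Agent.PRC.P_SUB
import Pool.Agent.PRC.P_CFN
import Pool.Agent.PRC.P_SCH
import Pool.Agent.PRC.P_BAL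
import Pool.Agent.PRC.P_EXP
import Pool.Agent.PRC.P_KIX
import Pool.Agent.PRC.P_BDP
import Pool.Agent.PRC.P_BPR
import Pool.Agent.PRC.P_PBN
import Pool.Agent.PRC.P_HHN
import Pool.Agent.PRC.P_CEN
import Pool.Agent.PRC.P_CEI
import Pool.Agent.PRC.P_HUB
import Pool.Agent.PRC.P_REC
import Pool.Agent.PRC.P_TRF
import Pool.Agent.PRC.P_ADJ
import Pool.Agent.PRC.P_LAD
import Pool.Agent.PRC.P_LDR
import Pool.Agent.PRC.P_DET
import Pool.Agent.PRC.P_HDO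
import Pool.Agent.PRC.P_HDP
import Pool.Agent.PRC.P_HDC
import Pool.Agent.PRC.P_TRE
import Pool.Agent.PRC.P_EDP
import Pool.Agent.PRC.P_GDP
import Pool.Agent.PRC.P_ROT
import Pool.Agent.PRC.P_JOI
import Pool.Agent.PRC.P_EXB
import Pool.Agent.PRC.P_FBX
import Pool.Agent.PRC.P_LNR
import Pool.Agent.PRC.P_BRI

/-!
# PRC: assembly
-/

namespace Pool.Agent.PRC

theorem q_SPL : T_SPL := p_SPL

theorem q_IND : T_IND := p_IND q_SPL

theorem q_INF : T_INF := p_INF q_SPL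

theorem q_CON : T_CON := p_CON q_SPL

theorem q_PRJ : T_PRJ := p_PRJ

theorem q_PRV : T_PRV := p_PRV

theorem q_EXC : T_EXC := p_EXC q_IND q_PRV

theorem q_FKG : T_FKG := p_FKG

theorem q_FKN : T_FKN := p_FKN q_FKG

theorem q_ZOL : T_ZOL := p_ZOL q_IND

theorem q_FST : T_FST := p_FST q_IND

theorem q_JEN : T_JEN := p_JEN

theorem q_ORL : T_ORL := p_ORL q_IND q_PRV

theorem q_DEL : T_DEL := p_DEL

theorem q_MSI : T_MSI := p_MSI

theorem q_RCF : T_RCF := p_RCF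

theorem q_UNE : T_UNE := p_UNE

theorem q_UCL : T_UCL := p_UCL

theorem q_USM : T_USM := p_USM q_UCL q_CON q_PRV

theorem q_RMV : T_RMV := p_RMV

theorem q_ONE : T_ONE := p_ONE q_ZOL q_RMV q_MSI q_UNE

theorem q_SGP : T_SGP := p_SGP

theorem q_SYU : T_SYU := p_SYU q_SGP

theorem q_SQR : T_SQR := p_SQR q_FKN q_SYU

theorem q_PAD : T_PAD := p_PAD q_PRV q_IND

theorem q_GMT : T_GMT := p_GMT q_ONE q_USM q_SQR q_PAD q_PRJ q_CON

theorem q_STD : T_STD := p_STD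

theorem q_STP : T_STP := p_STP q_STD q_EXC q_JEN q_PRJ

theorem q_RUN : T_RUN := p_RUN

theorem q_RFN : T_RFN := p_RFN

theorem q_MAR : T_MAR := p_MAR q_RUN q_RFN q_INF

theorem q_REG : T_REG := p_REG

theorem q_FRS : T_FRS := p_FRS

theorem q_IVC : T_IVC := p_IVC q_REG

theorem q_IVT : T_IVT := p_IVT

theorem q_IVL : T_IVL := p_IVL q_FRS q_REG q_RCF

theorem q_IV0 : T_IV0 := p_IV0

theorem q_JMO : T_JMO := p_JMO

theorem q_FNF : T_FNF := p_FNF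

theorem q_STO : T_STO := p_STO q_FRS q_REG

theorem q_EXL : T_EXL := p_EXL q_IVC q_IVT q_IVL q_JMO q_FNF q_STO

theorem q_OPN : T_OPN := p_OPN

theorem q_VLR : T_VLR := p_VLR q_IND q_PRV

theorem q_VLM : T_VLM := p_VLM

theorem q_SUB : T_SUB := p_SUB q_VLR q_VLM q_STP q_FNF

theorem q_CFN : T_CFN := p_CFN

theorem q_SCH : T_SCH := p_SCH

theorem q_BAL : T_BAL := p_BAL

theorem q_EXP : T_EXP := p_EXP q_MAR q_RFN q_EXL q_IV0 q_SCH q_SUB q_OPN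

theorem q_KIX : T_KIX := p_KIX

theorem q_BDP : T_BDP := p_BDP q_KIX

theorem q_BPR : T_BPR := p_BPR q_BDP q_IND q_KIX q_PRV

theorem q_PBN : T_PBN := p_PBN

theorem q_HHN : T_HHN := p_HHN

theorem q_CEN : T_CEN := p_CEN

theorem q_CEI : T_CEI := p_CEI

theorem q_HUB : T_HUB := p_HUB q_CEN q_CEI q_KIX

theorem q_REC : T_REC := p_REC

theorem q_TRF : T_TRF := p_TRF

theorem q_ADJ : T_ADJ := p_ADJ q_CEN q_CEI q_REC q_TRF q_KIX

theorem q_LAD : T_LAD := p_LAD q_CEN q_CEI q_REC q_TRF q_ADJ q_KIX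

theorem q_LDR : T_LDR := p_LDR q_LAD q_HHN q_KIX

theorem q_DET : T_DET := p_DET q_LDR q_REC q_TRF q_ADJ q_HHN

theorem q_HDO : T_HDO := p_HDO q_DET q_BPR q_PBN q_HHN q_KIX

theorem q_HDP : T_HDP := p_HDP q_HDO

theorem q_HDC : T_HDC := p_HDC q_HDP

theorem q_TRE : T_TRE := p_TRE

theorem q_EDP : T_EDP := p_EDP

theorem q_GDP : T_GDP := p_GDP

theorem q_ROT : T_ROT := p_ROT q_ORL q_USM q_UNE q_PAD q_CON

theorem q_JOI : T_JOI := p_JOI q_RCF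

theorem q_EXB : T_EXB := p_EXB q_HDC q_GMT q_CFN q_BAL q_EXP

theorem q_FBX : T_FBX := p_FBX

theorem q_LNR : T_LNR := p_LNR q_DEL q_EXB q_ROT q_ORL q_MSI q_FBX q_FST q_GDP q_EDP q_TRE q_JOI

theorem q_BRI : T_BRI := p_BRI

/-- linear distances in supercritical site percolation -/
theorem ldi : LBL.T_LDI := q_BRI q_LNR

end Pool.Agent.PRC
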