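import Pool.Agent.PRC.T2
import Pool.Agent.PRC.Base

/-!
# PRC-BAL: the comparison dynamics reaches the ball
-/

set_option autoImplicit false

open MeasureTheory Filter Topology
open scoped Classical

namespace Pool.Agent.PRC

open TRP (bern law)

noncomputable section

namespace BAL_

variable {d : ℕ}

/-- one step of the pair version -/
def stp (X : Zd d → Bool) (s : Finset (Zd d) × Finset (Zd d)) (τ : Ln d) : Finset (Zd d) × Finset (Zd d) :=
  if τ.2.1 ∈ s.1 ∧ τ.2.1 + dv τ.2.2 ∉ s.2 then
    if X (τ.2.1 + dv τ.2.2) = true then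
      (insert (τ.2.1 + dv τ.2.2) s.1, insert (τ.2.1 + dv τ.2.2) s.2)
    else (s.1, insert (τ.2.1 + dv τ.2.2) s.2)
  else s

theorem dyn_eq (X : Zd d → Bool) (l : List (Ln d)) (C E : Finset (Zd d)) :
    dyn X l C E = (l.foldl (stp X) (C, E)).1 := by
  induction l generalizing C E with
  | nil => rfl
  | cons τ l ih =>
    rw [List.foldl_cons]
    unfold dyn stp
    split_ifs with h1 h2
    · exact ih _ _
    · exact ih _ _
    · exact ih _ _

/-- the invariant -/
def Ok (X : Zd d → Bool) (s : Finset (Zd d) × Finset (Zd d)) : Prop := ∀ v ∈ s.2, X v = true → v ∈ s.1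

theorem stp_ok (X : Zd d → Bool) (s : Finset (Zd d) × Finset (Zd d)) (τ : Ln d) (h : Ok X s) :
    Ok X (stp X s τ) := by
  unfold stp
  split_ifs with h1 h2
  · intro v hv hXv
    rcases Finset.mem_insert.1 hv with hv | hv
    · rw [hv]
      exact Finset.mem_insert_self _ _
    · exact Finset.mem_insert_of_mem (h v hv hXv)
  · intro v hv hXv
    rcases Finset.mem_insert.1 hv with hv | hv
    · rw [hv] at hXv
      exact absurd hXv h2
    · exact h v hv hXv
  · exact h

theorem stp_mono (X : Zd d → Bool) (s : Finset (Zd d) × Finset (Zd d)) (τ : Ln d) :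
    s.1 ⊆ (stp X s τ).1 ∧ s.2 ⊆ (stp X s τ).2 := by
  unfold stp
  split_ifs with h1 h2
  · exact ⟨Finset.subset_insert _ _, Finset.subset_insert _ _⟩
  · exact ⟨subset_rfl, Finset.subset_insert _ _⟩
  · exact ⟨subset_rfl, subset_rfl⟩

theorem stp_exam (X : Zd d → Bool) (s : Finset (Zd d) × Finset (Zd d)) (τ : Ln d) (h : τ.2.1 ∈ s.1) :
    τ.2.1 + dv τ.2.2 ∈ (stp X s τ).2 := by
  unfold stp
  split_ifs with h1 h2
  · exact Finset.mem_insert_self _ _
  · exact Finset.mem_insert_self _ _
  · by_contra hcon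
    exact h1 ⟨h, hcon⟩

theorem fold_ok (X : Zd d → Bool) (l : List (Ln d)) (s : Finset (Zd d) × Finset (Zd d)) (h : Ok X s) :
    Ok X (l.foldl (stp X) s) := by
  induction l generalizing s with
  | nil => exact h
  | cons τ l ih => exact ih _ (stp_ok X s τ h)

theorem fold_mono (X : Zd d → Bool) (l : List (Ln d)) (s : Finset (Zd d) × Finset (Zd d)) :
    s.1 ⊆ (l.foldl (stp X) s).1 ∧ s.2 ⊆ (l.foldl (stp X) s).2 := by
  induction l generalizing s with
  | nil => exact ⟨subset_rfl, subset_rfl⟩
  | cons τ l ih =>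
    obtain ⟨h1, h2⟩ := stp_mono X s τ
    obtain ⟨h3, h4⟩ := ih (stp X s τ)
    exact ⟨h1.trans h3, h2.trans h4⟩

theorem fold_exam (X : Zd d → Bool) (l : List (Ln d)) (s : Finset (Zd d) × Finset (Zd d)) (τ : Ln d)
    (hτ : τ ∈ l) (h : τ.2.1 ∈ s.1) : τ.2.1 + dv τ.2.2 ∈ (l.foldl (stp X) s).2 := by
  induction l generalizing s with
  | nil => exact absurd hτ List.not_mem_nil
  | cons τ' l ih =>
    rw [List.foldl_cons]
    rcases List.mem_cons.1 hτ with he | hl
    · subst he
      exact (fold_mono X l _).2 (stp_exam X s τ h)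
    · exact ih _ hl ((stp_mono X s τ').1 h)

/-- the links of the round `t` -/
def rnd (cf : ℕ → Cl d) (BB : Finset (Zd d)) (t : ℕ) : List (Ln d) :=
  ((BB ×ˢ (Finset.univ : Finset (Dir d))).filter fun x => cls x.1 x.2 = cf t ∧
      x.1 + dv x.2 ∈ BB).toList.map fun x => (t, x)

theorem sched_eq (cf : ℕ → Cl d) (BB : Finset (Zd d)) (T : ℕ) :
    sched cf BB T = (List.range T).flatMap (rnd cf BB) := rfl

theorem sched_add (cf : ℕ → Cl d) (BB : Finset (Zd d)) (T T' : ℕ) :
    sched cf BB (T + T') = sched cf BB T ++ ((List.range T').map (T + ·)).flatMap (rnd cf BB) := by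
  rw [sched_eq, sched_eq, List.range_add, List.flatMap_append]

theorem reach (cf : ℕ → Cl d) (BB : Finset (Zd d)) (X : Zd d → Bool) (hc : Cov cf) (h0 : 0 ∈ BB) (j : ℕ) :
    ∀ w, Lk Adj {v | X v = true ∧ v ∈ BB} j 0 w →
      w ∈ ((sched cf BB (j * Nc d)).foldl (stp X) ({0}, {0})).1 := by
  induction j with
  | zero =>
    intro w hw
    have hw0 : (0 : Zd d) = w := hw
    rw [← hw0]
    exact (fold_mono X _ _).1 (Finset.mem_singleton_self _)
  | succ j ih =>
    intro w hw
    rw [Nat.succ_mul, sched_add, List.foldl_append]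
    rcases hw with hw | ⟨w', h1, ⟨e, he⟩, h3⟩
    · exact (fold_mono X _ _).1 (ih w hw)
    · have hw' := ih w' h1
      have hBB : w' ∈ BB := by
        rcases h1.end_mem with h | h
        · rwa [← h]
        · exact h.2
      obtain ⟨t', ht1, ht2, ht3⟩ := hc (cls w' e) j
      have hmem : ((t', w', e) : Ln d) ∈ ((List.range (Nc d)).map (j * Nc d + ·)).flatMap (rnd cf BB) := by
        rw [List.mem_flatMap]
        refine ⟨t', ?_, ?_⟩
        · rw [List.mem_map]
          refine ⟨t' - j * Nc d, ?_, ?_⟩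
          · rw [List.mem_range]
            rw [Nat.succ_mul] at ht2
            omega
          · omega
        · unfold rnd
          rw [List.mem_map]
          refine ⟨(w', e), ?_, rfl⟩
          rw [Finset.mem_toList, Finset.mem_filter]
          refine ⟨Finset.mem_product.2 ⟨hBB, Finset.mem_univ _⟩, ht3.symm, ?_⟩
          have h4 := h3.2
          rw [he] at h4
          exact h4
      have hex := fold_exam X _ ((sched cf BB (j * Nc d)).foldl (stp X) ({0}, {0})) (t', w', e) hmem hw'
      have hok : Ok X ((((List.range (Nc d)).map (j * Nc d + ·)).flatMap (rnd cf BB)).foldl (stp X)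
          ((sched cf BB (j * Nc d)).foldl (stp X) ({0}, {0}))) :=
        fold_ok X _ _ (fold_ok X _ _ fun v hv _ => hv)
      have hex' : w ∈ ((((List.range (Nc d)).map (j * Nc d + ·)).flatMap (rnd cf BB)).foldl (stp X)
          ((sched cf BB (j * Nc d)).foldl (stp X) ({0}, {0}))).2 := by
        rw [he]
        exact hex
      exact hok w hex' h3.1

end BAL_

open BAL_ in
theorem p_BAL : T_BAL := by
  intro d k cf BB X w hc h0 hw
  rw [dyn_eq]
  exact reach cf BB X hc h0 k w hw

end

end Pool.Agent.PRC
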