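import Pool.Agent.PRC.T3
import Pool.Agent.PRC.Base

/-!
# PRC: HDO, two points in an orthant at high density
-/

set_option autoImplicit false

open MeasureTheory Filter Topology
open scoped Classical

namespace Pool.Agent.PRC

open TRP (bern law)

noncomputable section

namespace HDO_

theorem LL_ge (k : ℕ) : k + 1 ≤ LL k := by
  induction k with
  | zero => simp [LL]
  | succ k ih =>
    have h1 : 2 ≤ bb (k + 1) := by
      unfold bb
      calc 2 = 2 ^ 1 := by norm_num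
        _ ≤ 2 ^ (k + 1 + 4) := Nat.pow_le_pow_right (by norm_num) (by omega)
    have h2 : LL (k + 1) = LL k * bb (k + 1) := rfl
    rw [h2]
    calc k + 1 + 1 ≤ (k + 1) * 2 := by omega
      _ ≤ LL k * bb (k + 1) := Nat.mul_le_mul ih h1

theorem exists_K (n : ℕ) : ∃ K, LL K ≤ n + 1 ∧ n + 1 < LL (K + 1) := by
  have hex : ∃ k, n + 1 < LL k := ⟨n + 1, by have := LL_ge (n + 1); omega⟩
  have h1 := Nat.find_spec hex
  have h2 : Nat.find hex ≠ 0 := by
    intro h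
    rw [h] at h1
    simp [LL] at h1
  obtain ⟨K, hK⟩ := Nat.exists_eq_succ_of_ne_zero h2
  refine ⟨K, ?_, ?_⟩
  · by_contra hc
    have := Nat.find_min' hex (not_le.1 hc)
    omega
  · rw [hK] at h1
    exact h1

theorem kix_facts {d : ℕ} (K : ℕ) (u : Zd d) (hu : ∀ i, 0 ≤ u i) (hL : 0 < LL K)
    (hK : nm u + 1 < LL (K + 1)) (i : Fin d) :
    0 ≤ kix K u i ∧ kix K u i < bb (K + 1) ∧ (kix K u i).natAbs * LL K ≤ nm u := by
  obtain ⟨n, hn⟩ := Int.eq_ofNat_of_zero_le (hu i)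
  have hn' : u i = (n : ℤ) := hn
  have h1 := abs_le_nm u i
  rw [hn', abs_of_nonneg (Int.natCast_nonneg n)] at h1
  have h2 : n ≤ nm u := by exact_mod_cast h1
  have h3 : kix K u i = ((n / LL K : ℕ) : ℤ) := by
    unfold kix
    rw [hn', Int.natCast_div]
  rw [h3]
  refine ⟨Int.natCast_nonneg _, ?_, ?_⟩
  · have h4 : n / LL K < bb (K + 1) := by
      rw [Nat.div_lt_iff_lt_mul hL]
      have h5 : LL (K + 1) = LL K * bb (K + 1) := rfl
      rw [h5, mul_comm] at hK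
      omega
    exact_mod_cast h4
  · rw [Int.natAbs_natCast]
    exact (Nat.div_mul_le_self n (LL K)).trans h2

theorem card_Icc {d : ℕ} (K : ℕ) (u : Zd d) (hu : ∀ i, 0 ≤ u i) (hL : 0 < LL K)
    (hK : nm u + 1 < LL (K + 1)) : (Finset.Icc (0 : Zd d) (kix K u)).card ≤ bb (K + 1) ^ d := by
  rw [Pi.card_Icc]
  calc ∏ i, (Finset.Icc ((0 : Zd d) i) (kix K u i)).card ≤ ∏ _i : Fin d, bb (K + 1) := by
        refine Finset.prod_le_prod' fun i _ => ?_
        rw [Int.card_Icc, Pi.zero_apply]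
        have h := kix_facts K u hu hL hK i
        omega
    _ = bb (K + 1) ^ d := by simp

theorem len {d : ℕ} (K : ℕ) (u : Zd d) (hu : ∀ i, 0 ≤ u i) (hL : 0 < LL K)
    (hK1 : LL K ≤ nm u + 1) (hK : nm u + 1 < LL (K + 1)) (hH : HH K ≤ 2 * LL K) :
    (4 * d + ∑ i, (kix K u i).natAbs) * HH K ≤ 16 * d * (nm u + 1) := by
  have h1 : (∑ i, (kix K u i).natAbs) * LL K ≤ d * nm u := by
    rw [Finset.sum_mul]
    calc ∑ i, (kix K u i).natAbs * LL K ≤ ∑ _i : Fin d, nm u :=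
          Finset.sum_le_sum fun i _ => (kix_facts K u hu hL hK i).2.2
      _ = d * nm u := by simp
  calc (4 * d + ∑ i, (kix K u i).natAbs) * HH K
      ≤ (4 * d + ∑ i, (kix K u i).natAbs) * (2 * LL K) := Nat.mul_le_mul_left _ hH
    _ = 8 * (d * LL K) + 2 * ((∑ i, (kix K u i).natAbs) * LL K) := by ring
    _ ≤ 8 * (d * (nm u + 1)) + 2 * (d * nm u) := by
        have h2 : d * LL K ≤ d * (nm u + 1) := Nat.mul_le_mul_left _ hK1
        omega
    _ ≤ 16 * d * (nm u + 1) := by nlinarith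

theorem geom (θ : ℝ) (hθ : 0 ≤ θ) (K : ℕ) :
    ∑ k ∈ Finset.range K, θ / 2 ^ (k + 1) ≤ θ := by
  have h : ∀ K : ℕ, ∑ k ∈ Finset.range K, θ / 2 ^ (k + 1) = θ - θ / 2 ^ K := by
    intro K
    induction K with
    | zero => simp
    | succ K ih =>
      rw [Finset.sum_range_succ, ih, pow_succ]
      field_simp
      ring
  rw [h]
  have : 0 ≤ θ / 2 ^ K := by positivity
  linarith

/-- the event that the boxes of the ladder of `v` are not clean -/
def NC {d : ℕ} (K : ℕ) (v : Zd d) : Set (Zd d → Bool) :=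
  ⋃ k ∈ Finset.range K, ⋃ w ∈ sbx k (kix (k + 1) v), {X | bad X k w}

theorem NC_le (h_BPR : T_BPR) (h_PBN : T_PBN) (h_KIX : T_KIX) {d : ℕ} (hd : 1 ≤ d) (θ q : ℝ)
    (hθ : 0 < θ) (hθ1 : θ ≤ 1) (hq0 : 0 ≤ q) (hq1 : q ≤ 1) (hq : 1 - q ≤ θ / 2 ^ (12 * d))
    (K : ℕ) (v : Zd d) : (law fun _ : Zd d => q).real (NC K v) ≤ θ := by
  have := law_prob (I := Zd d) (q := fun _ => q) fun _ => ⟨hq0, hq1⟩
  refine le_trans ?_ (geom θ hθ.le K)
  unfold NC
  refine (measureReal_biUnion_finset_le _ _).trans (Finset.sum_le_sum fun k _ => ?_)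
  refine (measureReal_biUnion_finset_le _ _).trans ?_
  have h1 := (h_PBN d θ (1 - q) hd hθ hθ1 (by linarith) hq k).2
  refine le_trans ?_ h1
  calc ∑ w ∈ sbx k (kix (k + 1) v), (law fun _ : Zd d => q).real {X | bad X k w}
      ≤ ∑ _w ∈ sbx k (kix (k + 1) v), pib d (1 - q) k :=
        Finset.sum_le_sum fun w _ => h_BPR d k q w hq0 hq1
    _ = (bb (k + 1) : ℝ) ^ d * pib d (1 - q) k := by
        rw [Finset.sum_const, (h_KIX d k).2.2.2, nsmul_eq_mul]
        push_cast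
        ring

theorem notMem_NC {d : ℕ} {K : ℕ} {v : Zd d} {X : Zd d → Bool} (h : X ∉ NC K v) :
    ∀ k < K, cln X k (kix (k + 1) v) := by
  intro k hk w hw hb
  apply h
  unfold NC
  rw [Set.mem_iUnion₂]
  refine ⟨k, Finset.mem_range.2 hk, ?_⟩
  rw [Set.mem_iUnion₂]
  exact ⟨w, hw, hb⟩

end HDO_

theorem p_HDO (h_DET : T_DET) (h_BPR : T_BPR) (h_PBN : T_PBN) (h_HHN : T_HHN) (h_KIX : T_KIX) :
    T_HDO := by
  intro d ε hd hε
  obtain ⟨θ, hθ⟩ : ∃ θ : ℝ, min 1 (ε / 4) = θ := ⟨_, rfl⟩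
  have hθ0 : 0 < θ := by rw [← hθ]; exact lt_min one_pos (by positivity)
  have hθ1 : θ ≤ 1 := by rw [← hθ]; exact min_le_left _ _
  have hθε : θ ≤ ε / 4 := by rw [← hθ]; exact min_le_right _ _
  have hpw : (2 : ℝ) ≤ 2 ^ (12 * d) := by
    calc (2 : ℝ) = 2 ^ 1 := by norm_num
      _ ≤ 2 ^ (12 * d) := pow_le_pow_right₀ (by norm_num) (by omega)
  have hq0 : 0 < θ / 2 ^ (12 * d) := by positivity
  have hq1 : θ / 2 ^ (12 * d) ≤ 1 / 2 := by
    rw [div_le_div_iff₀ (by positivity) (by norm_num)]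
    nlinarith
  refine ⟨1 - θ / 2 ^ (12 * d), by linarith, by linarith, ?_⟩
  intro q hqa hqb u hu
  have hq' : 0 ≤ q := by linarith
  have hprob := law_prob (I := Zd d) (q := fun _ => q) fun _ => ⟨hq', hqb⟩
  have hqc : 1 - q ≤ θ / 2 ^ (12 * d) := by linarith
  obtain ⟨K, hK1, hK2⟩ := HDO_.exists_K (nm u)
  have hL : 0 < LL K := (h_HHN K).2.2.1
  obtain ⟨E, hE⟩ : ∃ E : Set (Zd d → Bool), {X | X 0 = true ∧
    Lk Adj {v | X v = true ∧ ∀ i, 0 ≤ v i} (16 * d * (nm u + 1)) 0 u} = E := ⟨_, rfl⟩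
  rw [hE]
  obtain ⟨B, hB⟩ : ∃ B : Set (Zd d → Bool),
    (⋃ w ∈ Finset.Icc (0 : Zd d) (kix K u), {X | bad X K w}) = B := ⟨_, rfl⟩
  have hcov : Eᶜ ⊆ (HDO_.NC K 0 ∪ HDO_.NC K u) ∪ B := by
    intro X hX
    by_contra hc
    rw [Set.mem_union, Set.mem_union, not_or, not_or] at hc
    apply hX
    rw [← hE]
    have h1 := h_DET d K X u hd hu (HDO_.notMem_NC hc.1.1) (HDO_.notMem_NC hc.1.2)
      (by
        intro w hw hb
        apply hc.2
        rw [← hB, Set.mem_iUnion₂]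
        exact ⟨w, hw, hb⟩)
    exact ⟨h1.1, h1.2.mono (HDO_.len K u hu hL hK1 hK2 (h_HHN K).1)⟩
  have hBle : (law fun _ : Zd d => q).real B ≤ θ := by
    rw [← hB]
    refine (measureReal_biUnion_finset_le _ _).trans ?_
    have h1 := h_PBN d θ (1 - q) (by omega) hθ0 hθ1 (by linarith) hqc K
    have h2 : θ / 2 ^ (K + 1) ≤ θ := div_le_self hθ0.le (one_le_pow₀ (by norm_num))
    refine le_trans ?_ (h1.2.trans h2)
    calc ∑ w ∈ Finset.Icc (0 : Zd d) (kix K u), (law fun _ : Zd d => q).real {X | bad X K w}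
        ≤ ∑ _w ∈ Finset.Icc (0 : Zd d) (kix K u), pib d (1 - q) K :=
          Finset.sum_le_sum fun w _ => h_BPR d K q w hq' hqb
      _ = ((Finset.Icc (0 : Zd d) (kix K u)).card : ℝ) * pib d (1 - q) K := by
          rw [Finset.sum_const, nsmul_eq_mul]
      _ ≤ (bb (K + 1) : ℝ) ^ d * pib d (1 - q) K := by
          refine mul_le_mul_of_nonneg_right ?_ h1.1
          exact_mod_cast HDO_.card_Icc K u hu hL hK2
  have h1 := HDO_.NC_le h_BPR h_PBN h_KIX (by omega) θ q hθ0 hθ1 hq' hqb hqc K (0 : Zd d)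
  have h2 := HDO_.NC_le h_BPR h_PBN h_KIX (by omega) θ q hθ0 hθ1 hq' hqb hqc K u
  have h3 : (law fun _ : Zd d => q).real Eᶜ ≤ 3 * θ := by
    calc (law fun _ : Zd d => q).real Eᶜ
        ≤ (law fun _ : Zd d => q).real ((HDO_.NC K 0 ∪ HDO_.NC K u) ∪ B) := measureReal_mono hcov
      _ ≤ (law fun _ : Zd d => q).real (HDO_.NC K 0 ∪ HDO_.NC K u) +
          (law fun _ : Zd d => q).real B := measureReal_union_le _ _
      _ ≤ (law fun _ : Zd d => q).real (HDO_.NC K 0) + (law fun _ : Zd d => q).real (HDO_.NC K u) +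
          (law fun _ : Zd d => q).real B := by
          gcongr
          exact measureReal_union_le _ _
      _ ≤ 3 * θ := by linarith
  have h4 : (1 : ℝ) ≤ (law fun _ : Zd d => q).real E + (law fun _ : Zd d => q).real Eᶜ := by
    have h5 := measureReal_union_le (μ := law fun _ : Zd d => q) E Eᶜ
    rw [Set.union_compl_self, probReal_univ] at h5
    exact h5
  linarith

end

end Pool.Agent.PRC
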