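import Pool.Agent.PRC.T1

/-!
# PRC: a vertex reached in a finite set is reached in at most card steps
-/

set_option autoImplicit false

open scoped Classical

namespace Pool.Agent.PRC

theorem RCF_levels {V : Type} {adj : V → V → Prop} {F : Finset V} {S : Set V} {v : V} {n : ℕ}
    (hn : ∃ u ∈ S, Lk adj (↑F : Set V) n u v)
    (hmin : ∀ k < n, ¬ ∃ u ∈ S, Lk adj (↑F : Set V) k u v) :
    ∀ j, j ≤ n → ∃ w, (∃ u ∈ S, Lk adj (↑F : Set V) (n - j) u w) ∧
      ∀ k < n - j, ¬ ∃ u ∈ S, Lk adj (↑F : Set V) k u w := by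
  intro j
  induction j with
  | zero => intro _; exact ⟨v, hn, hmin⟩
  | succ j ih =>
    intro hj
    obtain ⟨w, ⟨u, hu, hL⟩, hw⟩ := ih (by omega)
    have e : n - j = (n - (j + 1)) + 1 := by omega
    rw [e] at hL hw
    rcases hL with hL | ⟨w', hL, ha, hF⟩
    · exact absurd ⟨u, hu, hL⟩ (hw _ (Nat.lt_succ_self _))
    · refine ⟨w', ⟨u, hu, hL⟩, ?_⟩
      rintro k hk ⟨u', hu', hL'⟩
      refine hw (k + 1) (by omega) ⟨u', hu', Or.inr ⟨w', hL', ha, hF⟩⟩

theorem RCF_card {V : Type} {adj : V → V → Prop} {F : Finset V} {S : Set V} {v : V} {n : ℕ}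
    (hn : ∃ u ∈ S, Lk adj (↑F : Set V) n u v)
    (hmin : ∀ k < n, ¬ ∃ u ∈ S, Lk adj (↑F : Set V) k u v) : n ≤ F.card := by
  have key : ∀ i : Fin n, ∃ w, w ∈ F ∧ (∃ u ∈ S, Lk adj (↑F : Set V) (i.val + 1) u w) ∧
      ∀ k < i.val + 1, ¬ ∃ u ∈ S, Lk adj (↑F : Set V) k u w := by
    intro i
    obtain ⟨w, hw, hk⟩ := RCF_levels hn hmin (n - (i.val + 1)) (by omega)
    have e : n - (n - (i.val + 1)) = i.val + 1 := by have := i.2; omega
    rw [e] at hw hk
    refine ⟨w, ?_, hw, hk⟩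
    obtain ⟨u, hu, hL⟩ := hw
    rcases hL with hL | ⟨w', hL, ha, hF⟩
    · exact absurd ⟨u, hu, hL⟩ (hk _ (Nat.lt_succ_self _))
    · exact Finset.mem_coe.1 hF
  choose f hfF hf hk using key
  have hinj : Function.Injective f := by
    intro a b hab
    by_contra hne
    have hne' : a.val ≠ b.val := fun h => hne (Fin.ext h)
    rcases lt_or_gt_of_ne hne' with h | h
    · have := hk b (a.val + 1) (by omega)
      rw [← hab] at this
      exact this (hf a)
    · have := hk a (b.val + 1) (by omega)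
      rw [hab] at this
      exact this (hf b)
  calc n = (Finset.univ : Finset (Fin n)).card := by simp
    _ = ((Finset.univ : Finset (Fin n)).image f).card :=
        (Finset.card_image_of_injective _ hinj).symm
    _ ≤ F.card := Finset.card_le_card (by
        intro x hx
        obtain ⟨i, _, rfl⟩ := Finset.mem_image.1 hx
        exact hfF i)

theorem p_RCF : T_RCF := by
  intro V adj F S v hv
  obtain ⟨u, hu, n, hL⟩ := Rc.lk hv
  have hex : ∃ n, ∃ u ∈ S, Lk adj (↑F : Set V) n u v := ⟨n, u, hu, hL⟩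
  obtain ⟨u', hu', hL'⟩ := Nat.find_spec hex
  have hle := RCF_card (Nat.find_spec hex) (fun k hk => Nat.find_min hex hk)
  exact ⟨u', hu', hL'.mono hle⟩

end Pool.Agent.PRC
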