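import Pool.Agent.PRC.T2

/-!
# PRC, target REG: geometry of a step
-/

set_option autoImplicit false

open MeasureTheory Filter Topology
open scoped Classical

namespace Pool.Agent.PRC

open TRP (bern law)

namespace REG_

theorem bc_app {d : ℕ} (m n : ℕ) (u : Zd d) (i : Fin d) :
    bc m n u i = ((n : ℤ) + m + 1) * u i := by
  unfold bc NN
  rw [Pi.smul_apply, smul_eq_mul]
  push_cast
  ring

theorem pc_app {d : ℕ} (m : ℕ) (e : Dir d) (x : Zd d) (i : Fin d) :
    pc m e x i = x i + ((m : ℤ) + 1) * dv e i := by
  unfold pc
  rw [Pi.add_apply, Pi.smul_apply, smul_eq_mul]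

end REG_

theorem p_REG : T_REG := by
  intro d m n u z e hz
  rw [mem_Bx] at hz
  have hz' : ∀ i, |z i - ((n : ℤ) + m + 1) * u i| ≤ (n : ℤ) + m + 1 := by
    intro i
    have h := hz i
    rw [REG_.bc_app] at h
    unfold NN at h
    push_cast at h
    exact h
  constructor
  · intro x hx
    rw [mem_Bx] at hx
    unfold rg
    rw [mem_Bx]
    intro i
    have h1 := abs_le.1 (hx i)
    have h2 := abs_le.1 (hz' i)
    rw [REG_.bc_app, abs_le]
    unfold NN
    push_cast at h1 h2 ⊢
    constructor
    · linarith [h1.1, h2.1]
    · linarith [h1.2, h2.2]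
  · intro x hx
    unfold Qd at hx
    rw [Finset.mem_filter, mem_Bx_zero] at hx
    obtain ⟨hx1, hx2, hx3⟩ := hx
    constructor
    · intro y hy
      unfold pd at hy
      rw [mem_Bx] at hy
      unfold rg
      rw [mem_Bx]
      intro i
      have h0 := abs_le.1 (hy i)
      have h1 := abs_le.1 (hx1 i)
      have h2 := abs_le.1 (hz' i)
      rw [Pi.sub_apply] at h1
      rw [REG_.pc_app] at h0
      have h3 : |dv e i| ≤ 1 := by
        by_cases hi : i = e.1
        · rw [hi, dv_self, sg_abs]
        · rw [dv_ne e hi]
          simp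
      have h4 := abs_le.1 h3
      have h5 : |((m : ℤ) + 1) * dv e i| ≤ (m : ℤ) + 1 := by
        rw [abs_mul, abs_of_nonneg (by positivity : (0 : ℤ) ≤ (m : ℤ) + 1)]
        have h6 : (0 : ℤ) ≤ (m : ℤ) + 1 := by positivity
        nlinarith
      have h6 := abs_le.1 h5
      rw [REG_.bc_app, abs_le]
      unfold NN
      push_cast at h1 h2 ⊢
      constructor
      · linarith [h0.1, h1.1, h2.1, h6.1]
      · linarith [h0.2, h1.2, h2.2, h6.2]
    · rw [mem_Bx]
      intro i
      have h1 := abs_le.1 (hx1 i)
      have h2 := abs_le.1 (hz' i)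
      rw [Pi.sub_apply] at h1
      rw [REG_.pc_app, REG_.bc_app, Pi.add_apply, abs_le]
      unfold NN
      push_cast
      by_cases hi : i = e.1
      · subst hi
        rw [dv_self]
        rw [Pi.sub_apply] at hx2
        constructor
        · nlinarith [h2.1]
        · nlinarith [h2.2]
      · rw [dv_ne e hi]
        have h3 := hx3 i hi
        rw [Pi.sub_apply] at h3
        unfold ste at h3
        rw [REG_.bc_app] at h3
        by_cases hlt : z i < ((n : ℤ) + m + 1) * u i
        · rw [decide_eq_true hlt] at h3
          unfold sg at h3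
          rw [if_pos rfl] at h3
          constructor
          · nlinarith [h2.1]
          · nlinarith [h1.2]
        · rw [decide_eq_false hlt] at h3
          unfold sg at h3
          rw [if_neg (by simp)] at h3
          push Not at hlt
          constructor
          · nlinarith [h1.1]
          · nlinarith [h2.2]

end Pool.Agent.PRC
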