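import Pool.Agent.PRC.Base
import Pool.Agent.TRP.T1

/-!
# PRC: targets A (product measures) and B (static percolation)

Every target is a `Prop` with a complete proof in its docstring; every other target may be taken as
a hypothesis. `Pool/Agent/PRC/Base.lean` has simple proved facts.
-/

set_option autoImplicit false

open MeasureTheory Filter Topology
open scoped Classical

namespace Pool.Agent.PRC

open TRP (bern law)

noncomputable section

/-! ## A. Product measures -/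

/-- SPL. Two independent configurations merged along `J`. Measurability: every coordinate of the
merging map is measurable (`measurable_pi_iff`). The identity: `Measure.eq_infinitePi`; the preimage
of a box `Set.pi s t` (`s` finite) is `Set.pi (s ∩ J) t ×ˢ Set.pi (s \ J) t`, its measure is
`(∏ i ∈ s with i ∈ J, μ i (t i)) * ∏ i ∈ s with i ∉ J, μ i (t i)` by `Measure.prod_prod` and
`Measure.infinitePi_pi`, and `Finset.prod_filter_mul_prod_filter_not` gives the product over `s`. -/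
def T_SPL : Prop := ∀ (I : Type) (q : I → ℝ), (∀ i, 0 ≤ q i ∧ q i ≤ 1) → ∀ J : Set I,
  Measurable (fun x : (I → Bool) × (I → Bool) => mrg J x.1 x.2) ∧
  ((law q).prod (law q)).map (fun x : (I → Bool) × (I → Bool) => mrg J x.1 x.2) = law q

/-- IND. Events which depend on disjoint sets of coordinates are independent. From `T_SPL` for `J`:
`mrg J ω ω' ∈ A ↔ ω ∈ A` and `mrg J ω ω' ∈ B ↔ ω' ∈ B` (as `K` is disjoint from `J`), so the
preimage of `A ∩ B` is `A ×ˢ B`; `Measure.prod_prod`. -/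
def T_IND : Prop := ∀ (I : Type) (q : I → ℝ), (∀ i, 0 ≤ q i ∧ q i ≤ 1) →
  ∀ (J K : Set I) (A B : Set (I → Bool)), Dep J A → Dep K B → Disjoint J K →
    MeasurableSet A → MeasurableSet B →
    (law q).real (A ∩ B) = (law q).real A * (law q).real B

/-- INF. The same for an event and a bounded function: the integral of `ω ↦ 1_A(ω) f(ω)` over
`law q` is, by `T_SPL` and `integral_map`, the integral of `1_A(ω) f(ω')` over the product measure
(`integral_prod_mul` or Fubini). -/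
def T_INF : Prop := ∀ (I : Type) (q : I → ℝ), (∀ i, 0 ≤ q i ∧ q i ≤ 1) →
  ∀ (J K : Set I) (A : Set (I → Bool)) (f : (I → Bool) → ℝ), Dep J A →
    (∀ ω ω' : I → Bool, (∀ i ∈ K, ω i = ω' i) → f ω = f ω') → Disjoint J K →
    MeasurableSet A → Measurable f → (∃ C : ℝ, ∀ ω, |f ω| ≤ C) →
    ∫ ω in A, f ω ∂(law q) = (law q).real A * ∫ ω, f ω ∂(law q)

/-- CON. Conditional bounds. `T_SPL` for `J`: `P(A ∩ B)` is the integral over `ω` of
`1_A(ω) P{ω' | mrg J ω ω' ∈ B}` (`mrg J ω ω' ∈ A ↔ ω ∈ A`; `Measure.prod_apply`). -/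
def T_CON : Prop := ∀ (I : Type) (q : I → ℝ), (∀ i, 0 ≤ q i ∧ q i ≤ 1) →
  ∀ (J : Set I) (A B : Set (I → Bool)) (c : ℝ), Dep J A → MeasurableSet A → MeasurableSet B →
    0 ≤ c →
    ((∀ ω ∈ A, (law q).real {ω' | mrg J ω ω' ∈ B} ≤ c) →
      (law q).real (A ∩ B) ≤ c * (law q).real A) ∧
    ((∀ ω ∈ A, c ≤ (law q).real {ω' | mrg J ω ω' ∈ B}) →
      c * (law q).real A ≤ (law q).real (A ∩ B))

/-- PRJ. Reindexing along an injective map: `Measure.eq_infinitePi`; the preimage of `Set.pi s t` is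
`Set.pi (s.image f) t'` with `t' (f k) = t k`. -/
def T_PRJ : Prop := ∀ (I K : Type) (q : I → ℝ) (f : K → I), (∀ i, 0 ≤ q i ∧ q i ≤ 1) →
  Function.Injective f →
    (law q).map (fun (ω : I → Bool) (k : K) => ω (f k)) = law fun k => q (f k)

/-- PRV. The probability that all the sites of a finite set are open (closed):
`Measure.infinitePi_pi`. -/
def T_PRV : Prop := ∀ (I : Type) (q : I → ℝ) (F : Finset I), (∀ i, 0 ≤ q i ∧ q i ≤ 1) →
  (law q).real {ω | ∀ i ∈ F, ω i = true} = ∏ i ∈ F, q i ∧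
  (law q).real {ω | ∀ i ∈ F, ω i = false} = ∏ i ∈ F, (1 - q i)

/-- EXC. The probability that `A` happens and all the sites of a random set are closed. Both `A`
and the random set `f ω` depend on the coordinates in `J`, and `f ω` is disjoint from `J`. Sum over
the values `G ⊆ F` of `f ω`: the event `A ∩ {f ω = G}` depends on `J` and `{∀ i ∈ G, ω i = false}`
depends on `G`, so the probability of the intersection is `P(A ∩ {f = G}) ∏ i ∈ G, (1 - q i)` by
`T_IND` and `T_PRV`. -/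
def T_EXC : Prop := ∀ (I : Type) (q : I → ℝ) (F J : Finset I) (A : Set (I → Bool))
  (f : (I → Bool) → Finset I), (∀ i, 0 ≤ q i ∧ q i ≤ 1) → Dep (↑J : Set I) A →
    (∀ ω ω' : I → Bool, (∀ i ∈ J, ω i = ω' i) → f ω = f ω') → (∀ ω, f ω ⊆ F) → Disjoint F J →
    (law q).real {ω | ω ∈ A ∧ ∀ i ∈ f ω, ω i = false} =
      ∫ ω, (if ω ∈ A then ∏ i ∈ f ω, (1 - q i) else 0) ∂(law q)

/-- FKG. Harris' inequality. More generally `∫ f * ∫ g ≤ ∫ f g` for antitone functions `f`, `g` with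
values in `[0,1]` which depend on the coordinates of `F`, by induction on `F`: for `F = ∅` both are
constant. For `insert y F`, `TRP.T_RES` (proved as `TRP.p_RES`) gives
`∫ h = ∫ (q y * h₁ + (1 - q y) * h₀)` with `h₁ ω = h (update ω y true)`,
`h₀ ω = h (update ω y false)` for `h = f, g, f g`; `f₁, f₀, g₁, g₀` depend on `F` and are antitone;
`f₁ ≤ f₀`, `g₁ ≤ g₀`. Hence `∫ f g ≥ q a₁ b₁ + (1 - q) a₀ b₀` with `a_j = ∫ f_j`, `b_j = ∫ g_j`, and
this is `(q a₁ + (1 - q) a₀) (q b₁ + (1 - q) b₀) + q (1 - q) (a₁ - a₀) (b₁ - b₀)`. -/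
def T_FKG : Prop := ∀ (I : Type) (q : I → ℝ) (F : Finset I) (A B : Set (I → Bool)),
  (∀ i, 0 ≤ q i ∧ q i ≤ 1) → Dec A → Dec B → Dep (↑F : Set I) A → Dep (↑F : Set I) B →
    (law q).real A * (law q).real B ≤ (law q).real (A ∩ B)

/-- FKN. `T_FKG` for several events, by induction on `S` (the intersection of decreasing events is
decreasing). -/
def T_FKN : Prop := ∀ (I ι : Type) (q : I → ℝ) (F : Finset I) (S : Finset ι)
  (A : ι → Set (I → Bool)), (∀ i, 0 ≤ q i ∧ q i ≤ 1) →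
    (∀ s ∈ S, Dec (A s) ∧ Dep (↑F : Set I) (A s)) →
    ∏ s ∈ S, (law q).real (A s) ≤ (law q).real {ω | ∀ s ∈ S, ω ∈ A s}

/-- ZOL. Zero-one law. By `T_IND`, `P(A ∩ B) = P(A) P(B)` for every `B` which depends on finitely
many coordinates. These `B` form a generating system closed under intersections, and the class of
measurable `B` with this property is a Dynkin system (`MeasurableSpace.induction_on_inter`; or
`MeasureTheory.ext_of_generate_finite` for the measures `B ↦ P(A ∩ B)` and `B ↦ P(A) P(B)`); so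
`P(A) = P(A) ^ 2`. -/
def T_ZOL : Prop := ∀ (I : Type) (q : I → ℝ) (A : Set (I → Bool)), (∀ i, 0 ≤ q i ∧ q i ≤ 1) →
  MeasurableSet A → (∀ F : Finset I, Dep (↑F : Set I)ᶜ A) →
    (law q).real A = 0 ∨ (law q).real A = 1

/-- FST. First occurrence. The events `G a` depend on finitely many coordinates of `J`, the events
`E a` on finitely many coordinates of `K`. By induction on the finite set `S` of indices, more
generally with an additional event `H` (in place of the sure event) which depends on a finite subset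
of `J`: `P(H ∩ {∃ a ∈ S, G a} ∩ {∀ a ∈ S, G a → ¬ E a}) ≤ ε P(H ∩ {∃ a ∈ S, G a})`. For
`insert b S`: split into `G b` and its complement. On `G b` the event is contained in
`H ∩ G b ∩ (E b)ᶜ`, with probability `P(H ∩ G b) P((E b)ᶜ) ≤ ε P(H ∩ G b)` by `T_IND`. On the
complement use the induction hypothesis with `H ∩ (G b)ᶜ`. -/
def T_FST : Prop := ∀ (I ι : Type) (q : I → ℝ) (J K : Set I) (S : Finset ι)
  (G E : ι → Set (I → Bool)) (ε : ℝ), (∀ i, 0 ≤ q i ∧ q i ≤ 1) → Disjoint J K →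
    (∀ a ∈ S, ∃ F : Finset I, ↑F ⊆ J ∧ Dep (↑F : Set I) (G a)) →
    (∀ a ∈ S, ∃ F : Finset I, ↑F ⊆ K ∧ Dep (↑F : Set I) (E a)) → 0 ≤ ε →
    (∀ a ∈ S, 1 - ε ≤ (law q).real (E a)) →
    (law q).real {ω | (∃ a ∈ S, ω ∈ G a) ∧ ∀ a ∈ S, ω ∈ G a → ω ∉ E a} ≤ ε

/-- JEN. Jensen's inequality for the concave function `x ↦ x ^ α`:
`ConcaveOn.le_map_integral` with `Real.concaveOn_rpow`. -/
def T_JEN : Prop := ∀ (Ω : Type) [MeasurableSpace Ω] (μ : Measure Ω) [IsProbabilityMeasure μ]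
  (f : Ω → ℝ) (α : ℝ), Measurable f → (∀ ω, 0 ≤ f ω ∧ f ω ≤ 1) → 0 < α → α ≤ 1 →
    ∫ ω, f ω ^ α ∂μ ≤ (∫ ω, f ω ∂μ) ^ α

/-- ORL. The union of independent layers. `Measure.eq_infinitePi` (with `law` unfolded, `orr` is
measurable since every coordinate depends on finitely many coordinates): for a finite set `s` of
sites and `t : sites → Set Bool` the probability of `{ω | ∀ x ∈ s, orr ω x ∈ t x}` is the product of
the probabilities of `{ω | orr ω x ∈ t x}` (induction on `s` with `T_IND`; the sets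
`{x} × layers` are disjoint). For one site: `orr ω x = false` iff `ω (x, l) = false` for all `l`,
which has probability `∏ l, (1 - dens (x, l)) = (1 - p0) (1 - δr) (1 - δ) ^ (2 * Nc d) = 1 - p` by
`T_PRV`; check the four subsets of `Bool`. -/
def T_ORL : Prop := ∀ (d : ℕ) (p0 δ δr p : ℝ), 0 ≤ p0 → p0 ≤ 1 → 0 ≤ δ → δ ≤ 1 → 0 ≤ δr →
  δr ≤ 1 → (1 - p0) * (1 - δr) * (1 - δ) ^ (2 * Nc d) = 1 - p →
    Measurable (orr : (Zd d × Ly d → Bool) → Zd d → Bool) ∧
    (law (dens d p0 δ δr)).map orr = law fun _ : Zd d => p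

/-- DEL. Choice of the densities. Put `r = (1 - p) / (1 - p0)`, `0 < r < 1`,
`δ = min p0 ((1 - r) / (2 * (N + 1)))`; Bernoulli's inequality gives
`(1 - δ) ^ N ≥ 1 - N δ ≥ (1 + r) / 2 > r`; put `δr = 1 - r / (1 - δ) ^ N` and
`α = log (1 - δ) / log (1 - p0)`, which is in `(0, 1]` because `0 < δ ≤ p0 < 1`. -/
def T_DEL : Prop := ∀ (N : ℕ) (p0 p : ℝ), 0 < p0 → p0 < p → p < 1 →
  ∃ δ δr α : ℝ, 0 < δ ∧ δ < 1 ∧ 0 < δr ∧ δr < 1 ∧ 0 < α ∧ α ≤ 1 ∧ (1 - p0) ^ α = 1 - δ ∧
    (1 - p0) * (1 - δr) * (1 - δ) ^ N = 1 - p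

/-- MSI. Measurability. `y ∈ Rc Adj D S` iff there are `u ∈ S` and `n` with `Lk Adj D n u y`
(`Rc.lk`, `Lk.rc`); `{ω | Lk Adj (D₀ ∩ Op ω) n u y}` is measurable by induction on `n` (countable
unions). An infinite cluster: for every `n` there is `y ∉ Bx 0 n` in the cluster (the sets `Bx 0 n`
are finite and exhaust the lattice). -/
def T_MSI : Prop := ∀ (d : ℕ),
  (∀ (D₀ S : Set (Zd d)) (y : Zd d),
    MeasurableSet {ω : Zd d → Bool | y ∈ Rc Adj (D₀ ∩ Op ω) S}) ∧
  (∀ x : Zd d, MeasurableSet {ω : Zd d → Bool | InfC ω x})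

/-! ## B. Static percolation -/

/-- RCF. A vertex reached in a finite set `F` is reached in at most `F.card` steps. Let
`N j = {v ∈ F | Lk adj F j u v for some u ∈ S}` (a subset of `F`, increasing in `j`). If
`N (j+1) = N j` then `N i = N j` for all `i ≥ j` (a vertex of `N (i+1) \ N i` with `i` minimal has
its predecessor in `S` or in `N i = N j`, so it is in `N (j+1)`). Hence
`min j |N ∞| ≤ |N j|`, and `N F.card` is the union of all `N i`. -/
def T_RCF : Prop := ∀ (V : Type) (adj : V → V → Prop) (F : Finset V) (S : Set V) (v : V),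
  v ∈ Rc adj ↑F S → ∃ u ∈ S, Lk adj ↑F F.card u v

/-- UNE. The cluster of `y` contains a vertex outside the finite set `Bx 0 n`. On a path from `y` to
it let `w'` be the first vertex outside `Bx 0 n` and `w` its predecessor: `w` is reached from `y`
inside `Bx 0 n`, and `|w i| = n` for the coordinate `i` in which `w` and `w'` differ. (Use
`Rc.sub_of_closed`: if no vertex of `Us` existed then the set
`Rc Adj (Bx 0 n ∩ Op ω) {y}` would be closed under steps to open sites, so the cluster would be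
finite.) -/
def T_UNE : Prop := ∀ (d : ℕ) (S : Finset (Zd d)) (n : ℕ) (ω : Zd d → Bool) (y : Zd d),
  S ⊆ Bx 0 n → y ∈ S → InfC ω y → (Us S n (Op ω)).Nonempty

/-- UCL. If no open site outside `Bx 0 n` is adjacent to `Us S n D`, nothing is reached on larger
spheres: the set `Rc Adj (Bx 0 n ∩ D) S` (a subset of `Bx 0 n`) is closed under steps to
vertices of `D` (a step from `Bx 0 n` to its complement starts at a point with a coordinate of
absolute value `n`), so it contains `Rc Adj (Bx 0 j ∩ D) S` by `Rc.sub_of_closed`, and a point of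
`Us S j D` with `j > n` is not in `Bx 0 n`. -/
def T_UCL : Prop := ∀ (d : ℕ) (S : Finset (Zd d)) (n : ℕ) (D : Set (Zd d)), S ⊆ Bx 0 n →
  (∀ x ∈ Us S n D, ∀ y, Adj x y → y ∉ Bx (0 : Zd d) n → y ∉ D) → ∀ j, n < j → Us S j D = ∅

/-- USM. The number of points reached on the sphere of radius `n` is not in `[1, k)`, with
probability tending to one. Let `S ⊆ Bx 0 n₀`, `A n = {1 ≤ |Us S n| < k}` (depends on `Bx 0 n`),
`B n` the event that `A n` happens and all the neighbours outside `Bx 0 n` of the points of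
`Us S n` are closed (at most `2 d k` sites). `P(B n) ≥ (1 - p) ^ (2 * d * k) P(A n)` by `T_CON` and
`T_PRV`. For `n ≥ n₀` the events `B n` are disjoint by `T_UCL`, so `∑ P(B n) ≤ 1`, hence
`P(B n) → 0` and `P(A n) → 0`. -/
def T_USM : Prop := ∀ (d : ℕ) (p : ℝ) (S : Finset (Zd d)) (k : ℕ), 0 ≤ p → p < 1 →
  Tendsto (fun n : ℕ => (law fun _ : Zd d => p).real
    {ω | 1 ≤ (Us S n (Op ω)).card ∧ (Us S n (Op ω)).card < k}) atTop (𝓝 0)

/-- RMV. Changing finitely many sites does not destroy all the infinite clusters. Let `C` be the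
infinite cluster of `y` in `ω`. For `v ∈ C \ F` take a path from `y` to `v` and its part after the
last visit of `F`: `v ∈ Rc Adj (Op ω \ F) {w}` with `w ∉ F` open, where `w = y` or `w` is adjacent
to a site of `F`. So `C ⊆ F ∪ ⋃_w Rc Adj (Op ω \ F) {w}` with finitely many `w`; one of these sets
is infinite, and `Op ω \ F ⊆ Op ω'`. (With `Rc.sub_of_closed`: the set on the right is closed
under steps to open sites.) -/
def T_RMV : Prop := ∀ (d : ℕ) (F : Finset (Zd d)) (ω ω' : Zd d → Bool),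
  (∀ x, x ∉ F → ω x = ω' x) → (∃ y, InfC ω y) → ∃ y, InfC ω' y

/-- ONE. Large balls are joined to every larger sphere. The event `{∃ y, InfC ω y}` is measurable
(`T_MSI`), contains `{InfC ω 0}`, and does not depend on any finite set of sites (`T_RMV`), so its
probability is one (`T_ZOL`). It is the increasing union over `m` of
`A m = {∃ y ∈ Bx 0 m, InfC ω y}`, so `P(A m) ≥ 1 - η` for some `m`; `T_UNE` with `S = Bx 0 m`. -/
def T_ONE : Prop := ∀ (d : ℕ) (p : ℝ), 0 ≤ p → p ≤ 1 → 0 < theta d p → ∀ η : ℝ, 0 < η →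
  ∃ m : ℕ, ∀ n : ℕ, m ≤ n →
    (law fun _ : Zd d => p).real {ω | Us (Bx 0 m) n (Op ω) = ∅} ≤ η

/-- SGP. Symmetries of the lattice: `(g x) i = s i * x (π i)` with `π = Equiv.swap e.1 e'.1` and
signs `s e'.1 = sg e.2 * sg e'.2`, `s i = sg (σ (π i)) * sg (σ' i)` for `i ≠ e'.1`. -/
def T_SGP : Prop := ∀ (d : ℕ) (e e' : Dir d) (σ σ' : Fin d → Bool), ∃ g : Zd d ≃ Zd d,
  (∀ x y, Adj (g x) (g y) ↔ Adj x y) ∧ (∀ n x, g x ∈ Bx (0 : Zd d) n ↔ x ∈ Bx (0 : Zd d) n) ∧
  (∀ (n : ℕ) (x : Zd d), (∃ i, |g x i| = n) ↔ ∃ i, |x i| = n) ∧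
  ∀ n x, g x ∈ Qd n e' σ' ↔ x ∈ Qd n e σ

/-- SYU. All quadrants are alike: with `g` from `T_SGP` the law is invariant under
`ω ↦ fun y => ω (g y)` (`TRP.T_PERM`, proved as `TRP.p_PERM`), and
`x ∈ Us (Bx 0 m) n (Op (ω ∘ g)) ∩ Qd n e σ` iff `g x ∈ Us (Bx 0 m) n (Op ω) ∩ Qd n e' σ'`. -/
def T_SYU : Prop := ∀ (d : ℕ) (p : ℝ) (m n k : ℕ) (e e' : Dir d) (σ σ' : Fin d → Bool),
  0 ≤ p → p ≤ 1 →
    (law fun _ : Zd d => p).real {ω | (Us (Bx 0 m) n (Op ω) ∩ Qd n e σ).card < k} =
    (law fun _ : Zd d => p).real {ω | (Us (Bx 0 m) n (Op ω) ∩ Qd n e' σ').card < k}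

/-- SQR. Square root trick. The events `{|Us ∩ Qd n e σ| < k}` are decreasing, depend on `Bx 0 n`
and have the same probability (`T_SYU`); by `T_FKN` over the `2 d * 2 ^ d` pairs `(e, σ)` the left
side is at most the probability that all of them happen. Every point of `Us` is in some quadrant, so
then `|Us| ≤ 2 d * 2 ^ d * (k - 1)` (for `k = 0` the left side is zero). -/
def T_SQR : Prop := ∀ (d : ℕ) (p : ℝ) (m n k : ℕ) (e : Dir d) (σ : Fin d → Bool),
  0 ≤ p → p ≤ 1 →
    (law fun _ : Zd d => p).real {ω | (Us (Bx 0 m) n (Op ω) ∩ Qd n e σ).card < k} ^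
      (2 * d * 2 ^ d) ≤
    (law fun _ : Zd d => p).real {ω | (Us (Bx 0 m) n (Op ω)).card < 2 * d * 2 ^ d * k}

/-- PAD. Many points have a point with an open pad. Two points of `V` which are different and
congruent modulo `2 m + 1` in all coordinates have disjoint pads. One of the `(2 m + 1) ^ d`
residue classes contains a subset `V'` of `V` with `k` elements (pigeonhole). The events
`{the pad of x is open}`, `x ∈ V'`, depend on disjoint sets and have probability
`δ ^ ((2 m + 1) ^ d)` (`T_PRV`, `Bx_card`); induction on `V'` with `T_IND`. -/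
def T_PAD : Prop := ∀ (d : ℕ) (Λ : Type) (q : Zd d × Λ → ℝ) (a : Λ) (δ : ℝ),
  (∀ x, 0 ≤ q x ∧ q x ≤ 1) → (∀ x : Zd d, q (x, a) = δ) →
  ∀ (m : ℕ) (e : Dir d) (k : ℕ) (V : Finset (Zd d)), k * (2 * m + 1) ^ d ≤ V.card →
    (law q).real {ω | ∀ x ∈ V, ¬ ∀ y ∈ pd m e x, ω (y, a) = true} ≤
      (1 - δ ^ ((2 * m + 1) ^ d)) ^ k

/-- GMT. The Grimmett-Marstrand estimate. Let `N = 2 d * 2 ^ d` and take `η₁ > 0` with
`(2 η₁) ^ (1/N) ≤ η / 2`; `m` from `T_ONE` for `η₁`. Given `δ`, take `k'` with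
`(1 - δ ^ ((2 m + 1) ^ d)) ^ k' ≤ η / 2`, `k = k' (2 m + 1) ^ d`, and `n₀ ≥ m` such that
`P(1 ≤ |Us| < N k) ≤ η₁` for `n ≥ n₀` (`T_USM`, `S = Bx 0 m`). Then
`P(|Us| < N k) ≤ 2 η₁` and `P(|Us ∩ Qd n e σ| < k) ≤ η / 2` by `T_SQR`. These probabilities are
those of the layer `false` (`T_PRJ` with `x ↦ (x, false)`). Given the layer `false` with
`V = Us ∩ Qd n e σ`, `|V| ≥ k`, no point of `V` has an open pad in the layer `true` with
probability at most `η / 2` by `T_PAD` (`T_CON` with `J` the layer `false`). -/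
def T_GMT : Prop := ∀ (d : ℕ) (p0 : ℝ), 1 ≤ d → 0 < p0 → p0 < 1 → 0 < theta d p0 →
  ∀ η : ℝ, 0 < η → ∃ m : ℕ, ∀ δ : ℝ, 0 < δ → δ ≤ 1 → ∃ n₀ : ℕ, ∀ n : ℕ, n₀ ≤ n →
    GMh d p0 δ η m n

/-- the boundary points of `R` in `B(z,n)` from which a point `x` with `x - z` in the quadrant and
with an open pad in the layer `c` is reached in the layer `a`, inside `B(z,n)`, outside `R` and its
boundary -/
def vfr {d : ℕ} {Λ : Type} (m n : ℕ) (e : Dir d) (σ : Fin d → Bool) (R : Finset (Zd d)) (z : Zd d)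
    (a c : Λ) (ω : Zd d × Λ → Bool) : Finset (Zd d) :=
  (bdy R ∩ Bx z n).filter fun f => ∃ x, x - z ∈ Qd n e σ ∧ (∀ y ∈ pd m e x, ω (y, c) = true) ∧
    x ∈ Rc Adj {y | y ∈ Bx z n ∧ y ∉ R ∧ y ∉ bdy R ∧ ω (y, a) = true} {f}

/-- STD. The deterministic part of the step. First part: a point `x` of `gro \ R` is reached from a
point `f` of `frt` (open in the layer `b`), so `f ∈ vfr`; conversely a point `f ∈ vfr` which is open
in the layer `b` is in `frt` and its `x` is in `gro` (`x ∈ Bx z n`). Second part: suppose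
`x - z ∈ Qd`, the pad beyond `x` is open and `x` is reached from `Bx z m ⊆ R` inside
`Bx z n ∩ {open in a}`. Show by `Rc.sub_of_closed` that everything reached from `Bx z m` there is in
`R` or in `Rc Adj {y | y ∈ Bx z n ∧ y ∉ R ∧ y ∉ bdy R ∧ ω (y, a) = true} {f}` for some
`f ∈ bdy R ∩ Bx z n` with `ω (f, a) = true` (a step from `R` leads to `R` or to `bdy R`; a step from
the second set leads to `R`, to `bdy R` or stays in it). `x ∈ R` is excluded by the hypothesis, and in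
the second case `f ∈ vfr` is open in `a`. Contradiction. -/
def T_STD : Prop := ∀ (d : ℕ) (Λ : Type) (a b c : Λ) (m n : ℕ) (e : Dir d) (σ : Fin d → Bool)
  (R : Finset (Zd d)) (z : Zd d) (ω : Zd d × Λ → Bool), Bx z m ⊆ R →
    ((¬ ∃ x ∈ gro R z n a b ω, x - z ∈ Qd n e σ ∧ ∀ y ∈ pd m e x, ω (y, c) = true) ↔
      (¬ ∃ x ∈ R, x - z ∈ Qd n e σ ∧ ∀ y ∈ pd m e x, ω (y, c) = true) ∧
        ∀ f ∈ vfr m n e σ R z a c ω, ω (f, b) = false) ∧
    ((¬ ∃ x ∈ R, x - z ∈ Qd n e σ ∧ ∀ y ∈ pd m e x, ω (y, c) = true) →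
      (∀ f ∈ vfr m n e σ R z a c ω, ω (f, a) = false) →
      ¬ ∃ x, x - z ∈ Qd n e σ ∧ (∀ y ∈ pd m e x, ω (y, c) = true) ∧
        x ∈ Rc Adj (↑(Bx z n) ∩ {y | ω (y, a) = true}) ↑(Bx z m))

/-- STP. One step of the exploration fails with probability at most `η ^ α`. Let `A₀` be the event
that no `x ∈ R` with `x - z ∈ Qd` has an open pad (it depends on finitely many sites of the layer
`c`) and `v(ω) = |vfr|` (`vfr` depends on the layer `c` and on the sites of the layer `a` in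
`Bx z n` outside `R ∪ bdy R`). By `T_STD` (first part) and `T_EXC` (the random set is the image of
`vfr` in the layer `b`) the probability on the left is `E[1_{A₀} (1 - δ) ^ v]`, which is
`E[(1_{A₀} (1 - p0) ^ v) ^ α] ≤ (E[1_{A₀} (1 - p0) ^ v]) ^ α` by `T_JEN`
(`(1 - δ) ^ v = ((1 - p0) ^ v) ^ α`, `1 ^ α = 1`, `0 ^ α = 0`). By `T_EXC` for the image of `vfr` in
the layer `a` (`vfr ⊆ bdy R`) the last expectation is
`P(A₀, all the sites of vfr are closed in the layer a)`, which by `T_STD` (second part) is at most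
the probability that no `x` with `x - z ∈ Qd` and open pad in the layer `c` is reached from `Bx z m`
in `Bx z n ∩ {open in a}`; this is the probability in `GMh`, by `T_PRJ` with the injective map
`(y, false) ↦ (y + z, a)`, `(y, true) ↦ (y + z, c)`, so it is at most `η`. -/
def T_STP : Prop := ∀ (d : ℕ) (Λ : Type) (D : Λ → ℝ) (a b c : Λ) (m n : ℕ) (p0 δ η α : ℝ)
  (e : Dir d) (σ : Fin d → Bool) (R : Finset (Zd d)) (z : Zd d),
  (∀ l, 0 ≤ D l ∧ D l ≤ 1) → a ≠ b → a ≠ c → b ≠ c → D a = p0 → D b = δ → D c = δ →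
  0 < p0 → p0 < 1 → 0 < δ → δ < 1 → 0 < α → α ≤ 1 → (1 - p0) ^ α = 1 - δ →
  GMh d p0 δ η m n → Bx z m ⊆ R →
    (law fun x : Zd d × Λ => D x.2).real
      {ω | ¬ ∃ x ∈ gro R z n a b ω, x - z ∈ Qd n e σ ∧ ∀ y ∈ pd m e x, ω (y, c) = true} ≤ η ^ α

end

end Pool.Agent.PRC
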