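import Pool.Agent.PRC.T1

/-!
# PRC: targets C (exploration)

Every target is a `Prop` with a complete proof in its docstring; every other target may be taken as
a hypothesis. `Pool/Agent/PRC/Base.lean` has simple proved facts.
-/

set_option autoImplicit false

open MeasureTheory Filter Topology
open scoped Classical

namespace Pool.Agent.PRC

open TRP (bern law)

noncomputable section

/-! ## C1. General explorations -/

/-- hypotheses on an exploration: `J s` are the coordinates revealed when the state is `s`; the next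
state depends on finitely many coordinates; it depends only on the coordinates which are revealed
by the step -/
structure Expl {S T I : Type} (F : T → S → (I → Bool) → S) (J : S → Set I)
    (P : List T → S → Prop) : Prop where
  inv : ∀ τ l s ω, P (τ :: l) s → P l (F τ s ω)
  mon : ∀ τ l s ω, P (τ :: l) s → J s ⊆ J (F τ s ω)
  fin : ∀ τ l s, P (τ :: l) s → ∃ K : Finset I, ∀ ω ω' : I → Bool,
    (∀ i ∈ K, ω i = ω' i) → F τ s ω = F τ s ω'
  stop : ∀ τ l s, ∀ ω ω' : I → Bool, P (τ :: l) s →
    (∀ i ∈ J (F τ s ω), i ∉ J s → ω i = ω' i) → F τ s ω' = F τ s ω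

/-- RUN. The final state depends only on the coordinates outside `J s`. Induction on `l`: if `ω` and
`ω'` agree outside `J s` then `F τ s ω' = F τ s ω =: s'` by `stop`, and they agree outside
`J s' ⊇ J s`. -/
def T_RUN : Prop := ∀ (S T I : Type) (F : T → S → (I → Bool) → S) (J : S → Set I)
  (P : List T → S → Prop), Expl F J P → ∀ l s, P l s → ∀ ω ω' : I → Bool,
    (∀ i, i ∉ J s → ω i = ω' i) → run F l s ω = run F l s ω'

/-- RFN. The final state depends on finitely many coordinates. Induction on `l`: `F τ s ω` takes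
finitely many values `s'` (it depends on the restriction of `ω` to the finite set `K`); take the
union of `K` and of the sets for `l`, `s'`. -/
def T_RFN : Prop := ∀ (S T I : Type) (F : T → S → (I → Bool) → S) (J : S → Set I)
  (P : List T → S → Prop), Expl F J P → ∀ l s, P l s → ∃ K : Finset I, ∀ ω ω' : I → Bool,
    (∀ i ∈ K, ω i = ω' i) → run F l s ω = run F l s ω'

/-- MAR. A function of the state which does not decrease in expectation. Induction on `l`. For
`τ :: l` and `s`: `F τ s ω` takes finitely many values `s'`; the event `{F τ s ω = s'}` depends on the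
coordinates in `J s' \ J s` (`stop`) and on a finite set, so on the finite intersection (if it is not
empty: an event which depends on `A` and on `B`, `B` finite, depends on `A ∩ B`; or use
measurability and `T_INF`), and `ω ↦ Φ [] (run F l s' ω)` depends on the coordinates outside `J s'`
(`T_RUN`) and is measurable (`T_RFN`, `meas_of_fin`). So by `T_INF` the integral of
`Φ [] (run F (τ :: l) s ω)` over this event is `P(F τ s ω = s') ∫ Φ [] (run F l s' ω)`, which is at
least `P(F τ s ω = s') Φ l s'`; the sum over `s'` is `∫ Φ l (F τ s ω) ≥ Φ (τ :: l) s`. -/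
def T_MAR : Prop := ∀ (S T I : Type) (q : I → ℝ) (F : T → S → (I → Bool) → S) (J : S → Set I)
  (P : List T → S → Prop) (Φ : List T → S → ℝ), (∀ i, 0 ≤ q i ∧ q i ≤ 1) → Expl F J P →
    (∀ l s, 0 ≤ Φ l s ∧ Φ l s ≤ 1) →
    (∀ τ l s, P (τ :: l) s → Φ (τ :: l) s ≤ ∫ ω, Φ l (F τ s ω) ∂(law q)) →
    ∀ l s, P l s → Φ l s ≤ ∫ ω, Φ [] (run F l s ω) ∂(law q)

/-! ## C2. The exploration of blocks -/

/-- REG. Geometry of one step (`z = s.cen u`, `N = NN m n = n + m + 1`, `z ∈ Bx (bc u) N`): the ball
`Bx z n` is in the region `rg u = Bx (bc u) (3 N)`, also `Bx z (n + 1)`; if `x - z ∈ Qd` with the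
steering `ste z (bc u)` then the pad is in the region and its centre `pc m e x` is within `N` of
`bc (u + dv e)`: in the coordinate `e.1` the centre moves by exactly `sg e.2 * N`, as `bc` does; in
the other coordinates the offset `o` with `|o| ≤ N` moves by `t ∈ [0, n]` towards zero:
`z l < bc u l` gives the new offset `o + t ∈ [-N, n - 1]`, otherwise `o - t ∈ [-n, N]`. -/
def T_REG : Prop := ∀ (d m n : ℕ) (u z : Zd d) (e : Dir d), z ∈ Bx (bc m n u) (NN m n) →
  Bx z (n + 1) ⊆ rg m n u ∧
  ∀ x, x - z ∈ Qd n e (ste z (bc m n u)) → pd m e x ⊆ rg m n u ∧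
    pc m e x ∈ Bx (bc m n (u + dv e)) (NN m n)

/-- FRS. Freshness. If the current link `τ` is active (`τ.2.1 + dv τ.2.2 ∉ s.E`), the region of a
tried link of the same class is disjoint from the region of `τ`. If the blocks are equal then the
links are equal (the direction is part of the class), but `τ'.2.1 + dv τ'.2.2 ∈ s.E`. Otherwise some
coordinates of the blocks differ by at least `7` (they are congruent modulo `7`), so the reference
points differ by at least `7 N` and a common point of the regions would give at most `6 N`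
(`N = NN m n ≥ 1`). Second part: a tried link of the same round has the same class
(`cls = cf round`); for a tried link whose region meets the region of `τ` the round is therefore
smaller (it is not larger by `Inv.trd`). -/
def T_FRS : Prop := ∀ (d m n r0 T : ℕ) (cf : ℕ → Cl d) (BB : Finset (Zd d)) (τ : Ln d)
  (l : List (Ln d)) (s : St d), Inv m n r0 cf BB T (τ :: l) s → τ.2.1 + dv τ.2.2 ∉ s.E →
    ∀ τ' ∈ s.trd,
      (cls τ'.2.1 τ'.2.2 = cls τ.2.1 τ.2.2 → Disjoint (rg m n τ'.2.1) (rg m n τ.2.1)) ∧
      (¬ Disjoint (rg m n τ'.2.1) (rg m n τ.2.1) → τ'.1 < τ.1)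

/-- IVC. The invariant `cen` is preserved. If the step does nothing or finds no point, then `C` and
`cen` are as before and `R` does not become smaller. If a point `x` is found, the new block
`u + dv e` was not examined, so it is not in `C` (`Inv.sub`) and the update of `cen` does not change
the centres of the blocks of `C`; its centre is `pc m e x`, its ball of radius `m` is the pad;
`T_REG`. -/
def T_IVC : Prop := ∀ (d m n r0 T : ℕ) (cf : ℕ → Cl d) (BB : Finset (Zd d)) (τ : Ln d)
  (l : List (Ln d)) (s : St d) (ω : Zd d × Ly d → Bool), Inv m n r0 cf BB T (τ :: l) s →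
    ∀ u ∈ (FF m n τ s ω).C, Bx ((FF m n τ s ω).cen u) m ⊆ (FF m n τ s ω).R ∧
      (FF m n τ s ω).cen u ∈ Bx (bc m n u) (NN m n)

/-- IVT. The invariants `root`, `sub`, `sch`, `trd` are preserved: immediate (the new tried link is
`τ`, its round is at most the rounds of `l` because the schedule is sorted; `E` grows). -/
def T_IVT : Prop := ∀ (d m n r0 T : ℕ) (cf : ℕ → Cl d) (BB : Finset (Zd d)) (τ : Ln d)
  (l : List (Ln d)) (s : St d) (ω : Zd d × Ly d → Bool), Inv m n r0 cf BB T (τ :: l) s →
    Bx 0 r0 ⊆ (FF m n τ s ω).R ∧ (FF m n τ s ω).C ⊆ (FF m n τ s ω).E ∧ Sch cf BB T l ∧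
    ∀ τ' ∈ (FF m n τ s ω).trd, τ'.2.1 + dv τ'.2.2 ∈ (FF m n τ s ω).E ∧
      cls τ'.2.1 τ'.2.2 = cf τ'.1 ∧ τ'.2.1 ∈ BB ∧ τ'.1 < T ∧ ∀ τ'' ∈ l, τ'.1 ≤ τ''.1

/-- IVL. The invariant `len` is preserved. Points of the old set: `Lk` is monotone in the set and
`trd` grows. Let the step be active, `u = τ.2.1`, `z = s.cen u`, `t = τ.1`, `κ = kap d m n r0`. (a) A
point `y ∈ s.R` of the region `rg u` satisfies `Lk Adj s.R (κ * (t + 1)) 0 y`: in the first case of
`len` because `κ ≤ κ (t + 1)`; in the second case the link `τ'` of `len` has a region which contains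
`y`, so `τ'.1 < t` by `T_FRS` and `κ (τ'.1 + 2) ≤ κ (t + 1)`. (b) A point `x` of `grs \ s.R` is reached
in the set `{y ∈ Bx z n | ...}` from a point `f` of `frt`, in at most `(2 n + 1) ^ d` steps (`T_RCF`
with a subset `F` of `Bx z n`, `Bx_card`); `f ∈ Bx z n` is adjacent to a point `y` of `s.R`, which
is in `Bx z (n + 1) ⊆ rg u` (`T_REG`); all the points of the path are in `grs`. So
`Lk Adj R' (κ (t + 1) + 1 + (2 n + 1) ^ d) 0 x`, `x ∈ Bx z n ⊆ rg u`. (c) A point of the pad beyond
`x` (`x ∈ grs`, and `x ∈ rg u` since `x ∈ Bx z n`, so (a) or (b) applies to `x`): `x + dv e` is in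
the pad, and any two points of a ball `B` of radius `m` are joined in `B` by
`(2 m + 1) ^ d` steps (coordinate by coordinate it is reached at all, then `T_RCF`). The total is at
most `κ (t + 1) + κ = κ (t + 2)`. -/
def T_IVL : Prop := ∀ (d m n r0 T : ℕ) (cf : ℕ → Cl d) (BB : Finset (Zd d)) (τ : Ln d)
  (l : List (Ln d)) (s : St d) (ω : Zd d × Ly d → Bool), Inv m n r0 cf BB T (τ :: l) s →
    ∀ x ∈ (FF m n τ s ω).R,
      (x ∈ Bx 0 r0 ∧ Lk Adj ↑(FF m n τ s ω).R (kap d m n r0) 0 x) ∨
      ∃ τ' ∈ (FF m n τ s ω).trd, x ∈ rg m n τ'.2.1 ∧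
        Lk Adj ↑(FF m n τ s ω).R (kap d m n r0 * (τ'.1 + 2)) 0 x

/-- IV0. The start satisfies the invariant: `C = {0}`, `cen 0 = 0 = bc 0`, `m ≤ r0`; a point of
`Bx 0 r0` is reached from the origin in `Bx 0 r0` in at most `d * r0` steps (coordinate by
coordinate), and `d * r0 ≤ kap d m n r0`. -/
def T_IV0 : Prop := ∀ (d m n r0 T : ℕ) (cf : ℕ → Cl d) (BB : Finset (Zd d)) (l : List (Ln d)),
  m ≤ r0 → Sch cf BB T l → Inv m n r0 cf BB T l (s0 r0)

/-- JMO. The revealed coordinates increase: `R` and `trd` increase, and `R ∪ bdy R` increases with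
`R`. -/
def T_JMO : Prop := ∀ (d m n : ℕ) (τ : Ln d) (s : St d) (ω : Zd d × Ly d → Bool),
  JJ m n s ⊆ JJ m n (FF m n τ s ω)

/-- FNF. The next state depends on finitely many coordinates: those `(x, l)` with `x` in the finite
set `Bx (s.cen u) (n + 2 * m + 2)` (`u = τ.2.1`) and any layer. -/
def T_FNF : Prop := ∀ (d m n : ℕ) (τ : Ln d) (s : St d), ∃ K : Finset (Zd d × Ly d),
  ∀ ω ω' : Zd d × Ly d → Bool, (∀ i ∈ K, ω i = ω' i) → FF m n τ s ω = FF m n τ s ω'

/-- STO. The step is determined by the coordinates which it reveals. If the step is not active this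
is trivial. Otherwise let `u = τ.2.1`, `e = τ.2.2`, `z = s.cen u`, `c = cls u e`,
`s' = FF m n τ s ω`; `τ ∈ s'.trd`. (a) The coordinates `(x, ls c)`, `(x, lp c)` with `x ∈ rg u` are
in `JJ s'`, and they are not in `JJ s` by `T_FRS` (different classes have different layers). So `ω` and
`ω'` agree there; by `T_REG` this includes `Bx z n` and the pads beyond the `x` with
`x - z ∈ Qd`. Hence `frt` is the same for `ω` and `ω'`. (b) Let `G = grs n s u e ω ⊆ s'.R`. For
`y ∈ G ∪ bdy G`, `y ∉ s.R ∪ bdy s.R`: `(y, none) ∈ JJ s'` (`y ∈ s'.R ∪ bdy s'.R`) and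
`(y, none) ∉ JJ s`, so `ω (y, none) = ω' (y, none)`. Then the two clusters of `frt` agree: each of
them is contained in the other by `Rc.sub_of_closed` (a step of the cluster for `ω'` from a point of
`G` leads to a point `y ∈ G ∪ bdy G`, `y ∉ s.R ∪ bdy s.R`, so `y` is open for `ω` too and is in the
cluster for `ω`; conversely the points of the cluster for `ω` are in `G`). So
`grs n s u e ω' = G`. (c) The predicates `sgd m n s u e ω` and `sgd m n s u e ω'` are equal
(`funext`, `propext`), so `pick` gives the same result. -/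
def T_STO : Prop := ∀ (d m n r0 T : ℕ) (cf : ℕ → Cl d) (BB : Finset (Zd d)) (τ : Ln d)
  (l : List (Ln d)) (s : St d) (ω ω' : Zd d × Ly d → Bool), Inv m n r0 cf BB T (τ :: l) s →
    (∀ i ∈ JJ m n (FF m n τ s ω), i ∉ JJ m n s → ω i = ω' i) →
    FF m n τ s ω' = FF m n τ s ω

/-- EXL. `T_IVC`, `T_IVT`, `T_IVL`, `T_JMO`, `T_FNF`, `T_STO` together. -/
def T_EXL : Prop := ∀ (d m n r0 T : ℕ) (cf : ℕ → Cl d) (BB : Finset (Zd d)),
  Expl (FF m n) (JJ m n) (Inv m n r0 cf BB T)

/-- OPN. The explored sites are in the start set or open in a layer different from the root layer: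
one step adds sites which are open in the base layer, in a sprinkling layer or in a pad layer;
induction on `l`. -/
def T_OPN : Prop := ∀ (d m n : ℕ) (l : List (Ln d)) (s : St d) (ω : Zd d × Ly d → Bool),
  (↑(run (FF m n) l s ω).R : Set (Zd d)) ⊆ ↑s.R ∪ Opn ω

/-! ## C3. The comparison dynamics -/

/-- VLR. Recursion for `val`. First part: for an active link; let `v = τ.2.1 + dv τ.2.2`,
`E' = insert v E`. By induction on `l`, `dyn X l C E'` does not depend on `X v` when `v ∈ E'` (only
blocks outside `E'` are examined), and `dyn X l C E` depends on finitely many coordinates. So the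
event is the disjoint union of `{X v = true} ∩ {w ∈ dyn X l (insert v C) E'}` and
`{X v = false} ∩ {w ∈ dyn X l C E'}`; `T_IND`, `T_PRV`. Second part: by definition. -/
def T_VLR : Prop := ∀ (d : ℕ) (q : ℝ) (w : Zd d) (τ : Ln d) (l : List (Ln d))
  (C E : Finset (Zd d)), 0 ≤ q → q ≤ 1 →
    (τ.2.1 ∈ C ∧ τ.2.1 + dv τ.2.2 ∉ E →
      val q w (τ :: l) C E =
        q * val q w l (insert (τ.2.1 + dv τ.2.2) C) (insert (τ.2.1 + dv τ.2.2) E) +
        (1 - q) * val q w l C (insert (τ.2.1 + dv τ.2.2) E)) ∧
    (¬ (τ.2.1 ∈ C ∧ τ.2.1 + dv τ.2.2 ∉ E) → val q w (τ :: l) C E = val q w l C E)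

/-- VLM. Monotonicity. Pathwise, by induction on `l`: if `C ⊆ C'` and every `v ∈ E'` satisfies
`v ∈ E ∨ v ∈ C' ∨ X v = false`, then `dyn X l C E ⊆ dyn X l C' E'`. For the head `τ` with
`v = τ.2.1 + dv τ.2.2`: if both dynamics examine `v`, clear; if only the first one does, then
`v ∈ E'`, `v ∉ E`, so `v ∈ C'` or `X v = false`, and `insert v C ⊆ C'` in the first case, `C` stays
in the second case; if only the second one does, then `v` is added to `C'` if `X v = true`, so the
condition on `E'` remains true. Here `E' = E`. -/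
def T_VLM : Prop := ∀ (d : ℕ) (q : ℝ) (w : Zd d) (l : List (Ln d)) (C C' E : Finset (Zd d)),
  0 ≤ q → q ≤ 1 → C ⊆ C' → val q w l C E ≤ val q w l C' E

/-- SUB. The value does not decrease in expectation in a step. If the step is not active, both sides
agree (`T_VLR`). Otherwise let `v = τ.2.1 + dv τ.2.2`, `E' = insert v s.E`, `π` the probability that
`∃ x, sgd m n s τ.2.1 τ.2.2 ω x`. If it happens, `pick` is `some _` and the new `C`, `E` are
`insert v s.C`, `E'`; otherwise `s.C`, `E'`. So the integral is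
`π * val l (insert v s.C) E' + (1 - π) * val l s.C E'`. `1 - π ≤ η ^ α` by `T_STP` with
`D l = if l = none then p0 else if l = some none then δr else δ` (`a = none`, `b = ls c`,
`c = lp c`, `R = s.R`, `z = s.cen τ.2.1`; `Bx z m ⊆ s.R` by `Inv.cen`), and `T_VLM`. -/
def T_SUB : Prop := ∀ (d m n r0 T : ℕ) (p0 δ δr η α : ℝ) (cf : ℕ → Cl d) (BB : Finset (Zd d))
  (w : Zd d) (τ : Ln d) (l : List (Ln d)) (s : St d),
  0 < p0 → p0 < 1 → 0 < δ → δ < 1 → 0 ≤ δr → δr ≤ 1 → 0 < α → α ≤ 1 → (1 - p0) ^ α = 1 - δ →
  GMh d p0 δ η m n → η ^ α ≤ 1 → Inv m n r0 cf BB T (τ :: l) s →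
    val (1 - η ^ α) w (τ :: l) s.C s.E ≤
      ∫ ω, val (1 - η ^ α) w l (FF m n τ s ω).C (FF m n τ s ω).E ∂(law (dens d p0 δ δr))

/-- CFN. A periodic enumeration of the classes: `cf t` is the element of `Cl d` with the number
`t % Nc d` (`Fintype.equivFin`; `Nc d > 0` because `1 ≤ d`). -/
def T_CFN : Prop := ∀ d : ℕ, 1 ≤ d → ∃ cf : ℕ → Cl d, Cov cf

/-- SCH. The schedule is a schedule. -/
def T_SCH : Prop := ∀ (d T : ℕ) (cf : ℕ → Cl d) (BB : Finset (Zd d)),
  Sch cf BB T (sched cf BB T)

/-- BAL. With `k` periods the dynamics reaches every block at distance at most `k`. (a) For every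
list and every start with `C ⊆ E` (`C`, `E` the current sets): blocks of `C` stay in `C`, blocks of
`E` stay in `E`; if every `v ∈ E` with `X v = true` is in `C`, this remains true; if the list
contains `τ` with `τ.2.1` in the current `C` then afterwards `τ.2.1 + dv τ.2.2 ∈ E`. (The dynamics
has to be followed with the pair `(C, E)`; define the pair version and show that its first
component is `dyn`; `dyn` of a concatenation of lists is the composition.) (b) One period, i.e. the
rounds `t` with `j * Nc d ≤ t < (j + 1) * Nc d`, contains for every `u ∈ BB` and every `e` with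
`u + dv e ∈ BB` the link `(u, e)` (`Cov`). So by induction on `j`: if
`Lk Adj {v | X v = true ∧ v ∈ BB} j 0 w` then `w ∈ C` after `j` periods: for the last step of the
path `w' → w`, `w'` is in `C` and in `BB` after `j` periods, `w` is in `E` after `j + 1` periods,
and `X w = true`, so `w ∈ C`. The start `C = E = {0}` satisfies the condition on open blocks. -/
def T_BAL : Prop := ∀ (d k : ℕ) (cf : ℕ → Cl d) (BB : Finset (Zd d)) (X : Zd d → Bool)
  (w : Zd d), Cov cf → 0 ∈ BB → Lk Adj {v | X v = true ∧ v ∈ BB} k 0 w →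
    w ∈ dyn X (sched cf BB (k * Nc d)) {0} {0}

/-- EXP. The conclusion of the exploration. `T_MAR` for `law (dens d p0 δ δr)`, `FF`, `JJ`, `Inv`
(`T_EXL`), `Φ l s = val (1 - η ^ α) w l s.C s.E`, `l = sched cf BB T`, the start `s0 r0`
(`T_IV0`, `T_SCH`) and `T_SUB`: `val (sched) {0} {0}` is at most the probability of
`w ∈ (run ...).C` (`val [] C E = 1` if `w ∈ C`, `0` otherwise). The final state satisfies
`Inv [] ` (by induction from `Expl.inv`). If `w` is in its `C`, then `z = cen w` is in
`Bx (bc w) N` and in `R` (`Inv.cen`), by `Inv.len` there is a path to `z` in `R` with at most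
`kap * (T + 1)` steps (`τ.1 < T`), and every point of `R` is in `Bx 0 r0 ∪ Opn ω` (`T_OPN`) and in
`Bx 0 r0` or in a region of a block of `BB` (`Inv.len`, `Inv.trd`); a point in `R` is in the
set of the definition of `EE` (it is in `Bx 0 r0`, or in a region and in `Opn ω`). -/
def T_EXP : Prop := ∀ (d m n r0 T : ℕ) (p0 δ δr η α : ℝ) (cf : ℕ → Cl d) (BB : Finset (Zd d))
  (w : Zd d),
  0 < p0 → p0 < 1 → 0 < δ → δ < 1 → 0 ≤ δr → δr ≤ 1 → 0 < α → α ≤ 1 → (1 - p0) ^ α = 1 - δ →
  GMh d p0 δ η m n → 0 ≤ η → η ^ α ≤ 1 → m ≤ r0 →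
    (law fun _ : Zd d => 1 - η ^ α).real {X | w ∈ dyn X (sched cf BB T) {0} {0}} ≤
      (law (dens d p0 δ δr)).real (EE m n r0 BB (kap d m n r0 * (T + 1)) w 0)

end

end Pool.Agent.PRC
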